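import Pool.Agent.MP_ff4374_an.Profile

/-!
Module ABD: algebraic identities of the block with frozen parameter.
-/

set_option autoImplicit false
open scoped ContDiff Topology

namespace Pool.Agent.MP_ff4374_an

private lemma w0_cont_deriv : Continuous (deriv w0) :=
  w0_contDiff.continuous_deriv (by simp)

private lemma abd_deriv_zero_of_const {c : ℝ} {S : Set ℝ} (hS : IsOpen S)
    (h : ∀ s ∈ S, w0 s = c) {s : ℝ} (hs : s ∈ closure S) : deriv w0 s = 0 := by
  have h1 : ∀ t ∈ S, deriv w0 t = 0 := by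
    intro t ht
    have : w0 =ᶠ[𝓝 t] fun _ => c := by
      filter_upwards [hS.mem_nhds ht] with y hy using h y hy
    rw [this.deriv_eq]
    simp
  have hcl : IsClosed {t | deriv w0 t = 0} := isClosed_eq w0_cont_deriv continuous_const
  exact (closure_minimal (fun t ht => h1 t ht) hcl) hs

theorem deriv_w0_far {s : ℝ} (hs : 16 ≤ |s|) : deriv w0 s = 0 := by
  rcases le_or_gt 0 s with h | h
  · rw [abs_of_nonneg h] at hs
    refine abd_deriv_zero_of_const (c := 1) (S := Set.Ioi 16) isOpen_Ioi ?_ ?_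
    · intro t ht
      apply w0_one
      have : (16 : ℝ) < t := ht
      rw [abs_of_pos (by linarith)]
      exact this.le
    · rw [closure_Ioi]
      exact hs
  · rw [abs_of_neg h] at hs
    refine abd_deriv_zero_of_const (c := 1) (S := Set.Iio (-16)) isOpen_Iio ?_ ?_
    · intro t ht
      apply w0_one
      have : t < -16 := ht
      rw [abs_of_neg (by linarith)]
      linarith
    · rw [closure_Iio]
      show s ≤ -16
      linarith

theorem deriv_w0_hold {s : ℝ} (hs : |s| ≤ 1) : deriv w0 s = 0 := by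
  refine abd_deriv_zero_of_const (c := 0) (S := Set.Ioo (-1) 1) isOpen_Ioo ?_ ?_
  · intro t ht
    apply w0_zero
    rw [abs_le]
    exact ⟨ht.1.le, ht.2.le⟩
  · rw [closure_Ioo (by norm_num)]
    exact abs_le.mp hs

theorem wl_pos {s lam : ℝ} (h0 : 0 < lam) (h1 : lam ≤ 1) : 0 < wl s lam := by
  unfold wl
  have := w0_nonneg s
  have h2 : 0 ≤ (1 - lam) * w0 s := mul_nonneg (by linarith) this
  linarith

theorem NN_pos {s lam : ℝ} (h0 : 0 < lam) (h1 : lam ≤ 1) : 0 < NN s lam := by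
  have h2 : NN s lam = (1 - lam) * (2 * w0 s + s * deriv w0 s) + 2 * lam := by
    unfold NN wl wl'
    ring
  rw [h2]
  have := mul_nonneg (show (0:ℝ) ≤ 1 - lam by linarith) (w0_mono s)
  linarith

theorem BB_pos {s lam : ℝ} (h0 : 0 < lam) (h1 : lam ≤ 1) : 0 < BB s lam := by
  have h2 := wl_pos (s := s) h0 h1
  have h3 := NN_pos (s := s) h0 h1
  have h4 := Real.sqrt_pos.mpr h2
  unfold BB
  positivity

theorem QQ_one (x s c : ℝ) : QQ x s c 1 = x * c := by
  have h1 : wl s 1 = 1 := by simp [wl]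
  have h2 : wl' s 1 = 0 := by simp [wl']
  have h3 : NN s 1 = 2 := by simp [NN, h1, h2]
  have h4 : AA s 1 = 0 := by simp [AA, h2]
  have h5 : BB s 1 = 1 := by simp [BB, h1, h3]
  have h6 : DD s 1 = 0 := by
    simp [DD, h1, h3]
  simp [QQ, h4, h5, h6]

theorem QQ_far {x s c lam : ℝ} (hs : 16 ≤ |s|) (_h0 : 0 < lam) (_h1 : lam ≤ 1) :
    QQ x s c lam = x * c := by
  have h1 : wl s lam = 1 := by simp [wl, w0_one hs]
  have h2 : wl' s lam = 0 := by simp [wl', deriv_w0_far hs]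
  have h3 : NN s lam = 2 := by simp [NN, h1, h2]
  have h4 : AA s lam = 0 := by simp [AA, h2]
  have h5 : BB s lam = 1 := by simp [BB, h1, h3]
  have h6 : DD s lam = 0 := by
    simp only [DD, h1, h3, W0_far hs]
    ring
  simp [QQ, h4, h5, h6]

theorem QQ_hold {x s c lam : ℝ} (hs : |s| ≤ 1) (h0 : 0 < lam) (_h1 : lam ≤ 1) :
    QQ x s c lam = Real.sqrt lam * x * c := by
  have h1 : wl s lam = lam := by simp [wl, w0_zero hs]
  have h2 : wl' s lam = 0 := by simp [wl', deriv_w0_hold hs]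
  have h3 : NN s lam = 2 * lam := by simp [NN, h1, h2]
  have h4 : AA s lam = 0 := by simp [AA, h2]
  have h5 : BB s lam = Real.sqrt lam := by
    simp only [BB, h1, h3]
    field_simp
  have h6 : DD s lam = 0 := by
    simp only [DD, h1, h3, W0_zero hs]
    field_simp
    ring
  simp [QQ, h4, h5, h6]

private lemma abd_wl_contDiff : ContDiff ℝ ∞ (fun z : ℝ × ℝ => wl z.1 z.2) := by
  unfold wl
  exact ((contDiff_const.sub contDiff_snd).mul (w0_contDiff.comp contDiff_fst)).add contDiff_snd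

private lemma abd_dw0_contDiff : ContDiff ℝ ∞ (deriv w0) :=
  (contDiff_infty_iff_deriv.mp w0_contDiff).2

private lemma abd_wl'_contDiff : ContDiff ℝ ∞ (fun z : ℝ × ℝ => wl' z.1 z.2) := by
  unfold wl'
  exact (contDiff_const.sub contDiff_snd).mul (abd_dw0_contDiff.comp contDiff_fst)

private lemma abd_NN_contDiff : ContDiff ℝ ∞ (fun z : ℝ × ℝ => NN z.1 z.2) := by
  unfold NN
  exact (contDiff_const.mul abd_wl_contDiff).add (contDiff_fst.mul abd_wl'_contDiff)

theorem AA_contDiffAt {s lam : ℝ} (h0 : 0 < lam) (h1 : lam ≤ 1) :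
    ContDiffAt ℝ ∞ (fun z : ℝ × ℝ => AA z.1 z.2) (s, lam) := by
  unfold AA
  exact abd_wl'_contDiff.contDiffAt.neg.div abd_NN_contDiff.contDiffAt (NN_pos h0 h1).ne'

theorem BB_contDiffAt {s lam : ℝ} (h0 : 0 < lam) (h1 : lam ≤ 1) :
    ContDiffAt ℝ ∞ (fun z : ℝ × ℝ => BB z.1 z.2) (s, lam) := by
  unfold BB
  refine ContDiffAt.div ?_ abd_NN_contDiff.contDiffAt (NN_pos h0 h1).ne'
  refine ContDiffAt.mul (contDiffAt_const.mul abd_wl_contDiff.contDiffAt) ?_
  exact abd_wl_contDiff.contDiffAt.sqrt (wl_pos h0 h1).ne'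

theorem DD_contDiffAt {s lam : ℝ} (h0 : 0 < lam) (h1 : lam ≤ 1) :
    ContDiffAt ℝ ∞ (fun z : ℝ × ℝ => DD z.1 z.2) (s, lam) := by
  unfold DD
  refine ContDiffAt.sub (ContDiffAt.div ?_ abd_NN_contDiff.contDiffAt (NN_pos h0 h1).ne') ?_
  · exact (contDiffAt_const.mul contDiffAt_fst).mul (abd_wl_contDiff.contDiffAt.pow 2)
  · exact ((contDiffAt_const.sub contDiffAt_snd).mul
      (W0_contDiff.contDiffAt.comp _ contDiffAt_fst)).add (contDiffAt_snd.mul contDiffAt_fst)

theorem QQ_contDiffAt {x s c lam : ℝ} (h0 : 0 < lam) (h1 : lam ≤ 1) :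
    ContDiffAt ℝ ∞ (fun m : ℝ × ℝ × ℝ × ℝ => QQ m.1 m.2.1 m.2.2.1 m.2.2.2) (x, s, c, lam) := by
  have hp : ContDiffAt ℝ ∞ (fun m : ℝ × ℝ × ℝ × ℝ => (m.2.1, m.2.2.2)) (x, s, c, lam) := by
    fun_prop
  have hx : ContDiffAt ℝ ∞ (fun m : ℝ × ℝ × ℝ × ℝ => m.1) (x, s, c, lam) := by fun_prop
  have hc : ContDiffAt ℝ ∞ (fun m : ℝ × ℝ × ℝ × ℝ => m.2.2.1) (x, s, c, lam) := by fun_prop
  have hA : ContDiffAt ℝ ∞ (fun m : ℝ × ℝ × ℝ × ℝ => AA m.2.1 m.2.2.2) (x, s, c, lam) :=
    ContDiffAt.comp (g := fun z : ℝ × ℝ => AA z.1 z.2) (x, s, c, lam) (AA_contDiffAt (s := s) h0 h1) hp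
  have hB : ContDiffAt ℝ ∞ (fun m : ℝ × ℝ × ℝ × ℝ => BB m.2.1 m.2.2.2) (x, s, c, lam) :=
    ContDiffAt.comp (g := fun z : ℝ × ℝ => BB z.1 z.2) (x, s, c, lam) (BB_contDiffAt (s := s) h0 h1) hp
  have hD : ContDiffAt ℝ ∞ (fun m : ℝ × ℝ × ℝ × ℝ => DD m.2.1 m.2.2.2) (x, s, c, lam) :=
    ContDiffAt.comp (g := fun z : ℝ × ℝ => DD z.1 z.2) (x, s, c, lam) (DD_contDiffAt (s := s) h0 h1) hp
  unfold QQ
  exact (((hA.mul (hx.pow 2)).div_const 2).add ((hB.mul hx).mul hc)).add
    ((hD.mul (hc.pow 2)).div_const 2)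

private lemma abd_wl_hasDerivAt (s lam : ℝ) :
    HasDerivAt (fun s' => wl s' lam) (wl' s lam) s := by
  have h1 : HasDerivAt w0 (deriv w0 s) s :=
    (w0_contDiff.differentiable (by simp) s).hasDerivAt
  unfold wl wl'
  exact (h1.const_mul (1 - lam)).add_const lam

private lemma abd_wl'_hasDerivAt (s lam : ℝ) :
    HasDerivAt (fun s' => wl' s' lam) ((1 - lam) * deriv (deriv w0) s) s := by
  have h1 : HasDerivAt (deriv w0) (deriv (deriv w0) s) s :=
    (abd_dw0_contDiff.differentiable (by simp) s).hasDerivAt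
  unfold wl'
  exact h1.const_mul (1 - lam)

private lemma abd_NN_hasDerivAt (s lam : ℝ) :
    HasDerivAt (fun s' => NN s' lam)
      (3 * wl' s lam + s * ((1 - lam) * deriv (deriv w0) s)) s := by
  unfold NN
  have h1 := ((abd_wl_hasDerivAt s lam).const_mul 2).add
    ((hasDerivAt_id s).mul (abd_wl'_hasDerivAt s lam))
  refine h1.congr_deriv ?_
  simp only [id]
  ring

theorem QQ_ds {x s c lam : ℝ} (h0 : 0 < lam) (h1 : lam ≤ 1) :
    HasDerivAt (fun s' => QQ x s' c lam)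
      (-(GG s lam / 2 * (x + s * (AA s lam * x + BB s lam * c)) ^ 2)) s := by
  have hw := wl_pos (s := s) h0 h1
  have hN := NN_pos (s := s) h0 h1
  have dw := abd_wl_hasDerivAt s lam
  have dw' := abd_wl'_hasDerivAt s lam
  have dN := abd_NN_hasDerivAt s lam
  have dW : HasDerivAt (fun s' => (1 - lam) * W0 s' + lam * s') (wl s lam) s := by
    have := ((W0_hasDerivAt s).const_mul (1 - lam)).add ((hasDerivAt_id s).const_mul lam)
    refine this.congr_deriv ?_
    simp only [wl]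
    ring
  have dS : HasDerivAt (fun s' => Real.sqrt (wl s' lam)) (wl' s lam / (2 * Real.sqrt (wl s lam))) s :=
    dw.sqrt hw.ne'
  have dA : HasDerivAt (fun s' => AA s' lam) _ s := (dw'.neg).div dN hN.ne'
  have dB : HasDerivAt (fun s' => BB s' lam) _ s := ((dw.const_mul 2).mul dS).div dN hN.ne'
  have dD : HasDerivAt (fun s' => DD s' lam) _ s :=
    ((((hasDerivAt_id s).const_mul 2).mul (dw.pow 2)).div dN hN.ne').sub dW
  have dQ : HasDerivAt (fun s' => QQ x s' c lam) _ s :=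
    ((((dA.mul_const (x ^ 2)).div_const 2).add ((dB.mul_const x).mul_const c))).add
      ((dD.mul_const (c ^ 2)).div_const 2)
  convert dQ using 1
  have hsq : Real.sqrt (wl s lam) ^ 2 = wl s lam := Real.sq_sqrt hw.le
  have hsp : 0 < Real.sqrt (wl s lam) := Real.sqrt_pos.mpr hw
  have hNe : NN s lam = 2 * wl s lam + s * wl' s lam := rfl
  simp only [GG, AA, BB, id, Pi.mul_apply, Pi.neg_apply, Pi.pow_apply, Nat.cast_ofNat,
    Nat.add_one_sub_one, pow_one]
  have hne : NN s lam ≠ 0 := hN.ne'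
  revert hne hNe hsp hsq
  generalize Real.sqrt (wl s lam) = u
  generalize wl s lam = w
  generalize wl' s lam = w1
  generalize (1 - lam) * deriv (deriv w0) s = w2
  generalize NN s lam = N
  intro hsq hsp hNe hne
  subst hsq
  have hu0 : u ≠ 0 := hsp.ne'
  field_simp
  subst hNe
  ring

end Pool.Agent.MP_ff4374_an
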