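import Pool.Agent.MP_ff4374_an.Defs

set_option autoImplicit false

namespace Pool.Agent.MP_ff4374_an

theorem om_sq : om ^ 2 = 2 := by
  unfold om
  exact Real.sq_sqrt (by norm_num)

theorem om_pos : 0 < om := by
  unfold om
  positivity

theorem om_lt : om < 3 / 2 := by
  have h := om_sq
  have h2 := om_pos
  nlinarith

theorem om_gt_one : 1 < om := by
  have h := om_sq
  have h2 := om_pos
  nlinarith

/-- `sqrt 2` is badly approximable -/
theorem om_dioph (n i : ℤ) (hn : n ≠ 0) : 1 / (4 * |(n : ℝ)|) ≤ |om * n - i| := by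
  have hn1 : (1 : ℝ) ≤ |(n : ℝ)| := by
    have : 1 ≤ |n| := Int.one_le_abs hn
    exact_mod_cast this
  have hne : (2 * n ^ 2 - i ^ 2 : ℤ) ≠ 0 := by
    intro h
    have h1 : (i : ℝ) ^ 2 = 2 * (n : ℝ) ^ 2 := by
      have : (i ^ 2 : ℤ) = 2 * n ^ 2 := by omega
      exact_mod_cast this
    have hirr := irrational_sqrt_two
    apply hirr
    refine ⟨|(i : ℚ) / n|, ?_⟩
    have hnr : (n : ℝ) ≠ 0 := by exact_mod_cast hn
    have h2 : ((i : ℝ) / n) ^ 2 = 2 := by
      rw [div_pow, h1]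
      field_simp
    rw [Rat.cast_abs, Rat.cast_div, Rat.cast_intCast, Rat.cast_intCast]
    rw [← Real.sqrt_sq_eq_abs, h2]
  have hint : (1 : ℝ) ≤ |(2 * (n : ℝ) ^ 2 - (i : ℝ) ^ 2)| := by
    have : 1 ≤ |(2 * n ^ 2 - i ^ 2 : ℤ)| := Int.one_le_abs hne
    exact_mod_cast this
  have hfac : 2 * (n : ℝ) ^ 2 - (i : ℝ) ^ 2 = (om * n - i) * (om * n + i) := by
    have := om_sq
    linear_combination (- (n : ℝ) ^ 2) * this
  rw [hfac, abs_mul] at hint
  by_contra hlt
  push Not at hlt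
  have hq : 1 / (4 * |(n : ℝ)|) ≤ 1 / 4 := by
    apply one_div_le_one_div_of_le <;> linarith
  have h3 : |om * n + i| ≤ 3 * |(n : ℝ)| + 1 / 4 := by
    have e : om * n + i = 2 * (om * n) - (om * n - i) := by ring
    rw [e]
    have h4 : |2 * (om * (n : ℝ))| ≤ 3 * |(n : ℝ)| := by
      rw [abs_mul, abs_mul, abs_two, abs_of_pos om_pos]
      have := om_lt
      nlinarith
    calc |2 * (om * (n : ℝ)) - (om * n - i)| ≤ |2 * (om * (n : ℝ))| + |om * n - i| := abs_sub _ _
      _ ≤ 3 * |(n : ℝ)| + 1 / 4 := by linarith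
  have h5 : |om * n - i| * |om * n + i| < 1 := by
    have hpos : 0 < 4 * |(n : ℝ)| := by linarith
    have h6 : |om * n - i| * |om * n + i| ≤ |om * n - i| * (4 * |(n : ℝ)|) := by
      apply mul_le_mul_of_nonneg_left _ (abs_nonneg _)
      linarith
    have h7 : |om * n - i| * (4 * |(n : ℝ)|) < 1 := by
      rw [lt_div_iff₀ hpos] at hlt
      exact hlt
    linarith
  linarith

theorem act_zero (m : E4) : act (0, 0) m = (m.1 - om * m.2.1, m.2.1, m.2.2.1, m.2.2.2) := by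
  simp [act]

end Pool.Agent.MP_ff4374_an
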