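import Pool.Agent.MP_ff4374_an.Legendre

set_option autoImplicit false
open MeasureTheory Filter Topology
open scoped ContDiff

namespace Pool.Agent.MP_ff4374_an

namespace Bt

open Leg

/-- continuous periodic functions are bounded -/
theorem per_bdd {F : Type*} [NormedAddCommGroup F] {f : V → F} (hf : Continuous f)
    (hp : ∀ (x : V) (k : Fin 2 → ℤ), f (x + (fun i => (k i : ℝ))) = f x) :
    ∃ C : ℝ, ∀ x, ‖f x‖ ≤ C := by
  obtain ⟨C, hC⟩ := ((isCompact_Icc (a := (0 : V)) (b := 1)).image hf.norm).bddAbove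
  refine ⟨C, fun x => ?_⟩
  have hx : f x = f (fun i => Int.fract (x i)) := by
    rw [← hp (fun i => Int.fract (x i)) (fun i => ⌊x i⌋)]
    congr 1
    funext i
    simp [Int.fract_add_floor]
  rw [hx]
  apply hC
  exact ⟨_, ⟨fun i => Int.fract_nonneg _, fun i => (Int.fract_lt_one _).le⟩, rfl⟩

theorem fderiv_per {u : V → ℝ} (hp : ZPer u) (x : V) (k : Fin 2 → ℤ) :
    fderiv ℝ u (x + (fun i => (k i : ℝ))) = fderiv ℝ u x := by
  have h : (fun y => u (y + (fun i => (k i : ℝ)))) = u := by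
    funext y; exact hp y k
  conv_rhs => rw [← h]
  rw [fderiv_comp_add_right]

theorem grad_continuous {u : V → ℝ} (hu : ContDiff ℝ 1 u) : Continuous (grad u) := by
  have h : Continuous (fderiv ℝ u) := hu.continuous_fderiv (by norm_num)
  unfold grad
  apply continuous_pi
  intro i
  exact h.clm_apply continuous_const

theorem grad_per {u : V → ℝ} (hp : ZPer u) (x : V) (k : Fin 2 → ℤ) :
    grad u (x + (fun i => (k i : ℝ))) = grad u x := by
  unfold grad
  rw [fderiv_per hp]

theorem fderiv_bdd {u : V → ℝ} (hu : ContDiff ℝ 1 u) (hp : ZPer u) :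
    ∃ C : ℝ, 0 ≤ C ∧ ∀ x v, |fderiv ℝ u x v| ≤ C * ‖v‖ := by
  obtain ⟨C, hC⟩ := per_bdd (hu.continuous_fderiv (by norm_num)) (fderiv_per hp)
  refine ⟨C, (norm_nonneg _).trans (hC 0), fun x v => ?_⟩
  calc |fderiv ℝ u x v| ≤ ‖fderiv ℝ u x‖ * ‖v‖ := (fderiv ℝ u x).le_opNorm v
    _ ≤ C * ‖v‖ := mul_le_mul_of_nonneg_right (hC x) (norm_nonneg _)

theorem fderiv_integrable {L : V × V → ℝ} {μ : Measure (V × V)} (hμ : Adm L μ) {u : V → ℝ}
    (hu : ContDiff ℝ 1 u) (hp : ZPer u) : Integrable (fun p : V × V => fderiv ℝ u p.1 p.2) μ := by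
  obtain ⟨C, hC0, hC⟩ := fderiv_bdd hu hp
  have h : Continuous (fun p : V × V => fderiv ℝ u p.1 p.2) :=
    ((hu.continuous_fderiv (by norm_num)).comp continuous_fst).clm_apply continuous_snd
  refine (hμ.2.1.const_mul C).mono' h.aestronglyMeasurable ?_
  filter_upwards with p
  exact hC p.1 p.2

theorem snd_integrable {L : V × V → ℝ} {μ : Measure (V × V)} (hμ : Adm L μ) :
    Integrable (fun p : V × V => p.2) μ := by
  refine hμ.2.1.mono' continuous_snd.aestronglyMeasurable ?_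
  filter_upwards with p
  exact le_rfl

theorem snd_integrable_i {L : V × V → ℝ} {μ : Measure (V × V)} (hμ : Adm L μ) (i : Fin 2) :
    Integrable (fun p : V × V => p.2 i) μ := by
  refine hμ.2.1.mono' (by fun_prop) ?_
  filter_upwards with p
  exact norm_le_pi_norm p.2 i

theorem dot_integral {X : Type*} [MeasurableSpace X] {μ : Measure X} {f : X → V}
    (hf : Integrable f μ) (c : V) : ∫ p, dot c (f p) ∂μ = dot c (∫ p, f p ∂μ) := by
  have hi : ∀ i, Integrable (fun p => f p i) μ := fun i => hf.eval i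
  have hint : ∀ i, (∫ p, f p ∂μ) i = ∫ p, f p i ∂μ := by
    intro i
    exact eval_integral hi i
  unfold dot
  rw [integral_add ((hi 0).const_mul _) ((hi 1).const_mul _), integral_const_mul,
    integral_const_mul, hint, hint]

theorem dot_integrable {X : Type*} [MeasurableSpace X] {μ : Measure X} {f : X → V}
    (hf : Integrable f μ) (c : V) : Integrable (fun p => dot c (f p)) μ := by
  have hi : ∀ i, Integrable (fun p => f p i) μ := fun i => hf.eval i
  unfold dot
  exact ((hi 0).const_mul _).add ((hi 1).const_mul _)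

theorem int_lin {X : Type*} [MeasurableSpace X] {μ : Measure X} [IsProbabilityMeasure μ]
    {f g h : X → ℝ} (hf : Integrable f μ) (hg : Integrable g μ) (hh : Integrable h μ) (a : ℝ) :
    Integrable (fun x => f x + g x - h x + a) μ ∧
    ∫ x, (f x + g x - h x + a) ∂μ = ∫ x, f x ∂μ + ∫ x, g x ∂μ - ∫ x, h x ∂μ + a := by
  have i1 : Integrable (fun x => f x + g x) μ := hf.add hg
  have i2 : Integrable (fun x => f x + g x - h x) μ := i1.sub hh
  have i3 : Integrable (fun _ : X => a) μ := integrable_const a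
  refine ⟨i2.add i3, ?_⟩
  rw [integral_add i2 i3, integral_sub i1 hh, integral_add hf hg]
  simp

end Bt

open Leg Bt

theorem adm_lower {m M : ℝ} {H : V × V → ℝ} {Hk : ℕ → V × V → ℝ} {H0 : V → ℝ} {ε : ℕ → ℝ}
    {u : ℕ → V → V → ℝ} {β : ℕ → V → ℝ} {C : ℝ} {xs : V} (hS : Sys m M H Hk H0 ε u β C xs)
    {L : V × V → ℝ} (hL : Dual M H L) {μ : Measure (V × V)} (hμ : Adm L μ) (c : V) :
    dot c (∫ p, p.2 ∂μ) - H0 c ≤ ∫ p, L p ∂μ := by
  have : IsProbabilityMeasure μ := hμ.1
  have hM := M_pos hS.mpos hS.hH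
  have hk : ∀ k, dot c (∫ p, p.2 ∂μ) - H0 c - ε k ≤ ∫ p, L p ∂μ := by
    intro k
    have hpt : ∀ p : V × V, dot c p.2 + fderiv ℝ (u k c) p.1 p.2 - H0 c + (- ε k) ≤ L p := by
      rintro ⟨x, v⟩
      have h1 := hL.fenchel x (c + grad (u k c) x) v
      have h2 : 0 ≤ dot (v - gradP H x (c + grad (u k c) x)) (v - gradP H x (c + grad (u k c) x)) / (2 * M) := by
        have := dot_self_nonneg (v - gradP H x (c + grad (u k c) x))
        positivity
      have h3 := hS.app0 k x (c + grad (u k c) x)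
      have h4 := hS.u3 k c x
      rw [h4] at h3
      have h5 := (abs_le.1 h3).1
      rw [dot_add_left, ← fderiv_eq_dot] at h1
      simp only
      linarith
    have hi1 := dot_integrable (snd_integrable hμ) c
    have hi2 := fderiv_integrable hμ (hS.u1 k c) (hS.u2 k c)
    obtain ⟨h5, h7⟩ := int_lin hi1 hi2 (integrable_const (H0 c)) (- ε k)
    have h6 := integral_mono (μ := μ) h5 hμ.2.2.1 hpt
    rw [h7, hμ.2.2.2 (u k c) (hS.u1 k c) (hS.u2 k c), dot_integral (snd_integrable hμ) c] at h6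
    simp at h6
    linarith
  have hlim : Tendsto (fun k => dot c (∫ p, p.2 ∂μ) - H0 c - ε k) atTop
      (𝓝 (dot c (∫ p, p.2 ∂μ) - H0 c - 0)) := tendsto_const_nhds.sub hS.hε
  rw [sub_zero] at hlim
  exact le_of_tendsto' hlim hk

namespace Bt

theorem convex_ineq {m M : ℝ} (hm : 0 < m) {H : V × V → ℝ} (hH : Ham m M H) (x p q : V) :
    H (x, p) + dot (gradP H x p) (q - p) ≤ H (x, q) := by
  have h := taylor_lower (slice_contDiff hH.c2 x) (hH.lo x) p (q - p)
  rw [fderiv_eq_dot] at h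
  simp only [add_sub_cancel] at h
  have e : dot (grad (fun p => H (x, p)) p) (q - p) = dot (gradP H x p) (q - p) := rfl
  rw [e] at h
  have := dot_self_nonneg (q - p)
  have h2 : 0 ≤ m * dot (q - p) (q - p) / 2 := by positivity
  linarith

section

variable {m M : ℝ} {H : V × V → ℝ} {Hk : ℕ → V × V → ℝ} {H0 : V → ℝ} {ε : ℕ → ℝ}
    {u : ℕ → V → V → ℝ} {β : ℕ → V → ℝ} {C : ℝ} {xs : V}

/-- the vector field on the leaf -/
noncomputable def XX (Hk : ℕ → V × V → ℝ) (u : ℕ → V → V → ℝ) (k : ℕ) (c x : V) : V :=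
  gradP (Hk k) x (c + grad (u k c) x)

theorem XX_continuous (hS : Sys m M H Hk H0 ε u β C xs) (k : ℕ) (c : V) :
    Continuous (XX Hk u k c) := by
  have h1 := (gradP_contDiff (hS.hHk k).c2).continuous
  have h2 := grad_continuous (hS.u1 k c)
  exact h1.comp (continuous_id.prodMk (continuous_const.add h2))

theorem XX_per (hS : Sys m M H Hk H0 ε u β C xs) (k : ℕ) (c : V) (x : V) (j : Fin 2 → ℤ) :
    XX Hk u k c (x + (fun i => (j i : ℝ))) = XX Hk u k c x := by
  unfold XX
  rw [gradP_per (hS.hHk k), grad_per (hS.u2 k c)]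

theorem H0_contDiff (hS : Sys m M H Hk H0 ε u β C xs) : ContDiff ℝ 2 H0 :=
  slice_contDiff hS.hH0.c2 0

theorem leaf_rotation (hS : Sys m M H Hk H0 ε u β C xs) (k : ℕ) (c : V) {ν : Measure V}
    [IsProbabilityMeasure ν]
    (hν : ∀ φ : V → ℝ, ContDiff ℝ 1 φ → ZPer φ → ∫ x, fderiv ℝ φ x (XX Hk u k c x) ∂ν = 0)
    (hX : Integrable (XX Hk u k c) ν)
    (hf : ∀ φ : V → ℝ, ContDiff ℝ 1 φ → ZPer φ → Integrable (fun x => fderiv ℝ φ x (XX Hk u k c x)) ν) :
    ∫ x, XX Hk u k c x ∂ν = grad H0 c := by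
  set h' := ∫ x, XX Hk u k c x ∂ν with hh'
  have hsub : ∀ c', H0 c + dot h' (c' - c) ≤ H0 c' := by
    intro c'
    have hpt : ∀ x, dot (c' - c) (XX Hk u k c x)
        + fderiv ℝ (u k c') x (XX Hk u k c x) - fderiv ℝ (u k c) x (XX Hk u k c x) + H0 c ≤ H0 c' := by
      intro x
      have h1 := convex_ineq hS.mpos (hS.hHk k) x (c + grad (u k c) x) (c' + grad (u k c') x)
      rw [hS.u3, hS.u3] at h1
      rw [fderiv_eq_dot, fderiv_eq_dot]
      have e : dot (gradP (Hk k) x (c + grad (u k c) x)) (c' + grad (u k c') x - (c + grad (u k c) x))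
          = dot (c' - c) (XX Hk u k c x) + dot (grad (u k c') x) (XX Hk u k c x)
            - dot (grad (u k c) x) (XX Hk u k c x) := by
        unfold dot XX
        simp only [Pi.sub_apply, Pi.add_apply]
        ring
      rw [e] at h1
      linarith
    have hi1 := dot_integrable hX (c' - c)
    have hi2 := hf (u k c') (hS.u1 k c') (hS.u2 k c')
    have hi3 := hf (u k c) (hS.u1 k c) (hS.u2 k c)
    obtain ⟨h5, h7⟩ := int_lin hi1 hi2 hi3 (H0 c)
    have h6 := integral_mono (μ := ν) h5 (integrable_const (H0 c')) hpt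
    rw [h7, hν (u k c') (hS.u1 k c') (hS.u2 k c'), hν (u k c) (hS.u1 k c) (hS.u2 k c),
        dot_integral hX] at h6
    rw [dot_comm]
    simp at h6
    linarith
  -- minimum of H0 - h' at c
  have hmin : IsLocalMin (fun q => H0 q - dot h' q) c := by
    apply Filter.Eventually.of_forall
    intro c'
    have h1 := hsub c'
    have e : dot h' (c' - c) = dot h' c' - dot h' c := dot_sub_right _ _ _
    rw [e] at h1
    simp only
    linarith
  have hz := hmin.fderiv_eq_zero
  have hd1 : HasFDerivAt H0 (fderiv ℝ H0 c) c :=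
    ((H0_contDiff hS).differentiable (by norm_num) c).hasFDerivAt
  have hd2 : HasFDerivAt (fun q : V => dot h' q)
      (h' 0 • (ContinuousLinearMap.proj 0 : V →L[ℝ] ℝ) + h' 1 • (ContinuousLinearMap.proj 1 : V →L[ℝ] ℝ)) c := by
    have : (fun q : V => dot h' q) = fun q =>
      (h' 0 • (ContinuousLinearMap.proj 0 : V →L[ℝ] ℝ) + h' 1 • (ContinuousLinearMap.proj 1 : V →L[ℝ] ℝ)) q := by
      funext q; simp [dot]
    rw [this]
    exact ContinuousLinearMap.hasFDerivAt _
  have h4 : fderiv ℝ (fun q => H0 q - dot h' q) c = _ := (hd1.sub hd2).fderiv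
  rw [hz] at h4
  funext i
  have h5 := congrArg (fun L : V →L[ℝ] ℝ => L (Pi.single i 1)) h4
  simp only [zero_apply, sub_apply, add_apply, smul_apply, ContinuousLinearMap.proj_apply,
    smul_eq_mul] at h5
  unfold grad
  fin_cases i
  · simp at h5 ⊢; linarith
  · simp at h5 ⊢; linarith

end

end Bt

theorem adm_upper {m M : ℝ} {H : V × V → ℝ} {Hk : ℕ → V × V → ℝ} {H0 : V → ℝ} {ε : ℕ → ℝ}
    {u : ℕ → V → V → ℝ} {β : ℕ → V → ℝ} {C : ℝ} {xs : V} (hS : Sys m M H Hk H0 ε u β C xs)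
    {L : V × V → ℝ} (hL : Dual M H L) (k : ℕ) (c : V) :
    ∃ μ : Measure (V × V), Adm L μ ∧ ∫ p, p.2 ∂μ = grad H0 c ∧
      ∫ p, L p ∂μ ≤ dot c (grad H0 c) - H0 c + ε k := by
  obtain ⟨ν, hν1, hν2⟩ := hS.inv k c
  have hXc := XX_continuous hS k c
  obtain ⟨B, hB⟩ := per_bdd hXc (XX_per hS k c)
  have hX : Integrable (XX Hk u k c) ν := by
    refine (integrable_const B).mono' hXc.aestronglyMeasurable ?_
    filter_upwards with x using hB x
  have hf : ∀ φ : V → ℝ, ContDiff ℝ 1 φ → ZPer φ →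
      Integrable (fun x => fderiv ℝ φ x (XX Hk u k c x)) ν := by
    intro φ hφ hφp
    obtain ⟨D, hD0, hD⟩ := fderiv_bdd hφ hφp
    have h : Continuous (fun x => fderiv ℝ φ x (XX Hk u k c x)) :=
      (hφ.continuous_fderiv (by norm_num)).clm_apply hXc
    refine (integrable_const (D * B)).mono' h.aestronglyMeasurable ?_
    filter_upwards with x
    exact (hD x _).trans (mul_le_mul_of_nonneg_left (hB x) hD0)
  have hrot := leaf_rotation hS k c hν2 hX hf
  set T : V → V × V := fun x => (x, XX Hk u k c x) with hT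
  have hTc : Continuous T := continuous_id.prodMk hXc
  have hTm : AEMeasurable T ν := hTc.measurable.aemeasurable
  have hLc : Continuous L := hL.c2.continuous
  have hLT : Continuous fun x => L (T x) := hLc.comp hTc
  obtain ⟨D, hD⟩ := per_bdd hLT (by
    intro x j
    simp only [hT]
    rw [XX_per hS, hL.per])
  have hLint : Integrable (fun x => L (T x)) ν := by
    refine (integrable_const D).mono' hLT.aestronglyMeasurable ?_
    filter_upwards with x using hD x
  refine ⟨ν.map T, ⟨?_, ?_, ?_, ?_⟩, ?_, ?_⟩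
  · exact Measure.isProbabilityMeasure_map hTm
  · rw [integrable_map_measure (by fun_prop) hTm]
    exact hX.norm
  · rw [integrable_map_measure hLc.aestronglyMeasurable hTm]
    exact hLint
  · intro φ hφ hφp
    rw [integral_map hTm]
    · exact hν2 φ hφ hφp
    · exact (((hφ.continuous_fderiv (by norm_num)).comp continuous_fst).clm_apply
        continuous_snd).aestronglyMeasurable
  · rw [integral_map hTm continuous_snd.aestronglyMeasurable]
    exact hrot
  · rw [integral_map hTm hLc.aestronglyMeasurable]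
    have hpt : ∀ x, L (T x) ≤ dot c (XX Hk u k c x) + fderiv ℝ (u k c) x (XX Hk u k c x) - H0 c + ε k := by
      intro x
      obtain ⟨q, hq⟩ := hL.surj x (XX Hk u k c x)
      have h1 := hL.eq x q
      rw [hq] at h1
      have h2 := (abs_le.1 (hS.app0 k x q)).2
      have h3 := convex_ineq hS.mpos (hS.hHk k) x (c + grad (u k c) x) q
      rw [hS.u3] at h3
      rw [fderiv_eq_dot]
      have e : dot (gradP (Hk k) x (c + grad (u k c) x)) (q - (c + grad (u k c) x))
          = dot q (XX Hk u k c x) - dot c (XX Hk u k c x) - dot (grad (u k c) x) (XX Hk u k c x) := by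
        unfold dot XX
        simp only [Pi.sub_apply, Pi.add_apply]
        ring
      rw [e] at h3
      simp only [hT]
      rw [h1]
      linarith
    have hi1 := dot_integrable hX c
    have hi2 := hf (u k c) (hS.u1 k c) (hS.u2 k c)
    obtain ⟨h5, h7⟩ := int_lin hi1 hi2 (integrable_const (H0 c)) (ε k)
    have h6 := integral_mono (μ := ν) hLint h5 hpt
    have h8 : ∫ x, fderiv ℝ (u k c) x (XX Hk u k c x) ∂ν = 0 := hν2 (u k c) (hS.u1 k c) (hS.u2 k c)
    rw [h7, h8, dot_integral hX, hrot] at h6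
    simp at h6
    simpa using h6

theorem beta_contDiff {m M : ℝ} {H : V × V → ℝ} {Hk : ℕ → V × V → ℝ} {H0 : V → ℝ} {ε : ℕ → ℝ}
    {u : ℕ → V → V → ℝ} {β : ℕ → V → ℝ} {C : ℝ} {xs : V} (hS : Sys m M H Hk H0 ε u β C xs)
    {L : V × V → ℝ} (hL : Dual M H L) :
    ContDiff ℝ 1 (fun h : V => sInf {r : ℝ | ∃ μ, Adm L μ ∧ ∫ p, p.2 ∂μ = h ∧ ∫ p, L p ∂μ = r}) := by
  obtain ⟨L0, hL0⟩ := legendre hS.mpos hS.hH0
  have hval : ∀ h : V, sInf {r : ℝ | ∃ μ, Adm L μ ∧ ∫ p, p.2 ∂μ = h ∧ ∫ p, L p ∂μ = r} = L0 (0, h) := by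
    intro h
    obtain ⟨c, hc⟩ := hL0.surj 0 h
    have he := hL0.eq 0 c
    rw [hc] at he
    have hgr : grad H0 c = h := hc
    simp only at he
    set S : Set ℝ := {r : ℝ | ∃ μ, Adm L μ ∧ ∫ p, p.2 ∂μ = h ∧ ∫ p, L p ∂μ = r} with hSdef
    have hlow : ∀ r ∈ S, L0 (0, h) ≤ r := by
      rintro r ⟨μ, h1, h2, h3⟩
      have := adm_lower hS hL h1 c
      rw [h2, h3] at this
      rw [he]; exact this
    have hup : ∀ k, ∃ r ∈ S, r ≤ L0 (0, h) + ε k := by
      intro k
      obtain ⟨μ, h1, h2, h3⟩ := adm_upper hS hL k c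
      rw [hgr] at h2 h3
      exact ⟨_, ⟨μ, h1, h2, rfl⟩, by rw [he]; linarith⟩
    have hbdd : BddBelow S := ⟨_, hlow⟩
    apply le_antisymm
    · have hk : ∀ k, sInf S ≤ L0 (0, h) + ε k := by
        intro k
        obtain ⟨r, hr, hr2⟩ := hup k
        exact (csInf_le hbdd hr).trans hr2
      have hlim : Tendsto (fun k => L0 (0, h) + ε k) atTop (𝓝 (L0 (0, h) + 0)) :=
        tendsto_const_nhds.add hS.hε
      rw [add_zero] at hlim
      exact ge_of_tendsto' hlim hk
    · obtain ⟨r, hr, _⟩ := hup 0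
      exact le_csInf ⟨r, hr⟩ hlow
  have : (fun h : V => sInf {r : ℝ | ∃ μ, Adm L μ ∧ ∫ p, p.2 ∂μ = h ∧ ∫ p, L p ∂μ = r})
      = fun h => L0 (0, h) := funext hval
  rw [this]
  exact (slice_contDiff hL0.c2 0).of_le (by norm_num)

end Pool.Agent.MP_ff4374_an
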