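import Pool.Agent.MP_ff4374_an.Basic

/-!
Module Inv: parametrised inverse function theorem.
-/

set_option autoImplicit false

namespace Pool.Agent.MP_ff4374_an

/-- the linear model of `(c, y) ↦ (g (c, y), y)` -/
private noncomputable def invEquiv {F : Type*} [NormedAddCommGroup F] [NormedSpace ℝ F]
    (D : ℝ × F →L[ℝ] ℝ) (h : D (1, 0) ≠ 0) : (ℝ × F) ≃L[ℝ] (ℝ × F) :=
  ContinuousLinearEquiv.equivOfInverse (D.prod (ContinuousLinearMap.snd ℝ ℝ F))
    ((((D (1, 0))⁻¹ : ℝ) • (ContinuousLinearMap.fst ℝ ℝ F -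
      D.comp ((ContinuousLinearMap.inr ℝ ℝ F).comp (ContinuousLinearMap.snd ℝ ℝ F)))).prod
      (ContinuousLinearMap.snd ℝ ℝ F))
    (by
      rintro ⟨u, w⟩
      have e : D (u, w) = u * D (1, 0) + D (0, w) := by
        have : ((u, w) : ℝ × F) = u • ((1 : ℝ), (0 : F)) + (0, w) := by simp
        rw [this, map_add, map_smul, smul_eq_mul]
      simp only [ContinuousLinearMap.prod_apply, ContinuousLinearMap.coe_snd',
        _root_.smul_apply, _root_.sub_apply,
        ContinuousLinearMap.coe_fst', ContinuousLinearMap.comp_apply,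
        ContinuousLinearMap.inr_apply, smul_eq_mul]
      rw [e]
      ext
      · simp only [add_sub_cancel_right]
        field_simp
      · rfl)
    (by
      rintro ⟨p, w⟩
      simp only [ContinuousLinearMap.prod_apply, ContinuousLinearMap.coe_snd',
        _root_.smul_apply, _root_.sub_apply,
        ContinuousLinearMap.coe_fst', ContinuousLinearMap.comp_apply,
        ContinuousLinearMap.inr_apply, smul_eq_mul]
      have e : ∀ u : ℝ, D (u, w) = u * D (1, 0) + D (0, w) := by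
        intro u
        have : ((u, w) : ℝ × F) = u • ((1 : ℝ), (0 : F)) + (0, w) := by simp
        rw [this, map_add, map_smul, smul_eq_mul]
      rw [e]
      ext
      · field_simp
        ring
      · rfl)

private lemma invEquiv_coe {F : Type*} [NormedAddCommGroup F] [NormedSpace ℝ F]
    (D : ℝ × F →L[ℝ] ℝ) (h : D (1, 0) ≠ 0) :
    (invEquiv D h : (ℝ × F) →L[ℝ] (ℝ × F)) = D.prod (ContinuousLinearMap.snd ℝ ℝ F) := rfl

theorem inv1 {F : Type*} [NormedAddCommGroup F] [NormedSpace ℝ F] [CompleteSpace F]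
    {n : WithTop ℕ∞} (hn : n ≠ 0) (g : ℝ × F → ℝ) (hg : ContDiff ℝ n g)
    (hpos : ∀ m, 0 < fderiv ℝ g m (1, 0)) (hsurj : ∀ (y : F) (p : ℝ), ∃ c, g (c, y) = p) :
    ∃ C : ℝ × F → ℝ, ContDiff ℝ n C ∧ (∀ p y, g (C (p, y), y) = p) ∧ (∀ c y, C (g (c, y), y) = c) := by
  classical
  have hd : Differentiable ℝ g := hg.differentiable hn
  -- strict monotonicity
  have hmono : ∀ y : F, StrictMono (fun c : ℝ => g (c, y)) := by
    intro y
    have hder : ∀ c : ℝ, HasDerivAt (fun c : ℝ => g (c, y)) (fderiv ℝ g (c, y) (1, 0)) c := by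
      intro c
      have h1 : HasFDerivAt g (fderiv ℝ g (c, y)) (c, y) := (hd (c, y)).hasFDerivAt
      have h2 : HasDerivAt (fun c : ℝ => ((c, y) : ℝ × F)) ((1 : ℝ), (0 : F)) c :=
        (hasDerivAt_id c).prodMk (hasDerivAt_const c y)
      exact h1.comp_hasDerivAt c h2
    apply strictMono_of_deriv_pos
    intro c
    rw [(hder c).deriv]
    exact hpos _
  have hinj : ∀ (y : F) (c c' : ℝ), g (c, y) = g (c', y) → c = c' := fun y c c' h =>
    (hmono y).injective h
  let C : ℝ × F → ℝ := fun z => (hsurj z.2 z.1).choose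
  have hC1 : ∀ p y, g (C (p, y), y) = p := fun p y => (hsurj y p).choose_spec
  have hC2 : ∀ c y, C (g (c, y), y) = c := fun c y => hinj y _ _ (hC1 _ _)
  refine ⟨C, ?_, hC1, hC2⟩
  rw [contDiff_iff_contDiffAt]
  rintro ⟨p0, y0⟩
  set c0 : ℝ := C (p0, y0) with hc0
  have hg0 : g (c0, y0) = p0 := hC1 _ _
  let f : ℝ × F → ℝ × F := fun m => (g m, m.2)
  have hf : ContDiffAt ℝ n f (c0, y0) := (hg.prodMk contDiff_snd).contDiffAt
  have hne : fderiv ℝ g (c0, y0) (1, 0) ≠ 0 := (hpos _).ne'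
  have hf' : HasFDerivAt f ((invEquiv (fderiv ℝ g (c0, y0)) hne : (ℝ × F) ≃L[ℝ] (ℝ × F)) :
      (ℝ × F) →L[ℝ] (ℝ × F)) (c0, y0) := by
    rw [invEquiv_coe]
    exact (hd (c0, y0)).hasFDerivAt.prodMk hasFDerivAt_snd
  have hsm := hf.to_localInverse hf' hn
  have hfa : f (c0, y0) = (p0, y0) := by simp only [f, hg0]
  rw [hfa] at hsm
  have hev : ∀ᶠ z in nhds (p0, y0), f (hf.localInverse hf' hn z) = z := by
    have h1 := (hf.hasStrictFDerivAt' hf' hn).eventually_right_inverse
    rw [hfa] at h1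
    exact h1
  have heq : C =ᶠ[nhds (p0, y0)] fun z => (hf.localInverse hf' hn z).1 := by
    filter_upwards [hev] with z hz
    have hz' : (g (hf.localInverse hf' hn z), (hf.localInverse hf' hn z).2) = z := hz
    have h1 : g (hf.localInverse hf' hn z) = z.1 := (Prod.ext_iff.mp hz').1
    have h2 : (hf.localInverse hf' hn z).2 = z.2 := (Prod.ext_iff.mp hz').2
    apply hinj z.2
    have h3 : g (C (z.1, z.2), z.2) = z.1 := hC1 _ _
    rw [show C z = C (z.1, z.2) from rfl, h3]
    rw [← h2]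
    exact h1.symm
  exact (hsm.fst).congr_of_eventuallyEq heq

end Pool.Agent.MP_ff4374_an
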