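import Pool.Agent.MP_ff4374_an.Cost
import Pool.Agent.MP_ff4374_an.Inv

set_option autoImplicit false
open MeasureTheory Filter Topology
open scoped ContDiff

namespace Pool.Agent.MP_ff4374_an

namespace BlockAsm

/-! ### slices -/

theorem hd_dX {f : E4 → ℝ} {x s c e : ℝ} (hf : DifferentiableAt ℝ f (x, s, c, e)) :
    HasDerivAt (fun x' => f (x', s, c, e)) (dX f (x, s, c, e)) x := by
  have h1 : HasDerivAt (fun x' : ℝ => ((x', s, c, e) : E4)) (1, 0, 0, 0) x :=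
    (hasDerivAt_id x).prodMk ((hasDerivAt_const x s).prodMk
      ((hasDerivAt_const x c).prodMk (hasDerivAt_const x e)))
  exact hf.hasFDerivAt.comp_hasDerivAt x h1

theorem hd_dT {f : E4 → ℝ} {x s c e : ℝ} (hf : DifferentiableAt ℝ f (x, s, c, e)) :
    HasDerivAt (fun s' => f (x, s', c, e)) (dT f (x, s, c, e)) s := by
  have h1 : HasDerivAt (fun s' : ℝ => ((x, s', c, e) : E4)) (0, 1, 0, 0) s :=
    (hasDerivAt_const s x).prodMk ((hasDerivAt_id s).prodMk
      ((hasDerivAt_const s c).prodMk (hasDerivAt_const s e)))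
  exact hf.hasFDerivAt.comp_hasDerivAt s h1

theorem hd_dP {f : E4 → ℝ} {x s c e : ℝ} (hf : DifferentiableAt ℝ f (x, s, c, e)) :
    HasDerivAt (fun c' => f (x, s, c', e)) (dP f (x, s, c, e)) c := by
  have h1 : HasDerivAt (fun c' : ℝ => ((x, s, c', e) : E4)) (0, 0, 1, 0) c :=
    (hasDerivAt_const c x).prodMk ((hasDerivAt_const c s).prodMk
      ((hasDerivAt_id c).prodMk (hasDerivAt_const c e)))
  exact hf.hasFDerivAt.comp_hasDerivAt c h1

theorem hd_dE {f : E4 → ℝ} {x s c e : ℝ} (hf : DifferentiableAt ℝ f (x, s, c, e)) :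
    HasDerivAt (fun e' => f (x, s, c, e')) (dE f (x, s, c, e)) e := by
  have h1 : HasDerivAt (fun e' : ℝ => ((x, s, c, e') : E4)) (0, 0, 0, 1) e :=
    (hasDerivAt_const e x).prodMk ((hasDerivAt_const e s).prodMk
      ((hasDerivAt_const e c).prodMk (hasDerivAt_id e)))
  exact hf.hasFDerivAt.comp_hasDerivAt e h1

theorem hd_p1 {f : ℝ × ℝ × ℝ → ℝ} {x s c : ℝ} (hf : DifferentiableAt ℝ f (x, s, c)) :
    HasDerivAt (fun x' => f (x', s, c)) (p1 f (x, s, c)) x := by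
  have h1 : HasDerivAt (fun x' : ℝ => ((x', s, c) : ℝ × ℝ × ℝ)) (1, 0, 0) x :=
    (hasDerivAt_id x).prodMk ((hasDerivAt_const x s).prodMk (hasDerivAt_const x c))
  exact hf.hasFDerivAt.comp_hasDerivAt x h1

theorem hd_p2 {f : ℝ × ℝ × ℝ → ℝ} {x s c : ℝ} (hf : DifferentiableAt ℝ f (x, s, c)) :
    HasDerivAt (fun s' => f (x, s', c)) (p2 f (x, s, c)) s := by
  have h1 : HasDerivAt (fun s' : ℝ => ((x, s', c) : ℝ × ℝ × ℝ)) (0, 1, 0) s :=
    (hasDerivAt_const s x).prodMk ((hasDerivAt_id s).prodMk (hasDerivAt_const s c))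
  exact hf.hasFDerivAt.comp_hasDerivAt s h1

theorem hd_p3 {f : ℝ × ℝ × ℝ → ℝ} {x s c : ℝ} (hf : DifferentiableAt ℝ f (x, s, c)) :
    HasDerivAt (fun c' => f (x, s, c')) (p3 f (x, s, c)) c := by
  have h1 : HasDerivAt (fun c' : ℝ => ((x, s, c') : ℝ × ℝ × ℝ)) (0, 0, 1) c :=
    (hasDerivAt_const c x).prodMk ((hasDerivAt_const c s).prodMk (hasDerivAt_id c))
  exact hf.hasFDerivAt.comp_hasDerivAt c h1

/-- derivative of a function constant on a set with unique differentials -/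
theorem deriv_zero_of {f : ℝ → ℝ} {f' k x : ℝ} {S : Set ℝ} (h : HasDerivAt f f' x)
    (hu : UniqueDiffWithinAt ℝ S x) (hx : x ∈ S) (hk : ∀ y ∈ S, f y = k) : f' = 0 := by
  have h1 : HasDerivWithinAt f f' S x := h.hasDerivWithinAt
  have h2 : HasDerivWithinAt f 0 S x :=
    (hasDerivWithinAt_const x S k).congr hk (hk x hx)
  exact hu.eq_deriv S h1 h2

/-! ### germs -/

theorem p1_congr {F F' : ℝ × ℝ × ℝ → ℝ} {m : ℝ × ℝ × ℝ} (h : F =ᶠ[𝓝 m] F') : p1 F =ᶠ[𝓝 m] p1 F' := by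
  filter_upwards [Filter.EventuallyEq.fderiv (𝕜 := ℝ) h] with m' hm'
  unfold p1
  rw [hm']

theorem p2_congr {F F' : ℝ × ℝ × ℝ → ℝ} {m : ℝ × ℝ × ℝ} (h : F =ᶠ[𝓝 m] F') : p2 F =ᶠ[𝓝 m] p2 F' := by
  filter_upwards [Filter.EventuallyEq.fderiv (𝕜 := ℝ) h] with m' hm'
  unfold p2
  rw [hm']

theorem p3_congr {F F' : ℝ × ℝ × ℝ → ℝ} {m : ℝ × ℝ × ℝ} (h : F =ᶠ[𝓝 m] F') : p3 F =ᶠ[𝓝 m] p3 F' := by
  filter_upwards [Filter.EventuallyEq.fderiv (𝕜 := ℝ) h] with m' hm'
  unfold p3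
  rw [hm']

theorem EE_congr {F F' g g' : ℝ × ℝ × ℝ → ℝ} {m : ℝ × ℝ × ℝ} (h : F =ᶠ[𝓝 m] F') (hg : g =ᶠ[𝓝 m] g') :
    EE F g =ᶠ[𝓝 m] EE F' g' := by
  filter_upwards [p1_congr hg, p3_congr hg, p1_congr (p1_congr h), p1_congr (p3_congr h)] with m' h1 h2 h3 h4
  unfold EE
  rw [h1, h2, h3, h4]

theorem cost3_congr {F F' : ℝ × ℝ × ℝ → ℝ} {m : ℝ × ℝ × ℝ} (h : F =ᶠ[𝓝 m] F') :
    cost3 F m = cost3 F' m := by
  have hg : (fun m' => - p2 F m') =ᶠ[𝓝 m] (fun m' => - p2 F' m') := by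
    filter_upwards [p2_congr h] with m' hm'
    rw [hm']
  exact (EE_congr h (EE_congr h hg)).eq_of_nhds

/-! ### scaling -/

/-- scaling of space and momentum -/
noncomputable def scl (μ : ℝ) : (ℝ × ℝ × ℝ) →L[ℝ] (ℝ × ℝ × ℝ) :=
  (μ • ContinuousLinearMap.id ℝ ℝ).prodMap ((ContinuousLinearMap.id ℝ ℝ).prodMap
    (μ • ContinuousLinearMap.id ℝ ℝ))

theorem scl_apply (μ : ℝ) (m : ℝ × ℝ × ℝ) : scl μ m = (μ * m.1, m.2.1, μ * m.2.2) := rfl

theorem fderiv_scl {g : ℝ × ℝ × ℝ → ℝ} (hg : Differentiable ℝ g) (k μ : ℝ) (m v : ℝ × ℝ × ℝ) :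
    fderiv ℝ (fun m' => k * g (scl μ m')) m v = k * fderiv ℝ g (scl μ m) (scl μ v) := by
  have h1 : HasFDerivAt (fun m' => g (scl μ m')) ((fderiv ℝ g (scl μ m)).comp (scl μ)) m :=
    (hg _).hasFDerivAt.comp m (scl μ).hasFDerivAt
  have h2 := h1.const_mul k
  rw [h2.fderiv]
  simp

theorem p1_scl {g : ℝ × ℝ × ℝ → ℝ} (hg : Differentiable ℝ g) (k μ : ℝ) :
    p1 (fun m' => k * g (scl μ m')) = fun m' => (k * μ) * p1 g (scl μ m') := by
  funext m
  unfold p1
  rw [fderiv_scl hg]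
  have : scl μ (1, 0, 0) = μ • ((1, 0, 0) : ℝ × ℝ × ℝ) := by
    rw [scl_apply]; simp
  rw [this, map_smul, smul_eq_mul]
  ring

theorem p2_scl {g : ℝ × ℝ × ℝ → ℝ} (hg : Differentiable ℝ g) (k μ : ℝ) :
    p2 (fun m' => k * g (scl μ m')) = fun m' => k * p2 g (scl μ m') := by
  funext m
  unfold p2
  rw [fderiv_scl hg]
  have : scl μ (0, 1, 0) = ((0, 1, 0) : ℝ × ℝ × ℝ) := by
    rw [scl_apply]; simp
  rw [this]

theorem p3_scl {g : ℝ × ℝ × ℝ → ℝ} (hg : Differentiable ℝ g) (k μ : ℝ) :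
    p3 (fun m' => k * g (scl μ m')) = fun m' => (k * μ) * p3 g (scl μ m') := by
  funext m
  unfold p3
  rw [fderiv_scl hg]
  have : scl μ (0, 0, 1) = μ • ((0, 0, 1) : ℝ × ℝ × ℝ) := by
    rw [scl_apply]; simp
  rw [this, map_smul, smul_eq_mul]
  ring

theorem cd_p1 {g : ℝ × ℝ × ℝ → ℝ} (hg : ContDiff ℝ ∞ g) : ContDiff ℝ ∞ (p1 g) := by
  unfold p1
  exact (hg.fderiv_right (m := ∞) (by simp)).clm_apply contDiff_const

theorem cd_p2 {g : ℝ × ℝ × ℝ → ℝ} (hg : ContDiff ℝ ∞ g) : ContDiff ℝ ∞ (p2 g) := by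
  unfold p2
  exact (hg.fderiv_right (m := ∞) (by simp)).clm_apply contDiff_const

theorem cd_p3 {g : ℝ × ℝ × ℝ → ℝ} (hg : ContDiff ℝ ∞ g) : ContDiff ℝ ∞ (p3 g) := by
  unfold p3
  exact (hg.fderiv_right (m := ∞) (by simp)).clm_apply contDiff_const

theorem cd_EE {F g : ℝ × ℝ × ℝ → ℝ} (hF : ContDiff ℝ ∞ F) (hg : ContDiff ℝ ∞ g)
    (hne : ∀ m, p1 (p3 F) m ≠ 0) : ContDiff ℝ ∞ (EE F g) := by
  unfold EE
  have h1 := cd_p1 (cd_p1 hF)
  have h2 := cd_p1 (cd_p3 hF)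
  have h3 := cd_p1 hg
  have h4 := cd_p3 hg
  have h5 : ContDiff ℝ ∞ (fun m : ℝ × ℝ × ℝ => m.2.1) := contDiff_fst.comp contDiff_snd
  exact ((h5.neg).mul h3).add ((((contDiff_const (c := (1:ℝ))).add (h5.mul h1)).div h2 hne).mul h4)

/-- `cost3` is invariant under scaling -/
theorem cost3_scl {F : ℝ × ℝ × ℝ → ℝ} (hF : ContDiff ℝ ∞ F) (hne : ∀ m, p1 (p3 F) m ≠ 0) {μ : ℝ}
    (hμ : μ ≠ 0) (m : ℝ × ℝ × ℝ) :
    cost3 (fun m' => (μ ^ 2)⁻¹ * F (scl μ m')) m = cost3 F (scl μ m) ∧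
    p1 (p3 (fun m' => (μ ^ 2)⁻¹ * F (scl μ m'))) m = p1 (p3 F) (scl μ m) := by
  have hd {g : ℝ × ℝ × ℝ → ℝ} (hg : ContDiff ℝ ∞ g) : Differentiable ℝ g := hg.differentiable (by simp)
  have e1 : p1 (fun m' => (μ ^ 2)⁻¹ * F (scl μ m')) = fun m' => ((μ ^ 2)⁻¹ * μ) * p1 F (scl μ m') :=
    p1_scl (hd hF) _ _
  have e3 : p3 (fun m' => (μ ^ 2)⁻¹ * F (scl μ m')) = fun m' => ((μ ^ 2)⁻¹ * μ) * p3 F (scl μ m') :=
    p3_scl (hd hF) _ _
  have e2 : p2 (fun m' => (μ ^ 2)⁻¹ * F (scl μ m')) = fun m' => (μ ^ 2)⁻¹ * p2 F (scl μ m') :=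
    p2_scl (hd hF) _ _
  have e11 : p1 (p1 (fun m' => (μ ^ 2)⁻¹ * F (scl μ m'))) = fun m' => p1 (p1 F) (scl μ m') := by
    rw [e1, p1_scl (hd (cd_p1 hF))]
    funext m'
    field_simp
  have e13 : p1 (p3 (fun m' => (μ ^ 2)⁻¹ * F (scl μ m'))) = fun m' => p1 (p3 F) (scl μ m') := by
    rw [e3, p1_scl (hd (cd_p3 hF))]
    funext m'
    field_simp
  have hEE : ∀ (g : ℝ × ℝ × ℝ → ℝ) (k : ℝ), Differentiable ℝ g →
      EE (fun m' => (μ ^ 2)⁻¹ * F (scl μ m')) (fun m' => k * g (scl μ m')) =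
        fun m' => (k * μ) * EE F g (scl μ m') := by
    intro g k hg
    funext m'
    unfold EE
    rw [e11, e13, p1_scl hg, p3_scl hg]
    simp only [scl_apply]
    ring
  refine ⟨?_, by rw [e13]⟩
  unfold cost3
  have hg0 : (fun m' => - p2 (fun m' => (μ ^ 2)⁻¹ * F (scl μ m')) m') =
      fun m' => (μ ^ 2)⁻¹ * (fun m'' => - p2 F m'') (scl μ m') := by
    funext m'
    rw [e2]
    ring
  rw [hg0, hEE _ _ (hd (cd_p2 hF).neg), hEE _ _ (hd (cd_EE hF (cd_p2 hF).neg hne))]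
  field_simp

/-! ### the constant parameter case -/

theorem hd_quad (a b k x : ℝ) : HasDerivAt (fun y : ℝ => a * y ^ 2 / 2 + b * y + k) (a * x + b) x := by
  have h := ((((hasDerivAt_pow 2 x).const_mul a).div_const 2).add ((hasDerivAt_id' x).const_mul b)).add_const k
  refine h.congr_deriv ?_
  norm_num
  ring

theorem hd_quad' {f : ℝ → ℝ} {a b k f' x : ℝ} (hf : HasDerivAt f f' x)
    (h : ∀ y, f y = a * y ^ 2 / 2 + b * y + k) : f' = a * x + b := by
  have e : f = fun y : ℝ => a * y ^ 2 / 2 + b * y + k := funext h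
  rw [e] at hf
  exact hf.unique (hd_quad a b k x)

/-- product of a function of `s` and a function: derivative in the `x` and `c` directions -/
theorem cost3_const {lam : ℝ} (h0 : 0 < lam) (h1 : lam ≤ 1) (m : ℝ × ℝ × ℝ) :
    cost3 (fun m' => QQ m'.1 m'.2.1 m'.2.2 lam) m = 0 ∧
    p1 (p3 (fun m' => QQ m'.1 m'.2.1 m'.2.2 lam)) m = BB m.2.1 lam := by
  have hF : ContDiff ℝ ∞ (fun m' : ℝ × ℝ × ℝ => QQ m'.1 m'.2.1 m'.2.2 lam) := by
    rw [contDiff_iff_contDiffAt]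
    intro m'
    have h2 := QQ_contDiffAt (x := m'.1) (s := m'.2.1) (c := m'.2.2) h0 h1
    have h3 : ContDiffAt ℝ ∞ (fun m' : ℝ × ℝ × ℝ => ((m'.1, m'.2.1, m'.2.2, lam) : ℝ × ℝ × ℝ × ℝ)) m' := by
      fun_prop
    exact ContDiffAt.comp (g := fun m : ℝ × ℝ × ℝ × ℝ => QQ m.1 m.2.1 m.2.2.1 m.2.2.2) m' h2 h3
  set F : ℝ × ℝ × ℝ → ℝ := fun m' => QQ m'.1 m'.2.1 m'.2.2 lam with hFdef
  have hFd : Differentiable ℝ F := hF.differentiable (by simp)
  have e1 : ∀ x s c : ℝ, p1 F (x, s, c) = AA s lam * x + BB s lam * c := by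
    intro x s c
    refine hd_quad' (a := AA s lam) (b := BB s lam * c) (k := DD s lam * c ^ 2 / 2) (hd_p1 (hFd (x, s, c))) ?_
    intro y
    simp only [hFdef, QQ]
    ring
  have e3 : ∀ x s c : ℝ, p3 F (x, s, c) = DD s lam * c + BB s lam * x := by
    intro x s c
    refine hd_quad' (a := DD s lam) (b := BB s lam * x) (k := AA s lam * x ^ 2 / 2) (hd_p3 (hFd (x, s, c))) ?_
    intro y
    simp only [hFdef, QQ]
    ring
  have e2 : ∀ x s c : ℝ, p2 F (x, s, c) =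
      -(GG s lam / 2 * (x + s * (AA s lam * x + BB s lam * c)) ^ 2) := by
    intro x s c
    apply (hd_p2 (hFd (x, s, c))).unique
    exact QQ_ds h0 h1
  have e11 : ∀ x s c : ℝ, p1 (p1 F) (x, s, c) = AA s lam := by
    intro x s c
    have hd : DifferentiableAt ℝ (p1 F) (x, s, c) := (cd_p1 hF).differentiable (by simp) _
    have := hd_quad' (a := 0) (b := AA s lam) (k := BB s lam * c) (hd_p1 hd)
      (by intro y; rw [e1]; ring)
    simpa using this
  have e13 : ∀ x s c : ℝ, p1 (p3 F) (x, s, c) = BB s lam := by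
    intro x s c
    have hd : DifferentiableAt ℝ (p3 F) (x, s, c) := (cd_p3 hF).differentiable (by simp) _
    have := hd_quad' (a := 0) (b := BB s lam) (k := DD s lam * c) (hd_p1 hd)
      (by intro y; rw [e3]; ring)
    simpa using this
  refine ⟨?_, e13 m.1 m.2.1 m.2.2⟩
  have hgd : Differentiable ℝ (fun m' => - p2 F m') := (cd_p2 hF).neg.differentiable (by simp)
  have hEE : EE F (fun m' => - p2 F m') = fun _ => 0 := by
    funext m'
    obtain ⟨x, s, c⟩ := m'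
    have hB := BB_pos (s := s) h0 h1
    have d1 : p1 (fun m' => - p2 F m') (x, s, c) =
        (GG s lam * (1 + s * AA s lam) ^ 2) * x + GG s lam * (1 + s * AA s lam) * (s * BB s lam * c) := by
      refine hd_quad' (k := GG s lam / 2 * (s * BB s lam * c) ^ 2) (hd_p1 (hgd (x, s, c))) ?_
      intro y
      rw [e2]
      ring
    have d3 : p3 (fun m' => - p2 F m') (x, s, c) =
        (GG s lam * (s * BB s lam) ^ 2) * c + GG s lam * (1 + s * AA s lam) * (s * BB s lam) * x := by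
      refine hd_quad' (k := GG s lam / 2 * ((1 + s * AA s lam) * x) ^ 2) (hd_p3 (hgd (x, s, c))) ?_
      intro y
      rw [e2]
      ring
    unfold EE
    rw [d1, d3, e11, e13]
    simp only
    field_simp
    ring
  unfold cost3
  rw [hEE]
  unfold EE p1 p3
  simp

/-! ### the generating function -/

/-- the slow variable -/
noncomputable def SL (eps : ℝ) (z : ℝ × ℝ) : ℝ :=
  Real.smoothTransition (0 + eps * Real.log (z.1 ^ 2 + z.2 ^ 2) / 2)

theorem SL_zero {eps : ℝ} (he : 0 ≤ eps) {z : ℝ × ℝ} (hz : z.1 ^ 2 + z.2 ^ 2 ≤ 1) : SL eps z = 0 := by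
  unfold SL
  apply Real.smoothTransition.zero_of_nonpos
  have : Real.log (z.1 ^ 2 + z.2 ^ 2) ≤ 0 := Real.log_nonpos (by positivity) hz
  nlinarith

theorem SL_one {eps : ℝ} (he : 0 < eps) {z : ℝ × ℝ}
    (hz : Real.exp (1 / eps) ^ 2 ≤ z.1 ^ 2 + z.2 ^ 2) : SL eps z = 1 := by
  unfold SL
  apply Real.smoothTransition.one_of_one_le
  have h1 : Real.log (Real.exp (1 / eps) ^ 2) ≤ Real.log (z.1 ^ 2 + z.2 ^ 2) :=
    Real.log_le_log (by positivity) hz
  rw [Real.log_pow, Real.log_exp] at h1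
  push_cast at h1
  have h2 : eps * (2 * (1 / eps)) = 2 := by field_simp
  nlinarith

theorem SL_contDiff {eps : ℝ} (he : 0 ≤ eps) : ContDiff ℝ ∞ (SL eps) := by
  rw [contDiff_iff_contDiffAt]
  intro z
  by_cases hz : z.1 ^ 2 + z.2 ^ 2 = 0
  · have h1 : ∀ᶠ z' : ℝ × ℝ in 𝓝 z, z'.1 ^ 2 + z'.2 ^ 2 < 1 := by
      have hc : Continuous (fun z' : ℝ × ℝ => z'.1 ^ 2 + z'.2 ^ 2) := by fun_prop
      have := hc.tendsto z
      rw [hz] at this
      exact this.eventually (gt_mem_nhds one_pos)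
    have h2 : SL eps =ᶠ[𝓝 z] fun _ => 0 := by
      filter_upwards [h1] with z' hz'
      exact SL_zero he hz'.le
    exact contDiffAt_const.congr_of_eventuallyEq h2
  · unfold SL
    apply (Real.smoothTransition.contDiffAt (n := ⊤)).comp z
    have h3 : ContDiffAt ℝ ∞ (fun z : ℝ × ℝ => z.1 ^ 2 + z.2 ^ 2) z := by fun_prop
    have h4 : ContDiffAt ℝ ∞ (fun z : ℝ × ℝ => Real.log (z.1 ^ 2 + z.2 ^ 2)) z := h3.log hz
    exact contDiffAt_const.add ((contDiffAt_const.mul h4).div_const 2)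

/-- parameter function -/
noncomputable def lamB (q : ℝ → ℝ) (eps : ℝ) (m : E4) : ℝ :=
  lamf (q m.2.2.2) (0 + eps * Real.log (m.1 ^ 2 + m.2.2.1 ^ 2) / 2)

/-- the generating function of the block -/
noncomputable def ZB (q : ℝ → ℝ) (eps : ℝ) (m : E4) : ℝ := QQ m.1 m.2.1 m.2.2.1 (lamB q eps m)

theorem lamB_eq (q : ℝ → ℝ) (eps : ℝ) (m : E4) :
    lamB q eps m = Real.exp (-2 * q m.2.2.2 * Real.log 4096 * (1 - SL eps (m.1, m.2.2.1))) := rfl

theorem ZB_eq (q : ℝ → ℝ) (eps x s c e : ℝ) : ZB q eps (x, s, c, e) = ZZ (q e) 0 eps (x, s, c) := rfl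

theorem lamB_pos (q : ℝ → ℝ) (eps : ℝ) (m : E4) : 0 < lamB q eps m := lamf_pos _ _

theorem lamB_le {q : ℝ → ℝ} (hq : ∀ e, 0 ≤ q e) (eps : ℝ) (m : E4) : lamB q eps m ≤ 1 :=
  lamf_le_one (hq _)

theorem lamB_contDiff {q : ℝ → ℝ} (hq : ContDiff ℝ ∞ q) {eps : ℝ} (he : 0 ≤ eps) :
    ContDiff ℝ ∞ (lamB q eps) := by
  have h : lamB q eps = fun m : E4 =>
      Real.exp (-2 * q m.2.2.2 * Real.log 4096 * (1 - SL eps (m.1, m.2.2.1))) := rfl
  rw [h]
  have h1 : ContDiff ℝ ∞ (fun m : E4 => q m.2.2.2) := hq.comp (by fun_prop)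
  have h2 : ContDiff ℝ ∞ (fun m : E4 => SL eps (m.1, m.2.2.1)) := (SL_contDiff he).comp (by fun_prop)
  fun_prop

theorem ZB_contDiff {q : ℝ → ℝ} (hq : ContDiff ℝ ∞ q) (hq0 : ∀ e, 0 ≤ q e) {eps : ℝ} (he : 0 ≤ eps) :
    ContDiff ℝ ∞ (ZB q eps) := by
  rw [contDiff_iff_contDiffAt]
  intro m
  have h2 := QQ_contDiffAt (x := m.1) (s := m.2.1) (c := m.2.2.1) (lamB_pos q eps m) (lamB_le hq0 eps m)
  have h3 : ContDiffAt ℝ ∞ (fun m' : E4 => ((m'.1, m'.2.1, m'.2.2.1, lamB q eps m') : ℝ × ℝ × ℝ × ℝ)) m := by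
    have := (lamB_contDiff hq he).contDiffAt (x := m)
    fun_prop
  exact ContDiffAt.comp (g := fun m : ℝ × ℝ × ℝ × ℝ => QQ m.1 m.2.1 m.2.2.1 m.2.2.2) m h2 h3

/-- slices in the energy variable -/
theorem FB_contDiff {q : ℝ → ℝ} (hq : ContDiff ℝ ∞ q) (hq0 : ∀ e, 0 ≤ q e) {eps : ℝ} (he : 0 ≤ eps)
    (e : ℝ) : ContDiff ℝ ∞ (ZZ (q e) 0 eps) := by
  have h : ZZ (q e) 0 eps = fun m => ZB q eps (m.1, m.2.1, m.2.2, e) := rfl
  rw [h]
  exact (ZB_contDiff hq hq0 he).comp (by fun_prop)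

theorem QQ_hom (μ x s c lam : ℝ) : QQ (μ * x) s (μ * c) lam = μ ^ 2 * QQ x s c lam := by
  unfold QQ; ring

/-- scaling of the generating function -/
theorem ZZ_scale (q eps : ℝ) {μ : ℝ} (hμ : 0 < μ) :
    ZZ q (eps * Real.log μ) eps = fun m => (μ ^ 2)⁻¹ * ZZ q 0 eps (scl μ m) := by
  funext m
  obtain ⟨x, s, c⟩ := m
  rw [scl_apply]
  unfold ZZ
  simp only
  rw [QQ_hom]
  by_cases h0 : x ^ 2 + c ^ 2 = 0
  · have hx : x = 0 := by nlinarith [sq_nonneg x, sq_nonneg c]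
    have hc : c = 0 := by nlinarith [sq_nonneg x, sq_nonneg c]
    subst hx hc
    unfold QQ
    simp
  · have e1 : (μ * x) ^ 2 + (μ * c) ^ 2 = μ ^ 2 * (x ^ 2 + c ^ 2) := by ring
    rw [e1, Real.log_mul (by positivity) h0, Real.log_pow]
    have e2 : eps * Real.log μ + eps * Real.log (x ^ 2 + c ^ 2) / 2 =
        0 + eps * (((2 : ℕ) : ℝ) * Real.log μ + Real.log (x ^ 2 + c ^ 2)) / 2 := by
      push_cast; ring
    rw [e2]
    field_simp

/-- all of the plane: cost and monotonicity -/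
theorem cost_all {q δ eps e1 : ℝ} (hq0 : 0 ≤ q) (hq1 : q ≤ 1) (hδ : 0 < δ) (he : 0 < eps) (he1 : eps ≤ e1)
    (hF : ContDiff ℝ ∞ (ZZ q 0 eps))
    (H : ∀ q L eps : ℝ, 0 ≤ q → q ≤ 1 → 0 ≤ L → L ≤ 1 → 0 ≤ eps → eps ≤ e1 →
      ∀ x s c : ℝ, |s| ≤ 16 → x ^ 2 + c ^ 2 = 1 →
      |cost3 (ZZ q L eps) (x, s, c)| ≤ δ ∧ 0 < p1 (p3 (ZZ q L eps)) (x, s, c)) :
    (∀ m, 0 < p1 (p3 (ZZ q 0 eps)) m) ∧ ∀ m, |cost3 (ZZ q 0 eps) m| ≤ δ := by
  -- regions where the function is locally `x * c`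
  have hone : ∀ m : ℝ × ℝ × ℝ, (ZZ q 0 eps =ᶠ[𝓝 m] fun m' => QQ m'.1 m'.2.1 m'.2.2 1) →
      0 < p1 (p3 (ZZ q 0 eps)) m ∧ |cost3 (ZZ q 0 eps) m| ≤ δ := by
    intro m hm
    have h1 := cost3_const (lam := 1) one_pos le_rfl m
    rw [cost3_congr hm, h1.1, (p1_congr (p3_congr hm)).eq_of_nhds, h1.2]
    refine ⟨BB_pos one_pos le_rfl, ?_⟩
    simpa using hδ.le
  have hreg : ∀ m : ℝ × ℝ × ℝ, 1 ≤ m.1 ^ 2 + m.2.2 ^ 2 → m.1 ^ 2 + m.2.2 ^ 2 ≤ Real.exp (1 / eps) ^ 2 →
      |m.2.1| ≤ 16 → 0 < p1 (p3 (ZZ q 0 eps)) m ∧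
        ((∀ m, p1 (p3 (ZZ q 0 eps)) m ≠ 0) → |cost3 (ZZ q 0 eps) m| ≤ δ) := by
    intro m h1 h2 h3
    obtain ⟨x, s, c⟩ := m
    simp only at h1 h2 h3
    set μ := Real.sqrt (x ^ 2 + c ^ 2) with hμ
    have hμ1 : 1 ≤ μ := by
      rw [hμ]; exact Real.one_le_sqrt.mpr h1
    have hμ0 : 0 < μ := by linarith
    have hμsq : μ ^ 2 = x ^ 2 + c ^ 2 := Real.sq_sqrt (by positivity)
    have hL0 : 0 ≤ eps * Real.log μ := mul_nonneg he.le (Real.log_nonneg hμ1)
    have hL1 : eps * Real.log μ ≤ 1 := by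
      have h4 : μ ≤ Real.exp (1 / eps) := by
        have : μ ^ 2 ≤ Real.exp (1 / eps) ^ 2 := by rw [hμsq]; exact h2
        exact le_of_sq_le_sq this (Real.exp_pos _).le
      have h5 : Real.log μ ≤ 1 / eps := by
        rw [← Real.log_exp (1 / eps)]
        exact Real.log_le_log hμ0 h4
      calc eps * Real.log μ ≤ eps * (1 / eps) := by gcongr
        _ = 1 := by field_simp
    have h6 := H q (eps * Real.log μ) eps hq0 hq1 hL0 hL1 he.le he1 (x / μ) s (c / μ) h3 (by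
      rw [div_pow, div_pow, ← add_div, ← hμsq, div_self (by positivity)])
    have h7 : scl μ (x / μ, s, c / μ) = (x, s, c) := by
      rw [scl_apply]
      simp only
      rw [mul_div_cancel₀ _ hμ0.ne', mul_div_cancel₀ _ hμ0.ne']
    rw [ZZ_scale q eps hμ0] at h6
    have hpos : 0 < p1 (p3 (ZZ q 0 eps)) (x, s, c) := by
      have h8 : p1 (p3 (fun m' => (μ ^ 2)⁻¹ * ZZ q 0 eps (scl μ m'))) =
          fun m' => p1 (p3 (ZZ q 0 eps)) (scl μ m') := by
        have hd {g : ℝ × ℝ × ℝ → ℝ} (hg : ContDiff ℝ ∞ g) : Differentiable ℝ g :=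
          hg.differentiable (by simp)
        rw [p3_scl (hd hF), p1_scl (hd (cd_p3 hF))]
        funext m'
        field_simp
      have h9 := h6.2
      rw [h8] at h9
      simpa [h7] using h9
    refine ⟨hpos, fun hne => ?_⟩
    have h8 := cost3_scl hF hne hμ0.ne' (x / μ, s, c / μ)
    rw [h8.1, h7] at h6
    exact h6.1
  have hpos : ∀ m, 0 < p1 (p3 (ZZ q 0 eps)) m ∧
      ((∀ m, p1 (p3 (ZZ q 0 eps)) m ≠ 0) → |cost3 (ZZ q 0 eps) m| ≤ δ) := by
    intro m
    by_cases hs : |m.2.1| ≤ 16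
    · by_cases ha : m.1 ^ 2 + m.2.2 ^ 2 < 1
      · -- constant parameter
        have hlam : 0 < lamf q 0 := lamf_pos _ _
        have hlam1 : lamf q 0 ≤ 1 := lamf_le_one hq0
        have hc : Continuous (fun z' : ℝ × ℝ × ℝ => z'.1 ^ 2 + z'.2.2 ^ 2) := by fun_prop
        have h1 : ZZ q 0 eps =ᶠ[𝓝 m] fun m' => QQ m'.1 m'.2.1 m'.2.2 (lamf q 0) := by
          have h2 : ∀ᶠ m' : ℝ × ℝ × ℝ in 𝓝 m, m'.1 ^ 2 + m'.2.2 ^ 2 < 1 :=
            (hc.tendsto m).eventually (gt_mem_nhds ha)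
          filter_upwards [h2] with m' hm'
          unfold ZZ lamf
          have h3 := SL_zero he.le (z := (m'.1, m'.2.2)) hm'.le
          unfold SL at h3
          rw [h3, Real.smoothTransition.zero_of_nonpos le_rfl]
        have h4 := cost3_const hlam hlam1 m
        rw [cost3_congr h1, h4.1, (p1_congr (p3_congr h1)).eq_of_nhds, h4.2]
        refine ⟨BB_pos hlam hlam1, fun _ => ?_⟩
        simpa using hδ.le
      · by_cases hb : m.1 ^ 2 + m.2.2 ^ 2 ≤ Real.exp (1 / eps) ^ 2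
        · exact hreg m (not_lt.mp ha) hb hs
        · -- far
          have hc : Continuous (fun z' : ℝ × ℝ × ℝ => z'.1 ^ 2 + z'.2.2 ^ 2) := by fun_prop
          have h1 : ZZ q 0 eps =ᶠ[𝓝 m] fun m' => QQ m'.1 m'.2.1 m'.2.2 1 := by
            have h2 : ∀ᶠ m' : ℝ × ℝ × ℝ in 𝓝 m, Real.exp (1 / eps) ^ 2 < m'.1 ^ 2 + m'.2.2 ^ 2 :=
              (hc.tendsto m).eventually (lt_mem_nhds (not_le.mp hb))
            filter_upwards [h2] with m' hm'
            unfold ZZ lamf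
            have h3 := SL_one he (z := (m'.1, m'.2.2)) hm'.le
            unfold SL at h3
            rw [h3]
            simp
          exact ⟨(hone m h1).1, fun _ => (hone m h1).2⟩
    · have h1 : ZZ q 0 eps =ᶠ[𝓝 m] fun m' => QQ m'.1 m'.2.1 m'.2.2 1 := by
        have hc : Continuous (fun z' : ℝ × ℝ × ℝ => |z'.2.1|) := by fun_prop
        have h2 : ∀ᶠ m' : ℝ × ℝ × ℝ in 𝓝 m, 16 < |m'.2.1| :=
          (hc.tendsto m).eventually (lt_mem_nhds (not_le.mp hs))
        filter_upwards [h2] with m' hm'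
        unfold ZZ
        rw [QQ_far hm'.le (lamf_pos _ _) (lamf_le_one hq0), QQ_one]
      exact ⟨(hone m h1).1, fun _ => (hone m h1).2⟩
  exact ⟨fun m => (hpos m).1, fun m => (hpos m).2 (fun m' => (hpos m').1.ne')⟩

/-! ### symmetric second derivatives -/

theorem fderiv_fderiv_apply {E : Type*} [NormedAddCommGroup E] [NormedSpace ℝ E] {f : E → ℝ}
    (hf : ContDiff ℝ ∞ f) (m v w : E) :
    fderiv ℝ (fun m' => fderiv ℝ f m' v) m w = fderiv ℝ (fderiv ℝ f) m w v := by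
  have h1 : DifferentiableAt ℝ (fderiv ℝ f) m :=
    ((hf.fderiv_right (m := ∞) (by simp)).differentiable (by simp)) m
  have h2 := (h1.hasFDerivAt.clm_apply (hasFDerivAt_const v m)).fderiv
  rw [h2]
  simp

theorem symm2 {E : Type*} [NormedAddCommGroup E] [NormedSpace ℝ E] {f : E → ℝ}
    (hf : ContDiff ℝ ∞ f) (m v w : E) :
    fderiv ℝ (fderiv ℝ f) m v w = fderiv ℝ (fderiv ℝ f) m w v := by
  have h : IsSymmSndFDerivAt ℝ f m := by
    have h2 : ContDiff ℝ 2 f := contDiff_infty.mp hf 2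
    exact ContDiffAt.isSymmSndFDerivAt (n := 2) h2.contDiffAt (by simp)
  exact h v w

theorem p31 {F : ℝ × ℝ × ℝ → ℝ} (hF : ContDiff ℝ ∞ F) (m : ℝ × ℝ × ℝ) : p3 (p1 F) m = p1 (p3 F) m := by
  unfold p3 p1
  rw [fderiv_fderiv_apply hF, fderiv_fderiv_apply hF, symm2 hF]

/-- second derivative along a line -/
theorem D2_line {E : Type*} [NormedAddCommGroup E] [NormedSpace ℝ E] {f : E → ℝ}
    (hf : ContDiff ℝ ∞ f) (m v : E) {g' : ℝ → ℝ} {k : ℝ}
    (h1 : ∀ t : ℝ, HasDerivAt (fun t : ℝ => f (m + t • v)) (g' t) t) (h2 : HasDerivAt g' k 0) :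
    D2 f m v = k := by
  have hl : ∀ t : ℝ, HasDerivAt (fun t : ℝ => m + t • v) v t := by
    intro t
    simpa using ((hasDerivAt_id t).smul_const v).const_add m
  have e1 : ∀ t : ℝ, g' t = fderiv ℝ f (m + t • v) v := by
    intro t
    have h3 := ((hf.differentiable (by simp)) (m + t • v)).hasFDerivAt.comp_hasDerivAt t (hl t)
    exact (h1 t).unique h3
  have e2 : g' = fun t => fderiv ℝ f (m + t • v) v := funext e1
  rw [e2] at h2
  have hd : DifferentiableAt ℝ (fderiv ℝ f) (m + (0:ℝ) • v) :=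
    ((hf.fderiv_right (m := ∞) (by simp)).differentiable (by simp)) _
  have h3 : HasFDerivAt (fun m' => fderiv ℝ f m' v)
      ((fderiv ℝ (fderiv ℝ f) (m + (0:ℝ) • v)).flip v) (m + (0:ℝ) • v) := by
    have := hd.hasFDerivAt.clm_apply (hasFDerivAt_const v (m + (0:ℝ) • v))
    refine this.congr_fderiv ?_
    ext w
    simp
  have h4 := h3.comp_hasDerivAt (0:ℝ) (hl 0)
  have h5 := h4.unique h2
  unfold D2
  simpa using h5

/-! ### the block -/

theorem exists_block' {r δ : ℝ} (hr : 0 < r) (hδ : 0 < δ) :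
    ∃ (R : ℝ) (Z G : E4 → ℝ), Block r δ R Z G := by
  obtain ⟨eps, heps, H⟩ := cost_small hδ
  let f : ContDiffBump (1 : ℝ) := ⟨r / 2, r, by positivity, by linarith⟩
  let q : ℝ → ℝ := fun e => f e
  have hq : ContDiff ℝ ∞ q := f.contDiff
  have hq0 : ∀ e, 0 ≤ q e := fun e => f.nonneg
  have hq1 : ∀ e, q e ≤ 1 := fun e => f.le_one
  have hqin : ∀ e, |e - 1| ≤ r / 2 → q e = 1 := by
    intro e he
    apply f.one_of_mem_closedBall
    rw [Metric.mem_closedBall, Real.dist_eq]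
    exact he
  have hqout : ∀ e, r ≤ |e - 1| → q e = 0 := by
    intro e he
    apply f.zero_of_le_dist
    rw [Real.dist_eq]
    exact he
  set R : ℝ := Real.exp (1 / eps) with hR
  have hR1 : 1 ≤ R := by
    rw [hR]; exact Real.one_le_exp (by positivity)
  have hZ : ContDiff ℝ ∞ (ZB q eps) := ZB_contDiff hq hq0 heps.le
  have hZd : Differentiable ℝ (ZB q eps) := hZ.differentiable (by simp)
  have hF : ∀ e, ContDiff ℝ ∞ (ZZ (q e) 0 eps) := fun e => FB_contDiff hq hq0 heps.le e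
  have hFd : ∀ e, Differentiable ℝ (ZZ (q e) 0 eps) := fun e => (hF e).differentiable (by simp)
  have hcost : ∀ e, (∀ m, 0 < p1 (p3 (ZZ (q e) 0 eps)) m) ∧ ∀ m, |cost3 (ZZ (q e) 0 eps) m| ≤ δ :=
    fun e => cost_all (hq0 e) (hq1 e) hδ heps le_rfl (hF e) H
  -- far region
  have hfar : ∀ x s c e : ℝ, (16 ≤ |s| ∨ R ≤ |x| ∨ R ≤ |c| ∨ r ≤ |e - 1|) →
      ZB q eps (x, s, c, e) = x * c := by
    intro x s c e h
    rcases h with h | h | h | h
    · exact QQ_far h (lamB_pos _ _ _) (lamB_le hq0 _ _)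
    · have h1 : SL eps (x, c) = 1 := by
        apply SL_one heps
        rw [← hR]
        have : R ^ 2 ≤ x ^ 2 := by rw [← sq_abs x]; gcongr
        simp only
        nlinarith [sq_nonneg c]
      have h2 : lamB q eps (x, s, c, e) = 1 := by
        rw [lamB_eq]; simp [h1]
      unfold ZB
      rw [h2]
      exact QQ_one _ _ _
    · have h1 : SL eps (x, c) = 1 := by
        apply SL_one heps
        rw [← hR]
        have : R ^ 2 ≤ c ^ 2 := by rw [← sq_abs c]; gcongr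
        simp only
        nlinarith [sq_nonneg x]
      have h2 : lamB q eps (x, s, c, e) = 1 := by
        rw [lamB_eq]; simp [h1]
      unfold ZB
      rw [h2]
      exact QQ_one _ _ _
    · have h2 : lamB q eps (x, s, c, e) = 1 := by
        rw [lamB_eq]; simp [hqout e h]
      unfold ZB
      rw [h2]
      exact QQ_one _ _ _
  -- smoothness of partial derivatives
  have cdX : ∀ {g : E4 → ℝ}, ContDiff ℝ ∞ g → ContDiff ℝ ∞ (dX g) := by
    intro g hg
    unfold dX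
    exact (hg.fderiv_right (m := ∞) (by simp)).clm_apply contDiff_const
  have cdT : ∀ {g : E4 → ℝ}, ContDiff ℝ ∞ g → ContDiff ℝ ∞ (dT g) := by
    intro g hg
    unfold dT
    exact (hg.fderiv_right (m := ∞) (by simp)).clm_apply contDiff_const
  have cdP : ∀ {g : E4 → ℝ}, ContDiff ℝ ∞ g → ContDiff ℝ ∞ (dP g) := by
    intro g hg
    unfold dP
    exact (hg.fderiv_right (m := ∞) (by simp)).clm_apply contDiff_const
  -- slices
  have sX : ∀ {g : E4 → ℝ} {g' : ℝ → ℝ × ℝ × ℝ → ℝ}, ContDiff ℝ ∞ g → (∀ e, ContDiff ℝ ∞ (g' e)) →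
      (∀ x s c e, g (x, s, c, e) = g' e (x, s, c)) → ∀ x s c e, dX g (x, s, c, e) = p1 (g' e) (x, s, c) := by
    intro g g' hg hg' h x s c e
    have h1 := hd_dX ((hg.differentiable (by simp)) (x, s, c, e))
    have h2 := hd_p1 (((hg' e).differentiable (by simp)) (x, s, c))
    simp only [h] at h1
    exact h1.unique h2
  have sT : ∀ {g : E4 → ℝ} {g' : ℝ → ℝ × ℝ × ℝ → ℝ}, ContDiff ℝ ∞ g → (∀ e, ContDiff ℝ ∞ (g' e)) →
      (∀ x s c e, g (x, s, c, e) = g' e (x, s, c)) → ∀ x s c e, dT g (x, s, c, e) = p2 (g' e) (x, s, c) := by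
    intro g g' hg hg' h x s c e
    have h1 := hd_dT ((hg.differentiable (by simp)) (x, s, c, e))
    have h2 := hd_p2 (((hg' e).differentiable (by simp)) (x, s, c))
    simp only [h] at h1
    exact h1.unique h2
  have sP : ∀ {g : E4 → ℝ} {g' : ℝ → ℝ × ℝ × ℝ → ℝ}, ContDiff ℝ ∞ g → (∀ e, ContDiff ℝ ∞ (g' e)) →
      (∀ x s c e, g (x, s, c, e) = g' e (x, s, c)) → ∀ x s c e, dP g (x, s, c, e) = p3 (g' e) (x, s, c) := by
    intro g g' hg hg' h x s c e
    have h1 := hd_dP ((hg.differentiable (by simp)) (x, s, c, e))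
    have h2 := hd_p3 (((hg' e).differentiable (by simp)) (x, s, c))
    simp only [h] at h1
    exact h1.unique h2
  have zX := sX (g := ZB q eps) (g' := fun e => ZZ (q e) 0 eps) hZ hF (fun _ _ _ _ => rfl)
  have zT := sT (g := ZB q eps) (g' := fun e => ZZ (q e) 0 eps) hZ hF (fun _ _ _ _ => rfl)
  have zP := sP (g := ZB q eps) (g' := fun e => ZZ (q e) 0 eps) hZ hF (fun _ _ _ _ => rfl)
  have zXP := sX (g := dP (ZB q eps)) (g' := fun e => p3 (ZZ (q e) 0 eps)) (cdP hZ)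
    (fun e => cd_p3 (hF e)) zP
  have zPX := sP (g := dX (ZB q eps)) (g' := fun e => p1 (ZZ (q e) 0 eps)) (cdX hZ)
    (fun e => cd_p1 (hF e)) zX
  -- derivatives in the far region
  have dXfar : ∀ x s c e : ℝ, R ≤ |c| → dX (ZB q eps) (x, s, c, e) = c := by
    intro x s c e hc
    have h1 := hd_dX (hZd (x, s, c, e))
    have h2 : (fun x' => ZB q eps (x', s, c, e)) = fun x' => x' * c := by
      funext x'
      exact hfar x' s c e (Or.inr (Or.inr (Or.inl hc)))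
    rw [h2] at h1
    have h3 : HasDerivAt (fun x' : ℝ => x' * c) c x := by
      simpa using (hasDerivAt_id x).mul_const c
    exact h1.unique h3
  have dTfar : ∀ x s c e : ℝ, (16 ≤ |s| ∨ |s| ≤ 1 ∨ R ≤ |x| ∨ R ≤ |c| ∨ r ≤ |e - 1|) →
      dT (ZB q eps) (x, s, c, e) = 0 := by
    intro x s c e h
    have h1 := hd_dT (hZd (x, s, c, e))
    rcases h with h | h | h | h | h
    · rcases le_abs'.mp h with h' | h'
      · apply deriv_zero_of (k := x * c) (S := Set.Iic (-16)) h1 (uniqueDiffOn_Iic (-16) s h') h'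
        intro y hy
        apply hfar
        left
        rw [Set.mem_Iic] at hy
        rw [abs_of_neg (by linarith)]
        linarith
      · apply deriv_zero_of (k := x * c) (S := Set.Ici 16) h1 (uniqueDiffOn_Ici 16 s h') h'
        intro y hy
        apply hfar
        left
        rw [Set.mem_Ici] at hy
        exact hy.trans (le_abs_self y)
    · have h' : s ∈ Set.Icc (-1 : ℝ) 1 := abs_le.mp h
      apply deriv_zero_of (k := Real.sqrt (lamB q eps (x, 0, c, e)) * x * c) (S := Set.Icc (-1) 1) h1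
        (uniqueDiffOn_Icc (by norm_num) s h') h'
      intro y hy
      exact QQ_hold (abs_le.mpr hy) (lamB_pos _ _ _) (lamB_le hq0 _ _)
    · have h2 : (fun s' => ZB q eps (x, s', c, e)) = fun _ => x * c := by
        funext s'
        exact hfar x s' c e (Or.inr (Or.inl h))
      rw [h2] at h1
      exact h1.unique (hasDerivAt_const _ _)
    · have h2 : (fun s' => ZB q eps (x, s', c, e)) = fun _ => x * c := by
        funext s'
        exact hfar x s' c e (Or.inr (Or.inr (Or.inl h)))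
      rw [h2] at h1
      exact h1.unique (hasDerivAt_const _ _)
    · have h2 : (fun s' => ZB q eps (x, s', c, e)) = fun _ => x * c := by
        funext s'
        exact hfar x s' c e (Or.inr (Or.inr (Or.inr h)))
      rw [h2] at h1
      exact h1.unique (hasDerivAt_const _ _)
  -- the inverse function
  let g0 : ℝ × (ℝ × ℝ × ℝ) → ℝ := fun z => dX (ZB q eps) (z.2.1, z.2.2.1, z.1, z.2.2.2)
  have hg0 : ContDiff ℝ ∞ g0 := (cdX hZ).comp (by fun_prop)
  have hg0d : ∀ c x s e : ℝ, HasDerivAt (fun c' => g0 (c', (x, s, e))) (p1 (p3 (ZZ (q e) 0 eps)) (x, s, c)) c := by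
    intro c x s e
    have h1 := hd_dP (((cdX hZ).differentiable (by simp)) (x, s, c, e))
    rw [zPX, p31 (hF e)] at h1
    exact h1
  have hg0pos : ∀ z, 0 < fderiv ℝ g0 z (1, 0) := by
    intro z
    obtain ⟨c, x, s, e⟩ := z
    have h1 : HasDerivAt (fun c' : ℝ => ((c', (x, s, e)) : ℝ × (ℝ × ℝ × ℝ))) (1, 0) c :=
      (hasDerivAt_id c).prodMk (hasDerivAt_const c (x, s, e))
    have h2 := ((hg0.differentiable (by simp)) (c, (x, s, e))).hasFDerivAt.comp_hasDerivAt c h1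
    have h3 := (hg0d c x s e).unique h2
    rw [← h3]
    exact (hcost e).1 _
  have hg0surj : ∀ (y : ℝ × ℝ × ℝ) (p : ℝ), ∃ c, g0 (c, y) = p := by
    intro y p
    obtain ⟨x, s, e⟩ := y
    set A : ℝ := max R |p| with hA
    have hAR : R ≤ A := le_max_left _ _
    have hAp : |p| ≤ A := le_max_right _ _
    have hA0 : 0 ≤ A := by linarith
    have h1 : g0 (A, (x, s, e)) = A := dXfar x s A e (by rw [abs_of_nonneg hA0]; exact hAR)
    have h2 : g0 (-A, (x, s, e)) = -A := dXfar x s (-A) e (by rw [abs_neg, abs_of_nonneg hA0]; exact hAR)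
    have hc : Continuous (fun c => g0 (c, (x, s, e))) := hg0.continuous.comp (by fun_prop)
    have h3 := intermediate_value_Icc (a := -A) (b := A) (by linarith) hc.continuousOn
    have h4 : p ∈ Set.Icc ((fun c => g0 (c, (x, s, e))) (-A)) ((fun c => g0 (c, (x, s, e))) A) := by
      simp only [h1, h2]
      exact abs_le.mp hAp
    obtain ⟨c, _, hc⟩ := h3 h4
    exact ⟨c, hc⟩
  obtain ⟨C, hC, hC1, hC2⟩ := inv1 (n := ∞) (by simp) g0 hg0 hg0pos hg0surj
  let G : E4 → ℝ := fun m => - dT (ZB q eps) (m.1, m.2.1, C (m.2.2.1, (m.1, m.2.1, m.2.2.2)), m.2.2.2)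
  have hG : ContDiff ℝ ∞ G := by
    have h1 : ContDiff ℝ ∞ (fun m : E4 =>
        ((m.1, m.2.1, C (m.2.2.1, (m.1, m.2.1, m.2.2.2)), m.2.2.2) : E4)) := by fun_prop
    exact ((cdT hZ).comp h1).neg
  have hGrel : ∀ x s c e : ℝ, G (x, s, dX (ZB q eps) (x, s, c, e), e) = - dT (ZB q eps) (x, s, c, e) := by
    intro x s c e
    have h1 := hC2 c (x, s, e)
    show - dT (ZB q eps) (x, s, C (g0 (c, (x, s, e)), (x, s, e)), e) = _
    rw [h1]
  refine ⟨R, ZB q eps, G, ?_⟩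
  refine
    { smZ := hZ
      smG := hG
      one_le := hR1
      far := hfar
      mono := ?_
      rel := hGrel
      Gfar := ?_
      hold0 := ?_
      hold1 := ?_
      flatE := ?_
      cost := ?_ }
  · intro m
    have h1 := zXP m.1 m.2.1 m.2.2.1 m.2.2.2
    have h2 := (hcost m.2.2.2).1 (m.1, m.2.1, m.2.2.1)
    rw [← h1] at h2
    exact h2
  · intro x s p e h
    show - dT (ZB q eps) (x, s, C (p, (x, s, e)), e) = 0
    rw [neg_eq_zero]
    rcases h with h | h | h | h | h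
    · exact dTfar _ _ _ _ (Or.inl h)
    · exact dTfar _ _ _ _ (Or.inr (Or.inl h))
    · exact dTfar _ _ _ _ (Or.inr (Or.inr (Or.inl h)))
    · have h1 : C (p, (x, s, e)) = p := by
        have h2 := hC2 p (x, s, e)
        have h3 : g0 (p, (x, s, e)) = p := dXfar x s p e h
        rw [h3] at h2
        exact h2
      rw [h1]
      exact dTfar _ _ _ _ (Or.inr (Or.inr (Or.inr (Or.inl h))))
    · exact dTfar _ _ _ _ (Or.inr (Or.inr (Or.inr (Or.inr h))))
  · intro x s e hs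
    have h1 := hd_dX (hZd (x, s, 0, e))
    have h2 : (fun x' => ZB q eps (x', s, 0, e)) = fun _ => 0 := by
      funext x'
      show QQ x' s 0 (lamB q eps (x', s, 0, e)) = 0
      rw [QQ_hold hs (lamB_pos _ _ _) (lamB_le hq0 _ _)]
      ring
    rw [h2] at h1
    exact h1.unique (hasDerivAt_const _ _)
  · intro x s hs hx
    have h1 := hd_dP (hZd (x, s, 0, 1))
    -- derivative of `sqrt (lam) * x * c` at `c = 0`
    have hl : ContDiff ℝ ∞ (fun c : ℝ => Real.sqrt (lamB q eps (x, s, c, 1)) * x) := by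
      have h3 : ContDiff ℝ ∞ (fun c : ℝ => lamB q eps (x, s, c, 1)) :=
        (lamB_contDiff hq heps.le).comp (by fun_prop)
      exact (h3.sqrt (fun c => (lamB_pos _ _ _).ne')).mul contDiff_const
    have h4 := ((hl.differentiable (by simp)) 0).hasDerivAt.mul (hasDerivAt_id (0:ℝ))
    have h5 : (fun c' => ZB q eps (x, s, c', 1)) =
        (fun c : ℝ => Real.sqrt (lamB q eps (x, s, c, 1)) * x) * id := by
      funext c'
      show QQ x s c' (lamB q eps (x, s, c', 1)) = Real.sqrt (lamB q eps (x, s, c', 1)) * x * c'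
      rw [QQ_hold hs (lamB_pos _ _ _) (lamB_le hq0 _ _)]
    rw [h5] at h1
    have h6 := h1.unique h4
    rw [h6]
    have h7 : lamB q eps (x, s, 0, 1) = (1 / 4096) ^ 2 := by
      rw [lamB_eq]
      have h8 : SL eps (x, 0) = 0 := by
        apply SL_zero heps.le
        simp only
        have := sq_abs x
        have h9 : |x| ^ 2 ≤ 1 := pow_le_one₀ (abs_nonneg x) hx
        nlinarith
      have h9 : q 1 = 1 := hqin 1 (by simp; positivity)
      simp only
      rw [h8, h9]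
      have e1 : (-2 * 1 * Real.log 4096 * (1 - 0) : ℝ) = Real.log ((1 / 4096) ^ 2) := by
        rw [Real.log_pow, one_div, Real.log_inv]
        push_cast
        ring
      rw [e1, Real.exp_log (by norm_num)]
    rw [h7, Real.sqrt_sq (by norm_num)]
    simp
    ring
  · intro m hm
    obtain ⟨x, s, p, e⟩ := m
    simp only at hm
    have h1 := hd_dE ((hG.differentiable (by simp)) (x, s, p, e))
    have hloc : ∀ e', |e' - 1| < r / 2 → G (x, s, p, e') = G (x, s, p, 1) := by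
      intro e' he'
      have hq' : q e' = q 1 := by
        rw [hqin e' he'.le, hqin 1 (by simp; positivity)]
      have hZe : ∀ x s c, ZB q eps (x, s, c, e') = ZB q eps (x, s, c, 1) := by
        intro x s c
        rw [ZB_eq, ZB_eq, hq']
      have hX : ∀ c, dX (ZB q eps) (x, s, c, e') = dX (ZB q eps) (x, s, c, 1) := by
        intro c
        rw [zX, zX, hq']
      have hT : ∀ c, dT (ZB q eps) (x, s, c, e') = dT (ZB q eps) (x, s, c, 1) := by
        intro c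
        rw [zT, zT, hq']
      have hCe : C (p, (x, s, e')) = C (p, (x, s, 1)) := by
        have h2 : g0 (C (p, (x, s, e')), (x, s, 1)) = p := by
          show dX (ZB q eps) (x, s, C (p, (x, s, e')), 1) = p
          rw [← hX]
          exact hC1 p (x, s, e')
        have h3 := hC2 (C (p, (x, s, e'))) (x, s, 1)
        rw [h2] at h3
        exact h3.symm
      show - dT (ZB q eps) (x, s, C (p, (x, s, e')), e') = - dT (ZB q eps) (x, s, C (p, (x, s, 1)), 1)
      rw [hCe, hT]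
    have h2 : (fun e' => G (x, s, p, e')) =ᶠ[𝓝 e] fun _ => G (x, s, p, 1) := by
      have hc : Continuous (fun e' : ℝ => |e' - 1|) := by fun_prop
      filter_upwards [(hc.tendsto e).eventually (gt_mem_nhds hm)] with e' he'
      exact hloc e' he'
    have h3 := h1.congr_of_eventuallyEq h2.symm
    exact h3.unique (hasDerivAt_const _ _)
  · intro m
    obtain ⟨x, s, p, e⟩ := m
    simp only
    set F := ZZ (q e) 0 eps with hFe
    have hFs : ContDiff ℝ ∞ F := hF e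
    have hne : ∀ m, p1 (p3 F) m ≠ 0 := fun m => ((hcost e).1 m).ne'
    -- the curve
    let cc : ℝ → ℝ := fun t => C (p + t, (x - s * t, s, e))
    have hcc : ContDiff ℝ ∞ cc := by
      show ContDiff ℝ ∞ (fun t : ℝ => C (p + t, (x - s * t, s, e)))
      fun_prop
    have hccd : Differentiable ℝ cc := hcc.differentiable (by simp)
    have hrel : ∀ t, p1 F (x - s * t, s, cc t) = p + t := by
      intro t
      have h1 := hC1 (p + t) (x - s * t, s, e)
      have h2 : g0 (C (p + t, (x - s * t, s, e)), (x - s * t, s, e)) =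
        dX (ZB q eps) (x - s * t, s, C (p + t, (x - s * t, s, e)), e) := rfl
      rw [h2, zX] at h1
      exact h1
    have hcurve : ∀ t, HasDerivAt (fun t : ℝ => ((x - s * t, s, cc t) : ℝ × ℝ × ℝ)) (-s, 0, deriv cc t) t := by
      intro t
      have h1 : HasDerivAt (fun t : ℝ => x - s * t) (-s) t := by
        simpa using ((hasDerivAt_id t).const_mul s).const_sub x
      exact h1.prodMk ((hasDerivAt_const t s).prodMk (hccd t).hasDerivAt)
    have hchain : ∀ {h : ℝ × ℝ × ℝ → ℝ}, ContDiff ℝ ∞ h → ∀ t,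
        HasDerivAt (fun t : ℝ => h (x - s * t, s, cc t))
          (-s * p1 h (x - s * t, s, cc t) + deriv cc t * p3 h (x - s * t, s, cc t)) t := by
      intro h hh t
      have h1 := ((hh.differentiable (by simp)) (x - s * t, s, cc t)).hasFDerivAt.comp_hasDerivAt t (hcurve t)
      refine h1.congr_deriv ?_
      have h2 : ((-s, 0, deriv cc t) : ℝ × ℝ × ℝ) = (-s) • ((1, 0, 0) : ℝ × ℝ × ℝ) +
          (deriv cc t) • ((0, 0, 1) : ℝ × ℝ × ℝ) := by simp
      rw [h2, map_add, map_smul, map_smul]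
      rfl
    have hcc' : ∀ t, deriv cc t = (1 + s * p1 (p1 F) (x - s * t, s, cc t)) / p1 (p3 F) (x - s * t, s, cc t) := by
      intro t
      have h1 := hchain (cd_p1 hFs) t
      have h2 : (fun t : ℝ => p1 F (x - s * t, s, cc t)) = fun t => p + t := funext hrel
      rw [h2] at h1
      have h3 : HasDerivAt (fun t : ℝ => p + t) 1 t := by simpa using (hasDerivAt_id t).const_add p
      have h4 := h1.unique h3
      rw [p31 hFs] at h4
      rw [eq_div_iff (hne _)]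
      linarith
    have hEE : ∀ {h : ℝ × ℝ × ℝ → ℝ}, ContDiff ℝ ∞ h → ∀ t,
        HasDerivAt (fun t : ℝ => h (x - s * t, s, cc t)) (EE F h (x - s * t, s, cc t)) t := by
      intro h hh t
      refine (hchain hh t).congr_deriv ?_
      rw [hcc']
      unfold EE
      simp only
    have hg2 : ContDiff ℝ ∞ (fun m' => - p2 F m') := (cd_p2 hFs).neg
    have hline : ∀ t : ℝ, ((x, s, p, e) : E4) + t • ((-s, 0, 1, 0) : E4) = (x - s * t, s, p + t, e) := by
      intro t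
      simp only [Prod.smul_mk, Prod.mk_add_mk, smul_eq_mul]
      ext <;> (simp; try ring)
    have h1 : ∀ t : ℝ, HasDerivAt (fun t : ℝ => G ((x, s, p, e) + t • ((-s, 0, 1, 0) : E4)))
        (EE F (fun m' => - p2 F m') (x - s * t, s, cc t)) t := by
      intro t
      have h2 : (fun t : ℝ => G ((x, s, p, e) + t • ((-s, 0, 1, 0) : E4))) =
          fun t => (fun m' => - p2 F m') (x - s * t, s, cc t) := by
        funext t
        rw [hline]
        show - dT (ZB q eps) (x - s * t, s, C (p + t, (x - s * t, s, e)), e) = - p2 F (x - s * t, s, cc t)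
        rw [zT]
      rw [h2]
      exact hEE hg2 t
    have h2 : HasDerivAt (fun t : ℝ => EE F (fun m' => - p2 F m') (x - s * t, s, cc t))
        (cost3 F (x - s * 0, s, cc 0)) 0 := hEE (cd_EE hFs hg2 hne) 0
    rw [D2_line hG _ _ h1 h2]
    exact (hcost e).2 _

end BlockAsm

theorem exists_block {r δ : ℝ} (hr : 0 < r) (hδ : 0 < δ) :
    ∃ (R : ℝ) (Z G : E4 → ℝ), Block r δ R Z G := BlockAsm.exists_block' hr hδ

end Pool.Agent.MP_ff4374_an
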