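import Pool.Agent.MP_ff4374_an.Basic

set_option autoImplicit false
open Filter Topology
open scoped ContDiff

namespace Pool.Agent.MP_ff4374_an

namespace C2l

theorem c2_diff {f : E4 → ℝ} (hf : ContDiff ℝ 2 f) : Differentiable ℝ f :=
  hf.differentiable (by norm_num)

theorem c2_fderiv {f : E4 → ℝ} (hf : ContDiff ℝ 2 f) : ContDiff ℝ 1 (fderiv ℝ f) :=
  hf.fderiv_right (m := 1) (by norm_num)

theorem c2_diff2 {f : E4 → ℝ} (hf : ContDiff ℝ 2 f) : Differentiable ℝ (fderiv ℝ f) :=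
  (c2_fderiv hf).differentiable (by norm_num)

theorem c2_cont2 {f : E4 → ℝ} (hf : ContDiff ℝ 2 f) : Continuous (fderiv ℝ (fderiv ℝ f)) :=
  (c2_fderiv hf).continuous_fderiv (by norm_num)

/-- the operator norm of a symmetric bilinear form is bounded by its quadratic form -/
theorem norm_of_quad {B : E4 →L[ℝ] E4 →L[ℝ] ℝ} {b : ℝ} (hb : 0 ≤ b) (hs : ∀ v w, B v w = B w v)
    (hq : ∀ v, |B v v| ≤ b * ‖v‖ ^ 2) : ‖B‖ ≤ 2 * b := by
  refine ContinuousLinearMap.opNorm_le_bound₂ _ (by positivity) fun v w => ?_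
  rw [Real.norm_eq_abs]
  -- reduce to unit vectors
  by_cases hv : v = 0
  · simp [hv]
  by_cases hw : w = 0
  · simp [hw]
  have hv' : 0 < ‖v‖ := norm_pos_iff.2 hv
  have hw' : 0 < ‖w‖ := norm_pos_iff.2 hw
  set v1 := (‖v‖⁻¹ : ℝ) • v with hv1
  set w1 := (‖w‖⁻¹ : ℝ) • w with hw1
  have nv : ‖v1‖ = 1 := by rw [hv1, norm_smul, norm_inv, norm_norm, inv_mul_cancel₀ hv'.ne']
  have nw : ‖w1‖ = 1 := by rw [hw1, norm_smul, norm_inv, norm_norm, inv_mul_cancel₀ hw'.ne']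
  have h1 := hq (v1 + w1)
  have h2 := hq (v1 - w1)
  have n1 : ‖v1 + w1‖ ≤ 2 := (norm_add_le _ _).trans (by rw [nv, nw]; norm_num)
  have n2 : ‖v1 - w1‖ ≤ 2 := (norm_sub_le _ _).trans (by rw [nv, nw]; norm_num)
  have m1 : ‖v1 + w1‖ ^ 2 ≤ 4 := by nlinarith [norm_nonneg (v1 + w1)]
  have m2 : ‖v1 - w1‖ ^ 2 ≤ 4 := by nlinarith [norm_nonneg (v1 - w1)]
  have h3 : |B (v1 + w1) (v1 + w1)| ≤ b * 4 := h1.trans (mul_le_mul_of_nonneg_left m1 hb)
  have h4 : |B (v1 - w1) (v1 - w1)| ≤ b * 4 := h2.trans (mul_le_mul_of_nonneg_left m2 hb)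
  have e : B v1 w1 = (B (v1 + w1) (v1 + w1) - B (v1 - w1) (v1 - w1)) / 4 := by
    simp only [map_add, map_sub, _root_.add_apply, _root_.sub_apply]
    rw [hs w1 v1]
    ring
  have h5 : |B v1 w1| ≤ 2 * b := by
    rw [e]
    rw [abs_le] at h3 h4 ⊢
    constructor <;> linarith [h3.1, h3.2, h4.1, h4.2]
  have e2 : B v w = ‖v‖ * ‖w‖ * B v1 w1 := by
    rw [hv1, hw1]
    simp only [map_smul, _root_.smul_apply, smul_eq_mul]
    field_simp
  rw [e2, abs_mul, abs_of_pos (mul_pos hv' hw')]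
  nlinarith [mul_pos hv' hw']

theorem norm_of_lin {B : E4 →L[ℝ] ℝ} {b : ℝ} (hb : 0 ≤ b) (hq : ∀ v, |B v| ≤ b * ‖v‖) : ‖B‖ ≤ b :=
  ContinuousLinearMap.opNorm_le_bound _ hb hq

theorem kb_norm1 {δ r : ℝ} {κ : E4 → ℝ} (h : KB δ r κ) (hδ : 0 ≤ δ) (m : E4) :
    ‖fderiv ℝ κ m‖ ≤ δ := norm_of_lin hδ (h.b1 m)

theorem kb_norm2 {δ r : ℝ} {κ : E4 → ℝ} (h : KB δ r κ) (hδ : 0 ≤ δ) (m : E4) :
    ‖fderiv ℝ (fderiv ℝ κ) m‖ ≤ 2 * δ := by
  apply norm_of_quad hδ _ (h.b2 m)
  intro v w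
  have hs : IsSymmSndFDerivAt ℝ κ m := by
    apply ContDiffAt.isSymmSndFDerivAt (n := 2) h.c2.contDiffAt
    simp
  exact hs v w

/-- all jets vanish outside the topological support -/
theorem out0 {f : E4 → ℝ} {m : E4} (hm : m ∉ tsupport f) :
    f m = 0 ∧ fderiv ℝ f m = 0 ∧ fderiv ℝ (fderiv ℝ f) m = 0 := by
  have h1 : f =ᶠ[𝓝 m] fun _ => 0 := by
    have := notMem_tsupport_iff_eventuallyEq.1 hm
    exact this
  have h2 : fderiv ℝ f =ᶠ[𝓝 m] fun _ => 0 := by
    have := h1.fderiv (𝕜 := ℝ)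
    refine this.trans (Filter.Eventually.of_forall fun x => ?_)
    simp
  refine ⟨h1.eq_of_nhds, h2.eq_of_nhds, ?_⟩
  rw [h2.fderiv_eq]
  simp

theorem sum_single {E : Type*} [AddCommGroup E] (A : ℕ → E) (J n : ℕ) (h : ∀ i, i ≠ J → A i = 0) :
    ∑ j ∈ Finset.range n, A j = if J < n then A J else 0 := by
  split_ifs with hJ
  · exact Finset.sum_eq_single_of_mem J (Finset.mem_range.2 hJ) (fun i _ hi => h i hi)
  · apply Finset.sum_eq_zero
    intro i hi
    exact h i (fun he => hJ (he ▸ Finset.mem_range.1 hi))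

theorem ite_bound {E : Type*} [NormedAddCommGroup E] (a : E) (p : Prop) [Decidable p] {c : ℝ}
    (hc : 0 ≤ c) (h : ¬ p → ‖a‖ ≤ c) : ‖a - (if p then a else 0)‖ ≤ c := by
  split_ifs with hp
  · simpa using hc
  · simpa using h hp

theorem unif_of_bound {E G : Type*} [NormedAddCommGroup E] [NormedSpace ℝ E]
    [NormedAddCommGroup G] [NormedSpace ℝ G] {f' : ℕ → E → E →L[ℝ] G} {g' : E → E →L[ℝ] G}
    {η : ℕ → ℝ} (h : ∀ n m, ‖g' m - f' n m‖ ≤ η n) (hη : Tendsto η atTop (𝓝 0)) :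
    TendstoUniformly f' g' atTop := by
  rw [Metric.tendstoUniformly_iff]
  intro ε hε
  filter_upwards [hη.eventually_lt_const hε] with n hn m
  rw [dist_eq_norm]
  exact (h n m).trans_lt hn

theorem lim_fderiv {E G : Type*} [NormedAddCommGroup E] [NormedSpace ℝ E]
    [NormedAddCommGroup G] [NormedSpace ℝ G] {f : ℕ → E → G} {g : E → G}
    {f' : ℕ → E → E →L[ℝ] G} {g' : E → E →L[ℝ] G} {η : ℕ → ℝ}
    (hb : ∀ n m, ‖g' m - f' n m‖ ≤ η n) (hη : Tendsto η atTop (𝓝 0))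
    (hf : ∀ n x, HasFDerivAt (f n) (f' n x) x)
    (hg : ∀ x, Tendsto (fun n => f n x) atTop (𝓝 (g x))) (hc : ∀ n, Continuous (f' n)) :
    (∀ x, HasFDerivAt g (g' x) x) ∧ Continuous g' := by
  have hu := unif_of_bound hb hη
  exact ⟨hasFDerivAt_of_tendstoUniformly hu hf hg,
    hu.continuous (Filter.Frequently.of_forall hc)⟩

end C2l

open C2l

theorem c2_limit {r δ0 : ℝ} {K : ℕ → E4 → ℝ} {b : ℕ → ℝ} (kb : ∀ k, KB (b k) r (K k))
    (bnn : ∀ k, 0 ≤ b k) (ble : ∀ k, b k ≤ δ0) (blim : Tendsto b atTop (𝓝 0))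
    (disj : ∀ k j, j < k → Disjoint (tsupport (K j)) (tsupport (K k))) :
    ∃ κ : E4 → ℝ, KB δ0 r κ ∧ (∀ k, KB δ0 r (sumK K k)) ∧ ∃ η : ℕ → ℝ, Tendsto η atTop (𝓝 0) ∧
      ∀ k m, |sumK K k m - κ m| ≤ η k ∧
        ∀ v, |fderiv ℝ (sumK K k) m v - fderiv ℝ κ m v| ≤ η k * ‖v‖ := by
  classical
  have hδ0 : 0 ≤ δ0 := (bnn 0).trans (ble 0)
  -- the index of the active level at a point
  set J : E4 → ℕ := fun m => if h : ∃ j, m ∈ tsupport (K j) then h.choose else 0 with hJdef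
  have hJ : ∀ m i, i ≠ J m → m ∉ tsupport (K i) := by
    intro m i hi hmem
    by_cases h : ∃ j, m ∈ tsupport (K j)
    · have e : J m = h.choose := by simp only [hJdef]; rw [dif_pos h]
      have h1 : m ∈ tsupport (K (J m)) := by rw [e]; exact h.choose_spec
      rcases lt_or_gt_of_ne hi with hlt | hlt
      · exact Set.disjoint_left.1 (disj _ _ hlt) hmem h1
      · exact Set.disjoint_left.1 (disj _ _ hlt) h1 hmem
    · exact h ⟨i, hmem⟩
  -- the tail supremum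
  set η : ℕ → ℝ := fun n => ⨆ j, b (n + j) with hη
  have hbdd : ∀ n, BddAbove (Set.range fun j => b (n + j)) := fun n =>
    ⟨δ0, by rintro _ ⟨j, rfl⟩; exact ble _⟩
  have hηle : ∀ n j, n ≤ j → b j ≤ η n := by
    intro n j hj
    have := le_ciSup (hbdd n) (j - n)
    simpa [Nat.add_sub_cancel' hj] using this
  have hηnn : ∀ n, 0 ≤ η n := fun n => (bnn n).trans (hηle n n le_rfl)
  have hηlim : Tendsto η atTop (𝓝 0) := by
    rw [Metric.tendsto_atTop] at blim ⊢
    intro ε hε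
    obtain ⟨N, hN⟩ := blim (ε / 2) (by positivity)
    refine ⟨N, fun n hn => ?_⟩
    have h1 : η n ≤ ε / 2 := by
      apply ciSup_le
      intro j
      have := hN (n + j) (by omega)
      rw [Real.dist_eq, sub_zero, abs_of_nonneg (bnn _)] at this
      exact this.le
    rw [Real.dist_eq, sub_zero, abs_of_nonneg (hηnn n)]
    linarith
  -- finite sums
  have hF0 : ∀ n m, sumK K n m = if J m < n then K (J m) m else 0 := by
    intro n m
    exact sum_single (fun j => K j m) (J m) n fun i hi => (out0 (hJ m i hi)).1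
  have hF1 : ∀ n, fderiv ℝ (sumK K n) = fun m => ∑ j ∈ Finset.range n, fderiv ℝ (K j) m := by
    intro n
    funext m
    exact fderiv_fun_sum (fun j _ => c2_diff (kb j).c2 m)
  have hF2 : ∀ n, fderiv ℝ (fderiv ℝ (sumK K n)) =
      fun m => ∑ j ∈ Finset.range n, fderiv ℝ (fderiv ℝ (K j)) m := by
    intro n
    rw [hF1 n]
    funext m
    exact fderiv_fun_sum (fun j _ => c2_diff2 (kb j).c2 m)
  have hG1 : ∀ n m, fderiv ℝ (sumK K n) m = if J m < n then fderiv ℝ (K (J m)) m else 0 := by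
    intro n m
    rw [hF1 n]
    exact sum_single (fun j => fderiv ℝ (K j) m) (J m) n fun i hi => (out0 (hJ m i hi)).2.1
  have hG2 : ∀ n m, fderiv ℝ (fderiv ℝ (sumK K n)) m =
      if J m < n then fderiv ℝ (fderiv ℝ (K (J m))) m else 0 := by
    intro n m
    rw [hF2 n]
    exact sum_single (fun j => fderiv ℝ (fderiv ℝ (K j)) m) (J m) n
      fun i hi => (out0 (hJ m i hi)).2.2
  have hFc2 : ∀ n, ContDiff ℝ 2 (sumK K n) := by
    intro n
    exact ContDiff.sum (fun j _ => (kb j).c2)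
  set f : E4 → ℝ := fun m => K (J m) m with hf
  set g : E4 → (E4 →L[ℝ] ℝ) := fun m => fderiv ℝ (K (J m)) m with hg
  set g2 : E4 → (E4 →L[ℝ] E4 →L[ℝ] ℝ) := fun m => fderiv ℝ (fderiv ℝ (K (J m))) m with hg2
  have d0 : ∀ n m, |sumK K n m - f m| ≤ η n := by
    intro n m
    rw [hF0]
    split_ifs with hn
    · simp [hf, hηnn n]
    · rw [zero_sub, abs_neg]
      exact ((kb _).b0 m).trans (hηle _ _ (not_lt.1 hn))
  have d1 : ∀ n m, ‖g m - fderiv ℝ (sumK K n) m‖ ≤ η n := by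
    intro n m
    rw [hG1]
    exact ite_bound _ _ (hηnn n) fun hn =>
      (kb_norm1 (kb _) (bnn _) m).trans (hηle _ _ (not_lt.1 hn))
  have d2 : ∀ n m, ‖g2 m - fderiv ℝ (fderiv ℝ (sumK K n)) m‖ ≤ 2 * η n := by
    intro n m
    rw [hG2]
    refine ite_bound (g2 m) (J m < n) (c := 2 * η n) (by linarith [hηnn n]) fun hn => ?_
    have h1 : ‖g2 m‖ ≤ 2 * b (J m) := kb_norm2 (kb _) (bnn _) m
    have h2 := hηle _ _ (not_lt.1 hn)
    linarith
  have lim0 : ∀ m, Tendsto (fun n => sumK K n m) atTop (𝓝 (f m)) := by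
    intro m
    rw [tendsto_iff_norm_sub_tendsto_zero]
    exact squeeze_zero (fun _ => norm_nonneg _) (fun n => d0 n m) hηlim
  have lim1 : ∀ m, Tendsto (fun n => fderiv ℝ (sumK K n) m) atTop (𝓝 (g m)) := by
    intro m
    rw [tendsto_iff_norm_sub_tendsto_zero]
    refine squeeze_zero (fun _ => norm_nonneg _) (fun n => ?_) hηlim
    rw [norm_sub_rev]
    exact d1 n m
  have hηlim2 : Tendsto (fun n => 2 * η n) atTop (𝓝 0) := by simpa using hηlim.const_mul 2
  obtain ⟨hfd, -⟩ := lim_fderiv d1 hηlim (fun n m => (c2_diff (hFc2 n) m).hasFDerivAt) lim0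
    (fun n => (c2_fderiv (hFc2 n)).continuous)
  obtain ⟨hgd, hg2c⟩ := lim_fderiv d2 hηlim2 (fun n m => (c2_diff2 (hFc2 n) m).hasFDerivAt) lim1
    (fun n => c2_cont2 (hFc2 n))
  have hfg : fderiv ℝ f = g := funext fun m => (hfd m).fderiv
  have hgg : fderiv ℝ g = g2 := funext fun m => (hgd m).fderiv
  have hfc2 : ContDiff ℝ 2 f := by
    have e : (2 : WithTop ℕ∞) = 1 + 1 := by norm_num
    rw [e, contDiff_succ_iff_fderiv]
    refine ⟨fun m => (hfd m).differentiableAt, by simp, ?_⟩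
    rw [hfg, contDiff_one_iff_fderiv]
    exact ⟨fun m => (hgd m).differentiableAt, by rw [hgg]; exact hg2c⟩
  refine ⟨f, ⟨hfc2, ?_, ?_, ?_, ?_, ?_⟩, ?_, η, hηlim, ?_⟩
  · intro m i j
    have h1 := lim0 (m.1 + i, m.2.1 + j, m.2.2.1, m.2.2.2)
    have h2 := lim0 m
    have e : (fun n => sumK K n (m.1 + i, m.2.1 + j, m.2.2.1, m.2.2.2)) = fun n => sumK K n m := by
      funext n
      unfold sumK
      exact Finset.sum_congr rfl fun k _ => (kb k).per m i j
    rw [e] at h1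
    exact tendsto_nhds_unique h1 h2
  · intro m
    exact ((kb _).b0 m).trans (ble _)
  · intro m v
    rw [hfg]
    exact ((kb _).b1 m v).trans (mul_le_mul_of_nonneg_right (ble _) (norm_nonneg _))
  · intro m v
    unfold D2
    rw [hfg, hgg]
    exact ((kb _).b2 m v).trans (mul_le_mul_of_nonneg_right (ble _) (by positivity))
  · intro m hm
    exact (kb _).supp m hm
  · intro n
    refine ⟨hFc2 n, ?_, ?_, ?_, ?_, ?_⟩
    · intro m i j
      unfold sumK
      exact Finset.sum_congr rfl fun k _ => (kb k).per m i j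
    · intro m
      rw [hF0]
      split_ifs
      · exact ((kb _).b0 m).trans (ble _)
      · simpa using hδ0
    · intro m v
      rw [hG1]
      split_ifs
      · exact ((kb _).b1 m v).trans (mul_le_mul_of_nonneg_right (ble _) (norm_nonneg _))
      · simp only [_root_.zero_apply, abs_zero]
        positivity
    · intro m v
      unfold D2
      rw [hG2]
      split_ifs
      · exact ((kb _).b2 m v).trans (mul_le_mul_of_nonneg_right (ble _) (by positivity))
      · simp only [_root_.zero_apply, abs_zero]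
        positivity
    · intro m hm
      unfold sumK
      exact Finset.sum_eq_zero fun k _ => (kb k).supp m hm
  · intro n m
    refine ⟨d0 n m, fun v => ?_⟩
    rw [hfg, ← _root_.sub_apply, ← Real.norm_eq_abs]
    refine (ContinuousLinearMap.le_opNorm _ _).trans ?_
    rw [norm_sub_rev]
    exact mul_le_mul_of_nonneg_right (d1 n m) (norm_nonneg _)

end Pool.Agent.MP_ff4374_an
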