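import Pool.Agent.MP_ff4374_an.Basic

/-!
MP_ff4374_an, module ClockEx: existence of the clock.
-/

set_option autoImplicit false
open MeasureTheory Filter Topology
open scoped ContDiff

namespace Pool.Agent.MP_ff4374_an

/-! ### sums with one nonzero term -/

private theorem one_term {ι : Type*} (s : Finset ι) (f : ι → ℝ) {B : ℝ} (hB : 0 ≤ B)
    (hb : ∀ i ∈ s, |f i| ≤ B) (hu : ∀ i ∈ s, ∀ j ∈ s, f i ≠ 0 → f j ≠ 0 → i = j) :
    |∑ i ∈ s, f i| ≤ B := by
  by_cases h : ∃ i ∈ s, f i ≠ 0
  · obtain ⟨i, hi, hfi⟩ := h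
    rw [Finset.sum_eq_single i]
    · exact hb i hi
    · intro j hj hji
      by_contra hfj
      exact hji (hu j hj i hi hfj hfi)
    · intro hn
      exact absurd hi hn
  · push Not at h
    rw [Finset.sum_eq_zero h]
    simpa using hB

/-! ### the step function -/

private noncomputable def stp (u : ℝ) : ℝ := Real.smoothTransition (2 * u + 1 / 2)

private theorem stp_contDiff : ContDiff ℝ ∞ stp := by
  unfold stp
  exact Real.smoothTransition.contDiff.comp ((contDiff_const.mul contDiff_id).add contDiff_const)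

private theorem stp_zero {u : ℝ} (h : u ≤ -(1 / 4)) : stp u = 0 := by
  unfold stp
  exact Real.smoothTransition.zero_of_nonpos (by linarith)

private theorem stp_one {u : ℝ} (h : 1 / 4 ≤ u) : stp u = 1 := by
  unfold stp
  exact Real.smoothTransition.one_of_one_le (by linarith)

private theorem stp_nonneg (u : ℝ) : 0 ≤ stp u := Real.smoothTransition.nonneg _
private theorem stp_le_one (u : ℝ) : stp u ≤ 1 := Real.smoothTransition.le_one _

/-- smooth functions which are locally constant outside `[-1/4,1/4]` -/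
private structure Mv (φ : ℝ → ℝ) : Prop where
  sm : ContDiff ℝ ∞ φ
  z : ∀ u, 1 / 4 < |u| → deriv φ u = 0

private theorem Mv.deriv {φ : ℝ → ℝ} (h : Mv φ) : Mv (deriv φ) where
  sm := (contDiff_infty_iff_deriv.1 h.sm).2
  z := by
    intro u hu
    have h1 : ∀ᶠ y in 𝓝 u, 1 / 4 < |y| := continuous_abs.continuousAt.eventually (lt_mem_nhds hu)
    have h2 : _root_.deriv φ =ᶠ[𝓝 u] fun _ => (0:ℝ) := by
      filter_upwards [h1] with y hy
      exact h.z y hy
    rw [h2.deriv_eq]
    simp

private theorem Mv.bound {φ : ℝ → ℝ} (h : Mv φ) : ∃ K : ℝ, ∀ u, |_root_.deriv φ u| ≤ K := by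
  have hc : Continuous (_root_.deriv φ) := h.deriv.sm.continuous
  obtain ⟨K, hK⟩ := isCompact_Icc.exists_bound_of_continuousOn (s := Set.Icc (-(1/4) : ℝ) (1/4)) hc.continuousOn
  refine ⟨K, fun u => ?_⟩
  rcases le_or_gt |u| (1 / 4) with hu | hu
  · exact hK u (abs_le.1 hu)
  · rw [h.z u hu, abs_zero]
    have := hK 0 (by constructor <;> norm_num)
    exact (norm_nonneg _).trans this

private theorem stp_mv : Mv stp where
  sm := stp_contDiff
  z := by
    intro u hu
    rcases lt_abs.1 hu with h | h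
    · have h2 : stp =ᶠ[𝓝 u] fun _ => (1:ℝ) := by
        filter_upwards [lt_mem_nhds h] with y hy
        exact stp_one hy.le
      rw [h2.deriv_eq]
      simp
    · have h' : u < -(1 / 4) := by linarith
      have h2 : stp =ᶠ[𝓝 u] fun _ => (0:ℝ) := by
        filter_upwards [gt_mem_nhds h'] with y hy
        exact stp_zero hy.le
      rw [h2.deriv_eq]
      simp

/-! ### the right part -/

open Classical in
private noncomputable def FF (D l : ℕ) (good : ℤ → Prop) (i : ℕ) : Finset ℤ :=
  (Finset.Ioo (((D * l + i * l : ℕ) : ℤ)) (((D * l + (i + 1) * l : ℕ) : ℤ))).filter good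

private theorem mem_FF {D l : ℕ} {good : ℤ → Prop} {i : ℕ} {n : ℤ} :
    n ∈ FF D l good i ↔ ((D * l + i * l : ℕ) : ℤ) < n ∧ n < ((D * l + (i + 1) * l : ℕ) : ℤ) ∧ good n := by
  simp only [FF, Finset.mem_filter, Finset.mem_Ioo, and_assoc]

private noncomputable def co (D l : ℕ) (good : ℤ → Prop) (i : ℕ) : ℝ :=
  1 / (D * ((FF D l good i).card : ℝ))

private noncomputable def sm (D l : ℕ) (good : ℤ → Prop) (φ : ℝ → ℝ) (t : ℝ) : ℝ :=
  ∑ i ∈ Finset.range (15 * D), ∑ n ∈ FF D l good i, co D l good i * φ (t - n)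

private theorem sm_contDiff (D l : ℕ) (good : ℤ → Prop) {φ : ℝ → ℝ} (h : ContDiff ℝ ∞ φ) :
    ContDiff ℝ ∞ (sm D l good φ) := by
  unfold sm
  apply ContDiff.sum
  intro i _
  apply ContDiff.sum
  intro n _
  exact contDiff_const.mul (h.comp (contDiff_id.sub contDiff_const))

private theorem sm_deriv (D l : ℕ) (good : ℤ → Prop) {φ : ℝ → ℝ} (h : ContDiff ℝ ∞ φ) :
    deriv (sm D l good φ) = sm D l good (deriv φ) := by
  funext t
  apply HasDerivAt.deriv
  unfold sm
  apply HasDerivAt.fun_sum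
  intro i _
  apply HasDerivAt.fun_sum
  intro n _
  have h1 : HasDerivAt (fun t : ℝ => t - n) 1 t := (hasDerivAt_id t).sub_const _
  have h2 := ((h.differentiable (by simp)) (t - n)).hasDerivAt.comp t h1
  rw [mul_one] at h2
  exact h2.const_mul _

private theorem sm_ne {D l : ℕ} {good : ℤ → Prop} {φ : ℝ → ℝ} (h : Mv φ) {t : ℝ}
    (hne : sm D l good (deriv φ) t ≠ 0) : ∃ n : ℤ, good n ∧ |t - n| ≤ 1 / 4 := by
  unfold sm at hne
  obtain ⟨i, _, hi⟩ := Finset.exists_ne_zero_of_sum_ne_zero hne
  obtain ⟨n, hn, hn'⟩ := Finset.exists_ne_zero_of_sum_ne_zero hi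
  refine ⟨n, (mem_FF.1 hn).2.2, ?_⟩
  by_contra hc
  push Not at hc
  exact hn' (by rw [h.z _ hc, mul_zero])

private theorem int_uniq {t : ℝ} {n m : ℤ} (h1 : |t - n| ≤ 1 / 4) (h2 : |t - m| ≤ 1 / 4) : n = m := by
  by_contra hne
  have h3 : (1:ℝ) ≤ |(n:ℝ) - m| := by
    have : 1 ≤ |n - m| := Int.one_le_abs (sub_ne_zero.2 hne)
    exact_mod_cast this
  have h4 : |(n:ℝ) - m| ≤ 1 / 4 + 1 / 4 := by
    have e : (n:ℝ) - m = (t - m) - (t - n) := by ring
    rw [e]
    exact (abs_sub _ _).trans (by linarith)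
  linarith

private theorem sm_bound {D l : ℕ} {good : ℤ → Prop} {φ : ℝ → ℝ} (h : Mv φ) {K : ℝ}
    (hK : ∀ u, |deriv φ u| ≤ K) (hD : 0 < D) (hl : 4 ≤ l)
    (hc : ∀ i : ℕ, i < 15 * D → (l : ℝ) / 2 ≤ ((FF D l good i).card : ℝ)) (t : ℝ) :
    |sm D l good (deriv φ) t| ≤ 2 * K / ((D * l : ℕ) : ℝ) := by
  have hD' : (0:ℝ) < D := by exact_mod_cast hD
  have hl' : (4:ℝ) ≤ l := by exact_mod_cast hl
  have hK0 : 0 ≤ K := (abs_nonneg _).trans (hK 0)
  have hB : 0 ≤ 2 * K / ((D * l : ℕ) : ℝ) := by positivity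
  unfold sm
  apply one_term _ _ hB
  · intro i hi
    apply one_term _ _ hB
    · intro n _
      have hci := hc i (Finset.mem_range.1 hi)
      have hcard : (0:ℝ) < ((FF D l good i).card : ℝ) := by linarith
      rw [abs_mul]
      have hco : |co D l good i| ≤ 2 / ((D * l : ℕ) : ℝ) := by
        unfold co
        rw [abs_of_pos (by positivity), div_le_div_iff₀ (by positivity) (by positivity)]
        push_cast
        nlinarith
      calc |co D l good i| * |deriv φ (t - n)| ≤ (2 / ((D * l : ℕ) : ℝ)) * K :=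
            mul_le_mul hco (hK _) (abs_nonneg _) (by positivity)
        _ = 2 * K / ((D * l : ℕ) : ℝ) := by ring
    · intro n _ m _ hn hm
      apply int_uniq (t := t)
      · by_contra hcc
        push Not at hcc
        exact hn (by rw [h.z _ hcc, mul_zero])
      · by_contra hcc
        push Not at hcc
        exact hm (by rw [h.z _ hcc, mul_zero])
  · intro i _ j _ hi hj
    obtain ⟨n, hn, hn'⟩ := Finset.exists_ne_zero_of_sum_ne_zero hi
    obtain ⟨m, hm, hm'⟩ := Finset.exists_ne_zero_of_sum_ne_zero hj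
    have hnm : n = m := by
      apply int_uniq (t := t)
      · by_contra hcc
        push Not at hcc
        exact hn' (by rw [h.z _ hcc, mul_zero])
      · by_contra hcc
        push Not at hcc
        exact hm' (by rw [h.z _ hcc, mul_zero])
    subst hnm
    have a := mem_FF.1 hn
    have b := mem_FF.1 hm
    have hl0 : 0 < l := by omega
    have c1 : ((D * l + i * l : ℕ) : ℤ) < ((D * l + (j + 1) * l : ℕ) : ℤ) := a.1.trans b.2.1
    have c2 : ((D * l + j * l : ℕ) : ℤ) < ((D * l + (i + 1) * l : ℕ) : ℤ) := b.1.trans a.2.1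
    have d1 : i * l < (j + 1) * l := by
      have := Int.ofNat_lt.1 c1
      omega
    have d2 : j * l < (i + 1) * l := by
      have := Int.ofNat_lt.1 c2
      omega
    have e1 := Nat.lt_of_mul_lt_mul_right d1
    have e2 := Nat.lt_of_mul_lt_mul_right d2
    omega

/-- the `i`-th block of steps -/
private noncomputable def blk (D l : ℕ) (good : ℤ → Prop) (i : ℕ) (t : ℝ) : ℝ :=
  ∑ n ∈ FF D l good i, co D l good i * stp (t - n)

private theorem blk_left {D l : ℕ} {good : ℤ → Prop} {i : ℕ} {t : ℝ}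
    (ht : t ≤ ((D * l + i * l : ℕ) : ℝ)) : blk D l good i t = 0 := by
  unfold blk
  apply Finset.sum_eq_zero
  intro n hn
  have h := (mem_FF.1 hn).1
  have h' : ((D * l + i * l : ℕ) : ℝ) + 1 ≤ n := by exact_mod_cast h
  rw [stp_zero (by linarith), mul_zero]

private theorem blk_right {D l : ℕ} {good : ℤ → Prop} {i : ℕ} {t : ℝ}
    (hc : 0 < (FF D l good i).card)
    (ht : ((D * l + (i + 1) * l : ℕ) : ℝ) ≤ t) : blk D l good i t = 1 / D := by
  unfold blk
  have h1 : ∀ n ∈ FF D l good i, co D l good i * stp (t - n) = co D l good i := by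
    intro n hn
    have h := (mem_FF.1 hn).2.1
    have h' : (n : ℝ) + 1 ≤ ((D * l + (i + 1) * l : ℕ) : ℝ) := by exact_mod_cast h
    rw [stp_one (by linarith), mul_one]
  rw [Finset.sum_congr rfl h1, Finset.sum_const, nsmul_eq_mul]
  unfold co
  have : ((FF D l good i).card : ℝ) ≠ 0 := by exact_mod_cast hc.ne'
  field_simp

private theorem co_nonneg (D l : ℕ) (good : ℤ → Prop) (i : ℕ) : 0 ≤ co D l good i := by
  unfold co
  positivity

private theorem blk_nonneg (D l : ℕ) (good : ℤ → Prop) (i : ℕ) (t : ℝ) : 0 ≤ blk D l good i t := by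
  unfold blk
  apply Finset.sum_nonneg
  intro n _
  exact mul_nonneg (co_nonneg _ _ _ _) (stp_nonneg _)

private theorem blk_le {D l : ℕ} {good : ℤ → Prop} {i : ℕ} (t : ℝ)
    (hc : 0 < (FF D l good i).card) : blk D l good i t ≤ 1 / D := by
  unfold blk
  have h1 : ∀ n ∈ FF D l good i, co D l good i * stp (t - n) ≤ co D l good i := by
    intro n hn
    have := stp_le_one (t - n)
    have := co_nonneg D l good i
    nlinarith
  refine (Finset.sum_le_sum h1).trans ?_
  rw [Finset.sum_const, nsmul_eq_mul]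
  unfold co
  have : ((FF D l good i).card : ℝ) ≠ 0 := by exact_mod_cast hc.ne'
  apply le_of_eq
  field_simp

private theorem right_part : ∃ K : ℝ, 0 < K ∧ ∀ (D l : ℕ) (good : ℤ → Prop), 0 < D → 4 ≤ l →
    (∀ i : ℕ, i < 15 * D → (l : ℝ) / 2 ≤
      ({n : ℤ | ((D * l + i * l : ℕ) : ℤ) < n ∧ n < ((D * l + (i + 1) * l : ℕ) : ℤ) ∧ good n}.ncard : ℝ)) →
    ∃ A : ℝ → ℝ, ContDiff ℝ ∞ A ∧ (∀ t, t ≤ ((D * l : ℕ) : ℝ) → A t = 0) ∧
      (∀ t, 16 * ((D * l : ℕ) : ℝ) ≤ t → A t = 15) ∧
      (∀ t, ((D * l : ℕ) : ℝ) ≤ t → t ≤ 16 * ((D * l : ℕ) : ℝ) →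
        |1 + A t - t / ((D * l : ℕ) : ℝ)| ≤ 1 / D) ∧
      (∀ t, deriv A t ≠ 0 → ∃ n : ℤ, good n ∧ |t - n| ≤ 1 / 4) ∧
      (∀ t, |deriv A t| ≤ K / ((D * l : ℕ) : ℝ)) ∧
      (∀ t, |deriv (deriv A) t| ≤ K / ((D * l : ℕ) : ℝ)) ∧
      (∀ t, |deriv (deriv (deriv A)) t| ≤ K / ((D * l : ℕ) : ℝ)) := by
  obtain ⟨K1, hK1⟩ := stp_mv.bound
  obtain ⟨K2, hK2⟩ := stp_mv.deriv.bound
  obtain ⟨K3, hK3⟩ := stp_mv.deriv.deriv.bound
  set K := max K1 (max K2 K3) with hKdef
  have hK1' : ∀ u, |deriv stp u| ≤ K := fun u => (hK1 u).trans (le_max_left _ _)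
  have hK2' : ∀ u, |deriv (deriv stp) u| ≤ K :=
    fun u => (hK2 u).trans ((le_max_left _ _).trans (le_max_right _ _))
  have hK3' : ∀ u, |deriv (deriv (deriv stp)) u| ≤ K :=
    fun u => (hK3 u).trans ((le_max_right _ _).trans (le_max_right _ _))
  have hK0 : 0 ≤ K := (abs_nonneg _).trans (hK1' 0)
  refine ⟨2 * K + 1, by linarith, ?_⟩
  intro D l good hD hl hcount
  have hc : ∀ i : ℕ, i < 15 * D → (l : ℝ) / 2 ≤ ((FF D l good i).card : ℝ) := by
    intro i hi
    have h := hcount i hi
    have he : {n : ℤ | ((D * l + i * l : ℕ) : ℤ) < n ∧ n < ((D * l + (i + 1) * l : ℕ) : ℤ) ∧ good n}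
        = (FF D l good i : Set ℤ) := by
      ext n
      rw [Finset.mem_coe, mem_FF]
      rfl
    rw [he, Set.ncard_coe_finset] at h
    exact h
  have hD' : (0:ℝ) < D := by exact_mod_cast hD
  have hl' : (4:ℝ) ≤ l := by exact_mod_cast hl
  have hcp : ∀ i : ℕ, i < 15 * D → 0 < (FF D l good i).card := by
    intro i hi
    have := hc i hi
    have : (0:ℝ) < ((FF D l good i).card : ℝ) := by linarith
    exact_mod_cast this
  have hHpos : (0:ℝ) < ((D * l : ℕ) : ℝ) := by
    push_cast
    positivity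
  have hKK : 2 * K / ((D * l : ℕ) : ℝ) ≤ (2 * K + 1) / ((D * l : ℕ) : ℝ) := by
    apply div_le_div_of_nonneg_right _ hHpos.le
    linarith
  have hA : ∀ t, sm D l good stp t = ∑ i ∈ Finset.range (15 * D), blk D l good i t := fun t => rfl
  refine ⟨sm D l good stp, sm_contDiff _ _ _ stp_contDiff, ?_, ?_, ?_, ?_, ?_, ?_, ?_⟩
  · intro t ht
    rw [hA]
    apply Finset.sum_eq_zero
    intro i _
    apply blk_left
    push_cast at ht ⊢
    have : (0:ℝ) ≤ i * l := by positivity
    linarith
  · intro t ht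
    rw [hA]
    have h1 : ∀ i ∈ Finset.range (15 * D), blk D l good i t = 1 / D := by
      intro i hi
      have hi' := Finset.mem_range.1 hi
      apply blk_right (hcp i hi')
      have h2 : ((i + 1 : ℕ) : ℝ) ≤ ((15 * D : ℕ) : ℝ) := by exact_mod_cast hi'
      push_cast at ht h2 ⊢
      nlinarith
    rw [Finset.sum_congr rfl h1, Finset.sum_const, nsmul_eq_mul, Finset.card_range]
    push_cast
    field_simp
  · intro t ht1 ht2
    -- the index of the interval
    have hex : ∃ i : ℕ, i < 15 * D ∧ ((D * l + i * l : ℕ) : ℝ) ≤ t ∧ t ≤ ((D * l + (i + 1) * l : ℕ) : ℝ) := by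
      rcases eq_or_lt_of_le ht2 with h | h
      · refine ⟨15 * D - 1, by omega, ?_, ?_⟩
        · have h1 : D * l + (15 * D - 1) * l ≤ 16 * (D * l) := by
            have : (15 * D - 1) * l ≤ 15 * D * l := Nat.mul_le_mul_right _ (by omega)
            nlinarith
          rw [h]
          exact_mod_cast h1
        · have h1 : 15 * D - 1 + 1 = 15 * D := by omega
          rw [h1, h]
          push_cast
          nlinarith
      · refine ⟨⌊(t - ((D * l : ℕ) : ℝ)) / l⌋₊, ?_, ?_, ?_⟩
        · rw [Nat.floor_lt (by apply div_nonneg <;> linarith)]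
          rw [div_lt_iff₀ (by linarith)]
          push_cast at h ⊢
          nlinarith
        · have h1 : (⌊(t - ((D * l : ℕ) : ℝ)) / l⌋₊ : ℝ) ≤ (t - ((D * l : ℕ) : ℝ)) / l :=
            Nat.floor_le (by apply div_nonneg <;> linarith)
          rw [le_div_iff₀ (by linarith)] at h1
          push_cast at h1 ⊢
          linarith
        · have h1 : (t - ((D * l : ℕ) : ℝ)) / l < (⌊(t - ((D * l : ℕ) : ℝ)) / l⌋₊ : ℝ) + 1 :=
            Nat.lt_floor_add_one _
          rw [div_lt_iff₀ (by linarith)] at h1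
          push_cast at h1 ⊢
          linarith
    obtain ⟨i, hi, hi1, hi2⟩ := hex
    have hlow : (i : ℝ) / D ≤ sm D l good stp t := by
      rw [hA]
      have h1 : ∑ j ∈ Finset.range i, blk D l good j t = (i : ℝ) / D := by
        have h2 : ∀ j ∈ Finset.range i, blk D l good j t = 1 / D := by
          intro j hj
          have hj' := Finset.mem_range.1 hj
          apply blk_right (hcp j (by omega))
          refine le_trans ?_ hi1
          have : D * l + (j + 1) * l ≤ D * l + i * l := by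
            have : (j + 1) * l ≤ i * l := Nat.mul_le_mul_right _ hj'
            omega
          exact_mod_cast this
        rw [Finset.sum_congr rfl h2, Finset.sum_const, nsmul_eq_mul, Finset.card_range]
        field_simp
      rw [← h1]
      apply Finset.sum_le_sum_of_subset_of_nonneg
      · exact Finset.range_mono (by omega)
      · intro j _ _
        exact blk_nonneg _ _ _ _ _
    have hup : sm D l good stp t ≤ ((i : ℝ) + 1) / D := by
      rw [hA]
      have h1 : ∑ j ∈ Finset.range (i + 1), blk D l good j t =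
          ∑ j ∈ Finset.range (15 * D), blk D l good j t := by
        apply Finset.sum_subset
        · exact Finset.range_mono (by omega)
        · intro j _ hj
          have hj' : i + 1 ≤ j := by
            by_contra hcc
            exact hj (Finset.mem_range.2 (by omega))
          apply blk_left
          refine hi2.trans ?_
          have : D * l + (i + 1) * l ≤ D * l + j * l := by
            have : (i + 1) * l ≤ j * l := Nat.mul_le_mul_right _ hj'
            omega
          exact_mod_cast this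
      rw [← h1]
      have h2 : ∑ j ∈ Finset.range (i + 1), blk D l good j t ≤ ∑ j ∈ Finset.range (i + 1), 1 / (D : ℝ) := by
        apply Finset.sum_le_sum
        intro j hj
        have hj' := Finset.mem_range.1 hj
        exact blk_le t (hcp j (by omega))
      refine h2.trans (le_of_eq ?_)
      rw [Finset.sum_const, nsmul_eq_mul, Finset.card_range]
      push_cast
      field_simp
    have hl0 : (0:ℝ) < l := by linarith
    have ht3 : 1 + (i : ℝ) / D ≤ t / ((D * l : ℕ) : ℝ) := by
      rw [le_div_iff₀ hHpos]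
      refine le_trans (le_of_eq ?_) hi1
      push_cast
      field_simp
    have ht4 : t / ((D * l : ℕ) : ℝ) ≤ 1 + ((i : ℝ) + 1) / D := by
      rw [div_le_iff₀ hHpos]
      refine le_trans hi2 (le_of_eq ?_)
      push_cast
      field_simp
    have e : ((i : ℝ) + 1) / D = (i : ℝ) / D + 1 / D := by ring
    rw [abs_le]
    constructor <;> linarith
  · intro t ht
    rw [sm_deriv _ _ _ stp_contDiff] at ht
    exact sm_ne stp_mv ht
  · intro t
    rw [sm_deriv _ _ _ stp_contDiff]
    exact (sm_bound stp_mv hK1' hD hl hc t).trans hKK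
  · intro t
    rw [sm_deriv _ _ _ stp_contDiff, sm_deriv _ _ _ stp_mv.deriv.sm]
    exact (sm_bound stp_mv.deriv hK2' hD hl hc t).trans hKK
  · intro t
    rw [sm_deriv _ _ _ stp_contDiff, sm_deriv _ _ _ stp_mv.deriv.sm, sm_deriv _ _ _ stp_mv.deriv.deriv.sm]
    exact (sm_bound stp_mv.deriv.deriv hK3' hD hl hc t).trans hKK

/-! ### the clock -/

private theorem comb_deriv (H c d e : ℝ) {f g h : ℝ → ℝ} (hf : Differentiable ℝ f)
    (hg : Differentiable ℝ g) (hh : Differentiable ℝ h) :
    deriv (fun t => c + d * f ((t / H + 1) / 2) + g t + e * h (-t)) =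
      fun t => 0 + (d * (1 / H / 2)) * deriv f ((t / H + 1) / 2) + deriv g t + (-e) * deriv h (-t) := by
  funext t
  apply HasDerivAt.deriv
  have h1 : HasDerivAt (fun t : ℝ => (t / H + 1) / 2) (1 / H / 2) t :=
    (((hasDerivAt_id t).div_const H).add_const 1).div_const 2
  have h2 := (hf ((t / H + 1) / 2)).hasDerivAt.comp t h1
  have h3 := (hh (-t)).hasDerivAt.comp t (hasDerivAt_neg t)
  have h4 := (((h2.const_mul d).const_add c).add (hg t).hasDerivAt).add (h3.const_mul e)
  refine h4.congr_deriv ?_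
  ring

private theorem smt_bound : ∃ K : ℝ, 0 < K ∧ (∀ u, |deriv Real.smoothTransition u| ≤ K) ∧
    (∀ u, |deriv (deriv Real.smoothTransition) u| ≤ K) ∧
    (∀ u, |deriv (deriv (deriv Real.smoothTransition)) u| ≤ K) := by
  have hs : ContDiff ℝ ∞ Real.smoothTransition := Real.smoothTransition.contDiff
  -- via stp: smoothTransition x = stp ((x - 1/2)/2)
  have he : Real.smoothTransition = fun x => stp ((x - 1 / 2) / 2) := by
    funext x
    unfold stp
    congr 1
    ring
  have key : ∀ φ : ℝ → ℝ, Differentiable ℝ φ →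
      deriv (fun x => φ ((x - 1 / 2) / 2)) = fun x => (1 / 2) * deriv φ ((x - 1 / 2) / 2) := by
    intro φ hφ
    funext x
    apply HasDerivAt.deriv
    have h1 : HasDerivAt (fun t : ℝ => (t - 1 / 2) / 2) (1 / 2) x :=
      ((hasDerivAt_id x).sub_const _).div_const 2
    have h2 := (hφ ((x - 1 / 2) / 2)).hasDerivAt.comp x h1
    refine h2.congr_deriv ?_
    ring
  obtain ⟨K1, hK1⟩ := stp_mv.bound
  obtain ⟨K2, hK2⟩ := stp_mv.deriv.bound
  obtain ⟨K3, hK3⟩ := stp_mv.deriv.deriv.bound
  have e1 : deriv Real.smoothTransition = fun x => (1 / 2) * deriv stp ((x - 1 / 2) / 2) := by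
    rw [he, key _ (stp_mv.sm.differentiable (by simp))]
  have e2 : deriv (deriv Real.smoothTransition) =
      fun x => (1 / 2) * ((1 / 2) * deriv (deriv stp) ((x - 1 / 2) / 2)) := by
    have hd : Differentiable ℝ (deriv stp) := stp_mv.deriv.sm.differentiable (by simp)
    rw [e1]
    funext x
    have h1 := congrFun (key _ hd) x
    have h2 : DifferentiableAt ℝ (fun x => deriv stp ((x - 1 / 2) / 2)) x := by
      have : Differentiable ℝ (fun x : ℝ => (x - 1 / 2) / 2) := by fun_prop
      exact (hd.comp this) x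
    rw [deriv_const_mul _ h2, h1]
  have e3 : deriv (deriv (deriv Real.smoothTransition)) =
      fun x => (1 / 2) * ((1 / 2) * ((1 / 2) * deriv (deriv (deriv stp)) ((x - 1 / 2) / 2))) := by
    have hd : Differentiable ℝ (deriv (deriv stp)) := stp_mv.deriv.deriv.sm.differentiable (by simp)
    rw [e2]
    funext x
    have h1 := congrFun (key _ hd) x
    have h2 : DifferentiableAt ℝ (fun x => deriv (deriv stp) ((x - 1 / 2) / 2)) x := by
      have : Differentiable ℝ (fun x : ℝ => (x - 1 / 2) / 2) := by fun_prop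
      exact (hd.comp this) x
    rw [deriv_const_mul _ (h2.const_mul _), deriv_const_mul _ h2, h1]
  have p1 : 0 ≤ K1 := (abs_nonneg _).trans (hK1 0)
  have p2 : 0 ≤ K2 := (abs_nonneg _).trans (hK2 0)
  have p3 : 0 ≤ K3 := (abs_nonneg _).trans (hK3 0)
  refine ⟨K1 + K2 + K3 + 1, by linarith, ?_, ?_, ?_⟩
  · intro u
    rw [e1]
    have := hK1 ((u - 1 / 2) / 2)
    simp only [abs_mul]
    rw [show |(1 / 2 : ℝ)| = 1 / 2 by norm_num]
    linarith [abs_nonneg (deriv stp ((u - 1 / 2) / 2))]
  · intro u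
    rw [e2]
    have := hK2 ((u - 1 / 2) / 2)
    simp only [abs_mul]
    rw [show |(1 / 2 : ℝ)| = 1 / 2 by norm_num]
    linarith [abs_nonneg (deriv (deriv stp) ((u - 1 / 2) / 2))]
  · intro u
    rw [e3]
    have := hK3 ((u - 1 / 2) / 2)
    simp only [abs_mul]
    rw [show |(1 / 2 : ℝ)| = 1 / 2 by norm_num]
    linarith [abs_nonneg (deriv (deriv (deriv stp)) ((u - 1 / 2) / 2))]

theorem exists_clock : ∃ C1 : ℝ, 0 < C1 ∧ ∀ (D l : ℕ) (good : ℤ → Prop), 0 < D → 4 ≤ l →
    (∀ i : ℕ, i < 15 * D → (l : ℝ) / 2 ≤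
      ({n : ℤ | ((D * l + i * l : ℕ) : ℤ) < n ∧ n < ((D * l + (i + 1) * l : ℕ) : ℤ) ∧ good n}.ncard : ℝ)) →
    (∀ i : ℕ, i < 15 * D → (l : ℝ) / 2 ≤
      ({n : ℤ | ((D * l + i * l : ℕ) : ℤ) < -n ∧ -n < ((D * l + (i + 1) * l : ℕ) : ℤ) ∧ good n}.ncard : ℝ)) →
    ∃ σ : ℝ → ℝ, Clock C1 ((D * l : ℕ) : ℝ) (1 / D) good σ := by
  obtain ⟨K, hK, hright⟩ := right_part
  obtain ⟨S, hS, hS1, hS2, hS3⟩ := smt_bound
  refine ⟨S + 2 * K, by linarith, ?_⟩
  intro D l good hD hl hc1 hc2
  have hD' : (0:ℝ) < D := by exact_mod_cast hD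
  have hD1 : (1:ℝ) ≤ D := by exact_mod_cast hD
  have hl' : (4:ℝ) ≤ l := by exact_mod_cast hl
  obtain ⟨A, smA, A0, A1, A2, A3, A4, A5, A6⟩ := hright D l good hD hl hc1
  have hc2' : ∀ i : ℕ, i < 15 * D → (l : ℝ) / 2 ≤
      ({n : ℤ | ((D * l + i * l : ℕ) : ℤ) < n ∧ n < ((D * l + (i + 1) * l : ℕ) : ℤ) ∧
        (fun m => good (-m)) n}.ncard : ℝ) := by
    intro i hi
    have h := hc2 i hi
    have he : {n : ℤ | ((D * l + i * l : ℕ) : ℤ) < -n ∧ -n < ((D * l + (i + 1) * l : ℕ) : ℤ) ∧ good n} =
        (fun n : ℤ => -n) '' {n : ℤ | ((D * l + i * l : ℕ) : ℤ) < n ∧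
          n < ((D * l + (i + 1) * l : ℕ) : ℤ) ∧ (fun m => good (-m)) n} := by
      ext n
      simp only [Set.mem_ofPred_eq, Set.mem_image]
      constructor
      · intro hn
        exact ⟨-n, ⟨hn.1, hn.2.1, by simpa using hn.2.2⟩, by simp⟩
      · rintro ⟨m, hm, rfl⟩
        refine ⟨by simpa using hm.1, by simpa using hm.2.1, hm.2.2⟩
    rw [he, Set.ncard_image_of_injective _ neg_injective] at h
    exact h
  obtain ⟨B, smB, B0, B1, B2, B3, B4, B5, B6⟩ := hright D l (fun m => good (-m)) hD hl hc2'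
  set H : ℝ := ((D * l : ℕ) : ℝ) with hHdef
  have hH4 : 4 ≤ H := by
    rw [hHdef]
    push_cast
    nlinarith
  have hHpos : 0 < H := by linarith
  have dA : Differentiable ℝ A := smA.differentiable (by simp)
  have dB : Differentiable ℝ B := smB.differentiable (by simp)
  have smA' := (contDiff_infty_iff_deriv.1 smA).2
  have smB' := (contDiff_infty_iff_deriv.1 smB).2
  have smA'' := (contDiff_infty_iff_deriv.1 smA').2
  have smB'' := (contDiff_infty_iff_deriv.1 smB').2
  have smS : ContDiff ℝ ∞ Real.smoothTransition := Real.smoothTransition.contDiff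
  have smS' := (contDiff_infty_iff_deriv.1 smS).2
  have smS'' := (contDiff_infty_iff_deriv.1 smS').2
  set σ : ℝ → ℝ := fun t => -1 + 2 * Real.smoothTransition ((t / H + 1) / 2) + A t + (-1) * B (-t) with hσ
  have s1 : deriv σ = fun t => 0 + (2 * (1 / H / 2)) * deriv Real.smoothTransition ((t / H + 1) / 2)
      + deriv A t + (-(-1)) * deriv B (-t) :=
    comb_deriv H (-1) 2 (-1) (smS.differentiable (by simp)) dA dB
  have s2 : deriv (deriv σ) = fun t => 0 + (2 * (1 / H / 2) * (1 / H / 2)) *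
      deriv (deriv Real.smoothTransition) ((t / H + 1) / 2)
      + deriv (deriv A) t + (-(-(-1))) * deriv (deriv B) (-t) := by
    rw [s1]
    exact comb_deriv H 0 _ _ (smS'.differentiable (by simp)) (smA'.differentiable (by simp))
      (smB'.differentiable (by simp))
  have s3 : deriv (deriv (deriv σ)) = fun t => 0 + (2 * (1 / H / 2) * (1 / H / 2) * (1 / H / 2)) *
      deriv (deriv (deriv Real.smoothTransition)) ((t / H + 1) / 2)
      + deriv (deriv (deriv A)) t + (-(-(-(-1)))) * deriv (deriv (deriv B)) (-t) := by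
    rw [s2]
    exact comb_deriv H 0 _ _ (smS''.differentiable (by simp)) (smA''.differentiable (by simp))
      (smB''.differentiable (by simp))
  -- values
  have v0 : ∀ t, |t| ≤ H → σ t = -1 + 2 * Real.smoothTransition ((t / H + 1) / 2) := by
    intro t ht
    have := abs_le.1 ht
    simp only [hσ]
    rw [A0 t this.2, B0 (-t) (by linarith)]
    ring
  have v1 : ∀ t, H ≤ t → σ t = 1 + A t := by
    intro t ht
    simp only [hσ]
    rw [B0 (-t) (by linarith), Real.smoothTransition.one_of_one_le]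
    · ring
    · have : 1 ≤ t / H := by rwa [le_div_iff₀ hHpos, one_mul]
      linarith
  have v2 : ∀ t, t ≤ -H → σ t = -1 - B (-t) := by
    intro t ht
    simp only [hσ]
    rw [A0 t (by linarith), Real.smoothTransition.zero_of_nonpos]
    · ring
    · have : t / H ≤ -1 := by
        rw [div_le_iff₀ hHpos]
        linarith
      linarith
  have hold : ∀ t, |t| ≤ H → |σ t| ≤ 1 := by
    intro t ht
    rw [v0 t ht, abs_le]
    have h1 := Real.smoothTransition.nonneg ((t / H + 1) / 2)
    have h2 := Real.smoothTransition.le_one ((t / H + 1) / 2)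
    constructor <;> linarith
  -- derivative outside
  have w1 : ∀ t, H < t → deriv σ t = deriv A t := by
    intro t ht
    have h : σ =ᶠ[𝓝 t] fun t => 1 + A t := by
      filter_upwards [lt_mem_nhds ht] with y hy
      exact v1 y hy.le
    rw [h.deriv_eq, deriv_const_add]
  have w2 : ∀ t, t < -H → deriv σ t = deriv B (-t) := by
    intro t ht
    have h : σ =ᶠ[𝓝 t] fun t => -1 - B (-t) := by
      filter_upwards [gt_mem_nhds ht] with y hy
      exact v2 y hy.le
    rw [h.deriv_eq, deriv_const_sub, deriv_comp_neg]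
    ring
  have far1 : ∀ t, 16 * H < t → deriv A t = 0 := by
    intro t ht
    have h : A =ᶠ[𝓝 t] fun _ => (15:ℝ) := by
      filter_upwards [lt_mem_nhds ht] with y hy
      exact A1 y hy.le
    rw [h.deriv_eq]
    simp
  have far2 : ∀ t, 16 * H < t → deriv B t = 0 := by
    intro t ht
    have h : B =ᶠ[𝓝 t] fun _ => (15:ℝ) := by
      filter_upwards [lt_mem_nhds ht] with y hy
      exact B1 y hy.le
    rw [h.deriv_eq]
    simp
  have bb : ∀ (c x y z M : ℝ), 0 ≤ c → c ≤ 1 / H → |x| ≤ S → |y| ≤ K / H → |z| ≤ K / H →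
      |0 + c * x + y + z| ≤ (S + 2 * K) / H := by
    intro c x y z M hc0 hc1 hx hy hz
    have h1 : |c * x| ≤ S / H := by
      rw [abs_mul, abs_of_nonneg hc0]
      calc c * |x| ≤ 1 / H * S := mul_le_mul hc1 hx (abs_nonneg _) (by positivity)
        _ = S / H := by ring
    have h2 : |0 + c * x + y + z| ≤ |c * x| + |y| + |z| := by
      rw [zero_add]
      exact abs_add_three _ _ _
    have h3 : (S + 2 * K) / H = S / H + K / H + K / H := by ring
    rw [h3]
    linarith
  have hq : 1 / H / 2 ≤ 1 := by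
    rw [div_div, div_le_one (by positivity)]
    linarith
  have hq0 : 0 ≤ 1 / H / 2 := by positivity
  have hq1 : 2 * (1 / H / 2) = 1 / H := by ring
  refine ⟨σ, ?_, hold, ?_, ?_, ?_, ?_, ?_, ?_⟩
  · -- smooth
    have e1 : ContDiff ℝ ∞ (fun t : ℝ => Real.smoothTransition ((t / H + 1) / 2)) :=
      smS.comp (((contDiff_id.div_const H).add contDiff_const).div_const 2)
    have e2 : ContDiff ℝ ∞ (fun t : ℝ => B (-t)) := smB.comp contDiff_neg
    exact ((contDiff_const.add (contDiff_const.mul e1)).add smA).add (contDiff_const.mul e2)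
  · -- far
    intro t ht
    rcases le_total 0 t with h | h
    · rw [abs_of_nonneg h] at ht
      rw [v1 t (by linarith), A1 t ht]
      norm_num
    · rw [abs_of_nonpos h] at ht
      rw [v2 t (by linarith), B1 (-t) ht]
      norm_num
  · -- near
    intro t hd
    rcases le_or_gt |t| H with h | h
    · exact Or.inl (hold t h)
    · right
      rcases lt_abs.1 h with h | h
      · have h16 : t ≤ 16 * H := by
          by_contra hcc
          push Not at hcc
          exact hd (by rw [w1 t h, far1 t hcc])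
        rw [v1 t h.le]
        exact A2 t h.le h16
      · have h' : t < -H := by linarith
        have h16 : -t ≤ 16 * H := by
          by_contra hcc
          push Not at hcc
          exact hd (by rw [w2 t h', far2 (-t) hcc])
        rw [v2 t h'.le]
        have := B2 (-t) h.le h16
        rw [← abs_neg] at this
        convert this using 2
        ring
  · -- good
    intro t hd
    rcases le_or_gt |t| H with h | h
    · exact Or.inl (hold t h)
    · right
      rcases lt_abs.1 h with h | h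
      · rw [w1 t h] at hd
        exact A3 t hd
      · have h' : t < -H := by linarith
        rw [w2 t h'] at hd
        obtain ⟨n, hn, hn'⟩ := B3 (-t) hd
        refine ⟨-n, hn, ?_⟩
        rw [← abs_neg]
        convert hn' using 2
        push_cast
        ring
  · intro t
    rw [s1]
    apply bb _ _ _ _ 0 (by positivity) (le_of_eq hq1) (hS1 _) (A4 _)
    rw [neg_neg, one_mul]
    exact B4 _
  · intro t
    rw [s2]
    apply bb _ _ _ _ 0 (by positivity) _ (hS2 _) (A5 _)
    · rw [neg_neg, neg_one_mul, abs_neg]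
      exact B5 _
    · rw [hq1]
      have : 0 < 1 / H := by positivity
      nlinarith
  · intro t
    rw [s3]
    apply bb _ _ _ _ 0 (by positivity) _ (hS3 _) (A6 _)
    · rw [neg_neg, neg_neg, one_mul]
      exact B6 _
    · rw [hq1]
      have : 0 < 1 / H := by positivity
      have h2 : 1 / H * (1 / H / 2) ≤ 1 / H := by nlinarith
      have h3 : 0 ≤ 1 / H * (1 / H / 2) := by positivity
      nlinarith

end Pool.Agent.MP_ff4374_an
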