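import Pool.Agent.MP_ff4374_an.ABD

/-!
Module Cost: the cost of the slowly varying block is small, by compactness.
-/

set_option autoImplicit false
open Filter Topology
open scoped ContDiff

namespace Pool.Agent.MP_ff4374_an

theorem lamf_pos (q L : ℝ) : 0 < lamf q L := Real.exp_pos _

theorem lamf_le_one {q L : ℝ} (hq : 0 ≤ q) : lamf q L ≤ 1 := by
  unfold lamf
  rw [Real.exp_le_one_iff]
  have h1 : 0 ≤ Real.log 4096 := Real.log_nonneg (by norm_num)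
  have h2 : 0 ≤ 1 - Real.smoothTransition L := by
    have := Real.smoothTransition.le_one L
    linarith
  have h3 : 0 ≤ q * Real.log 4096 * (1 - Real.smoothTransition L) := by positivity
  linarith

/-! ### Slices of functions of six variables `(eps, x, s, c, q, L)` -/

private abbrev E3 := ℝ × ℝ × ℝ
private abbrev E6 := ℝ × ℝ × ℝ × ℝ × ℝ × ℝ

private def cpt (z : E6) (m : E3) : E6 :=
  (z.1, m.1, m.2.1, m.2.2, z.2.2.2.2.1, z.2.2.2.2.2)

private def csl (f : E6 → ℝ) (z : E6) (m : E3) : ℝ := f (cpt z m)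

private noncomputable def ciota : E3 →L[ℝ] E6 :=
  (0 : E3 →L[ℝ] ℝ).prod ((ContinuousLinearMap.fst ℝ ℝ (ℝ × ℝ)).prod
    (((ContinuousLinearMap.fst ℝ ℝ ℝ).comp (ContinuousLinearMap.snd ℝ ℝ (ℝ × ℝ))).prod
      (((ContinuousLinearMap.snd ℝ ℝ ℝ).comp (ContinuousLinearMap.snd ℝ ℝ (ℝ × ℝ))).prod
        ((0 : E3 →L[ℝ] ℝ).prod (0 : E3 →L[ℝ] ℝ)))))

private lemma ciota_apply (m : E3) : ciota m = (0, m.1, m.2.1, m.2.2, 0, 0) := rfl

private lemma cpt_hasFDerivAt (z : E6) (m : E3) : HasFDerivAt (cpt z) ciota m := by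
  have h : cpt z = fun m => ((z.1, 0, 0, 0, z.2.2.2.2.1, z.2.2.2.2.2) : E6) + ciota m := by
    funext m
    rw [ciota_apply]
    simp [cpt]
  rw [h]
  exact ciota.hasFDerivAt.const_add _

private lemma cpt_cont (z : E6) : Continuous (cpt z) := by
  unfold cpt
  fun_prop

private noncomputable def Pd (v : E6) (f : E6 → ℝ) (z : E6) : ℝ := fderiv ℝ f z v

private def v1 : E6 := (0, 1, 0, 0, 0, 0)
private def v2 : E6 := (0, 0, 1, 0, 0, 0)
private def v3 : E6 := (0, 0, 0, 1, 0, 0)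

private lemma csl_fderiv {f : E6 → ℝ} {z : E6} {m : E3} (h : DifferentiableAt ℝ f (cpt z m))
    (u : E3) : fderiv ℝ (csl f z) m u = Pd (ciota u) f (cpt z m) := by
  have h1 : HasFDerivAt (csl f z) ((fderiv ℝ f (cpt z m)).comp ciota) m :=
    h.hasFDerivAt.comp m (cpt_hasFDerivAt z m)
  rw [h1.fderiv]
  rfl

private lemma csl_p1 {f : E6 → ℝ} {z : E6} {m : E3} (h : DifferentiableAt ℝ f (cpt z m)) :
    p1 (csl f z) m = csl (Pd v1 f) z m := csl_fderiv h _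
private lemma csl_p2 {f : E6 → ℝ} {z : E6} {m : E3} (h : DifferentiableAt ℝ f (cpt z m)) :
    p2 (csl f z) m = csl (Pd v2 f) z m := csl_fderiv h _
private lemma csl_p3 {f : E6 → ℝ} {z : E6} {m : E3} (h : DifferentiableAt ℝ f (cpt z m)) :
    p3 (csl f z) m = csl (Pd v3 f) z m := csl_fderiv h _

private lemma cev {f : E6 → ℝ} {z : E6} {m : E3} {n : ℕ} (h : ContDiffAt ℝ n f (cpt z m)) :
    ∀ᶠ m' in 𝓝 m, ContDiffAt ℝ n f (cpt z m') :=
  (cpt_cont z).continuousAt.eventually (h.eventually (by simp))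

private lemma cPd {f : E6 → ℝ} {w : E6} {n : ℕ} (v : E6) (h : ContDiffAt ℝ (n + 1 : ℕ) f w) :
    ContDiffAt ℝ n (Pd v f) w := by
  have h1 : ContDiffAt ℝ n (fderiv ℝ f) w := h.fderiv_right (by norm_cast)
  exact h1.clm_apply contDiffAt_const

private lemma cdiff {f : E6 → ℝ} {w : E6} {n : ℕ} (h : ContDiffAt ℝ (n + 1 : ℕ) f w) :
    DifferentiableAt ℝ f w := h.differentiableAt (by simp)

private lemma csl_ev1 {f : E6 → ℝ} {z : E6} {m : E3} {n : ℕ}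
    (h : ContDiffAt ℝ (n + 1 : ℕ) f (cpt z m)) : p1 (csl f z) =ᶠ[𝓝 m] csl (Pd v1 f) z := by
  filter_upwards [cev h] with m' hm'
  exact csl_p1 (cdiff hm')
private lemma csl_ev2 {f : E6 → ℝ} {z : E6} {m : E3} {n : ℕ}
    (h : ContDiffAt ℝ (n + 1 : ℕ) f (cpt z m)) : p2 (csl f z) =ᶠ[𝓝 m] csl (Pd v2 f) z := by
  filter_upwards [cev h] with m' hm'
  exact csl_p2 (cdiff hm')
private lemma csl_ev3 {f : E6 → ℝ} {z : E6} {m : E3} {n : ℕ}
    (h : ContDiffAt ℝ (n + 1 : ℕ) f (cpt z m)) : p3 (csl f z) =ᶠ[𝓝 m] csl (Pd v3 f) z := by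
  filter_upwards [cev h] with m' hm'
  exact csl_p3 (cdiff hm')

private lemma p1_congr {f g : E3 → ℝ} {m : E3} (h : f =ᶠ[𝓝 m] g) : p1 f m = p1 g m := by
  unfold p1
  rw [h.fderiv_eq]
private lemma p3_congr {f g : E3 → ℝ} {m : E3} (h : f =ᶠ[𝓝 m] g) : p3 f m = p3 g m := by
  unfold p3
  rw [h.fderiv_eq]

private lemma EE_congr {F f g : E3 → ℝ} {m : E3} (h : f =ᶠ[𝓝 m] g) : EE F f m = EE F g m := by
  unfold EE
  rw [p1_congr h, p3_congr h]

private lemma csl_p11 {f : E6 → ℝ} {z : E6} {m : E3} (h : ContDiffAt ℝ (2 : ℕ) f (cpt z m)) :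
    p1 (p1 (csl f z)) m = csl (Pd v1 (Pd v1 f)) z m := by
  rw [p1_congr (csl_ev1 (n := 1) h), csl_p1 (cdiff (n := 0) (cPd v1 h))]
private lemma csl_p13 {f : E6 → ℝ} {z : E6} {m : E3} (h : ContDiffAt ℝ (2 : ℕ) f (cpt z m)) :
    p1 (p3 (csl f z)) m = csl (Pd v1 (Pd v3 f)) z m := by
  rw [p1_congr (csl_ev3 (n := 1) h), csl_p1 (cdiff (n := 0) (cPd v3 h))]

private noncomputable def EE6 (f g : E6 → ℝ) (w : E6) : ℝ :=
  - w.2.2.1 * Pd v1 g w + (1 + w.2.2.1 * Pd v1 (Pd v1 f) w) / Pd v1 (Pd v3 f) w * Pd v3 g w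

private lemma csl_EE {f g : E6 → ℝ} {z : E6} {m : E3} (h : ContDiffAt ℝ (2 : ℕ) f (cpt z m))
    (hg : DifferentiableAt ℝ g (cpt z m)) :
    EE (csl f z) (csl g z) m = csl (EE6 f g) z m := by
  unfold EE
  rw [csl_p11 h, csl_p13 h, csl_p1 hg, csl_p3 hg]
  rfl

private lemma EE6_contDiffAt {f g : E6 → ℝ} {w : E6} {n : ℕ}
    (h : ContDiffAt ℝ (n + 1 + 1 : ℕ) f w) (hg : ContDiffAt ℝ (n + 1 : ℕ) g w)
    (hne : Pd v1 (Pd v3 f) w ≠ 0) : ContDiffAt ℝ n (EE6 f g) w := by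
  have hs : ContDiffAt ℝ n (fun w : E6 => w.2.2.1) w := by fun_prop
  have h11 : ContDiffAt ℝ n (Pd v1 (Pd v1 f)) w := cPd v1 (cPd v1 h)
  have h13 : ContDiffAt ℝ n (Pd v1 (Pd v3 f)) w := cPd v1 (cPd v3 h)
  have g1 : ContDiffAt ℝ n (Pd v1 g) w := cPd v1 hg
  have g3 : ContDiffAt ℝ n (Pd v3 g) w := cPd v3 hg
  unfold EE6
  exact (hs.neg.mul g1).add (((contDiffAt_const.add (hs.mul h11)).div h13 hne).mul g3)

private noncomputable def Cost6 (f : E6 → ℝ) (w : E6) : ℝ :=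
  EE6 f (EE6 f (fun w => - Pd v2 f w)) w

private lemma Cost6_cont {f : E6 → ℝ} {w : E6} (h : ContDiffAt ℝ (5 : ℕ) f w)
    (hne : Pd v1 (Pd v3 f) w ≠ 0) : ContinuousAt (Cost6 f) w := by
  have h2 : ContDiffAt ℝ (4 : ℕ) (fun w => - Pd v2 f w) w := (cPd (n := 4) v2 h).neg
  have h3 : ContDiffAt ℝ (3 : ℕ) (EE6 f (fun w => - Pd v2 f w)) w :=
    EE6_contDiffAt (n := 3) h h2 hne
  have h4 : ContDiffAt ℝ (2 : ℕ) (Cost6 f) w :=
    EE6_contDiffAt (n := 2) (h.of_le (by norm_cast)) h3 hne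
  exact h4.continuousAt

private lemma csl_cost {f : E6 → ℝ} {z : E6} {m : E3} (h : ContDiffAt ℝ (5 : ℕ) f (cpt z m))
    (hne : Pd v1 (Pd v3 f) (cpt z m) ≠ 0) : cost3 (csl f z) m = Cost6 f (cpt z m) := by
  have hg : ∀ m' : E3, ContDiffAt ℝ (5 : ℕ) f (cpt z m') →
      EE (csl f z) (fun m'' => - p2 (csl f z) m'') m' = csl (EE6 f (fun w => - Pd v2 f w)) z m' := by
    intro m' hm'
    have h1 : (fun m'' => - p2 (csl f z) m'') =ᶠ[𝓝 m'] csl (fun w => - Pd v2 f w) z := by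
      filter_upwards [csl_ev2 (n := 4) hm'] with m'' hm''
      rw [hm'']
      rfl
    rw [EE_congr h1]
    apply csl_EE (hm'.of_le (by norm_cast))
    exact cdiff (n := 3) (cPd (n := 4) v2 hm').neg
  have hev : EE (csl f z) (fun m'' => - p2 (csl f z) m'') =ᶠ[𝓝 m]
      csl (EE6 f (fun w => - Pd v2 f w)) z := by
    filter_upwards [cev h] with m' hm'
    exact hg m' hm'
  unfold cost3
  rw [EE_congr hev]
  have h2 : ContDiffAt ℝ (4 : ℕ) (fun w => - Pd v2 f w) (cpt z m) := (cPd (n := 4) v2 h).neg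
  have h3 : ContDiffAt ℝ (3 : ℕ) (EE6 f (fun w => - Pd v2 f w)) (cpt z m) :=
    EE6_contDiffAt (n := 3) h h2 hne
  rw [csl_EE (h.of_le (by norm_cast)) (cdiff (n := 2) h3)]
  rfl

/-! ### The function of six variables -/

private noncomputable def Phi6 (w : E6) : ℝ :=
  ZZ w.2.2.2.2.1 w.2.2.2.2.2 w.1 (w.2.1, w.2.2.1, w.2.2.2.1)

private lemma csl_Phi6 (z : E6) : csl Phi6 z = ZZ z.2.2.2.2.1 z.2.2.2.2.2 z.1 := rfl

private lemma Phi6_contDiffAt {w : E6} (hq : 0 ≤ w.2.2.2.2.1)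
    (hne : w.2.1 ^ 2 + w.2.2.2.1 ^ 2 ≠ 0) : ContDiffAt ℝ ∞ Phi6 w := by
  have h1 : ContDiffAt ℝ ∞ (fun w : E6 => w.2.2.2.2.2 +
      w.1 * Real.log (w.2.1 ^ 2 + w.2.2.2.1 ^ 2) / 2) w := by
    have h2 : ContDiffAt ℝ ∞ (fun w : E6 => w.2.1 ^ 2 + w.2.2.2.1 ^ 2) w := by fun_prop
    have h3 := h2.log hne
    have h4 : ContDiffAt ℝ ∞ (fun w : E6 => w.2.2.2.2.2) w := by fun_prop
    have h5 : ContDiffAt ℝ ∞ (fun w : E6 => w.1) w := by fun_prop
    exact h4.add ((h5.mul h3).div_const 2)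
  have h6 : ContDiffAt ℝ ∞ (fun w : E6 => lamf w.2.2.2.2.1 (w.2.2.2.2.2 +
      w.1 * Real.log (w.2.1 ^ 2 + w.2.2.2.1 ^ 2) / 2)) w := by
    unfold lamf
    have h7 : ContDiffAt ℝ ∞ (fun w : E6 => Real.smoothTransition (w.2.2.2.2.2 +
      w.1 * Real.log (w.2.1 ^ 2 + w.2.2.2.1 ^ 2) / 2)) w :=
      Real.smoothTransition.contDiffAt.comp w h1
    have h8 : ContDiffAt ℝ ∞ (fun w : E6 => -2 * w.2.2.2.2.1 * Real.log 4096) w := by fun_prop
    exact (h8.mul (contDiffAt_const.sub h7)).exp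
  have h9 : ContDiffAt ℝ ∞ (fun w : E6 => (w.2.1, w.2.2.1, w.2.2.2.1,
      lamf w.2.2.2.2.1 (w.2.2.2.2.2 + w.1 * Real.log (w.2.1 ^ 2 + w.2.2.2.1 ^ 2) / 2))) w := by
    have ha : ContDiffAt ℝ ∞ (fun w : E6 => w.2.1) w := by fun_prop
    have hb : ContDiffAt ℝ ∞ (fun w : E6 => w.2.2.1) w := by fun_prop
    have hc : ContDiffAt ℝ ∞ (fun w : E6 => w.2.2.2.1) w := by fun_prop
    exact ha.prodMk (hb.prodMk (hc.prodMk h6))
  exact ContDiffAt.comp (g := fun m : ℝ × ℝ × ℝ × ℝ => QQ m.1 m.2.1 m.2.2.1 m.2.2.2) w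
    (QQ_contDiffAt (lamf_pos _ _) (lamf_le_one hq)) h9

/-! ### The frozen block -/

private lemma p1_eq {g : E3 → ℝ} {x s c d : ℝ} (hg : DifferentiableAt ℝ g (x, s, c))
    (h : HasDerivAt (fun t => g (t, s, c)) d x) : p1 g (x, s, c) = d := by
  have h1 : HasDerivAt (fun t : ℝ => ((t, s, c) : E3)) ((1 : ℝ), (0 : ℝ), (0 : ℝ)) x :=
    (hasDerivAt_id x).prodMk ((hasDerivAt_const x s).prodMk (hasDerivAt_const x c))
  exact (hg.hasFDerivAt.comp_hasDerivAt x h1).unique h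

private lemma p2_eq {g : E3 → ℝ} {x s c d : ℝ} (hg : DifferentiableAt ℝ g (x, s, c))
    (h : HasDerivAt (fun t => g (x, t, c)) d s) : p2 g (x, s, c) = d := by
  have h1 : HasDerivAt (fun t : ℝ => ((x, t, c) : E3)) ((0 : ℝ), (1 : ℝ), (0 : ℝ)) s :=
    (hasDerivAt_const s x).prodMk ((hasDerivAt_id s).prodMk (hasDerivAt_const s c))
  exact (hg.hasFDerivAt.comp_hasDerivAt s h1).unique h

private lemma p3_eq {g : E3 → ℝ} {x s c d : ℝ} (hg : DifferentiableAt ℝ g (x, s, c))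
    (h : HasDerivAt (fun t => g (x, s, t)) d c) : p3 g (x, s, c) = d := by
  have h1 : HasDerivAt (fun t : ℝ => ((x, s, t) : E3)) ((0 : ℝ), (0 : ℝ), (1 : ℝ)) c :=
    (hasDerivAt_const c x).prodMk ((hasDerivAt_const c s).prodMk (hasDerivAt_id c))
  exact (hg.hasFDerivAt.comp_hasDerivAt c h1).unique h

private noncomputable def Fz (lam : ℝ) (m : E3) : ℝ := QQ m.1 m.2.1 m.2.2 lam

private lemma Fz_contDiff {lam : ℝ} (h0 : 0 < lam) (h1 : lam ≤ 1) : ContDiff ℝ ∞ (Fz lam) := by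
  rw [contDiff_iff_contDiffAt]
  rintro ⟨x, s, c⟩
  have h2 : ContDiffAt ℝ ∞ (fun m : E3 => (m.1, m.2.1, m.2.2, lam)) (x, s, c) := by fun_prop
  exact ContDiffAt.comp (g := fun m : ℝ × ℝ × ℝ × ℝ => QQ m.1 m.2.1 m.2.2.1 m.2.2.2)
    (f := fun m : E3 => (m.1, m.2.1, m.2.2, lam)) (x, s, c)
    (QQ_contDiffAt h0 h1) h2

private lemma Fz_p1 {lam : ℝ} (h0 : 0 < lam) (h1 : lam ≤ 1) (m : E3) :
    p1 (Fz lam) m = AA m.2.1 lam * m.1 + BB m.2.1 lam * m.2.2 := by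
  obtain ⟨x, s, c⟩ := m
  apply p1_eq ((Fz_contDiff h0 h1).differentiable (by simp) _)
  have h2 : HasDerivAt (fun t => AA s lam * t ^ 2 / 2 + BB s lam * t * c + DD s lam * c ^ 2 / 2)
      (AA s lam * (2 * x) / 2 + BB s lam * 1 * c) x := by
    have h3 := ((hasDerivAt_pow 2 x).const_mul (AA s lam)).div_const 2
    have h4 := ((hasDerivAt_id x).const_mul (BB s lam)).mul_const c
    have h5 := (h3.add h4).add_const (DD s lam * c ^ 2 / 2)
    refine h5.congr_deriv ?_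
    norm_num
  refine h2.congr_deriv ?_
  simp only
  ring

private lemma Fz_p3 {lam : ℝ} (h0 : 0 < lam) (h1 : lam ≤ 1) (m : E3) :
    p3 (Fz lam) m = BB m.2.1 lam * m.1 + DD m.2.1 lam * m.2.2 := by
  obtain ⟨x, s, c⟩ := m
  apply p3_eq ((Fz_contDiff h0 h1).differentiable (by simp) _)
  have h2 : HasDerivAt (fun t => AA s lam * x ^ 2 / 2 + BB s lam * x * t + DD s lam * t ^ 2 / 2)
      (BB s lam * x * 1 + DD s lam * (2 * c) / 2) c := by
    have h3 := ((hasDerivAt_pow 2 c).const_mul (DD s lam)).div_const 2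
    have h4 := ((hasDerivAt_id c).const_mul (BB s lam * x))
    have h5 := ((hasDerivAt_const c (AA s lam * x ^ 2 / 2)).add h4).add h3
    refine h5.congr_deriv ?_
    norm_num
  refine h2.congr_deriv ?_
  simp only
  ring

private lemma Fz_p2 {lam : ℝ} (h0 : 0 < lam) (h1 : lam ≤ 1) (m : E3) :
    p2 (Fz lam) m = -(GG m.2.1 lam / 2 *
      (m.1 + m.2.1 * (AA m.2.1 lam * m.1 + BB m.2.1 lam * m.2.2)) ^ 2) := by
  obtain ⟨x, s, c⟩ := m
  exact p2_eq ((Fz_contDiff h0 h1).differentiable (by simp) _) (QQ_ds h0 h1)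

private lemma Fz_pd_contDiff {lam : ℝ} (h0 : 0 < lam) (h1 : lam ≤ 1) (u : E3) :
    ContDiff ℝ ∞ (fun m => fderiv ℝ (Fz lam) m u) := by
  have h2 : ContDiff ℝ ∞ (fderiv ℝ (Fz lam)) := (Fz_contDiff h0 h1).fderiv_right (by simp)
  exact h2.clm_apply contDiff_const

private lemma Fz_p11 {lam : ℝ} (h0 : 0 < lam) (h1 : lam ≤ 1) (m : E3) :
    p1 (p1 (Fz lam)) m = AA m.2.1 lam := by
  obtain ⟨x, s, c⟩ := m
  apply p1_eq ((Fz_pd_contDiff h0 h1 (1, 0, 0)).differentiable (by simp) _)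
  have h2 : (fun t : ℝ => p1 (Fz lam) (t, s, c)) = fun t => AA s lam * t + BB s lam * c := by
    funext t
    rw [Fz_p1 h0 h1]
  change HasDerivAt (fun t : ℝ => p1 (Fz lam) (t, s, c)) (AA s lam) x
  rw [h2]
  simpa using ((hasDerivAt_id x).const_mul (AA s lam)).add_const (BB s lam * c)

private lemma Fz_p13 {lam : ℝ} (h0 : 0 < lam) (h1 : lam ≤ 1) (m : E3) :
    p1 (p3 (Fz lam)) m = BB m.2.1 lam := by
  obtain ⟨x, s, c⟩ := m
  apply p1_eq ((Fz_pd_contDiff h0 h1 (0, 0, 1)).differentiable (by simp) _)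
  have h2 : (fun t : ℝ => p3 (Fz lam) (t, s, c)) = fun t => BB s lam * t + DD s lam * c := by
    funext t
    rw [Fz_p3 h0 h1]
  change HasDerivAt (fun t : ℝ => p3 (Fz lam) (t, s, c)) (BB s lam) x
  rw [h2]
  simpa using ((hasDerivAt_id x).const_mul (BB s lam)).add_const (DD s lam * c)

private lemma Fz_cost {lam : ℝ} (h0 : 0 < lam) (h1 : lam ≤ 1) (m : E3) :
    cost3 (Fz lam) m = 0 := by
  have key : (EE (Fz lam) fun m' => - p2 (Fz lam) m') = fun _ => 0 := by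
    funext m
    obtain ⟨x, s, c⟩ := m
    unfold EE
    rw [Fz_p11 h0 h1, Fz_p13 h0 h1]
    simp only
    set g : E3 → ℝ := fun m' => - p2 (Fz lam) m' with hg
    have hgd : DifferentiableAt ℝ g (x, s, c) :=
      ((Fz_pd_contDiff h0 h1 (0, 1, 0)).neg).differentiable (by simp) _
    have hgf : ∀ m', g m' = GG m'.2.1 lam / 2 *
        (m'.1 + m'.2.1 * (AA m'.2.1 lam * m'.1 + BB m'.2.1 lam * m'.2.2)) ^ 2 := by
      intro m'
      rw [hg]
      simp only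
      rw [Fz_p2 h0 h1, neg_neg]
    set A := AA s lam
    set B := BB s lam with hB
    have hBpos : B ≠ 0 := (BB_pos h0 h1).ne'
    have e1 : p1 g (x, s, c) = GG s lam * (x + s * (A * x + B * c)) * (1 + s * A) := by
      apply p1_eq hgd
      have h3 : (fun t : ℝ => g (t, s, c)) = fun t =>
          GG s lam / 2 * ((1 + s * A) * t + s * B * c) ^ 2 := by
        funext t
        rw [hgf]
        simp only
        ring
      rw [h3]
      have h4 : HasDerivAt (fun t : ℝ => (1 + s * A) * t + s * B * c) (1 + s * A) x := by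
        simpa using ((hasDerivAt_id x).const_mul (1 + s * A)).add_const (s * B * c)
      refine ((h4.pow 2).const_mul (GG s lam / 2)).congr_deriv ?_
      norm_num
      ring
    have e3 : p3 g (x, s, c) = GG s lam * (x + s * (A * x + B * c)) * (s * B) := by
      apply p3_eq hgd
      have h3 : (fun t : ℝ => g (x, s, t)) = fun t =>
          GG s lam / 2 * (s * B * t + (1 + s * A) * x) ^ 2 := by
        funext t
        rw [hgf]
        simp only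
        ring
      rw [h3]
      have h4 : HasDerivAt (fun t : ℝ => s * B * t + (1 + s * A) * x) (s * B) c := by
        simpa using ((hasDerivAt_id c).const_mul (s * B)).add_const ((1 + s * A) * x)
      refine ((h4.pow 2).const_mul (GG s lam / 2)).congr_deriv ?_
      norm_num
      ring
    rw [e1, e3]
    field_simp
    ring
  unfold cost3
  rw [key]
  unfold EE p1 p3
  simp

private lemma ZZ_zero (q L : ℝ) : ZZ q L 0 = Fz (lamf q L) := by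
  funext m
  unfold ZZ Fz
  simp

theorem cost_small {δ : ℝ} (hδ : 0 < δ) : ∃ e1 : ℝ, 0 < e1 ∧
    ∀ q L eps : ℝ, 0 ≤ q → q ≤ 1 → 0 ≤ L → L ≤ 1 → 0 ≤ eps → eps ≤ e1 →
    ∀ x s c : ℝ, |s| ≤ 16 → x ^ 2 + c ^ 2 = 1 →
      |cost3 (ZZ q L eps) (x, s, c)| ≤ δ ∧ 0 < p1 (p3 (ZZ q L eps)) (x, s, c) := by
  let K : Set (ℝ × ℝ × ℝ × ℝ × ℝ) :=
    {y | y.1 ^ 2 + y.2.2.1 ^ 2 = 1 ∧ |y.2.1| ≤ 16 ∧ y.2.2.2.1 ∈ Set.Icc (0:ℝ) 1 ∧
      y.2.2.2.2 ∈ Set.Icc (0:ℝ) 1}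
  have hKc : IsCompact K := by
    have a1 : IsClosed {y : ℝ × ℝ × ℝ × ℝ × ℝ | y.1 ^ 2 + y.2.2.1 ^ 2 = 1} :=
      isClosed_eq (by fun_prop) continuous_const
    have a2 : IsClosed {y : ℝ × ℝ × ℝ × ℝ × ℝ | |y.2.1| ≤ 16} :=
      isClosed_le (by fun_prop) continuous_const
    have a3 : IsClosed {y : ℝ × ℝ × ℝ × ℝ × ℝ | y.2.2.2.1 ∈ Set.Icc (0:ℝ) 1} :=
      isClosed_Icc.preimage (by fun_prop)
    have a4 : IsClosed {y : ℝ × ℝ × ℝ × ℝ × ℝ | y.2.2.2.2 ∈ Set.Icc (0:ℝ) 1} :=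
      isClosed_Icc.preimage (by fun_prop)
    have hcl : IsClosed K := a1.inter (a2.inter (a3.inter a4))
    refine IsCompact.of_isClosed_subset
      (s := Set.Icc (-1:ℝ) 1 ×ˢ Set.Icc (-16:ℝ) 16 ×ˢ Set.Icc (-1:ℝ) 1 ×ˢ
      Set.Icc (0:ℝ) 1 ×ˢ Set.Icc (0:ℝ) 1)
      (isCompact_Icc.prod (isCompact_Icc.prod (isCompact_Icc.prod
        (isCompact_Icc.prod isCompact_Icc)))) hcl ?_
    rintro ⟨x, s, c, q, L⟩ ⟨h1, h2, h3, h4⟩
    simp only at h1 h2 h3 h4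
    refine ⟨?_, ?_, ?_, h3, h4⟩
    · constructor <;> nlinarith [sq_nonneg c, sq_nonneg x]
    · exact abs_le.mp h2
    · constructor <;> nlinarith [sq_nonneg c, sq_nonneg x]
  have hev : ∀ᶠ eps in 𝓝 (0:ℝ), ∀ y ∈ K,
      |cost3 (ZZ y.2.2.2.1 y.2.2.2.2 eps) (y.1, y.2.1, y.2.2.1)| ≤ δ ∧
        0 < p1 (p3 (ZZ y.2.2.2.1 y.2.2.2.2 eps)) (y.1, y.2.1, y.2.2.1) := by
    apply hKc.eventually_forall_of_forall_eventually
    rintro y ⟨h1, -, h3, -⟩
    have hc : ContDiffAt ℝ (5 : ℕ) Phi6 (0, y) :=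
      (Phi6_contDiffAt (w := (0, y)) h3.1 (by
        show y.1 ^ 2 + y.2.2.1 ^ 2 ≠ 0
        rw [h1]; norm_num)).of_le
          (WithTop.coe_le_coe.mpr le_top)
    have hlam0 : 0 < lamf y.2.2.2.1 y.2.2.2.2 := lamf_pos _ _
    have hlam1 : lamf y.2.2.2.1 y.2.2.2.2 ≤ 1 := lamf_le_one h3.1
    have hval : Pd v1 (Pd v3 Phi6) (0, y) = BB y.2.1 (lamf y.2.2.2.1 y.2.2.2.2) := by
      have h4 := csl_p13 (f := Phi6) (z := (0, y)) (m := (y.1, y.2.1, y.2.2.1))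
        (hc.of_le (by norm_cast))
      rw [csl_Phi6] at h4
      change p1 (p3 (ZZ y.2.2.2.1 y.2.2.2.2 0)) (y.1, y.2.1, y.2.2.1) =
        Pd v1 (Pd v3 Phi6) (0, y) at h4
      rw [← h4, ZZ_zero, Fz_p13 hlam0 hlam1]
    have hpos : 0 < Pd v1 (Pd v3 Phi6) (0, y) := by
      rw [hval]
      exact BB_pos hlam0 hlam1
    have hcost : Cost6 Phi6 (0, y) = 0 := by
      have h4 := csl_cost (f := Phi6) (z := (0, y)) (m := (y.1, y.2.1, y.2.2.1)) hc hpos.ne'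
      rw [csl_Phi6] at h4
      change cost3 (ZZ y.2.2.2.1 y.2.2.2.2 0) (y.1, y.2.1, y.2.2.1) =
        Cost6 Phi6 (0, y) at h4
      rw [← h4, ZZ_zero, Fz_cost hlam0 hlam1]
    have hcont13 : ContinuousAt (Pd v1 (Pd v3 Phi6)) (0, y) :=
      (cPd (n := 3) v1 (cPd (n := 4) v3 hc)).continuousAt
    have hcontC : ContinuousAt (Cost6 Phi6) (0, y) := Cost6_cont hc hpos.ne'
    have e1 : ∀ᶠ w in 𝓝 ((0, y) : E6), ContDiffAt ℝ (5 : ℕ) Phi6 w := hc.eventually (by simp)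
    have e2 : ∀ᶠ w in 𝓝 ((0, y) : E6), 0 < Pd v1 (Pd v3 Phi6) w :=
      hcont13.eventually_const_lt hpos
    have e3 : ∀ᶠ w in 𝓝 ((0, y) : E6), |Cost6 Phi6 w| < δ := by
      have h5 : ContinuousAt (fun w => |Cost6 Phi6 w|) (0, y) := hcontC.abs
      apply h5.eventually_lt_const
      show |Cost6 Phi6 (0, y)| < δ
      rw [hcost]
      simpa using hδ
    filter_upwards [e1, e2, e3] with w hw1 hw2 hw3
    constructor
    · have h4 := csl_cost (f := Phi6) (z := w) (m := (w.2.1, w.2.2.1, w.2.2.2.1)) hw1 hw2.ne'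
      rw [csl_Phi6] at h4
      rw [h4]
      exact hw3.le
    · have h4 := csl_p13 (f := Phi6) (z := w) (m := (w.2.1, w.2.2.1, w.2.2.2.1))
        (hw1.of_le (by norm_cast))
      rw [csl_Phi6] at h4
      rw [h4]
      exact hw2
  obtain ⟨e1, he1, h⟩ := Metric.eventually_nhds_iff.mp hev
  refine ⟨e1 / 2, by linarith, ?_⟩
  intro q L eps hq0 hq1 hL0 hL1 he0 hee x s c hs hxc
  have := h (y := eps) (by rw [Real.dist_eq, sub_zero, abs_of_nonneg he0]; linarith)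
    (x, s, c, q, L) ⟨hxc, hs, ⟨hq0, hq1⟩, ⟨hL0, hL1⟩⟩
  exact this

end Pool.Agent.MP_ff4374_an
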