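import Pool.Agent.MP_ff4374_an.Basic

set_option autoImplicit false

namespace Pool.Agent.MP_ff4374_an

namespace Cnt

/-- points of a window that are close to a fixed lattice line are well separated -/
theorem count_one {W : ℝ} (hW : 0 < W) {A L l : ℤ} (F : Finset ℤ)
    (hF : ∀ n ∈ F, A < n ∧ n < A + L ∧ ∃ i : ℤ, |om * ((n : ℝ) - l) - i| ≤ 2 * W) (hL : 0 ≤ L) :
    (F.card : ℝ) ≤ 16 * W * L + 1 := by
  set f : ℤ → ℤ := fun n => ⌊((n : ℝ) - A) * (16 * W)⌋ with hf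
  have hinj : Set.InjOn f F := by
    intro n hn n' hn' he
    by_contra hne
    obtain ⟨-, -, i1, h1⟩ := hF n hn
    obtain ⟨-, -, i2, h2⟩ := hF n' hn'
    have hd : n - n' ≠ 0 := sub_ne_zero.2 hne
    have h3 := om_dioph (n - n') (i1 - i2) hd
    have h4 : |om * ((n - n' : ℤ) : ℝ) - ((i1 - i2 : ℤ) : ℝ)| ≤ 4 * W := by
      have e : om * ((n - n' : ℤ) : ℝ) - ((i1 - i2 : ℤ) : ℝ) =
          (om * ((n : ℝ) - l) - i1) - (om * ((n' : ℝ) - l) - i2) := by
        push_cast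
        ring
      rw [e]
      exact (abs_sub _ _).trans (by linarith)
    have h5 : |f n - f n'| = 0 := by rw [he]; simp
    have h6 : |((n : ℝ) - A) * (16 * W) - ((n' : ℝ) - A) * (16 * W)| < 1 :=
      Int.abs_sub_lt_one_of_floor_eq_floor he
    have h7 : |((n : ℝ) - A) * (16 * W) - ((n' : ℝ) - A) * (16 * W)| =
        |((n - n' : ℤ) : ℝ)| * (16 * W) := by
      have e : ((n : ℝ) - A) * (16 * W) - ((n' : ℝ) - A) * (16 * W) =
          ((n - n' : ℤ) : ℝ) * (16 * W) := by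
        push_cast
        ring
      rw [e, abs_mul, abs_of_pos (show (0:ℝ) < 16 * W by positivity)]
    rw [h7] at h6
    have h8 : 0 < |((n - n' : ℤ) : ℝ)| := abs_pos.2 (by exact_mod_cast hd)
    have h9 := h3.trans h4
    rw [div_le_iff₀ (by positivity)] at h9
    nlinarith
  have hmaps : ∀ n ∈ F, f n ∈ Finset.Icc (0 : ℤ) ⌊(L : ℝ) * (16 * W)⌋ := by
    intro n hn
    obtain ⟨h1, h2, -⟩ := hF n hn
    have h1' : (A : ℝ) < n := by exact_mod_cast h1
    have h2' : (n : ℝ) < A + L := by exact_mod_cast h2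
    rw [Finset.mem_Icc]
    constructor
    · apply Int.floor_nonneg.2
      have : 0 < (n : ℝ) - A := by linarith
      positivity
    · apply Int.floor_le_floor
      apply mul_le_mul_of_nonneg_right _ (by positivity)
      linarith
  have hc := Finset.card_le_card_of_injOn f hmaps hinj
  have hL' : (0 : ℝ) ≤ L := by exact_mod_cast hL
  have h0 : 0 ≤ ⌊(L : ℝ) * (16 * W)⌋ := Int.floor_nonneg.2 (by positivity)
  rw [Int.card_Icc] at hc
  have h1 : ((⌊(L : ℝ) * (16 * W)⌋ + 1 - 0).toNat : ℝ) = (⌊(L : ℝ) * (16 * W)⌋ : ℝ) + 1 := by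
    have : ((⌊(L : ℝ) * (16 * W)⌋ + 1 - 0).toNat : ℤ) = ⌊(L : ℝ) * (16 * W)⌋ + 1 := by
      rw [Int.toNat_of_nonneg (by omega)]
      ring
    exact_mod_cast this
  calc (F.card : ℝ) ≤ ((⌊(L : ℝ) * (16 * W)⌋ + 1 - 0).toNat : ℝ) := by exact_mod_cast hc
    _ = (⌊(L : ℝ) * (16 * W)⌋ : ℝ) + 1 := h1
    _ ≤ 16 * W * L + 1 := by
        have := Int.floor_le ((L : ℝ) * (16 * W))
        linarith

/-- no close points if the tube is thin enough for the time scale -/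
theorem count_zero {W T : ℝ} (hsm : 16 * W * T < 1) (hW : 0 < W) {n l : ℤ} (hne : n ≠ l)
    (hb : |(n : ℝ) - l| ≤ 2 * T) {i : ℤ} (hi : |om * ((n : ℝ) - l) - i| ≤ 2 * W) : False := by
  have hd : n - l ≠ 0 := sub_ne_zero.2 hne
  have h3 := om_dioph (n - l) i hd
  have h4 : |om * ((n - l : ℤ) : ℝ) - (i : ℝ)| ≤ 2 * W := by
    push_cast
    exact hi
  have h8 : 0 < |((n - l : ℤ) : ℝ)| := abs_pos.2 (by exact_mod_cast hd)
  have h9 := h3.trans h4
  rw [div_le_iff₀ (by positivity)] at h9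
  have h10 : |((n - l : ℤ) : ℝ)| ≤ 2 * T := by
    push_cast
    exact hb
  nlinarith

theorem bad_neg {W T : ℕ → ℝ} {k : ℕ} {n : ℤ} (h : Bad W T k n) : Bad W T k (-n) := by
  obtain ⟨j, hj, l, i, hl, hi⟩ := h
  refine ⟨j, hj, -l, -i, by simpa using hl, ?_⟩
  have e : om * (((-n : ℤ) : ℝ) - ((-l : ℤ) : ℝ)) - ((-i : ℤ) : ℝ) = -(om * ((n : ℝ) - l) - i) := by
    push_cast
    ring
  rw [e, abs_neg]
  exact hi

theorem le_of_sq_le_sq' {a b : ℝ} (h : a ^ 2 ≤ b ^ 2) (hb : 0 ≤ b) : a ≤ b :=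
  (abs_le_of_sq_le_sq' h hb).2

/-- the square estimate -/
theorem sq_est {N1 d k j : ℕ} {w : ℝ} (hN : (4 : ℝ) ≤ N1) (hw : 0 < w)
    (hsmall : w * ((2 : ℝ) ^ d * N1) * 4 ^ d ≤ 1 / 10 ^ 8)
    (hcond : 1 ≤ 16 * (w / 2048 ^ j) * (16 ^ (k + 1) * 2 ^ d * N1)) :
    (16 : ℝ) ^ (j + 1) * 2 ^ d * N1 ≤ 26 / 1000 * 4 ^ k * N1 := by
  obtain ⟨x, hx⟩ : ∃ x : ℝ, x = (16 : ℝ) ^ j := ⟨_, rfl⟩
  obtain ⟨y, hy⟩ : ∃ y : ℝ, y = (4 : ℝ) ^ k := ⟨_, rfl⟩
  obtain ⟨z, hz⟩ : ∃ z : ℝ, z = (2 : ℝ) ^ d := ⟨_, rfl⟩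
  obtain ⟨N, hNN⟩ : ∃ N : ℝ, N = (N1 : ℝ) := ⟨_, rfl⟩
  have e1 : (2048 : ℝ) ^ j = x * 128 ^ j := by rw [hx, ← mul_pow]; norm_num
  have e2 : (16 : ℝ) ^ k = y ^ 2 := by rw [hy, ← pow_mul, mul_comm, pow_mul]; norm_num
  have e3 : (4 : ℝ) ^ d = z ^ 2 := by rw [hz, ← pow_mul, mul_comm, pow_mul]; norm_num
  have e4 : x ≤ 128 ^ j := by rw [hx]; exact pow_le_pow_left₀ (by norm_num) (by norm_num) _
  rw [e1, pow_succ, e2, ← hz, ← hNN] at hcond
  rw [e3, ← hz, ← hNN] at hsmall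
  rw [pow_succ, ← hx, ← hz, ← hNN, ← hy]
  have hx0 : 0 < x := by rw [hx]; positivity
  have hy0 : 0 < y := by rw [hy]; positivity
  have hz0 : 0 < z := by rw [hz]; positivity
  have hN0 : 0 < N := by rw [hNN]; linarith
  have h128 : (0 : ℝ) < 128 ^ j := by positivity
  clear hx hy hz hNN e1 e2 e3 hN
  obtain ⟨u, hu⟩ : ∃ u : ℝ, u = (128 : ℝ) ^ j := ⟨_, rfl⟩
  rw [← hu] at hcond e4 h128
  clear hu
  -- `x * u ≤ 256 * w * y^2 * z * N`
  have h1 : x * u ≤ 256 * w * y ^ 2 * z * N := by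
    have e : 16 * (w / (x * u)) * (y ^ 2 * 16 * z * N) = (256 * w * y ^ 2 * z * N) / (x * u) := by
      field_simp
      ring
    rw [e, le_div_iff₀ (by positivity), one_mul] at hcond
    exact hcond
  have h2 : x * x ≤ 256 * w * y ^ 2 * z * N := (mul_le_mul_of_nonneg_left e4 hx0.le).trans h1
  -- square of `x * z`
  have h3 : (x * z) ^ 2 ≤ (16 / 10 ^ 4 * y) ^ 2 := by
    have h4 : (x * z) ^ 2 = (x * x) * z ^ 2 := by ring
    have h5 : (x * x) * z ^ 2 ≤ (256 * w * y ^ 2 * z * N) * z ^ 2 :=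
      mul_le_mul_of_nonneg_right h2 (by positivity)
    have h6 : (256 * w * y ^ 2 * z * N) * z ^ 2 = 256 * y ^ 2 * (w * (z * N) * z ^ 2) := by ring
    have h7 : 256 * y ^ 2 * (w * (z * N) * z ^ 2) ≤ 256 * y ^ 2 * (1 / 10 ^ 8) :=
      mul_le_mul_of_nonneg_left hsmall (by positivity)
    have h8 : (16 / 10 ^ 4 * y) ^ 2 = 256 * y ^ 2 * (1 / 10 ^ 8) := by ring
    rw [h4, h8]
    rw [h6] at h5
    exact h5.trans h7
  have h4 : x * z ≤ 16 / 10 ^ 4 * y := by
    exact le_of_sq_le_sq' h3 (by positivity)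
  have h5 : x * 16 * z * N = (x * z) * (16 * N) := by ring
  rw [h5]
  have h6 := mul_le_mul_of_nonneg_right h4 (show 0 ≤ 16 * N by positivity)
  have h7 : 0 ≤ y * N := by positivity
  nlinarith

/-- the counting of the bad passes in one window -/
theorem count_bad {N1 d : ℕ} {w : ℝ} (hN : 4 ≤ N1) (hw : 0 < w)
    (hsmall : w * ((2 : ℝ) ^ d * N1) * 4 ^ d ≤ 1 / 10 ^ 8) (k : ℕ) (A L : ℤ) (hL : L = 8 ^ k * N1)
    (hA : (2 ^ (k + d) * (8 ^ k * N1) : ℤ) ≤ A)
    (hA2 : A + L ≤ 16 * (2 ^ (k + d) * (8 ^ k * N1) : ℤ)) (F : Finset ℤ)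
    (hF : ∀ n ∈ F, A < n ∧ n < A + L ∧
      Bad (fun j => w / 2048 ^ j) (fun j => 16 ^ (j + 1) * 2 ^ d * N1) k n) :
    (F.card : ℝ) ≤ (L : ℝ) / 8 := by
  classical
  have hN' : (4 : ℝ) ≤ N1 := by exact_mod_cast hN
  set W : ℕ → ℝ := fun j => w / 2048 ^ j with hW
  set T : ℕ → ℝ := fun j => 16 ^ (j + 1) * 2 ^ d * N1 with hT
  set Tz : ℕ → ℤ := fun j => 16 ^ (j + 1) * 2 ^ d * N1 with hTz
  have hTT : ∀ j, (Tz j : ℝ) = T j := by intro j; simp [hTz, hT]
  have hWpos : ∀ j, 0 < W j := by intro j; simp only [hW]; positivity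
  have hTone : ∀ j, 1 ≤ T j := by
    intro j
    simp only [hT]
    have h1 : (1 : ℝ) ≤ 16 ^ (j + 1) := one_le_pow₀ (by norm_num)
    have h2 : (1 : ℝ) ≤ 2 ^ d := one_le_pow₀ (by norm_num)
    have h3 : (1 : ℝ) ≤ 16 ^ (j + 1) * 2 ^ d := by nlinarith
    nlinarith
  have hLr : (L : ℝ) = 8 ^ k * N1 := by rw [hL]; push_cast; ring
  have hLpos : (0 : ℝ) < L := by rw [hLr]; positivity
  have hL0 : 0 ≤ L := by exact_mod_cast hLpos.le
  -- `H = T k / 16`
  have hHk : ((2 ^ (k + d) * (8 ^ k * N1) : ℤ) : ℝ) = T k / 16 := by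
    simp only [hT]
    push_cast
    have e : (16 : ℝ) ^ (k + 1) = 16 * (2 ^ k * 8 ^ k) := by
      rw [← mul_pow]
      norm_num
      ring
    rw [e, pow_add]
    ring
  have hAr : T k / 16 ≤ (A : ℝ) := by rw [← hHk]; exact_mod_cast hA
  have hA2r : (A : ℝ) + L ≤ T k := by
    have : (A : ℝ) + L ≤ 16 * ((2 ^ (k + d) * (8 ^ k * N1) : ℤ) : ℝ) := by exact_mod_cast hA2
    rw [hHk] at this
    linarith
  have hTj : ∀ j, j < k → T j ≤ T k / 16 := by
    intro j hj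
    simp only [hT]
    have h1 : (16 : ℝ) ^ (j + 1) ≤ 16 ^ k := pow_le_pow_right₀ (by norm_num) hj
    have h2 : (16 : ℝ) ^ (k + 1) = 16 ^ k * 16 := pow_succ _ _
    rw [h2]
    have h3 : (0 : ℝ) ≤ 2 ^ d * N1 := by positivity
    nlinarith [mul_le_mul_of_nonneg_right h1 h3]
  have hWk : ∀ j, j < k → W k ≤ W j := by
    intro j hj
    simp only [hW]
    apply div_le_div_of_nonneg_left hw.le (by positivity)
    exact pow_le_pow_right₀ (by norm_num) hj.le
  -- the pieces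
  set S : ℕ → ℤ → Finset ℤ := fun j l => F.filter (fun n => ∃ i : ℤ, |om * ((n : ℝ) - l) - i| ≤ 2 * W j)
    with hS
  have hcover : F ⊆ (Finset.range k).biUnion (fun j => (Finset.Icc (-Tz j) (Tz j)).biUnion (fun l => S j l)) := by
    intro n hn
    obtain ⟨-, -, j, hj, l, i, hl, hi⟩ := hF n hn
    rw [Finset.mem_biUnion]
    refine ⟨j, Finset.mem_range.2 hj, ?_⟩
    rw [Finset.mem_biUnion]
    refine ⟨l, ?_, ?_⟩
    · rw [Finset.mem_Icc]
      have hl' : |(l : ℝ)| ≤ (Tz j : ℝ) := by rw [hTT]; exact hl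
      rw [abs_le] at hl'
      constructor
      · have := hl'.1
        exact_mod_cast this
      · have := hl'.2
        exact_mod_cast this
    · simp only [hS, Finset.mem_filter]
      refine ⟨hn, i, hi.trans ?_⟩
      have := hWk j hj
      show W j + W k ≤ 2 * W j
      linarith
  set c : ℕ → ℝ := fun j => if 1 ≤ 16 * W j * T k then 16 * W j * L + 1 else 0 with hc
  have hSc : ∀ j, j < k → ∀ l ∈ Finset.Icc (-Tz j) (Tz j), ((S j l).card : ℝ) ≤ c j := by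
    intro j hj l hl
    by_cases hcond : 1 ≤ 16 * W j * T k
    · have e : c j = 16 * W j * L + 1 := by simp only [hc]; rw [if_pos hcond]
      rw [e]
      refine count_one (hWpos j) (A := A) (l := l) _ ?_ hL0
      intro n hn
      rw [Finset.mem_filter] at hn
      exact ⟨(hF n hn.1).1, (hF n hn.1).2.1, hn.2⟩
    · have e : c j = 0 := by simp only [hc]; rw [if_neg hcond]
      rw [e]
      have : S j l = ∅ := by
        rw [Finset.eq_empty_iff_forall_notMem]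
        intro n hn
        simp only [hS] at hn
        rw [Finset.mem_filter] at hn
        obtain ⟨hnF, i, hi⟩ := hn
        have h1 : (A : ℝ) < n := by exact_mod_cast (hF n hnF).1
        have h2 : (n : ℝ) < A + L := by exact_mod_cast (hF n hnF).2.1
        rw [Finset.mem_Icc] at hl
        have hl1 : -T j ≤ (l : ℝ) := by rw [← hTT]; exact_mod_cast hl.1
        have hl2 : (l : ℝ) ≤ T j := by rw [← hTT]; exact_mod_cast hl.2
        have h3 := hTj j hj
        have h4 := hTone k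
        refine count_zero (not_le.1 hcond) (hWpos j) (n := n) (l := l) ?_ ?_ hi
        · intro he
          rw [he] at h1
          linarith
        · rw [abs_le]
          constructor <;> linarith
      rw [this]
      simp
  have hcard : (F.card : ℝ) ≤ ∑ j ∈ Finset.range k, (2 * T j + 1) * c j := by
    have h1 := (Finset.card_le_card hcover).trans Finset.card_biUnion_le
    have h2 : (F.card : ℝ) ≤ ∑ j ∈ Finset.range k,
        (((Finset.Icc (-Tz j) (Tz j)).biUnion (fun l => S j l)).card : ℝ) := by exact_mod_cast h1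
    refine h2.trans (Finset.sum_le_sum fun j hj => ?_)
    have h3 : (((Finset.Icc (-Tz j) (Tz j)).biUnion (fun l => S j l)).card : ℝ) ≤
        ∑ l ∈ Finset.Icc (-Tz j) (Tz j), ((S j l).card : ℝ) := by
      exact_mod_cast Finset.card_biUnion_le
    refine h3.trans ?_
    have h4 : ∑ l ∈ Finset.Icc (-Tz j) (Tz j), ((S j l).card : ℝ) ≤
        ∑ l ∈ Finset.Icc (-Tz j) (Tz j), c j :=
      Finset.sum_le_sum fun l hl => hSc j (Finset.mem_range.1 hj) l hl
    refine h4.trans (le_of_eq ?_)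
    rw [Finset.sum_const, nsmul_eq_mul, Int.card_Icc]
    congr 1
    have h5 : (0 : ℤ) ≤ Tz j := by simp only [hTz]; positivity
    have h6 : ((Tz j + 1 - -Tz j).toNat : ℤ) = 2 * Tz j + 1 := by
      rw [Int.toNat_of_nonneg (by omega)]
      ring
    have h7 : ((Tz j + 1 - -Tz j).toNat : ℝ) = 2 * (Tz j : ℝ) + 1 := by exact_mod_cast h6
    rw [h7, hTT]
  -- numerical estimates
  set th : ℝ := w * ((2 : ℝ) ^ d * N1) with hth
  have hthpos : 0 < th := by positivity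
  have h4d : (1 : ℝ) ≤ 4 ^ d := one_le_pow₀ (by norm_num)
  have hth1 : th ≤ 1 / 10 ^ 8 := by
    have : th * 1 ≤ th * 4 ^ d := mul_le_mul_of_nonneg_left h4d hthpos.le
    linarith
  have hterm : ∀ j ∈ Finset.range k, (2 * T j + 1) * c j ≤
      (1536 / 10 ^ 8 * L) * (1 / 2 : ℝ) ^ j + 78 / 1000 * 4 ^ k * N1 := by
    intro j hj
    have hj := Finset.mem_range.1 hj
    have hWT : W j * T j = 16 * th * (1 / 128 : ℝ) ^ j := by
      simp only [hW, hT, hth]
      have e : (2048 : ℝ) ^ j = 16 ^ j * 128 ^ j := by rw [← mul_pow]; norm_num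
      rw [e, pow_succ, one_div, inv_pow]
      field_simp
    by_cases hcond : 1 ≤ 16 * W j * T k
    · have e : c j = 16 * W j * L + 1 := by simp only [hc]; rw [if_pos hcond]
      rw [e]
      have hT1 := hTone j
      have h1 : (2 * T j + 1) * (16 * W j * L + 1) ≤ 3 * T j * (16 * W j * L + 1) := by
        apply mul_le_mul_of_nonneg_right
        · linarith
        · have := hWpos j
          positivity
      have h2 : 3 * T j * (16 * W j * L + 1) = 48 * (W j * T j) * L + 3 * T j := by ring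
      have h3 : (1 / 128 : ℝ) ^ j ≤ (1 / 2 : ℝ) ^ j := pow_le_pow_left₀ (by norm_num) (by norm_num) _
      have h4 : 48 * (W j * T j) * L ≤ (1536 / 10 ^ 8 * L) * (1 / 2 : ℝ) ^ j := by
        rw [hWT]
        have h5 : 16 * th * (1 / 128 : ℝ) ^ j ≤ 16 * (1 / 10 ^ 8) * (1 / 2 : ℝ) ^ j := by
          apply mul_le_mul _ h3 (by positivity) (by positivity)
          linarith
        have h6 := mul_le_mul_of_nonneg_right h5 hLpos.le
        have h7 : (0:ℝ) ≤ (1 / 2 : ℝ) ^ j * L := by positivity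
        nlinarith
      have h5 : T j ≤ 26 / 1000 * 4 ^ k * N1 := sq_est hN' hw hsmall hcond
      linarith
    · have e : c j = 0 := by simp only [hc]; rw [if_neg hcond]
      rw [e, mul_zero]
      positivity
  have hsum := Finset.sum_le_sum hterm
  rw [Finset.sum_add_distrib, ← Finset.mul_sum, Finset.sum_const, Finset.card_range, nsmul_eq_mul] at hsum
  have hg := sum_geometric_two_le k
  have hk2 : (k : ℝ) ≤ 2 ^ k := by exact_mod_cast (Nat.lt_two_pow_self (n := k)).le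
  have e9 : (2 : ℝ) ^ k * 4 ^ k = 8 ^ k := by rw [← mul_pow]; norm_num
  have h10 : (k : ℝ) * (78 / 1000 * 4 ^ k * N1) ≤ 78 / 1000 * L := by
    rw [hLr, ← e9]
    have : (0 : ℝ) ≤ 78 / 1000 * 4 ^ k * N1 := by positivity
    have := mul_le_mul_of_nonneg_right hk2 this
    linarith
  have h11 : 1536 / 10 ^ 8 * (L : ℝ) * ∑ i ∈ Finset.range k, (1 / 2 : ℝ) ^ i ≤ 1536 / 10 ^ 8 * L * 2 :=
    mul_le_mul_of_nonneg_left hg (by positivity)
  linarith

end Cnt

open Cnt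

theorem count_good {N1 d : ℕ} {w : ℝ} (hN : 4 ≤ N1) (hw : 0 < w)
    (hsmall : w * ((2 : ℝ) ^ d * N1) * 4 ^ d ≤ 1 / 10 ^ 8) (k i : ℕ) (hi : i < 15 * 2 ^ (k + d)) :
    ((8 ^ k * N1 : ℕ) : ℝ) / 2 ≤
      ({n : ℤ | ((2 ^ (k + d) * (8 ^ k * N1) + i * (8 ^ k * N1) : ℕ) : ℤ) < n ∧
        n < ((2 ^ (k + d) * (8 ^ k * N1) + (i + 1) * (8 ^ k * N1) : ℕ) : ℤ) ∧
        ¬ Bad (fun j => w / 2048 ^ j) (fun j => 16 ^ (j + 1) * 2 ^ d * N1) k n}.ncard : ℝ) ∧
    ((8 ^ k * N1 : ℕ) : ℝ) / 2 ≤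
      ({n : ℤ | ((2 ^ (k + d) * (8 ^ k * N1) + i * (8 ^ k * N1) : ℕ) : ℤ) < -n ∧
        -n < ((2 ^ (k + d) * (8 ^ k * N1) + (i + 1) * (8 ^ k * N1) : ℕ) : ℤ) ∧
        ¬ Bad (fun j => w / 2048 ^ j) (fun j => 16 ^ (j + 1) * 2 ^ d * N1) k n}.ncard : ℝ) := by
  classical
  set W : ℕ → ℝ := fun j => w / 2048 ^ j with hW
  set T : ℕ → ℝ := fun j => 16 ^ (j + 1) * 2 ^ d * N1 with hT
  set A : ℤ := ((2 ^ (k + d) * (8 ^ k * N1) + i * (8 ^ k * N1) : ℕ) : ℤ) with hA
  set B : ℤ := ((2 ^ (k + d) * (8 ^ k * N1) + (i + 1) * (8 ^ k * N1) : ℕ) : ℤ) with hB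
  set L : ℤ := ((8 ^ k * N1 : ℕ) : ℤ) with hL
  have hBA : B = A + L := by
    simp only [hA, hB, hL]
    push_cast
    ring
  have hmain : ((8 ^ k * N1 : ℕ) : ℝ) / 2 ≤ ({n : ℤ | A < n ∧ n < B ∧ ¬ Bad W T k n}.ncard : ℝ) := by
    set S : Finset ℤ := Finset.Ioo A B with hS
    have e : {n : ℤ | A < n ∧ n < B ∧ ¬ Bad W T k n} = ↑(S.filter (fun n => ¬ Bad W T k n)) := by
      ext n
      simp only [Set.mem_ofPred_eq, Finset.coe_filter, hS, Finset.mem_Ioo]
      tauto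
    rw [e, Set.ncard_coe_finset]
    have hbad : ((S.filter (fun n => Bad W T k n)).card : ℝ) ≤ (L : ℝ) / 8 := by
      refine count_bad hN hw hsmall k A L (by simp [hL]) ?_ ?_ _ ?_
      · simp only [hA]
        push_cast
        have : (0 : ℤ) ≤ (i : ℤ) * (8 ^ k * N1) := by positivity
        linarith
      · rw [← hBA]
        simp only [hB]
        push_cast
        have h1 : (i : ℤ) + 1 ≤ 15 * 2 ^ (k + d) := by exact_mod_cast hi
        have h2 : (0 : ℤ) ≤ 8 ^ k * N1 := by positivity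
        have := mul_le_mul_of_nonneg_right h1 h2
        linarith
      · intro n hn
        rw [Finset.mem_filter, hS, Finset.mem_Ioo] at hn
        exact ⟨hn.1.1, by rw [← hBA]; exact hn.1.2, hn.2⟩
    have hsum := Finset.card_filter_add_card_filter_not (s := S) (fun n => Bad W T k n)
    have hScard : (S.card : ℝ) = (L : ℝ) - 1 := by
      have hLpos : 1 ≤ L := by
        simp only [hL]
        have : 1 ≤ 8 ^ k * N1 := Nat.one_le_iff_ne_zero.2 (by positivity)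
        exact_mod_cast this
      have h1 : (S.card : ℤ) = L - 1 := by
        rw [hS, Int.card_Ioo, hBA, Int.toNat_of_nonneg (by omega)]
        ring
      exact_mod_cast h1
    have hsum' : ((S.filter (fun n => Bad W T k n)).card : ℝ) +
        ((S.filter (fun n => ¬ Bad W T k n)).card : ℝ) = (L : ℝ) - 1 := by
      rw [← hScard]
      exact_mod_cast hsum
    have hL4 : (4 : ℝ) ≤ L := by
      have h1 : (1 : ℝ) ≤ 8 ^ k := one_le_pow₀ (by norm_num)
      have h2 : (4 : ℝ) ≤ N1 := by exact_mod_cast hN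
      simp only [hL]
      push_cast
      nlinarith
    have hLL : ((8 ^ k * N1 : ℕ) : ℝ) = (L : ℝ) := by simp [hL]
    rw [hLL]
    linarith
  refine ⟨hmain, ?_⟩
  have e : {n : ℤ | A < -n ∧ -n < B ∧ ¬ Bad W T k n} =
      (fun n => -n) '' {n : ℤ | A < n ∧ n < B ∧ ¬ Bad W T k n} := by
    ext n
    simp only [Set.mem_ofPred_eq, Set.mem_image]
    constructor
    · rintro ⟨h1, h2, h3⟩
      exact ⟨-n, ⟨h1, h2, fun hb => h3 (by simpa using bad_neg hb)⟩, by simp⟩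
    · rintro ⟨m, ⟨h1, h2, h3⟩, rfl⟩
      exact ⟨by simpa using h1, by simpa using h2, fun hb => h3 (by simpa using bad_neg hb)⟩
  rw [e, Set.ncard_image_of_injective _ neg_injective]
  exact hmain

end Pool.Agent.MP_ff4374_an
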