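import Mathlib

/-!
MP_ff4374_an: common definitions for the negative answer (frozen statement S06848):
a C^2 Tonelli Lagrangian on the 2-torus with C^1 (even C^2) beta function and a Mather set that is not
the whole torus.

Variables of type `E4`: (space, time, momentum, energy).
-/

set_option autoImplicit false
open MeasureTheory
open scoped ContDiff

namespace Pool.Agent.MP_ff4374_an

/-- four real variables: (space, time, momentum, energy) -/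
abbrev E4 := ℝ × ℝ × ℝ × ℝ

/-- the plane -/
abbrev V := Fin 2 → ℝ

/-- rotation number -/
noncomputable def om : ℝ := Real.sqrt 2

/-- partial derivatives -/
noncomputable def dX (f : E4 → ℝ) (m : E4) : ℝ := fderiv ℝ f m (1, 0, 0, 0)
noncomputable def dT (f : E4 → ℝ) (m : E4) : ℝ := fderiv ℝ f m (0, 1, 0, 0)
noncomputable def dP (f : E4 → ℝ) (m : E4) : ℝ := fderiv ℝ f m (0, 0, 1, 0)
noncomputable def dE (f : E4 → ℝ) (m : E4) : ℝ := fderiv ℝ f m (0, 0, 0, 1)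

/-- second derivative as a quadratic form -/
noncomputable def D2 {E : Type*} [NormedAddCommGroup E] [NormedSpace ℝ E] (f : E → ℝ) (m v : E) : ℝ :=
  fderiv ℝ (fderiv ℝ f) m v v

/-! ### the profile and the block functions -/

noncomputable def f0 (s : ℝ) : ℝ :=
  Real.smoothTransition (s - 1) * (1 + (1 - Real.smoothTransition ((s - 2) / 14)) / 5)

noncomputable def w0 (s : ℝ) : ℝ := f0 s + f0 (-s)

noncomputable def W0 (s : ℝ) : ℝ := ∫ u in (0:ℝ)..s, w0 u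

noncomputable def wl (s lam : ℝ) : ℝ := (1 - lam) * w0 s + lam
noncomputable def wl' (s lam : ℝ) : ℝ := (1 - lam) * deriv w0 s
noncomputable def NN (s lam : ℝ) : ℝ := 2 * wl s lam + s * wl' s lam
noncomputable def AA (s lam : ℝ) : ℝ := - wl' s lam / NN s lam
noncomputable def BB (s lam : ℝ) : ℝ := 2 * wl s lam * Real.sqrt (wl s lam) / NN s lam
noncomputable def DD (s lam : ℝ) : ℝ :=
  2 * s * wl s lam ^ 2 / NN s lam - ((1 - lam) * W0 s + lam * s)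
noncomputable def GG (s lam : ℝ) : ℝ :=
  (2 * wl s lam * ((1 - lam) * deriv (deriv w0) s) - 3 * wl' s lam ^ 2) / (4 * wl s lam ^ 2)

/-- the generating function with frozen parameter `lam` -/
noncomputable def QQ (x s c lam : ℝ) : ℝ := AA s lam * x ^ 2 / 2 + BB s lam * x * c + DD s lam * c ^ 2 / 2

/-- the slow parameter: `4096^(-2q)` for `L ≤ 0`, `1` for `1 ≤ L` -/
noncomputable def lamf (q L : ℝ) : ℝ :=
  Real.exp (-2 * q * Real.log 4096 * (1 - Real.smoothTransition L))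

/-- the generating function with slowly varying parameter, as a function of `(x,s,c)` -/
noncomputable def ZZ (q L eps : ℝ) (m : ℝ × ℝ × ℝ) : ℝ :=
  QQ m.1 m.2.1 m.2.2 (lamf q (L + eps * Real.log (m.1 ^ 2 + m.2.2 ^ 2) / 2))

/-! cost of a generating function of three variables `(x,s,c)` -/

noncomputable def p1 (F : ℝ × ℝ × ℝ → ℝ) (m : ℝ × ℝ × ℝ) : ℝ := fderiv ℝ F m (1, 0, 0)
noncomputable def p2 (F : ℝ × ℝ × ℝ → ℝ) (m : ℝ × ℝ × ℝ) : ℝ := fderiv ℝ F m (0, 1, 0)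
noncomputable def p3 (F : ℝ × ℝ × ℝ → ℝ) (m : ℝ × ℝ × ℝ) : ℝ := fderiv ℝ F m (0, 0, 1)

noncomputable def EE (F g : ℝ × ℝ × ℝ → ℝ) (m : ℝ × ℝ × ℝ) : ℝ :=
  - m.2.1 * p1 g m + (1 + m.2.1 * p1 (p1 F) m) / p1 (p3 F) m * p3 g m

noncomputable def cost3 (F : ℝ × ℝ × ℝ → ℝ) (m : ℝ × ℝ × ℝ) : ℝ :=
  EE F (EE F (fun m' => - p2 F m')) m

/-- one normalised block: generating function `Z (x,s,c,e)`, Hamiltonian `G (x,s,p,e)` -/
structure Block (r δ R : ℝ) (Z G : E4 → ℝ) : Prop where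
  smZ : ContDiff ℝ ∞ Z
  smG : ContDiff ℝ ∞ G
  one_le : 1 ≤ R
  far : ∀ x s c e : ℝ, (16 ≤ |s| ∨ R ≤ |x| ∨ R ≤ |c| ∨ r ≤ |e - 1|) → Z (x, s, c, e) = x * c
  mono : ∀ m, 0 < dX (dP Z) m
  rel : ∀ x s c e : ℝ, G (x, s, dX Z (x, s, c, e), e) = - dT Z (x, s, c, e)
  Gfar : ∀ x s p e : ℝ, (16 ≤ |s| ∨ |s| ≤ 1 ∨ R ≤ |x| ∨ R ≤ |p| ∨ r ≤ |e - 1|) → G (x, s, p, e) = 0
  hold0 : ∀ x s e : ℝ, |s| ≤ 1 → dX Z (x, s, 0, e) = 0
  hold1 : ∀ x s : ℝ, |s| ≤ 1 → |x| ≤ 1 → dP Z (x, s, 0, 1) = x / 4096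
  flatE : ∀ m : E4, |m.2.2.2 - 1| < r / 2 → dE G m = 0
  cost : ∀ m : E4, |D2 G m (- m.2.1, 0, 1, 0)| ≤ δ

/-- the clock of one level -/
structure Clock (C1 H ε : ℝ) (good : ℤ → Prop) (σ : ℝ → ℝ) : Prop where
  sm : ContDiff ℝ ∞ σ
  hold : ∀ t, |t| ≤ H → |σ t| ≤ 1
  far : ∀ t, 16 * H ≤ |t| → 16 ≤ |σ t|
  near : ∀ t, deriv σ t ≠ 0 → |σ t| ≤ 1 ∨ |σ t - t / H| ≤ ε
  good : ∀ t, deriv σ t ≠ 0 → |σ t| ≤ 1 ∨ ∃ n : ℤ, good n ∧ |t - n| ≤ 1 / 4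
  b1 : ∀ t, |deriv σ t| ≤ C1 / H
  b2 : ∀ t, |deriv (deriv σ) t| ≤ C1 / H
  b3 : ∀ t, |deriv (deriv (deriv σ)) t| ≤ C1 / H

/-- Hamiltonian of one level in strip coordinates `(xi,t,p,e)` -/
noncomputable def Klev (G : E4 → ℝ) (a H : ℝ) (σ : ℝ → ℝ) (m : E4) : ℝ :=
  a ^ 2 / H * deriv σ m.2.1 *
    G ((m.1 - m.2.2.1 * m.2.1) / a, σ m.2.1, m.2.2.1 * H / a, m.2.2.2)

/-- a local canonical map `(X,t,c,e) ↦ (ψ,t,P,e)`, identity outside the tube `|X|<W, |t|<T`, with generating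
primitive `S` (restricted Poincare-Cartan identity) and Hamiltonian `p^2/2 + K`. -/
structure LTrip (W T r : ℝ) (ψ P S K : E4 → ℝ) : Prop where
  smψ : ContDiff ℝ ∞ ψ
  smP : ContDiff ℝ ∞ P
  smS : ContDiff ℝ ∞ S
  smK : ContDiff ℝ ∞ K
  form : ∀ m v : E4, v.2.2.2 = 0 →
    fderiv ℝ S m v = P m * fderiv ℝ ψ m v
      - (P m ^ 2 / 2 + K (ψ m, m.2.1, P m, m.2.2.2)) * v.2.1
      - m.2.2.1 * v.1 + m.2.2.1 ^ 2 / 2 * v.2.1
  inj : ∀ m m' : E4, m.2.1 = m'.2.1 → m.2.2.2 = m'.2.2.2 → ψ m = ψ m' → P m = P m' → m = m'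
  trivtube : ∀ m : E4, (W ≤ |m.1| ∨ T ≤ |m.2.1|) → ψ m = m.1 ∧ P m = m.2.2.1 ∧ S m = 0 ∧ K m = 0
  trivr : ∀ m : E4, (r ≤ |m.2.2.1| ∨ r ≤ |m.2.2.2 - 1|) →
    ψ m = m.1 ∧ P m = m.2.2.1 ∧ S m = 0 ∧ K m = 0

/-! ### the torus -/

/-- strip coordinates with respect to the translate `g` of the strip -/
noncomputable def act (g : ℤ × ℤ) (m : E4) : E4 :=
  (m.1 - om * (m.2.1 + g.1) - g.2, m.2.1 + g.1, m.2.2.1, m.2.2.2)

/-- periodisation -/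
noncomputable def per (f : E4 → ℝ) (m : E4) : ℝ := ∑' g : ℤ × ℤ, f (act g m)

/-- translates of the tube `|xi| ≤ W, |t| ≤ T` are disjoint -/
def Thin (W T : ℝ) : Prop :=
  ∀ n j : ℤ, |(n : ℝ)| ≤ 2 * T → |om * n + j| ≤ 2 * W → n = 0 ∧ j = 0

/-- a canonical map of the torus `(X,y,c,e) ↦ (ψ,y,P,e)` conjugating `om p + p^2/2 + κ` to `om c + c^2/2` -/
structure Trip (r : ℝ) (ψ P S κ : E4 → ℝ) : Prop where
  smψ : ContDiff ℝ ∞ ψ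
  smP : ContDiff ℝ ∞ P
  smS : ContDiff ℝ ∞ S
  smκ : ContDiff ℝ ∞ κ
  perψ : ∀ (m : E4) (i j : ℤ), ψ (m.1 + i, m.2.1 + j, m.2.2.1, m.2.2.2) = ψ m + i
  perP : ∀ (m : E4) (i j : ℤ), P (m.1 + i, m.2.1 + j, m.2.2.1, m.2.2.2) = P m
  perS : ∀ (m : E4) (i j : ℤ), S (m.1 + i, m.2.1 + j, m.2.2.1, m.2.2.2) = S m
  perκ : ∀ (m : E4) (i j : ℤ), κ (m.1 + i, m.2.1 + j, m.2.2.1, m.2.2.2) = κ m
  form : ∀ m v : E4, v.2.2.2 = 0 →
    fderiv ℝ S m v = P m * fderiv ℝ ψ m v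
      - (om * P m + P m ^ 2 / 2 + κ (ψ m, m.2.1, P m, m.2.2.2)) * v.2.1
      - m.2.2.1 * v.1 + (om * m.2.2.1 + m.2.2.1 ^ 2 / 2) * v.2.1
  inj : ∀ m m' : E4, m.2.1 = m'.2.1 → m.2.2.2 = m'.2.2.2 → ψ m = ψ m' → P m = P m' → m = m'
  triv : ∀ m : E4, (r ≤ |m.2.2.1| ∨ r ≤ |m.2.2.2 - 1|) →
    ψ m = m.1 ∧ P m = m.2.2.1 ∧ S m = 0 ∧ κ m = 0
  bd : ∀ m : E4, |m.2.2.1| ≤ r → |P m| ≤ r

/-- the map of a triple -/
def mapF (ψ P : E4 → ℝ) (m : E4) : E4 := (ψ m, m.2.1, P m, m.2.2.2)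

/-- composite of the first `k` level maps: `Phi (k+1) = Phi k ∘ mapF (ψ k) (P k)` -/
def Phi (ψ P : ℕ → E4 → ℝ) : ℕ → E4 → E4
  | 0 => fun m => m
  | k + 1 => fun m => Phi ψ P k (mapF (ψ k) (P k) m)

def PhiX (ψ P : ℕ → E4 → ℝ) (k : ℕ) (m : E4) : ℝ := (Phi ψ P k m).1
def PhiP (ψ P : ℕ → E4 → ℝ) (k : ℕ) (m : E4) : ℝ := (Phi ψ P k m).2.2.1

/-- primitive of the composite -/
def PhiS (ψ P S : ℕ → E4 → ℝ) : ℕ → E4 → ℝ
  | 0 => fun _ => 0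
  | k + 1 => fun m => PhiS ψ P S k (mapF (ψ k) (P k) m) + S k m

/-- Hamiltonian of the composite -/
def sumK (K : ℕ → E4 → ℝ) (k : ℕ) (m : E4) : ℝ := ∑ j ∈ Finset.range k, K j m

/-- C^2 smallness -/
structure KB (δ r : ℝ) (κ : E4 → ℝ) : Prop where
  c2 : ContDiff ℝ 2 κ
  per : ∀ (m : E4) (i j : ℤ), κ (m.1 + i, m.2.1 + j, m.2.2.1, m.2.2.2) = κ m
  b0 : ∀ m, |κ m| ≤ δ
  b1 : ∀ m v, |fderiv ℝ κ m v| ≤ δ * ‖v‖
  b2 : ∀ m v, |D2 κ m v| ≤ δ * ‖v‖ ^ 2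
  supp : ∀ m : E4, (r ≤ |m.2.2.1| ∨ r ≤ |m.2.2.2 - 1|) → κ m = 0


/-! ### levels and towers -/

/-- pass `n` of level `k` is bad if the tube of level `k` near time `n` may meet a tube of an earlier level -/
def Bad (W T : ℕ → ℝ) (k : ℕ) (n : ℤ) : Prop :=
  ∃ j, j < k ∧ ∃ l i : ℤ, |(l : ℝ)| ≤ T j ∧ |om * ((n : ℝ) - l) - i| ≤ W j + W k

/-- one level on the torus: canonical triple, C^2 bound, geometry of the supports, hold property -/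
structure Lev (r W T : ℝ) (good : ℤ → Prop) (a Hh b : ℝ) (ψ P S K : E4 → ℝ) : Prop where
  trip : Trip r ψ P S K
  kb : KB b r K
  flat : ∀ m : E4, |m.2.2.2 - 1| < r / 2 → dE K m = 0
  supp : ∀ m ∈ tsupport K, ∃ (g : ℤ × ℤ) (n : ℤ), good n ∧ |(act g m).1| ≤ W ∧
    |(act g m).2.1| ≤ T ∧ |(act g m).2.1 - n| ≤ 1 / 4
  out : ∀ m : E4, (∀ g : ℤ × ℤ, ¬ (|(act g m).1| < W ∧ |(act g m).2.1| < T)) →
    ψ m = m.1 ∧ P m = m.2.2.1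
  hold : ∀ (m : E4) (g : ℤ × ℤ), |(act g m).2.1| ≤ Hh → |(act g m).1| ≤ a / 4096 →
    m.2.2.1 = 0 → m.2.2.2 = 1 → ψ m = m.1 + 4095 * (act g m).1 ∧ P m = 0

/-- the whole construction -/
structure Tower (r δ0 : ℝ) (ψ P S K : ℕ → E4 → ℝ) (a Hh b : ℕ → ℝ) : Prop where
  trip : ∀ k, Trip r (ψ k) (P k) (S k) (K k)
  idn : ∀ k j, j < k → ∀ m, K k m ≠ 0 → ψ j m = m.1 ∧ P j m = m.2.2.1
  disj : ∀ k j, j < k → Disjoint (tsupport (K j)) (tsupport (K k))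
  kb : ∀ k, KB (b k) r (K k)
  bnn : ∀ k, 0 ≤ b k
  ble : ∀ k, b k ≤ δ0
  blim : Filter.Tendsto b Filter.atTop (nhds 0)
  flat : ∀ k (m : E4), |m.2.2.2 - 1| < r / 2 → dE (K k) m = 0
  apos : 0 < a 0
  astep : ∀ k, a (k + 1) = a k / 4096
  Hbig : ∀ k : ℕ, (k : ℝ) + 2 ≤ Hh k
  Hmono : ∀ k, Hh k ≤ Hh (k + 1)
  thin : ∀ k, Thin (a k) (Hh k)
  hold : ∀ k (m : E4) (g : ℤ × ℤ), |(act g m).2.1| ≤ Hh k → |(act g m).1| ≤ a (k + 1) →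
    m.2.2.1 = 0 → m.2.2.2 = 1 → ψ k m = m.1 + 4095 * (act g m).1 ∧ P k m = 0

/-! ### Hamiltonians on the torus -/

def ZPer (f : V → ℝ) : Prop := ∀ (x : V) (k : Fin 2 → ℤ), f (x + (fun i => (k i : ℝ))) = f x

def dot (v w : V) : ℝ := v 0 * w 0 + v 1 * w 1

noncomputable def grad (u : V → ℝ) (x : V) : V := fun i => fderiv ℝ u x (Pi.single i 1)

noncomputable def gradP (H : V × V → ℝ) (x p : V) : V :=
  fun i => fderiv ℝ (fun p' => H (x, p')) p (Pi.single i 1)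

/-- uniformly convex periodic C^2 Hamiltonian -/
structure Ham (m M : ℝ) (H : V × V → ℝ) : Prop where
  c2 : ContDiff ℝ 2 H
  per : ∀ (x p : V) (k : Fin 2 → ℤ), H (x + (fun i => (k i : ℝ)), p) = H (x, p)
  lo : ∀ x p w, m * dot w w ≤ D2 (fun p' => H (x, p')) p w
  hi : ∀ x p w, D2 (fun p' => H (x, p')) p w ≤ M * dot w w

/-- unperturbed energy variable -/
noncomputable def e0 (p : V) : ℝ := 1 + p 1 + om * p 0 + p 0 ^ 2 / 2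

/-- the unperturbed Hamiltonian: quadratic at infinity, `e0^2/2` near `0` -/
structure IsH0 (m M r : ℝ) (H0 : V → ℝ) : Prop where
  mpos : 0 < m
  rpos : 0 < r
  rle : r ≤ 1 / 8
  sm : ContDiff ℝ ∞ H0
  lo : ∀ p w, m * dot w w ≤ D2 H0 p w
  hi : ∀ p w, D2 H0 p w ≤ M * dot w w
  near : ∀ p : V, |p 0| < 4 * r → |p 1 + om * p 0| < 4 * r → H0 p = e0 p ^ 2 / 2

open Classical in
/-- perturbed energy variable: the solution `e` of `e - κ(x0,x1,p0,e) = e0 p` -/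
noncomputable def ee (κ : E4 → ℝ) (x p : V) : ℝ :=
  if h : ∃ e : ℝ, e - κ (x 0, x 1, p 0, e) = e0 p then h.choose else 0

/-- perturbed Hamiltonian -/
noncomputable def mkH (H0 : V → ℝ) (κ : E4 → ℝ) (z : V × V) : ℝ :=
  H0 z.2 + ee κ z.1 z.2 ^ 2 / 2 - e0 z.2 ^ 2 / 2

/-- the admissible (closed) measures of the frozen statement -/
def Adm (L : V × V → ℝ) (μ : Measure (V × V)) : Prop :=
  IsProbabilityMeasure μ ∧ Integrable (fun p => ‖p.2‖) μ ∧ Integrable L μ ∧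
    ∀ φ : V → ℝ, ContDiff ℝ 1 φ →
      (∀ (x : V) (k : Fin 2 → ℤ), φ (x + (fun i => (k i : ℝ))) = φ x) →
      ∫ p, fderiv ℝ φ p.1 p.2 ∂μ = 0

/-- Legendre dual pair -/
structure Dual (M : ℝ) (H L : V × V → ℝ) : Prop where
  c2 : ContDiff ℝ 2 L
  per : ∀ (x v : V) (k : Fin 2 → ℤ), L (x + (fun i => (k i : ℝ)), v) = L (x, v)
  conv : ∀ x v w : V, w ≠ 0 → 0 < D2 (fun u => L (x, u)) v w
  superlin : ∀ A : ℝ, ∃ B : ℝ, ∀ x v : V, A * ‖v‖ - B ≤ L (x, v)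
  fenchel : ∀ x p v : V,
    dot p v + dot (v - gradP H x p) (v - gradP H x p) / (2 * M) ≤ L (x, v) + H (x, p)
  eq : ∀ x p : V, L (x, gradP H x p) = dot p (gradP H x p) - H (x, p)
  surj : ∀ x v : V, ∃ p : V, gradP H x p = v

/-- Data produced by the construction, used by the variational part -/
structure Sys (m M : ℝ) (H : V × V → ℝ) (Hk : ℕ → V × V → ℝ) (H0 : V → ℝ) (ε : ℕ → ℝ)
    (u : ℕ → V → V → ℝ) (β : ℕ → V → ℝ) (C : ℝ) (xs : V) : Prop where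
  mpos : 0 < m
  hH : Ham m M H
  hHk : ∀ k, Ham m M (Hk k)
  hH0 : Ham m M (fun z => H0 z.2)
  hε : Filter.Tendsto ε Filter.atTop (nhds 0)
  app0 : ∀ k x p, |Hk k (x, p) - H (x, p)| ≤ ε k
  app1 : ∀ k x p i, |gradP (Hk k) x p i - gradP H x p i| ≤ ε k
  u1 : ∀ k c, ContDiff ℝ 1 (u k c)
  u2 : ∀ k c, ZPer (u k c)
  u3 : ∀ k c x, Hk k (x, c + grad (u k c) x) = H0 c
  inv : ∀ k c, ∃ ν : Measure V, IsProbabilityMeasure ν ∧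
    ∀ φ : V → ℝ, ContDiff ℝ 1 φ → ZPer φ →
      ∫ x, fderiv ℝ φ x (gradP (Hk k) x (c + grad (u k c) x)) ∂ν = 0
  βc : ∀ n, Continuous (β n)
  β0 : ∀ n x, 0 ≤ β n x
  βp : ZPer (β 0)
  βs : ∀ N x, ∑ n ∈ Finset.range N, β n x ≤ C
  xs0 : 0 < β 0 xs
  wand : ∀ n, ∃ φ : V → ℝ, ContDiff ℝ 1 φ ∧ ZPer φ ∧
    ∀ᶠ k in Filter.atTop, ∀ x, fderiv ℝ φ x (gradP (Hk k) x (grad (u k 0) x)) = β 0 x - β n x

end Pool.Agent.MP_ff4374_an
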