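import Pool.Agent.MP_ff4374_an.Basic

/-!
MP_ff4374_an, module TripComp: composition of canonical maps of the torus.
-/

set_option autoImplicit false
open MeasureTheory Filter Topology
open scoped ContDiff

namespace Pool.Agent.MP_ff4374_an

namespace TripCompAux

theorem contDiff_mapF {ψ P : E4 → ℝ} (hψ : ContDiff ℝ ∞ ψ) (hP : ContDiff ℝ ∞ P) :
    ContDiff ℝ ∞ (mapF ψ P) := by
  unfold mapF
  exact hψ.prodMk (contDiff_snd.fst.prodMk (hP.prodMk contDiff_snd.snd.snd))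

theorem hasFDerivAt_mapF {ψ P : E4 → ℝ} {m : E4} (hψ : DifferentiableAt ℝ ψ m)
    (hP : DifferentiableAt ℝ P m) (v : E4) :
    fderiv ℝ (mapF ψ P) m v = (fderiv ℝ ψ m v, v.2.1, fderiv ℝ P m v, v.2.2.2) := by
  have h1 : HasFDerivAt (fun m : E4 => m.2.1)
      ((ContinuousLinearMap.fst ℝ ℝ (ℝ × ℝ)).comp (ContinuousLinearMap.snd ℝ ℝ (ℝ × ℝ × ℝ))) m :=
    ((ContinuousLinearMap.fst ℝ ℝ (ℝ × ℝ)).comp
      (ContinuousLinearMap.snd ℝ ℝ (ℝ × ℝ × ℝ))).hasFDerivAt
  have h2 : HasFDerivAt (fun m : E4 => m.2.2.2)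
      ((ContinuousLinearMap.snd ℝ ℝ ℝ).comp ((ContinuousLinearMap.snd ℝ ℝ (ℝ × ℝ)).comp
        (ContinuousLinearMap.snd ℝ ℝ (ℝ × ℝ × ℝ)))) m :=
    ((ContinuousLinearMap.snd ℝ ℝ ℝ).comp ((ContinuousLinearMap.snd ℝ ℝ (ℝ × ℝ)).comp
        (ContinuousLinearMap.snd ℝ ℝ (ℝ × ℝ × ℝ)))).hasFDerivAt
  have h := hψ.hasFDerivAt.prodMk (h1.prodMk (hP.hasFDerivAt.prodMk h2))
  have h3 : HasFDerivAt (mapF ψ P) _ m := h
  rw [h3.fderiv]
  rfl

theorem fderiv_comp_mapF {f ψ P : E4 → ℝ} (hf : ContDiff ℝ ∞ f) (hψ : ContDiff ℝ ∞ ψ)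
    (hP : ContDiff ℝ ∞ P) (m v : E4) :
    fderiv ℝ (fun m => f (mapF ψ P m)) m v =
      fderiv ℝ f (mapF ψ P m) (fderiv ℝ ψ m v, v.2.1, fderiv ℝ P m v, v.2.2.2) := by
  have hne : (∞ : WithTop ℕ∞) ≠ 0 := by simp
  have h1 : DifferentiableAt ℝ f (mapF ψ P m) := (hf.differentiable hne) _
  have h2 : DifferentiableAt ℝ (mapF ψ P) m := ((contDiff_mapF hψ hP).differentiable hne) _
  have h3 := fderiv_comp m h1 h2
  have h4 : (fun m => f (mapF ψ P m)) = f ∘ mapF ψ P := rfl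
  rw [h4, h3, ContinuousLinearMap.comp_apply,
    hasFDerivAt_mapF ((hψ.differentiable hne) _) ((hP.differentiable hne) _)]

end TripCompAux

open TripCompAux

theorem Trip.comp {r : ℝ} {ψ' P' S' κ' ψ P S K : E4 → ℝ} (h1 : Trip r ψ' P' S' κ')
    (h2 : Trip r ψ P S K) (hid : ∀ m, K m ≠ 0 → ψ' m = m.1 ∧ P' m = m.2.2.1) :
    Trip r (fun m => ψ' (mapF ψ P m)) (fun m => P' (mapF ψ P m))
      (fun m => S' (mapF ψ P m) + S m) (fun m => κ' m + K m) := by
  have hF := contDiff_mapF h2.smψ h2.smP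
  have hne : (∞ : WithTop ℕ∞) ≠ 0 := by simp
  have hmap : ∀ (m : E4) (i j : ℤ), mapF ψ P (m.1 + i, m.2.1 + j, m.2.2.1, m.2.2.2) =
      ((mapF ψ P m).1 + i, (mapF ψ P m).2.1 + j, (mapF ψ P m).2.2.1, (mapF ψ P m).2.2.2) := by
    intro m i j
    unfold mapF
    rw [h2.perψ m i j, h2.perP m i j]
  have hK : ∀ q : E4, K (ψ' q, q.2.1, P' q, q.2.2.2) = K q := by
    intro q
    by_cases hq : K q = 0
    · by_contra hne'
      rw [hq] at hne'
      obtain ⟨e1, e2⟩ := hid _ hne'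
      have : (ψ' q, q.2.1, P' q, q.2.2.2) = q :=
        h1.inj _ _ rfl rfl e1 e2
      rw [this] at hne'
      exact hne' hq
    · obtain ⟨e1, e2⟩ := hid _ hq
      rw [e1, e2]
  refine ⟨h1.smψ.comp hF, h1.smP.comp hF, (h1.smS.comp hF).add h2.smS, h1.smκ.add h2.smκ,
    ?_, ?_, ?_, ?_, ?_, ?_, ?_, ?_⟩
  · intro m i j
    simp only [hmap]
    exact h1.perψ (mapF ψ P m) i j
  · intro m i j
    simp only [hmap]
    exact h1.perP (mapF ψ P m) i j
  · intro m i j
    simp only [hmap]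
    rw [h1.perS (mapF ψ P m) i j, h2.perS m i j]
  · intro m i j
    rw [h1.perκ m i j, h2.perκ m i j]
  · intro m v hv
    have e1 : fderiv ℝ (fun m => S' (mapF ψ P m) + S m) m v =
        fderiv ℝ (fun m => S' (mapF ψ P m)) m v + fderiv ℝ S m v := by
      have ha : DifferentiableAt ℝ (fun m => S' (mapF ψ P m)) m :=
        ((h1.smS.comp hF).differentiable hne) m
      have hb : DifferentiableAt ℝ S m := (h2.smS.differentiable hne) m
      have := fderiv_add ha hb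
      have e : (fun m => S' (mapF ψ P m) + S m) = (fun m => S' (mapF ψ P m)) + S := rfl
      rw [e, this]
      rfl
    rw [e1, fderiv_comp_mapF h1.smS h2.smψ h2.smP, fderiv_comp_mapF h1.smψ h2.smψ h2.smP]
    have f1 := h1.form (mapF ψ P m) (fderiv ℝ ψ m v, v.2.1, fderiv ℝ P m v, v.2.2.2) hv
    have f2 := h2.form m v hv
    rw [f1, f2]
    have f3 := hK (mapF ψ P m)
    simp only [mapF] at f3 ⊢
    rw [f3]
    ring
  · intro m m' ht he hψ hP
    have : mapF ψ P m = mapF ψ P m' := h1.inj _ _ ht he hψ hP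
    simp only [mapF, Prod.mk.injEq] at this
    exact h2.inj m m' ht he this.1 this.2.2.1
  · intro m hm
    obtain ⟨a1, a2, a3, a4⟩ := h2.triv m hm
    obtain ⟨b1, b2, b3, b4⟩ := h1.triv m hm
    have hmm : mapF ψ P m = m := by
      unfold mapF
      rw [a1, a2]
    refine ⟨?_, ?_, ?_, ?_⟩
    · simp only [hmm]; exact b1
    · simp only [hmm]; exact b2
    · simp only [hmm]; rw [b3, a3, add_zero]
    · rw [b4, a4, add_zero]
  · intro m hm
    exact h1.bd (mapF ψ P m) (h2.bd m hm)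

theorem Phi_eq (ψ P : ℕ → E4 → ℝ) (k : ℕ) (m : E4) :
    Phi ψ P k m = (PhiX ψ P k m, m.2.1, PhiP ψ P k m, m.2.2.2) := by
  have key : ∀ (k : ℕ) (m : E4), (Phi ψ P k m).2.1 = m.2.1 ∧ (Phi ψ P k m).2.2.2 = m.2.2.2 := by
    intro k
    induction k with
    | zero => intro m; exact ⟨rfl, rfl⟩
    | succ k ih =>
      intro m
      exact ih (mapF (ψ k) (P k) m)
  obtain ⟨h1, h2⟩ := key k m
  unfold PhiX PhiP
  conv_rhs => rw [← h1, ← h2]

theorem trip_phi {r : ℝ} {ψ P S K : ℕ → E4 → ℝ} (h : ∀ k, Trip r (ψ k) (P k) (S k) (K k))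
    (hid : ∀ k j, j < k → ∀ m, K k m ≠ 0 → ψ j m = m.1 ∧ P j m = m.2.2.1) (k : ℕ) :
    Trip r (PhiX ψ P k) (PhiP ψ P k) (PhiS ψ P S k) (sumK K k) := by
  induction k with
  | zero =>
    have e1 : PhiX ψ P 0 = fun m => m.1 := rfl
    have e2 : PhiP ψ P 0 = fun m => m.2.2.1 := rfl
    have e3 : PhiS ψ P S 0 = fun _ => 0 := rfl
    have e4 : sumK K 0 = fun _ => 0 := by
      funext m
      simp [sumK]
    rw [e1, e2, e3, e4]
    refine ⟨contDiff_fst, contDiff_snd.snd.fst, contDiff_const, contDiff_const, ?_, ?_, ?_, ?_,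
      ?_, ?_, ?_, ?_⟩
    · intro m i j; rfl
    · intro m i j; rfl
    · intro m i j; rfl
    · intro m i j; rfl
    · intro m v hv
      have f1 : fderiv ℝ (fun m : E4 => m.1) m v = v.1 := by
        rw [fderiv_fst]
        rfl
      have f2 : fderiv ℝ (fun _ : E4 => (0 : ℝ)) m v = 0 := by simp
      rw [f1, f2]
      ring
    · intro m m' ht he h1 h2
      ext
      · exact h1
      · exact ht
      · exact h2
      · exact he
    · intro m _
      exact ⟨rfl, rfl, rfl, rfl⟩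
    · intro m hm
      exact hm
  | succ k ih =>
    have hfix : ∀ (i : ℕ), i ≤ k → ∀ m, K k m ≠ 0 → Phi ψ P i m = m := by
      intro i
      induction i with
      | zero => intro _ m _; rfl
      | succ i ih' =>
        intro hi m hm
        obtain ⟨a1, a2⟩ := hid k i (by omega) m hm
        have hmm : mapF (ψ i) (P i) m = m := by
          unfold mapF
          rw [a1, a2]
        have : Phi ψ P (i + 1) m = Phi ψ P i (mapF (ψ i) (P i) m) := rfl
        rw [this, hmm]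
        exact ih' (by omega) m hm
    have hc := Trip.comp ih (h k) (by
      intro m hm
      have := hfix k le_rfl m hm
      unfold PhiX PhiP
      rw [this]
      exact ⟨rfl, rfl⟩)
    have e4 : sumK K (k + 1) = fun m => sumK K k m + K k m := by
      funext m
      simp [sumK, Finset.sum_range_succ]
    rw [e4]
    exact hc

end Pool.Agent.MP_ff4374_an
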