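import Pool.Agent.MP_ff4374_an.Per
import Pool.Agent.MP_ff4374_an.TripComp
import Pool.Agent.MP_ff4374_an.Inv

/-! # Module Denjoy: the wandering test functions -/

set_option autoImplicit false
open MeasureTheory Filter Topology
open scoped ContDiff

namespace Pool.Agent.MP_ff4374_an

namespace DenjoyAux

/-! ### the leaf `c = 0`, `e = 1` -/

theorem emb_contDiff {n : WithTop ℕ∞} :
    ContDiff ℝ n (fun q : ℝ × ℝ => ((q.1, q.2, 0, 1) : E4)) := by fun_prop

theorem emb_hasDerivAt (X y u v : ℝ) :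
    HasDerivAt (fun s : ℝ => ((X + u * s, y + v * s) : ℝ × ℝ)) (u, v) 0 := by
  have h1 : HasDerivAt (fun s : ℝ => X + u * s) u 0 := by
    simpa using ((hasDerivAt_id (0 : ℝ)).const_mul u).const_add X
  have h2 : HasDerivAt (fun s : ℝ => y + v * s) v 0 := by
    simpa using ((hasDerivAt_id (0 : ℝ)).const_mul v).const_add y
  exact h1.prodMk h2

theorem emb4_hasDerivAt (X y u v : ℝ) :
    HasDerivAt (fun s : ℝ => ((X + u * s, y + v * s, 0, 1) : E4)) (u, v, 0, 0) 0 := by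
  have h1 : HasDerivAt (fun s : ℝ => X + u * s) u 0 := by
    simpa using ((hasDerivAt_id (0 : ℝ)).const_mul u).const_add X
  have h2 : HasDerivAt (fun s : ℝ => y + v * s) v 0 := by
    simpa using ((hasDerivAt_id (0 : ℝ)).const_mul v).const_add y
  exact h1.prodMk (h2.prodMk ((hasDerivAt_const (0 : ℝ) (0 : ℝ)).prodMk
    (hasDerivAt_const (0 : ℝ) (1 : ℝ))))

theorem fderiv_emb {F : E4 → ℝ} (hF : ContDiff ℝ ∞ F) (X y u v : ℝ) :
    fderiv ℝ (fun q : ℝ × ℝ => F (q.1, q.2, 0, 1)) (X, y) (u, v)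
      = fderiv ℝ F (X, y, 0, 1) (u, v, 0, 0) := by
  have hc : ContDiff ℝ ∞ (fun q : ℝ × ℝ => F (q.1, q.2, 0, 1)) := hF.comp emb_contDiff
  have e0 : ((X + u * 0, y + v * 0) : ℝ × ℝ) = (X, y) := by simp
  have e1 : ((X + u * 0, y + v * 0, 0, 1) : E4) = (X, y, 0, 1) := by simp
  have h1 : HasFDerivAt (fun q : ℝ × ℝ => F (q.1, q.2, 0, 1))
      (fderiv ℝ (fun q : ℝ × ℝ => F (q.1, q.2, 0, 1)) (X, y)) (X + u * 0, y + v * 0) := by
    rw [e0]
    exact (hc.differentiable (by simp) _).hasFDerivAt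
  have h2 : HasFDerivAt F (fderiv ℝ F (X, y, 0, 1)) (X + u * 0, y + v * 0, 0, 1) := by
    rw [e1]
    exact (hF.differentiable (by simp) _).hasFDerivAt
  have a1 := h1.comp_hasDerivAt (0 : ℝ) (emb_hasDerivAt X y u v)
  have a2 := h2.comp_hasDerivAt (0 : ℝ) (emb4_hasDerivAt X y u v)
  exact a1.unique a2

structure Leafd (f C : ℝ × ℝ → ℝ) : Prop where
  smf : ContDiff ℝ ∞ f
  smC : ContDiff ℝ ∞ C
  fC : ∀ p y, f (C (p, y), y) = p
  Cf : ∀ c y, C (f (c, y), y) = c
  perC : ∀ (p y : ℝ) (i j : ℤ), C (p + i, y + j) = C (p, y) + i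

theorem exists_leaf {r : ℝ} {ψ P S κ : E4 → ℝ} (h : Trip r ψ P S κ) (hg : ∀ m, 0 < dX ψ m) :
    ∃ C : ℝ × ℝ → ℝ, Leafd (fun q => ψ (q.1, q.2, 0, 1)) C := by
  have hsm : ContDiff ℝ ∞ (fun q : ℝ × ℝ => ψ (q.1, q.2, 0, 1)) := h.smψ.comp emb_contDiff
  have hper : ∀ (X y : ℝ) (i j : ℤ), ψ (X + i, y + j, 0, 1) = ψ (X, y, 0, 1) + i :=
    fun X y i j => h.perψ (X, y, 0, 1) i j
  have hsurj : ∀ (y : ℝ) (p : ℝ), ∃ c, (fun q : ℝ × ℝ => ψ (q.1, q.2, 0, 1)) (c, y) = p := by
    intro y p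
    have hcont : Continuous (fun c : ℝ => ψ (c, y, 0, 1)) :=
      hsm.continuous.comp (by fun_prop : Continuous fun c : ℝ => ((c, y) : ℝ × ℝ))
    have h1 : ψ (((⌊p - ψ (0, y, 0, 1)⌋ : ℤ) : ℝ), y, 0, 1) ≤ p := by
      have := hper 0 y ⌊p - ψ (0, y, 0, 1)⌋ 0
      simp only [zero_add, Int.cast_zero, add_zero] at this
      rw [this]
      linarith [Int.floor_le (p - ψ (0, y, 0, 1))]
    have h2 : p ≤ ψ (((⌈p - ψ (0, y, 0, 1)⌉ : ℤ) : ℝ), y, 0, 1) := by
      have := hper 0 y ⌈p - ψ (0, y, 0, 1)⌉ 0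
      simp only [zero_add, Int.cast_zero, add_zero] at this
      rw [this]
      linarith [Int.le_ceil (p - ψ (0, y, 0, 1))]
    obtain ⟨c, hc⟩ := mem_range_of_exists_le_of_exists_ge hcont ⟨_, h1⟩ ⟨_, h2⟩
    exact ⟨c, hc⟩
  obtain ⟨C, hC, h1, h2⟩ := inv1 (n := ∞) (by simp) (fun q : ℝ × ℝ => ψ (q.1, q.2, 0, 1)) hsm
    (fun m => by
      have := fderiv_emb h.smψ m.1 m.2 1 0
      have h3 := hg (m.1, m.2, 0, 1)
      unfold dX at h3
      rw [← this] at h3
      exact h3) hsurj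
  refine ⟨C, hsm, hC, h1, h2, fun p y i j => ?_⟩
  have h3 := h2 (C (p, y) + i) (y + j)
  have h4 := hper (C (p, y)) y i j
  have h5 := h1 p y
  simp only at h3 h5
  rw [h4, h5] at h3
  exact h3

/-! ### lifted functions -/

/-- product function -/
noncomputable def hh (bf : ℝ → ℝ) (a : ℝ) (θ : ℝ → ℝ) (m : E4) : ℝ := bf (m.1 / a) * θ m.2.1

/-- lift to the plane -/
noncomputable def LL (bf : ℝ → ℝ) (a : ℝ) (C : ℝ × ℝ → ℝ) (θ : ℝ → ℝ) (x : V) : ℝ :=
  per (hh bf a θ) (C (x 0, x 1), x 1, 0, 1)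

theorem hh_supp {bf θ : ℝ → ℝ} {a T : ℝ} (ha : 0 < a) (hb : ∀ s, 1 / 2 ≤ |s| → bf s = 0)
    (hθ : ∀ t, T ≤ |t| → θ t = 0) :
    ∀ m : E4, (a / 2 ≤ |m.1| ∨ T ≤ |m.2.1|) → hh bf a θ m = 0 := by
  intro m hm
  unfold hh
  rcases hm with hm | hm
  · rw [hb (m.1 / a), zero_mul]
    rw [abs_div, abs_of_pos ha, le_div_iff₀ ha]
    linarith
  · rw [hθ _ hm, mul_zero]

theorem hh_contDiff {bf θ : ℝ → ℝ} {a : ℝ} (hb : ContDiff ℝ ∞ bf) (hθ : ContDiff ℝ ∞ θ) :
    ContDiff ℝ ∞ (hh bf a θ) := by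
  unfold hh
  exact (hb.comp (contDiff_fst.div_const a)).mul (hθ.comp (contDiff_snd.fst))

theorem thin' {a H : ℝ} (h : Thin a H) : Thin (2 * (a / 2)) ((H - 1) + 1) :=
  thin_mono h (by linarith) (by linarith)

theorem LL_contDiff {f C : ℝ × ℝ → ℝ} (hl : Leafd f C) {bf θ : ℝ → ℝ} {a H : ℝ} (ha : 0 < a)
    (hH : 1 < H) (hthin : Thin a H) (hb : ∀ s, 1 / 2 ≤ |s| → bf s = 0)
    (hθ : ∀ t, H - 1 ≤ |t| → θ t = 0) (hbs : ContDiff ℝ ∞ bf) (hθs : ContDiff ℝ ∞ θ) :
    ContDiff ℝ ∞ (LL bf a C θ) := by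
  have h1 : ContDiff ℝ ∞ (per (hh bf a θ)) :=
    per_contDiff (half_pos ha) (by linarith : 0 < H - 1) (thin' hthin) (hh_supp ha hb hθ)
      (hh_contDiff hbs hθs)
  have h0 : ContDiff ℝ ∞ (fun x : V => x 0) := contDiff_apply ℝ ℝ 0
  have h0' : ContDiff ℝ ∞ (fun x : V => x 1) := contDiff_apply ℝ ℝ 1
  have h2 : ContDiff ℝ ∞ (fun x : V => C (x 0, x 1)) := hl.smC.comp (h0.prodMk h0')
  exact h1.comp (h2.prodMk (h0'.prodMk (contDiff_const.prodMk contDiff_const)))

theorem LL_per {f C : ℝ × ℝ → ℝ} (hl : Leafd f C) (bf θ : ℝ → ℝ) (a : ℝ) :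
    ZPer (LL bf a C θ) := by
  intro x k
  unfold LL
  have e := hl.perC (x 0) (x 1) (k 0) (k 1)
  have e2 := per_shift (hh bf a θ) (C (x 0, x 1), x 1, 0, 1) (k 0) (k 1)
  simp only [Pi.add_apply]
  rw [e]
  exact e2

theorem LL_nonneg {C : ℝ × ℝ → ℝ} {bf θ : ℝ → ℝ} {a : ℝ} (hb : ∀ s, 0 ≤ bf s)
    (hθ : ∀ t, 0 ≤ θ t) (x : V) : 0 ≤ LL bf a C θ x := by
  unfold LL per hh
  exact tsum_nonneg fun g => mul_nonneg (hb _) (hθ _)

theorem LL_leaf {f C : ℝ × ℝ → ℝ} (hl : Leafd f C) (bf θ : ℝ → ℝ) (a X y : ℝ) :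
    LL bf a C θ ![f (X, y), y] = per (hh bf a θ) (X, y, 0, 1) := by
  unfold LL
  have e := hl.Cf X y
  simp only [Matrix.cons_val_zero, Matrix.cons_val_one]
  rw [e]

theorem LL_sub {C : ℝ × ℝ → ℝ} {bf θ θ' : ℝ → ℝ} {a H : ℝ} (ha : 0 < a)
    (hH : 1 < H) (hthin : Thin a H) (hb : ∀ s, 1 / 2 ≤ |s| → bf s = 0)
    (hθ : ∀ t, H - 1 ≤ |t| → θ t = 0) (hθ' : ∀ t, H - 1 ≤ |t| → θ' t = 0) (x : V) :
    LL bf a C (fun t => θ t - θ' t) x = LL bf a C θ x - LL bf a C θ' x := by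
  obtain ⟨g, hg⟩ := per_local (half_pos ha) (by linarith : 0 < H - 1) (thin' hthin)
    (C (x 0, x 1), x 1, 0, 1)
  have hg := hg.self_of_nhds
  unfold LL
  rw [hg _ (hh_supp ha hb hθ), hg _ (hh_supp ha hb hθ'),
    hg _ (hh_supp ha hb (θ := fun t => θ t - θ' t)
      (fun t ht => by simp only [hθ t ht, hθ' t ht, sub_zero]))]
  unfold hh
  ring

theorem LL_deriv {f C : ℝ × ℝ → ℝ} (hl : Leafd f C) {bf θ : ℝ → ℝ} {a H : ℝ} (ha : 0 < a)
    (hH : 1 < H) (hthin : Thin a H) (hb : ∀ s, 1 / 2 ≤ |s| → bf s = 0)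
    (hθ : ∀ t, H - 1 ≤ |t| → θ t = 0) (hθ' : ∀ t, H - 1 ≤ |t| → deriv θ t = 0)
    (hbs : ContDiff ℝ ∞ bf) (hθs : ContDiff ℝ ∞ θ) (X y : ℝ) :
    fderiv ℝ (LL bf a C θ) ![f (X, y), y] ![fderiv ℝ f (X, y) (om, 1), 1]
      = LL bf a C (deriv θ) ![f (X, y), y] := by
  obtain ⟨g, hg⟩ := per_local (half_pos ha) (by linarith : 0 < H - 1) (thin' hthin)
    (X, y, 0, 1)
  have hsm := LL_contDiff hl ha hH hthin hb hθ hbs hθs
  -- the curve
  have e0 : ((X + om * 0, y + 1 * 0) : ℝ × ℝ) = (X, y) := by simp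
  have hf : HasDerivAt (fun s : ℝ => f (X + om * s, y + 1 * s)) (fderiv ℝ f (X, y) (om, 1)) 0 := by
    have h1 : HasFDerivAt f (fderiv ℝ f (X, y)) (X + om * 0, y + 1 * 0) := by
      rw [e0]
      exact (hl.smf.differentiable (by simp) _).hasFDerivAt
    exact h1.comp_hasDerivAt (0 : ℝ) (emb_hasDerivAt X y om 1)
  have hF : HasDerivAt (fun s : ℝ => (![f (X + om * s, y + 1 * s), y + 1 * s] : V))
      ![fderiv ℝ f (X, y) (om, 1), 1] 0 := by
    rw [hasDerivAt_pi]
    intro i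
    fin_cases i
    · exact hf
    · show HasDerivAt (fun s : ℝ => y + 1 * s) 1 0
      simpa using ((hasDerivAt_id (0 : ℝ)).const_mul 1).const_add y
  have eF : (![f (X + om * 0, y + 1 * 0), y + 1 * 0] : V) = ![f (X, y), y] := by
    rw [e0]
    simp
  have h2 : HasFDerivAt (LL bf a C θ) (fderiv ℝ (LL bf a C θ) ![f (X, y), y])
      ![f (X + om * 0, y + 1 * 0), y + 1 * 0] := by
    rw [eF]
    exact (hsm.differentiable (by simp) _).hasFDerivAt
  have h3 := h2.comp_hasDerivAt (0 : ℝ) hF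
  -- the same function computed locally
  have hcont : Continuous (fun s : ℝ => ((X + om * s, y + 1 * s, 0, 1) : E4)) := by fun_prop
  have e1 : ((X + om * 0, y + 1 * 0, 0, 1) : E4) = (X, y, 0, 1) := by simp
  have htend : Tendsto (fun s : ℝ => ((X + om * s, y + 1 * s, 0, 1) : E4)) (𝓝 0)
      (𝓝 (X, y, 0, 1)) := by
    have := hcont.tendsto 0
    rwa [e1] at this
  have hev : (LL bf a C θ ∘ fun s : ℝ => (![f (X + om * s, y + 1 * s), y + 1 * s] : V))
      =ᶠ[𝓝 0] fun s => bf ((X - om * (y + g.1) - g.2) / a) * θ (y + g.1 + s) := by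
    filter_upwards [htend.eventually hg] with s hs
    show LL bf a C θ ![f (X + om * s, y + 1 * s), y + 1 * s] = _
    rw [LL_leaf hl, hs _ (hh_supp ha hb hθ)]
    simp only [hh, act]
    have q1 : X + om * s - om * (y + 1 * s + (g.1 : ℝ)) - g.2 = X - om * (y + g.1) - g.2 := by
      ring
    have q2 : y + 1 * s + (g.1 : ℝ) = y + g.1 + s := by ring
    rw [q1, q2]
  have h4 : HasDerivAt (fun s : ℝ => bf ((X - om * (y + g.1) - g.2) / a) * θ (y + g.1 + s))
      (bf ((X - om * (y + g.1) - g.2) / a) * deriv θ (y + g.1)) 0 := by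
    have h5 : HasDerivAt θ (deriv θ (y + g.1)) (y + g.1 + 0) := by
      rw [add_zero]
      exact (hθs.differentiable (by simp) _).hasDerivAt
    have h6 : HasDerivAt (fun s : ℝ => y + g.1 + s) 1 0 := by
      simpa using (hasDerivAt_id (0 : ℝ)).const_add (y + (g.1 : ℝ))
    have h7 := h5.comp (0 : ℝ) h6
    rw [mul_one] at h7
    exact h7.const_mul _
  have h8 := h3.congr_of_eventuallyEq hev.symm
  rw [h8.unique h4, LL_leaf hl, hg.self_of_nhds _ (hh_supp ha hb hθ')]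
  rfl

/-! ### independence of the level -/

theorem phi_step {r δ0 : ℝ} {ψ P S K : ℕ → E4 → ℝ} {a Hh b : ℕ → ℝ}
    (hT : Tower r δ0 ψ P S K a Hh b) (k : ℕ) (X y : ℝ) (g : ℤ × ℤ) (h1 : |y + g.1| ≤ Hh k)
    (h2 : |X - om * (y + g.1) - g.2| ≤ a (k + 1)) :
    PhiX ψ P (k + 1) (X, y, 0, 1)
      = PhiX ψ P k (X + 4095 * (X - om * (y + g.1) - g.2), y, 0, 1) := by
  obtain ⟨e1, e2⟩ := hT.hold k (X, y, 0, 1) g h1 h2 rfl rfl
  show (Phi ψ P k (ψ k (X, y, 0, 1), y, P k (X, y, 0, 1), 1)).1 = _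
  rw [e1, e2]
  rfl

theorem indep_step {r δ0 : ℝ} {ψ P S K : ℕ → E4 → ℝ} {a Hh b : ℕ → ℝ}
    (hT : Tower r δ0 ψ P S K a Hh b) (ha : ∀ k, 0 < a k) (k : ℕ) {C C' : ℝ × ℝ → ℝ}
    (h0 : Leafd (fun q => PhiX ψ P k (q.1, q.2, 0, 1)) C)
    (h1 : Leafd (fun q => PhiX ψ P (k + 1) (q.1, q.2, 0, 1)) C')
    {bf θ : ℝ → ℝ} (hb : ∀ s, 1 / 2 ≤ |s| → bf s = 0)
    (hθ : ∀ t, Hh k - 1 ≤ |t| → θ t = 0) :
    LL bf (a (k + 1)) C' θ = LL bf (a k) C θ := by
  funext x
  have has := hT.astep k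
  have hHk := hT.Hbig k
  have hk0 : (0 : ℝ) ≤ k := Nat.cast_nonneg k
  have hmono := hT.Hmono k
  have hθ1 : ∀ t, Hh (k + 1) - 1 ≤ |t| → θ t = 0 := fun t ht => hθ t (by linarith)
  set X0 := C (x 0, x 1) with hX0
  set X1 := C' (x 0, x 1) with hX1
  have f0 : PhiX ψ P k (X0, x 1, 0, 1) = x 0 := h0.fC (x 0) (x 1)
  have f1 : PhiX ψ P (k + 1) (X1, x 1, 0, 1) = x 0 := h1.fC (x 0) (x 1)
  have caseA : ∀ g : ℤ × ℤ, |X1 - om * (x 1 + g.1) - g.2| < a (k + 1) / 2 →
      |x 1 + g.1| < Hh k - 1 → LL bf (a (k + 1)) C' θ x = LL bf (a k) C θ x := by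
    intro g hg1 hg2
    have ha1 := ha (k + 1)
    have st := phi_step hT k X1 (x 1) g (by linarith) (by linarith)
    rw [f1] at st
    have e : X0 = X1 + 4095 * (X1 - om * (x 1 + g.1) - g.2) := by
      have := h0.Cf (X1 + 4095 * (X1 - om * (x 1 + g.1) - g.2)) (x 1)
      simp only at this
      rw [← st] at this
      exact this
    have e2 : X0 - om * (x 1 + g.1) - g.2 = 4096 * (X1 - om * (x 1 + g.1) - g.2) := by
      rw [e]; ring
    have p1 : per (hh bf (a (k + 1)) θ) (X1, x 1, 0, 1)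
        = hh bf (a (k + 1)) θ (act g (X1, x 1, 0, 1)) :=
      per_eq (half_pos (ha (k + 1))) (by linarith : 0 < Hh (k + 1) - 1) (thin' (hT.thin (k + 1)))
        (hh_supp (ha (k + 1)) hb hθ1) hg1.le (by
          show |x 1 + (g.1 : ℝ)| ≤ _
          linarith)
    have p0 : per (hh bf (a k) θ) (X0, x 1, 0, 1) = hh bf (a k) θ (act g (X0, x 1, 0, 1)) :=
      per_eq (half_pos (ha k)) (by linarith : 0 < Hh k - 1) (thin' (hT.thin k))
        (hh_supp (ha k) hb hθ) (by
          show |X0 - om * (x 1 + (g.1 : ℝ)) - g.2| ≤ _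
          rw [e2, abs_mul, abs_of_pos (by norm_num : (0 : ℝ) < 4096)]
          rw [has] at hg1
          linarith) (by
          show |x 1 + (g.1 : ℝ)| ≤ _
          linarith)
    show per (hh bf (a (k + 1)) θ) (X1, x 1, 0, 1) = per (hh bf (a k) θ) (X0, x 1, 0, 1)
    rw [p1, p0]
    simp only [hh, act]
    rw [e2, has]
    have hak := ha k
    congr 2
    field_simp
  by_cases hA : ∃ g : ℤ × ℤ, |X1 - om * (x 1 + g.1) - g.2| < a (k + 1) / 2 ∧
      |x 1 + g.1| < Hh k - 1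
  · obtain ⟨g, hg1, hg2⟩ := hA
    exact caseA g hg1 hg2
  · by_cases hB : ∃ g : ℤ × ℤ, |X0 - om * (x 1 + g.1) - g.2| < a k / 2 ∧ |x 1 + g.1| < Hh k - 1
    · exfalso
      obtain ⟨g, hg1, hg2⟩ := hB
      apply hA
      refine ⟨g, ?_, hg2⟩
      have ha1 := ha (k + 1)
      set ξ := X0 - om * (x 1 + g.1) - g.2 with hξ
      have e : (X0 - 4095 / 4096 * ξ) - om * (x 1 + g.1) - g.2 = ξ / 4096 := by
        rw [hξ]; ring
      have hsm : |ξ / 4096| < a (k + 1) / 2 := by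
        rw [abs_div, abs_of_pos (by norm_num : (0 : ℝ) < 4096), has]
        linarith
      have st := phi_step hT k (X0 - 4095 / 4096 * ξ) (x 1) g (by linarith)
        (by rw [e]; linarith)
      rw [e] at st
      have e3 : X0 - 4095 / 4096 * ξ + 4095 * (ξ / 4096) = X0 := by ring
      rw [e3, f0] at st
      have e4 : X1 = X0 - 4095 / 4096 * ξ := by
        have := h1.Cf (X0 - 4095 / 4096 * ξ) (x 1)
        simp only at this
        rw [st] at this
        exact this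
      rw [e4, e]
      exact hsm
    · push Not at hA hB
      have p1 : per (hh bf (a (k + 1)) θ) (X1, x 1, 0, 1) = 0 :=
        per_out (W := a (k + 1) / 2) (T := Hh k - 1) (hh_supp (ha (k + 1)) hb hθ)
          (fun g hg => absurd hg.2 (not_lt.2 (hA g hg.1)))
      have p0 : per (hh bf (a k) θ) (X0, x 1, 0, 1) = 0 :=
        per_out (W := a k / 2) (T := Hh k - 1) (hh_supp (ha k) hb hθ)
          (fun g hg => absurd hg.2 (not_lt.2 (hB g hg.1)))
      show per (hh bf (a (k + 1)) θ) (X1, x 1, 0, 1) = per (hh bf (a k) θ) (X0, x 1, 0, 1)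
      rw [p1, p0]

/-! ### the step function -/


theorem dst_zero {t : ℝ} (h : t ≤ 0 ∨ 1 ≤ t) : deriv Real.smoothTransition t = 0 := by
  rcases h with h | h
  · apply IsLocalMin.deriv_eq_zero
    apply Filter.Eventually.of_forall
    intro s
    rw [Real.smoothTransition.zero_of_nonpos h]
    exact Real.smoothTransition.nonneg s
  · apply IsLocalMax.deriv_eq_zero
    apply Filter.Eventually.of_forall
    intro s
    rw [Real.smoothTransition.one_of_one_le h]
    exact Real.smoothTransition.le_one s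

theorem dst_nonneg (t : ℝ) : 0 ≤ deriv Real.smoothTransition t :=
  Real.smoothTransition.monotone.deriv_nonneg

theorem dst_pos : ∃ t, 0 < deriv Real.smoothTransition t := by
  by_contra h
  push Not at h
  have hd : Differentiable ℝ Real.smoothTransition :=
    (Real.smoothTransition.contDiff (n := 1)).differentiable (by norm_num)
  have h1 : Antitone Real.smoothTransition := antitone_of_deriv_nonpos hd h
  have h2 := h1 (zero_le_one : (0 : ℝ) ≤ 1)
  rw [Real.smoothTransition.one, Real.smoothTransition.zero] at h2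
  linarith

theorem dst_contDiff : ContDiff ℝ ∞ (deriv Real.smoothTransition) :=
  (contDiff_infty_iff_deriv.1 Real.smoothTransition.contDiff).2

theorem dst_bound : ∃ C : ℝ, 0 ≤ C ∧ ∀ t, deriv Real.smoothTransition t ≤ C := by
  obtain ⟨C, hC⟩ := (isCompact_Icc (a := (0 : ℝ)) (b := 1)).exists_bound_of_continuousOn
    dst_contDiff.continuous.continuousOn
  refine ⟨max C 0, le_max_right _ _, fun t => ?_⟩
  by_cases ht : t ∈ Set.Icc (0 : ℝ) 1
  · exact ((le_abs_self _).trans (hC t ht)).trans (le_max_left _ _)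
  · rw [dst_zero]
    · exact le_max_right _ _
    · rw [Set.mem_Icc, not_and_or, not_le, not_le] at ht
      rcases ht with ht | ht
      · exact Or.inl ht.le
      · exact Or.inr ht.le

/-- the sum of the translates -/
theorem dst_sum {C : ℝ} (hC0 : 0 ≤ C) (hC : ∀ t, deriv Real.smoothTransition t ≤ C) (N : ℕ)
    (t : ℝ) : ∑ n ∈ Finset.range N, deriv Real.smoothTransition (t - n) ≤ C := by
  by_cases h : ∃ n0 ∈ Finset.range N, deriv Real.smoothTransition (t - (n0 : ℕ)) ≠ 0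
  · obtain ⟨n0, hn0, hne⟩ := h
    rw [Finset.sum_eq_single_of_mem n0 hn0]
    · exact hC _
    · intro n _ hn
      by_contra hne'
      apply hn
      have key : ∀ n : ℕ, deriv Real.smoothTransition (t - (n : ℕ)) ≠ 0 →
          (n : ℝ) < t ∧ t < n + 1 := by
        intro n hn
        by_contra hcon
        rw [not_and_or, not_lt, not_lt] at hcon
        apply hn
        apply dst_zero
        rcases hcon with hcon | hcon
        · left; linarith
        · right; linarith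
      have k1 := key n hne'
      have k2 := key n0 hne
      have l1 : (n : ℝ) < n0 + 1 := by linarith
      have l2 : (n0 : ℝ) < n + 1 := by linarith
      have l1' : n < n0 + 1 := by exact_mod_cast l1
      have l2' : n0 < n + 1 := by exact_mod_cast l2
      omega
  · push Not at h
    rw [Finset.sum_eq_zero h]
    exact hC0

end DenjoyAux

open DenjoyAux in
theorem denjoy {r δ0 : ℝ} {ψ P S K : ℕ → E4 → ℝ} {a Hh b : ℕ → ℝ}
    (hT : Tower r δ0 ψ P S K a Hh b) (hg : ∀ k m, 0 < dX (PhiX ψ P k) m) :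
    ∃ (β : ℕ → V → ℝ) (C : ℝ) (xs : V), (∀ n, Continuous (β n)) ∧ (∀ n x, 0 ≤ β n x) ∧
      ZPer (β 0) ∧ (∀ N x, ∑ n ∈ Finset.range N, β n x ≤ C) ∧ 0 < β 0 xs ∧
      ∀ n, ∃ φ : V → ℝ, ContDiff ℝ 1 φ ∧ ZPer φ ∧ ∀ᶠ k in atTop, ∀ X y,
        fderiv ℝ φ ![PhiX ψ P k (X, y, 0, 1), y]
          ![dT (PhiX ψ P k) (X, y, 0, 1) + om * dX (PhiX ψ P k) (X, y, 0, 1), 1] =
        β 0 ![PhiX ψ P k (X, y, 0, 1), y] - β n ![PhiX ψ P k (X, y, 0, 1), y] := by
  -- positivity of the widths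
  have ha : ∀ k, 0 < a k := by
    intro k
    induction k with
    | zero => exact hT.apos
    | succ k ih =>
      rw [hT.astep k]
      positivity
  have hHmono : Monotone Hh := monotone_nat_of_le_succ hT.Hmono
  have hH1 : ∀ k, 1 < Hh k := fun k => by
    have := hT.Hbig k
    have hk0 : (0 : ℝ) ≤ k := Nat.cast_nonneg k
    linarith
  -- the leaves
  have htr := fun k => trip_phi hT.trip hT.idn k
  have hex := fun k => exists_leaf (htr k) (hg k)
  choose C hC using hex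
  -- the cut off function
  obtain ⟨bf, hbs, hb0, hb1, hbz, hbp⟩ : ∃ bf : ℝ → ℝ, ContDiff ℝ ∞ bf ∧ (∀ s, 0 ≤ bf s) ∧
      (∀ s, bf s ≤ 1) ∧ (∀ s, 1 / 2 ≤ |s| → bf s = 0) ∧ bf 0 = 1 := by
    let f : ContDiffBump (0 : ℝ) := ⟨1 / 4, 1 / 2, by norm_num, by norm_num⟩
    refine ⟨f, f.contDiff, fun s => f.nonneg, fun s => f.le_one, fun s hs => ?_, ?_⟩
    · apply f.zero_of_le_dist
      rw [Real.dist_eq, sub_zero]
      exact hs
    · apply f.one_of_mem_closedBall
      simp only [Metric.mem_closedBall, dist_self]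
      norm_num
  -- independence
  have hind : ∀ (θ : ℝ → ℝ) (n : ℕ), (∀ t, Hh n - 1 ≤ |t| → θ t = 0) → ∀ k, n ≤ k →
      LL bf (a k) (C k) θ = LL bf (a n) (C n) θ := by
    intro θ n hθ k hk
    induction k, hk using Nat.le_induction with
    | base => rfl
    | succ k hk ih =>
      rw [← ih]
      exact indep_step hT ha k (hC k) (hC (k + 1)) hbz
        (fun t ht => hθ t (by linarith [hHmono hk]))
  -- supports
  have supp1 : ∀ n k : ℕ, n ≤ k → ∀ t, Hh k - 1 ≤ |t| →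
      deriv Real.smoothTransition (t - n) = 0 := by
    intro n k hnk t ht
    have h1 := hT.Hbig k
    have h2 : (n : ℝ) ≤ k := Nat.cast_le.2 hnk
    have h0 : (0 : ℝ) ≤ n := Nat.cast_nonneg n
    apply dst_zero
    rcases le_abs.1 (show (n : ℝ) + 1 ≤ |t| by linarith) with h3 | h3
    · right; linarith
    · left; linarith
  have supp2 : ∀ n k : ℕ, n ≤ k → ∀ t, Hh k - 1 ≤ |t| →
      Real.smoothTransition t - Real.smoothTransition (t - n) = 0 := by
    intro n k hnk t ht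
    have h1 := hT.Hbig k
    have h2 : (n : ℝ) ≤ k := Nat.cast_le.2 hnk
    have h0 : (0 : ℝ) ≤ n := Nat.cast_nonneg n
    rcases le_abs.1 (show (n : ℝ) + 1 ≤ |t| by linarith) with h3 | h3
    · rw [Real.smoothTransition.one_of_one_le (by linarith),
        Real.smoothTransition.one_of_one_le (by linarith), sub_self]
    · rw [Real.smoothTransition.zero_of_nonpos (by linarith),
        Real.smoothTransition.zero_of_nonpos (by linarith), sub_self]
  have sm1 : ∀ n : ℕ, ContDiff ℝ ∞ (fun t : ℝ => deriv Real.smoothTransition (t - n)) :=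
    fun n => dst_contDiff.comp (contDiff_id.sub contDiff_const)
  have sm2 : ∀ n : ℕ, ContDiff ℝ ∞
      (fun t : ℝ => Real.smoothTransition t - Real.smoothTransition (t - n)) :=
    fun n => Real.smoothTransition.contDiff.sub
      (Real.smoothTransition.contDiff.comp (contDiff_id.sub contDiff_const))
  have dsm : ∀ n : ℕ, deriv (fun t : ℝ => Real.smoothTransition t - Real.smoothTransition (t - n))
      = fun t => deriv Real.smoothTransition t - deriv Real.smoothTransition (t - n) := by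
    intro n
    funext t
    have hd : Differentiable ℝ Real.smoothTransition :=
      (Real.smoothTransition.contDiff (n := 1)).differentiable (by norm_num)
    have h1 := (hd t).hasDerivAt
    have h2 := (hd (t - n)).hasDerivAt.comp t ((hasDerivAt_id t).sub_const (n : ℝ))
    rw [mul_one] at h2
    exact (h1.sub h2).deriv
  obtain ⟨Cb, hCb0, hCb⟩ := dst_bound
  obtain ⟨t0, ht0⟩ := dst_pos
  refine ⟨fun n => LL bf (a n) (C n) (fun t => deriv Real.smoothTransition (t - n)), Cb,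
    ![PhiX ψ P 0 (om * t0, t0, 0, 1), t0], ?_, ?_, ?_, ?_, ?_, ?_⟩
  · intro n
    exact (LL_contDiff (hC n) (ha n) (hH1 n) (hT.thin n) hbz (supp1 n n le_rfl) hbs
      (sm1 n)).continuous
  · intro n x
    exact LL_nonneg hb0 (fun t => dst_nonneg _) x
  · exact LL_per (hC 0) _ _ _
  · intro N x
    have hcomm : ∀ n ∈ Finset.range N,
        LL bf (a n) (C n) (fun t => deriv Real.smoothTransition (t - n)) x
          = LL bf (a N) (C N) (fun t => deriv Real.smoothTransition (t - n)) x := by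
      intro n hn
      rw [hind _ n (supp1 n n le_rfl) N (Finset.mem_range.1 hn).le]
    rw [Finset.sum_congr rfl hcomm]
    obtain ⟨g, hgl⟩ := per_local (half_pos (ha N)) (by linarith [hH1 N] : 0 < Hh N - 1)
      (thin' (hT.thin N)) (C N (x 0, x 1), x 1, 0, 1)
    have hgl := hgl.self_of_nhds
    have hval : ∀ n ∈ Finset.range N,
        LL bf (a N) (C N) (fun t => deriv Real.smoothTransition (t - n)) x
          = bf ((act g (C N (x 0, x 1), x 1, 0, 1)).1 / a N)
            * deriv Real.smoothTransition ((x 1 + g.1) - n) := by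
      intro n hn
      exact hgl _ (hh_supp (ha N) hbz (supp1 n N (Finset.mem_range.1 hn).le))
    rw [Finset.sum_congr rfl hval, ← Finset.mul_sum]
    have h1 := dst_sum hCb0 hCb N (x 1 + g.1)
    have h2 : 0 ≤ ∑ n ∈ Finset.range N, deriv Real.smoothTransition (x 1 + g.1 - n) :=
      Finset.sum_nonneg fun n _ => dst_nonneg _
    calc _ ≤ 1 * Cb := mul_le_mul (hb1 _) h1 h2 zero_le_one
      _ = Cb := one_mul _
  · show 0 < LL bf (a 0) (C 0) (fun t => deriv Real.smoothTransition (t - ((0 : ℕ) : ℝ)))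
      ![PhiX ψ P 0 (om * t0, t0, 0, 1), t0]
    have hl := LL_leaf (hC 0) bf (fun t => deriv Real.smoothTransition (t - ((0 : ℕ) : ℝ))) (a 0)
      (om * t0) t0
    simp only at hl
    rw [hl]
    have ht01 : |t0| ≤ Hh 0 - 1 := by
      by_contra hcon
      push Not at hcon
      have := supp1 0 0 le_rfl t0 hcon.le
      rw [Nat.cast_zero, sub_zero] at this
      exact ht0.ne' this
    have hp := per_eq (half_pos (ha 0)) (by linarith [hH1 0] : 0 < Hh 0 - 1) (thin' (hT.thin 0))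
      (hh_supp (ha 0) hbz (supp1 0 0 le_rfl)) (m := (om * t0, t0, 0, 1)) (g := (0, 0))
      (by
        have : (act (0, 0) ((om * t0, t0, 0, 1) : E4)).1 = 0 := by simp [act]
        rw [this, abs_zero]
        exact (half_pos (ha 0)).le)
      (by
        have : (act (0, 0) ((om * t0, t0, 0, 1) : E4)).2.1 = t0 := by simp [act]
        rw [this]
        exact ht01)
    rw [hp]
    have e1 : (act (0, 0) ((om * t0, t0, 0, 1) : E4)).1 = 0 := by simp [act]
    have e2 : (act (0, 0) ((om * t0, t0, 0, 1) : E4)).2.1 = t0 := by simp [act]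
    unfold hh
    rw [e1, e2, zero_div, hbp, one_mul, Nat.cast_zero]
    simpa using ht0
  · intro n
    refine ⟨LL bf (a n) (C n) (fun t => Real.smoothTransition t - Real.smoothTransition (t - n)),
      ?_, LL_per (hC n) _ _ _, ?_⟩
    · exact (LL_contDiff (hC n) (ha n) (hH1 n) (hT.thin n) hbz (supp2 n n le_rfl) hbs
        (sm2 n)).of_le (by exact_mod_cast le_top)
    · filter_upwards [eventually_ge_atTop n] with k hk X y
      have e1 := hind _ n (supp2 n n le_rfl) k hk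
      have e2 := hind _ n (supp1 n n le_rfl) k hk
      have e3 := hind _ 0 (supp1 0 0 le_rfl) k (Nat.zero_le k)
      have hz : ∀ t, Hh k - 1 ≤ |t| → deriv (fun t : ℝ =>
          Real.smoothTransition t - Real.smoothTransition (t - n)) t = 0 := by
        intro t ht
        rw [dsm n]
        have s1 := supp1 0 k (Nat.zero_le k) t ht
        have s2 := supp1 n k hk t ht
        rw [Nat.cast_zero, sub_zero] at s1
        simp only
        rw [s1, s2, sub_self]
      have hd := LL_deriv (hC k) (ha k) (hH1 k) (hT.thin k) hbz (supp2 n k hk) hz hbs (sm2 n) X y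
      have hfd : fderiv ℝ (fun q : ℝ × ℝ => PhiX ψ P k (q.1, q.2, 0, 1)) (X, y) (om, 1)
          = dT (PhiX ψ P k) (X, y, 0, 1) + om * dX (PhiX ψ P k) (X, y, 0, 1) := by
        rw [fderiv_emb (htr k).smψ]
        have : ((om, 1, 0, 0) : E4) = (0, 1, 0, 0) + om • (1, 0, 0, 0) := by
          ext <;> simp
        rw [this, map_add, map_smul]
        rfl
      rw [hfd] at hd
      simp only at hd
      rw [← e1, hd, dsm n]
      have hs0 : ∀ t, Hh k - 1 ≤ |t| → deriv Real.smoothTransition t = 0 := by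
        intro t ht
        have s1 := supp1 0 k (Nat.zero_le k) t ht
        rwa [Nat.cast_zero, sub_zero] at s1
      rw [LL_sub (ha k) (hH1 k) (hT.thin k) hbz hs0 (supp1 n k hk), ← e2, ← e3]
      simp only [Nat.cast_zero, sub_zero]

end Pool.Agent.MP_ff4374_an
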