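import Pool.Agent.MP_ff4374_an.Beta

set_option autoImplicit false
open MeasureTheory Filter Topology
open scoped ContDiff

namespace Pool.Agent.MP_ff4374_an

open Leg Bt

namespace Nm

variable {m M : ℝ} {H : V × V → ℝ} {Hk : ℕ → V × V → ℝ} {H0 : V → ℝ} {ε : ℕ → ℝ}
    {u : ℕ → V → V → ℝ} {β : ℕ → V → ℝ} {C : ℝ} {xs : V}

/-- the action of a minimizing measure of class zero is at most `-H0 0` -/
theorem action_le (hS : Sys m M H Hk H0 ε u β C xs)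
    {L : V × V → ℝ} (hL : Dual M H L) {μ : Measure (V × V)}
    (hmin : ∀ ν, Adm L ν → ∫ p, L p ∂μ ≤ ∫ p, L p ∂ν) : ∫ p, L p ∂μ ≤ - H0 0 := by
  have hk : ∀ k, ∫ p, L p ∂μ ≤ - H0 0 + ε k := by
    intro k
    obtain ⟨ν, h1, _, h3⟩ := adm_upper hS hL k 0
    have h4 := hmin ν h1
    have h5 : dot 0 (grad H0 0) = 0 := by simp [dot]
    rw [h5] at h3
    linarith
  have hlim : Tendsto (fun k => - H0 0 + ε k) atTop (𝓝 (- H0 0 + 0)) :=
    tendsto_const_nhds.add hS.hε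
  rw [add_zero] at hlim
  exact ge_of_tendsto' hlim hk

/-- the vector field of the leaf of class zero -/
noncomputable def X0 (Hk : ℕ → V × V → ℝ) (u : ℕ → V → V → ℝ) (k : ℕ) (x : V) : V :=
  gradP (Hk k) x (grad (u k 0) x)

noncomputable def Y0 (H : V × V → ℝ) (u : ℕ → V → V → ℝ) (k : ℕ) (x : V) : V :=
  gradP H x (grad (u k 0) x)

theorem Y0_continuous (hS : Sys m M H Hk H0 ε u β C xs) (k : ℕ) : Continuous (Y0 H u k) := by
  have h1 := (gradP_contDiff hS.hH.c2).continuous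
  have h2 := grad_continuous (hS.u1 k 0)
  exact h1.comp (continuous_id.prodMk h2)

theorem X0_continuous (hS : Sys m M H Hk H0 ε u β C xs) (k : ℕ) : Continuous (X0 Hk u k) := by
  have h1 := (gradP_contDiff (hS.hHk k).c2).continuous
  have h2 := grad_continuous (hS.u1 k 0)
  exact h1.comp (continuous_id.prodMk h2)

theorem eps_nonneg (hS : Sys m M H Hk H0 ε u β C xs) (k : ℕ) : 0 ≤ ε k :=
  (abs_nonneg _).trans (hS.app0 k 0 0)

theorem X0_Y0 (hS : Sys m M H Hk H0 ε u β C xs) (k : ℕ) (x : V) : ‖X0 Hk u k x - Y0 H u k x‖ ≤ ε k := by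
  rw [pi_norm_le_iff_of_nonneg (eps_nonneg hS k)]
  intro i
  exact hS.app1 k x _ i

theorem sq_bound (hS : Sys m M H Hk H0 ε u β C xs)
    {L : V × V → ℝ} (hL : Dual M H L) {μ : Measure (V × V)} (hμ : Adm L μ)
    (hmin : ∀ ν, Adm L ν → ∫ p, L p ∂μ ≤ ∫ p, L p ∂ν) (k : ℕ) :
    Integrable (fun p : V × V => ‖p.2 - Y0 H u k p.1‖ ^ 2) μ ∧
    ∫ p : V × V, ‖p.2 - Y0 H u k p.1‖ ^ 2 ∂μ ≤ 2 * M * ε k := by
  have : IsProbabilityMeasure μ := hμ.1
  have hM := M_pos hS.mpos hS.hH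
  have hpt : ∀ p : V × V, ‖p.2 - Y0 H u k p.1‖ ^ 2 ≤
      2 * M * (L p + 0 - fderiv ℝ (u k 0) p.1 p.2 + (H0 0 + ε k)) := by
    rintro ⟨x, v⟩
    have h1 := hL.fenchel x (grad (u k 0) x) v
    have h2 := norm_sq_le_dot (v - gradP H x (grad (u k 0) x))
    have h3 := (abs_le.1 (hS.app0 k x (grad (u k 0) x))).1
    have h4 := hS.u3 k 0 x
    rw [zero_add] at h4
    rw [h4] at h3
    rw [← fderiv_eq_dot] at h1
    have h5 : dot (v - gradP H x (grad (u k 0) x)) (v - gradP H x (grad (u k 0) x)) / (2 * M)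
        ≤ L (x, v) + 0 - fderiv ℝ (u k 0) x v + (H0 0 + ε k) := by linarith
    rw [div_le_iff₀ (by positivity)] at h5
    have h6 : ‖v - Y0 H u k x‖ ^ 2 ≤ dot (v - gradP H x (grad (u k 0) x)) (v - gradP H x (grad (u k 0) x)) := h2
    simp only
    linarith
  have hi := fderiv_integrable hμ (hS.u1 k 0) (hS.u2 k 0)
  obtain ⟨h5, h7⟩ := int_lin hμ.2.2.1 (integrable_zero (V × V) ℝ μ) hi (H0 0 + ε k)
  have hc : Continuous (fun p : V × V => ‖p.2 - Y0 H u k p.1‖ ^ 2) :=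
    ((continuous_snd.sub ((Y0_continuous hS k).comp continuous_fst)).norm).pow 2
  have hint : Integrable (fun p : V × V => ‖p.2 - Y0 H u k p.1‖ ^ 2) μ := by
    refine (h5.const_mul (2 * M)).mono' hc.aestronglyMeasurable ?_
    filter_upwards with p
    rw [Real.norm_eq_abs, abs_of_nonneg (by positivity)]
    exact hpt p
  refine ⟨hint, ?_⟩
  have h6 := integral_mono (μ := μ) hint (h5.const_mul (2 * M)) hpt
  rw [integral_const_mul, h7, hμ.2.2.2 (u k 0) (hS.u1 k 0) (hS.u2 k 0)] at h6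
  have h8 := action_le hS hL hmin
  have h9 : ∫ x : V × V, (0 : V × V → ℝ) x ∂μ = 0 := by simp
  rw [h9] at h6
  refine h6.trans ?_
  apply mul_le_mul_of_nonneg_left _ (by positivity)
  linarith

theorem l1_bound (hS : Sys m M H Hk H0 ε u β C xs)
    {L : V × V → ℝ} (hL : Dual M H L) {μ : Measure (V × V)} (hμ : Adm L μ)
    (hmin : ∀ ν, Adm L ν → ∫ p, L p ∂μ ≤ ∫ p, L p ∂ν) (k : ℕ) :
    Integrable (fun p : V × V => ‖p.2 - X0 Hk u k p.1‖) μ ∧
    ∀ t : ℝ, 0 < t → ∫ p : V × V, ‖p.2 - X0 Hk u k p.1‖ ∂μ ≤ t + 2 * M * ε k / t + ε k := by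
  have : IsProbabilityMeasure μ := hμ.1
  have hM := M_pos hS.mpos hS.hH
  obtain ⟨h1, h2⟩ := sq_bound hS hL hμ hmin k
  have hc : Continuous (fun p : V × V => ‖p.2 - X0 Hk u k p.1‖) :=
    (continuous_snd.sub ((X0_continuous hS k).comp continuous_fst)).norm
  have hpt : ∀ t : ℝ, 0 < t → ∀ p : V × V, ‖p.2 - X0 Hk u k p.1‖
      ≤ (1 / t) * ‖p.2 - Y0 H u k p.1‖ ^ 2 + 0 - 0 + (t + ε k) := by
    intro t ht p
    have h3 : ‖p.2 - X0 Hk u k p.1‖ ≤ ‖p.2 - Y0 H u k p.1‖ + ε k := by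
      have e : p.2 - X0 Hk u k p.1 = (p.2 - Y0 H u k p.1) - (X0 Hk u k p.1 - Y0 H u k p.1) := by abel
      rw [e]
      exact (norm_sub_le _ _).trans (by linarith [X0_Y0 hS k p.1])
    have h4 : ‖p.2 - Y0 H u k p.1‖ ≤ (1 / t) * ‖p.2 - Y0 H u k p.1‖ ^ 2 + t := by
      have h5 : 0 ≤ ‖p.2 - Y0 H u k p.1‖ := norm_nonneg _
      rw [one_div, inv_mul_eq_div, div_add' _ _ _ ht.ne', le_div_iff₀ ht]
      nlinarith [sq_nonneg (‖p.2 - Y0 H u k p.1‖ - t), sq_nonneg t]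
    linarith
  have hz : Integrable (fun _ : V × V => (0 : ℝ)) μ := integrable_zero (V × V) ℝ μ
  have hint : Integrable (fun p : V × V => ‖p.2 - X0 Hk u k p.1‖) μ := by
    obtain ⟨h5, h7⟩ := int_lin (h1.const_mul (1 / 1)) hz hz (1 + ε k)
    refine h5.mono' hc.aestronglyMeasurable ?_
    filter_upwards with p
    rw [Real.norm_eq_abs, abs_of_nonneg (by positivity)]
    exact hpt 1 one_pos p
  refine ⟨hint, fun t ht => ?_⟩
  obtain ⟨h5, h7⟩ := int_lin (h1.const_mul (1 / t)) hz hz (t + ε k)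
  have h6 := integral_mono (μ := μ) hint h5 (hpt t ht)
  rw [h7, integral_const_mul] at h6
  simp only [integral_zero] at h6
  have h8 : 1 / t * ∫ p : V × V, ‖p.2 - Y0 H u k p.1‖ ^ 2 ∂μ ≤ 2 * M * ε k / t := by
    rw [one_div, inv_mul_eq_div]
    gcongr
  linarith

theorem l1_tendsto (hS : Sys m M H Hk H0 ε u β C xs)
    {L : V × V → ℝ} (hL : Dual M H L) {μ : Measure (V × V)} (hμ : Adm L μ)
    (hmin : ∀ ν, Adm L ν → ∫ p, L p ∂μ ≤ ∫ p, L p ∂ν) :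
    Tendsto (fun k => ∫ p : V × V, ‖p.2 - X0 Hk u k p.1‖ ∂μ) atTop (𝓝 0) := by
  have hM := M_pos hS.mpos hS.hH
  rw [Metric.tendsto_atTop]
  intro δ hδ
  have h1 : Tendsto (fun k => δ / 2 + 2 * M * ε k / (δ / 2) + ε k) atTop
      (𝓝 (δ / 2 + 2 * M * 0 / (δ / 2) + 0)) :=
    (tendsto_const_nhds.add (((hS.hε.const_mul (2 * M))).div_const _)).add hS.hε
  have h2 : δ / 2 + 2 * M * 0 / (δ / 2) + 0 < δ := by
    simp; linarith
  have h3 := h1.eventually (gt_mem_nhds h2)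
  rw [eventually_atTop] at h3
  obtain ⟨N, hN⟩ := h3
  refine ⟨N, fun k hk => ?_⟩
  have h4 := (l1_bound hS hL hμ hmin k).2 (δ / 2) (by positivity)
  rw [Real.dist_eq, sub_zero, abs_of_nonneg (integral_nonneg fun p => norm_nonneg _)]
  exact h4.trans_lt (hN k hk)

theorem beta_le (hS : Sys m M H Hk H0 ε u β C xs) (n : ℕ) (x : V) : β n x ≤ C := by
  have h1 := hS.βs (n + 1) x
  rw [Finset.sum_range_succ] at h1
  have h2 : 0 ≤ ∑ i ∈ Finset.range n, β i x := Finset.sum_nonneg fun i _ => hS.β0 i x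
  linarith

theorem beta_integrable (hS : Sys m M H Hk H0 ε u β C xs) {μ : Measure (V × V)}
    [IsProbabilityMeasure μ] (n : ℕ) : Integrable (fun p : V × V => β n p.1) μ := by
  refine (integrable_const C).mono' ((hS.βc n).comp continuous_fst).aestronglyMeasurable ?_
  filter_upwards with p
  rw [Real.norm_eq_abs, abs_of_nonneg (hS.β0 n _)]
  exact beta_le hS n _

theorem beta_eq (hS : Sys m M H Hk H0 ε u β C xs)
    {L : V × V → ℝ} (hL : Dual M H L) {μ : Measure (V × V)} (hμ : Adm L μ)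
    (hmin : ∀ ν, Adm L ν → ∫ p, L p ∂μ ≤ ∫ p, L p ∂ν) (n : ℕ) :
    ∫ p : V × V, β 0 p.1 ∂μ = ∫ p : V × V, β n p.1 ∂μ := by
  have : IsProbabilityMeasure μ := hμ.1
  obtain ⟨φ, hφ, hφp, hev⟩ := hS.wand n
  obtain ⟨D, hD0, hD⟩ := fderiv_bdd hφ hφp
  have hk : ∀ᶠ k in atTop, |∫ p : V × V, β 0 p.1 ∂μ - ∫ p : V × V, β n p.1 ∂μ|
      ≤ D * ∫ p : V × V, ‖p.2 - X0 Hk u k p.1‖ ∂μ := by
    filter_upwards [hev] with k hk
    have hi := fderiv_integrable hμ hφ hφp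
    have hz := hμ.2.2.2 φ hφ hφp
    have hb0 := beta_integrable hS (μ := μ) 0
    have hbn := beta_integrable hS (μ := μ) n
    have e1 : ∫ p : V × V, β 0 p.1 ∂μ - ∫ p : V × V, β n p.1 ∂μ
        = ∫ p : V × V, ((β 0 p.1 - β n p.1) - fderiv ℝ φ p.1 p.2) ∂μ := by
      have i1 : Integrable (fun p : V × V => β 0 p.1 - β n p.1) μ := hb0.sub hbn
      rw [integral_sub i1 hi, integral_sub hb0 hbn, hz, sub_zero]
    rw [e1]
    have h1 : ∀ p : V × V, ‖(β 0 p.1 - β n p.1) - fderiv ℝ φ p.1 p.2‖ ≤ D * ‖p.2 - X0 Hk u k p.1‖ := by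
      intro p
      rw [← hk p.1, ← map_sub]
      have e2 : gradP (Hk k) p.1 (grad (u k 0) p.1) - p.2 = - (p.2 - X0 Hk u k p.1) := by
        unfold X0; abel
      rw [e2, map_neg, norm_neg]
      exact hD _ _
    calc |∫ p : V × V, ((β 0 p.1 - β n p.1) - fderiv ℝ φ p.1 p.2) ∂μ|
        ≤ ∫ p : V × V, D * ‖p.2 - X0 Hk u k p.1‖ ∂μ := by
          rw [← Real.norm_eq_abs]
          apply norm_integral_le_of_norm_le ((l1_bound hS hL hμ hmin k).1.const_mul D)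
          filter_upwards with p using h1 p
      _ = D * ∫ p : V × V, ‖p.2 - X0 Hk u k p.1‖ ∂μ := integral_const_mul _ _
  have hlim : Tendsto (fun k => D * ∫ p : V × V, ‖p.2 - X0 Hk u k p.1‖ ∂μ) atTop (𝓝 (D * 0)) :=
    (l1_tendsto hS hL hμ hmin).const_mul D
  rw [mul_zero] at hlim
  have h0 := ge_of_tendsto hlim hk
  have h1 := abs_nonneg (∫ p : V × V, β 0 p.1 ∂μ - ∫ p : V × V, β n p.1 ∂μ)
  have h2 : ∫ p : V × V, β 0 p.1 ∂μ - ∫ p : V × V, β n p.1 ∂μ = 0 := abs_eq_zero.1 (le_antisymm h0 h1)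
  linarith

theorem beta_zero (hS : Sys m M H Hk H0 ε u β C xs)
    {L : V × V → ℝ} (hL : Dual M H L) {μ : Measure (V × V)} (hμ : Adm L μ)
    (hmin : ∀ ν, Adm L ν → ∫ p, L p ∂μ ≤ ∫ p, L p ∂ν) :
    ∫ p : V × V, β 0 p.1 ∂μ = 0 := by
  have : IsProbabilityMeasure μ := hμ.1
  have hN : ∀ N : ℕ, (N : ℝ) * ∫ p : V × V, β 0 p.1 ∂μ ≤ C := by
    intro N
    have e : (N : ℝ) * ∫ p : V × V, β 0 p.1 ∂μ = ∫ p : V × V, ∑ n ∈ Finset.range N, β n p.1 ∂μ := by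
      rw [integral_finsetSum _ fun n _ => beta_integrable hS (μ := μ) n]
      rw [← Finset.sum_congr rfl fun n _ => beta_eq hS hL hμ hmin n]
      simp
    rw [e]
    calc ∫ p : V × V, ∑ n ∈ Finset.range N, β n p.1 ∂μ ≤ ∫ p : V × V, C ∂μ := by
          apply integral_mono (integrable_finsetSum _ fun n _ => beta_integrable hS (μ := μ) n)
            (integrable_const C)
          intro p
          exact hS.βs N p.1
      _ = C := by simp
  have h0 : 0 ≤ ∫ p : V × V, β 0 p.1 ∂μ := integral_nonneg fun p => hS.β0 0 _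
  by_contra hne
  have hpos : 0 < ∫ p : V × V, β 0 p.1 ∂μ := lt_of_le_of_ne h0 (Ne.symm hne)
  obtain ⟨N, hN2⟩ := exists_nat_gt (C / ∫ p : V × V, β 0 p.1 ∂μ)
  rw [div_lt_iff₀ hpos] at hN2
  linarith [hN N]

end Nm

open Nm

theorem no_min {m M : ℝ} {H : V × V → ℝ} {Hk : ℕ → V × V → ℝ} {H0 : V → ℝ} {ε : ℕ → ℝ}
    {u : ℕ → V → V → ℝ} {β : ℕ → V → ℝ} {C : ℝ} {xs : V} (hS : Sys m M H Hk H0 ε u β C xs)
    {L : V × V → ℝ} (hL : Dual M H L) {μ : Measure (V × V)} (hμ : Adm L μ)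
    (hmin : ∀ ν, Adm L ν → ∫ p, L p ∂μ ≤ ∫ p, L p ∂ν) (k : Fin 2 → ℤ) (v : V) :
    ∃ ρ : ℝ, 0 < ρ ∧ μ (Metric.ball (xs + (fun i => (k i : ℝ)), v) ρ) = 0 := by
  have : IsProbabilityMeasure μ := hμ.1
  set y : V := xs + (fun i => (k i : ℝ)) with hy
  have hβy : 0 < β 0 y := by
    rw [hy, hS.βp]; exact hS.xs0
  have hev : ∀ᶠ x in 𝓝 y, β 0 y / 2 < β 0 x :=
    ((hS.βc 0).continuousAt (x := y)).eventually (lt_mem_nhds (by linarith))
  rw [Metric.eventually_nhds_iff] at hev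
  obtain ⟨ρ, hρ, hρ2⟩ := hev
  refine ⟨ρ, hρ, ?_⟩
  have hz := beta_zero hS hL hμ hmin
  have hae := (integral_eq_zero_iff_of_nonneg (fun p => hS.β0 0 _) (beta_integrable hS (μ := μ) 0)).1 hz
  rw [Filter.EventuallyEq, ae_iff] at hae
  refine measure_mono_null ?_ hae
  intro p hp
  rw [Metric.mem_ball, Prod.dist_eq, max_lt_iff] at hp
  have h1 := hρ2 hp.1
  simp only [Set.mem_ofPred_eq, Pi.zero_apply]
  linarith

end Pool.Agent.MP_ff4374_an
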