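import Pool.Agent.MP_ff4374_an.Sysx
import Pool.Agent.MP_ff4374_an.NoMin

set_option autoImplicit false
open MeasureTheory Filter Topology
open scoped ContDiff

namespace Pool.Agent.MP_ff4374_an

theorem ff_main :
    ¬ (∀ (L : (Fin 2 → ℝ) × (Fin 2 → ℝ) → ℝ),
    ContDiff ℝ 2 L →
    (∀ (x v : Fin 2 → ℝ) (k : Fin 2 → ℤ), L (x + (fun i => (k i : ℝ)), v) = L (x, v)) →
    (∀ x v w : Fin 2 → ℝ, w ≠ 0 →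
      0 < fderiv ℝ (fun u => fderiv ℝ (fun u' => L (x, u')) u) v w w) →
    (∀ A : ℝ, ∃ B : ℝ, ∀ x v : Fin 2 → ℝ, A * ‖v‖ - B ≤ L (x, v)) →
    ∀ (Adm : Measure ((Fin 2 → ℝ) × (Fin 2 → ℝ)) → Prop),
    (∀ μ, Adm μ ↔ (IsProbabilityMeasure μ ∧ Integrable (fun p => ‖p.2‖) μ ∧ Integrable L μ ∧
        ∀ φ : (Fin 2 → ℝ) → ℝ, ContDiff ℝ 1 φ →
          (∀ (x : Fin 2 → ℝ) (k : Fin 2 → ℤ), φ (x + (fun i => (k i : ℝ))) = φ x) →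
          ∫ p, fderiv ℝ φ p.1 p.2 ∂μ = 0)) →
    ContDiff ℝ 1 (fun h : Fin 2 → ℝ =>
      sInf {r : ℝ | ∃ μ, Adm μ ∧ ∫ p, p.2 ∂μ = h ∧ ∫ p, L p ∂μ = r}) →
    ∀ c x : Fin 2 → ℝ, ∃ μ, Adm μ ∧
      (∀ ν, Adm ν → ∫ p, (L p - ∑ i, c i * p.2 i) ∂μ ≤ ∫ p, (L p - ∑ i, c i * p.2 i) ∂ν) ∧
      ∃ (k : Fin 2 → ℤ) (v : Fin 2 → ℝ), ∀ ε > 0,
        0 < μ (Metric.ball (x + (fun i => (k i : ℝ)), v) ε)) := by
  intro h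
  obtain ⟨m, M, H, Hk, H0, ε, u, β, C, xs, hS⟩ := exists_sys
  obtain ⟨L, hL⟩ := legendre hS.mpos hS.hH
  obtain ⟨μ, hμ, hmin, k, v, hball⟩ := h L hL.c2 hL.per hL.conv hL.superlin (Adm L)
    (fun μ => Iff.rfl) (beta_contDiff hS hL) 0 xs
  have hmin' : ∀ ν, Adm L ν → ∫ p, L p ∂μ ≤ ∫ p, L p ∂ν := by
    intro ν hν
    have := hmin ν hν
    simpa using this
  obtain ⟨ρ, hρ, h0⟩ := no_min hS hL hμ hmin' k v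
  have := hball ρ hρ
  rw [h0] at this
  exact lt_irrefl _ this

end Pool.Agent.MP_ff4374_an
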