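import Pool.Agent.MP_ff4374_an.Basic

/-!
Module Geom of MP_ff4374_an: geometry of the tubes.
-/

set_option autoImplicit false
open MeasureTheory Filter Topology
open scoped ContDiff

namespace Pool.Agent.MP_ff4374_an

theorem thin_of {W T : ℝ} (hT : 0 < T) (hW : 0 ≤ W) (h : 16 * W * T < 1) (h2 : 2 * W < 1) :
    Thin W T := by
  intro n j hn hj
  have hn0 : n = 0 := by
    by_contra hne
    have h1 := om_dioph n (-j) hne
    have e : om * (n : ℝ) - ((-j : ℤ) : ℝ) = om * n + j := by push_cast; ring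
    rw [e] at h1
    have h3 : (0 : ℝ) < |(n : ℝ)| := by
      have : (n : ℝ) ≠ 0 := by exact_mod_cast hne
      exact abs_pos.mpr this
    have h4 : 1 / (4 * |(n : ℝ)|) ≤ 2 * W := h1.trans hj
    rw [div_le_iff₀ (by positivity)] at h4
    nlinarith
  refine ⟨hn0, ?_⟩
  rw [hn0] at hj
  have h3 : |(j : ℝ)| < 1 := by
    have : om * ((0 : ℤ) : ℝ) + j = j := by simp
    rw [this] at hj
    linarith
  have h4 : |j| < 1 := by exact_mod_cast h3
  exact Int.abs_lt_one_iff.mp h4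

theorem bad_of {W T : ℕ → ℝ} (hT : ∀ j, ∃ N : ℕ, T j = N) {k j : ℕ} (hjk : j < k) {m : E4}
    {g g' : ℤ × ℤ} {n : ℤ} (h1 : |(act g m).1| ≤ W k) (h2 : |(act g m).2.1 - n| ≤ 1 / 4)
    (h1' : |(act g' m).1| ≤ W j) (h2' : |(act g' m).2.1| ≤ T j) : Bad W T k n := by
  refine ⟨j, hjk, n - g.1 + g'.1, g'.2 - g.2, ?_, ?_⟩
  · obtain ⟨N, hN⟩ := hT j
    have e : (act g' m).2.1 - ((n - g.1 + g'.1 : ℤ) : ℝ) = (act g m).2.1 - n := by
      simp only [act]
      push_cast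
      ring
    rw [← e] at h2
    have h3 : |((n - g.1 + g'.1 : ℤ) : ℝ)| ≤ N + 1 / 4 := by
      have := abs_sub ((act g' m).2.1) ((act g' m).2.1 - ((n - g.1 + g'.1 : ℤ) : ℝ))
      rw [sub_sub_cancel] at this
      linarith
    have h4 : |(n - g.1 + g'.1 : ℤ)| < (N : ℤ) + 1 := by
      have h5 : ((|(n - g.1 + g'.1 : ℤ)| : ℤ) : ℝ) < ((N : ℤ) + 1 : ℤ) := by
        push_cast at h3 ⊢
        linarith
      exact_mod_cast h5
    have h6 : |(n - g.1 + g'.1 : ℤ)| ≤ (N : ℤ) := by omega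
    rw [hN]
    exact_mod_cast h6
  · have e : om * ((n : ℝ) - ((n - g.1 + g'.1 : ℤ) : ℝ)) - ((g'.2 - g.2 : ℤ) : ℝ)
        = (act g' m).1 - (act g m).1 := by
      simp only [act]
      push_cast
      ring
    rw [e]
    exact (abs_sub _ _).trans (add_le_add h1' h1)

theorem tower_geom {r : ℝ} {W T a Hh b : ℕ → ℝ} {ψ P S K : ℕ → E4 → ℝ}
    (hT : ∀ j, ∃ N : ℕ, T j = N)
    (hL : ∀ k, Lev r (W k) (T k) (fun n => ¬ Bad W T k n) (a k) (Hh k) (b k) (ψ k) (P k) (S k) (K k)) :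
    (∀ k j, j < k → ∀ m, K k m ≠ 0 → ψ j m = m.1 ∧ P j m = m.2.2.1) ∧
    (∀ k j, j < k → Disjoint (tsupport (K j)) (tsupport (K k))) := by
  constructor
  · intro k j hjk m hm
    have hm' : m ∈ tsupport (K k) := subset_tsupport _ hm
    obtain ⟨g, n, hgood, h1, h2, h3⟩ := (hL k).supp m hm'
    apply (hL j).out
    rintro g' ⟨h4, h5⟩
    exact hgood (bad_of hT hjk h1 h3 h4.le h5.le)
  · intro k j hjk
    rw [Set.disjoint_left]
    intro m hj hk
    obtain ⟨g, n, hgood, h1, h2, h3⟩ := (hL k).supp m hk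
    obtain ⟨g', n', hgood', h1', h2', h3'⟩ := (hL j).supp m hj
    exact hgood (bad_of hT hjk h1 h3 h1' h2')

end Pool.Agent.MP_ff4374_an
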