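import Pool.Agent.MP_ff4374_an.Basic

set_option autoImplicit false
open Filter Topology
open scoped ContDiff

namespace Pool.Agent.MP_ff4374_an

namespace Gr

/-- symmetry of the second derivative, in the form of directional derivatives -/
theorem dir2 {f : E4 → ℝ} (hf : ContDiff ℝ 2 f) (m v w : E4) :
    fderiv ℝ (fun m' => fderiv ℝ f m' w) m v = fderiv ℝ (fderiv ℝ f) m v w := by
  have hd : DifferentiableAt ℝ (fderiv ℝ f) m :=
    ((hf.fderiv_right (m := 1) (by norm_num)).differentiable (by norm_num)) m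
  have := hd.hasFDerivAt.clm_apply (hasFDerivAt_const w m)
  rw [this.fderiv]
  simp

theorem symm2 {f : E4 → ℝ} (hf : ContDiff ℝ 2 f) (m v w : E4) :
    fderiv ℝ (fun m' => fderiv ℝ f m' w) m v = fderiv ℝ (fun m' => fderiv ℝ f m' v) m w := by
  rw [dir2 hf, dir2 hf]
  have hs : IsSymmSndFDerivAt ℝ f m := by
    apply ContDiffAt.isSymmSndFDerivAt (n := 2) hf.contDiffAt
    simp
  exact hs v w

theorem diff_dir {f : E4 → ℝ} (hf : ContDiff ℝ 2 f) (w : E4) :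
    ContDiff ℝ 1 (fun m => fderiv ℝ f m w) := by
  have h : ContDiff ℝ 1 (fderiv ℝ f) := hf.fderiv_right (m := 1) (by norm_num)
  exact h.clm_apply contDiff_const

theorem line {f : E4 → ℝ} {m : E4} (hf : DifferentiableAt ℝ f m) (v : E4) :
    HasDerivAt (fun t : ℝ => f (m + t • v)) (fderiv ℝ f m v) 0 := by
  have h1 : HasDerivAt (fun t : ℝ => m + t • v) v 0 := by
    simpa using ((hasDerivAt_id (0:ℝ)).smul_const v).const_add m
  have h2 : HasFDerivAt f (fderiv ℝ f m) (m + (0:ℝ) • v) := by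
    simpa using hf.hasFDerivAt
  exact h2.comp_hasDerivAt (0:ℝ) h1

theorem lineF {F ψ P : E4 → ℝ} {m : E4} (hF : DifferentiableAt ℝ F (ψ m, m.2.1, P m, m.2.2.2))
    (hψ : DifferentiableAt ℝ ψ m) (hP : DifferentiableAt ℝ P m) (v : E4) :
    HasDerivAt (fun t : ℝ => F (ψ (m + t • v), (m + t • v).2.1, P (m + t • v), (m + t • v).2.2.2))
      (fderiv ℝ F (ψ m, m.2.1, P m, m.2.2.2) (fderiv ℝ ψ m v, v.2.1, fderiv ℝ P m v, v.2.2.2)) 0 := by
  have h1 := line hψ v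
  have h2 := line hP v
  have h3 : HasDerivAt (fun t : ℝ => (m + t • v).2.1) v.2.1 0 := by
    have : HasDerivAt (fun t : ℝ => m.2.1 + t * v.2.1) v.2.1 0 := by
      simpa using ((hasDerivAt_id (0:ℝ)).mul_const v.2.1).const_add m.2.1
    exact this
  have h4 : HasDerivAt (fun t : ℝ => (m + t • v).2.2.2) v.2.2.2 0 := by
    have : HasDerivAt (fun t : ℝ => m.2.2.2 + t * v.2.2.2) v.2.2.2 0 := by
      simpa using ((hasDerivAt_id (0:ℝ)).mul_const v.2.2.2).const_add m.2.2.2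
    exact this
  have h5 := h1.prodMk (h3.prodMk (h2.prodMk h4))
  have h6 : HasFDerivAt F (fderiv ℝ F (ψ m, m.2.1, P m, m.2.2.2))
      (ψ (m + (0:ℝ) • v), (m + (0:ℝ) • v).2.1, P (m + (0:ℝ) • v), (m + (0:ℝ) • v).2.2.2) := by
    simpa using hF.hasFDerivAt
  exact h6.comp_hasDerivAt (0:ℝ) h5

theorem infty2 {f : E4 → ℝ} (hf : ContDiff ℝ ∞ f) : ContDiff ℝ 2 f :=
  hf.of_le (WithTop.coe_le_coe.2 (le_top (a := (2 : ℕ∞))))

theorem key {r : ℝ} {ψ P S κ : E4 → ℝ} (h : Trip r ψ P S κ) (m v w : E4) (hw : w.2.2.2 = 0) :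
    fderiv ℝ (fun m => fderiv ℝ S m w) m v =
      fderiv ℝ P m v * fderiv ℝ ψ m w + P m * fderiv ℝ (fun m => fderiv ℝ ψ m w) m v
      - (om * fderiv ℝ P m v + P m * fderiv ℝ P m v
        + fderiv ℝ κ (ψ m, m.2.1, P m, m.2.2.2) (fderiv ℝ ψ m v, v.2.1, fderiv ℝ P m v, v.2.2.2)) * w.2.1
      - v.2.2.1 * w.1 + (om * v.2.2.1 + m.2.2.1 * v.2.2.1) * w.2.1 := by
  have hψ := infty2 h.smψ
  have hP := infty2 h.smP
  have hS := infty2 h.smS
  have hκ := infty2 h.smκ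
  have two : (2 : WithTop ℕ∞) ≠ 0 := by norm_num
  have one : (1 : WithTop ℕ∞) ≠ 0 := by norm_num
  have a1 := line (((diff_dir hS w).differentiable one) m) v
  have a2 := line ((hP.differentiable two) m) v
  have a3 := line (((diff_dir hψ w).differentiable one) m) v
  have a4 := lineF ((hκ.differentiable two) _) ((hψ.differentiable two) m)
    ((hP.differentiable two) m) v
  have a5 : HasDerivAt (fun t : ℝ => (m + t • v).2.2.1) v.2.2.1 0 := by
    have : HasDerivAt (fun t : ℝ => m.2.2.1 + t * v.2.2.1) v.2.2.1 0 := by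
      simpa using ((hasDerivAt_id (0:ℝ)).mul_const v.2.2.1).const_add m.2.2.1
    exact this
  have b1 := (((a2.mul a3).sub ((((a2.const_mul om).add ((a2.pow 2).div_const 2)).add a4).mul_const w.2.1)).sub
    (a5.mul_const w.1)).add (((a5.const_mul om).add ((a5.pow 2).div_const 2)).mul_const w.2.1)
  have e : (fun t : ℝ => fderiv ℝ S (m + t • v) w) = fun t : ℝ =>
      P (m + t • v) * fderiv ℝ ψ (m + t • v) w
      - (om * P (m + t • v) + P (m + t • v) ^ 2 / 2 + κ (ψ (m + t • v), (m + t • v).2.1, P (m + t • v), (m + t • v).2.2.2)) * w.2.1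
      - (m + t • v).2.2.1 * w.1 + (om * (m + t • v).2.2.1 + (m + t • v).2.2.1 ^ 2 / 2) * w.2.1 := by
    funext t
    exact h.form (m + t • v) w hw
  rw [e] at a1
  have u := a1.unique (b1.congr_of_eventuallyEq (Filter.Eventually.of_forall fun t => by
    simp [Pi.mul_apply]))
  rw [u]
  simp only [zero_smul, add_zero]
  norm_num
  ring

end Gr

open Gr

theorem Trip.det {r : ℝ} {ψ P S κ : E4 → ℝ} (h : Trip r ψ P S κ) (m : E4) :
    dX ψ m * dP P m - dP ψ m * dX P m = 1 := by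
  have k1 := key h m (1, 0, 0, 0) (0, 0, 1, 0) rfl
  have k2 := key h m (0, 0, 1, 0) (1, 0, 0, 0) rfl
  have s1 := symm2 (infty2 h.smS) m (1, 0, 0, 0) (0, 0, 1, 0)
  have s2 := symm2 (infty2 h.smψ) m (1, 0, 0, 0) (0, 0, 1, 0)
  rw [k1, k2, s2] at s1
  simp only [dX, dP]
  simp only [mul_zero, mul_one, sub_zero, add_zero] at s1
  linarith

theorem Gr.split (L : E4 →L[ℝ] ℝ) (a b c d : ℝ) :
    L (a, b, c, d) = a * L (1, 0, 0, 0) + b * L (0, 1, 0, 0) + c * L (0, 0, 1, 0)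
      + d * L (0, 0, 0, 1) := by
  have e : ((a, b, c, d) : E4) = a • ((1, 0, 0, 0) : E4) + b • ((0, 1, 0, 0) : E4)
      + c • ((0, 0, 1, 0) : E4) + d • ((0, 0, 0, 1) : E4) := by
    simp
  rw [e]
  simp only [map_add, map_smul, smul_eq_mul]

theorem Trip.motion {r : ℝ} {ψ P S κ : E4 → ℝ} (h : Trip r ψ P S κ) (m : E4) :
    dT ψ m + (om + m.2.2.1) * dX ψ m = om + P m + dP κ (ψ m, m.2.1, P m, m.2.2.2) := by
  have hdet := h.det m
  have k1 := key h m (1, 0, 0, 0) (om + m.2.2.1, 1, 0, 0) rfl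
  have k2 := key h m (om + m.2.2.1, 1, 0, 0) (1, 0, 0, 0) rfl
  have k3 := key h m (0, 0, 1, 0) (om + m.2.2.1, 1, 0, 0) rfl
  have k4 := key h m (om + m.2.2.1, 1, 0, 0) (0, 0, 1, 0) rfl
  have s1 := symm2 (infty2 h.smS) m (1, 0, 0, 0) (om + m.2.2.1, 1, 0, 0)
  have s2 := symm2 (infty2 h.smψ) m (1, 0, 0, 0) (om + m.2.2.1, 1, 0, 0)
  have s3 := symm2 (infty2 h.smS) m (0, 0, 1, 0) (om + m.2.2.1, 1, 0, 0)
  have s4 := symm2 (infty2 h.smψ) m (0, 0, 1, 0) (om + m.2.2.1, 1, 0, 0)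
  rw [k1, k2, s2] at s1
  rw [k3, k4, s4] at s3
  clear k1 k2 k3 k4 s2 s4
  simp only [dX, dP, dT] at *
  set m' : E4 := (ψ m, m.2.1, P m, m.2.2.2) with hm'
  rw [Gr.split (fderiv ℝ κ m'), Gr.split (fderiv ℝ κ m')] at s1 s3
  rw [Gr.split (fderiv ℝ ψ m) (om + m.2.2.1), Gr.split (fderiv ℝ P m) (om + m.2.2.1)] at s1 s3
  set ψX := fderiv ℝ ψ m (1, 0, 0, 0)
  set ψT := fderiv ℝ ψ m (0, 1, 0, 0)
  set ψc := fderiv ℝ ψ m (0, 0, 1, 0)
  set PX := fderiv ℝ P m (1, 0, 0, 0)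
  set PT := fderiv ℝ P m (0, 1, 0, 0)
  set Pc := fderiv ℝ P m (0, 0, 1, 0)
  set κx := fderiv ℝ κ m' (1, 0, 0, 0)
  set κt := fderiv ℝ κ m' (0, 1, 0, 0)
  set κp := fderiv ℝ κ m' (0, 0, 1, 0)
  linear_combination -(ψc * s1 - ψX * s3) - (ψT + (om + m.2.2.1) * ψX - (om + P m + κp)) * hdet

theorem Gr.perX {r : ℝ} {ψ P S κ : E4 → ℝ} (h : Trip r ψ P S κ) (m : E4) (i j : ℤ) :
    dX ψ (m.1 + i, m.2.1 + j, m.2.2.1, m.2.2.2) = dX ψ m := by
  have e : (fun m : E4 => ψ (m + ((i : ℝ), (j : ℝ), (0 : ℝ), (0 : ℝ)))) = fun m => ψ m + i := by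
    funext m
    rw [← h.perψ m i j]
    congr 1
    ext <;> simp
  have e1 : fderiv ℝ (fun m : E4 => ψ (m + ((i : ℝ), (j : ℝ), (0 : ℝ), (0 : ℝ)))) m =
      fderiv ℝ ψ (m + ((i : ℝ), (j : ℝ), (0 : ℝ), (0 : ℝ))) := fderiv_comp_add_right _
  rw [e, fderiv_add_const] at e1
  unfold dX
  have e2 : ((m.1 + i, m.2.1 + j, m.2.2.1, m.2.2.2) : E4) = m + ((i : ℝ), (j : ℝ), (0 : ℝ), (0 : ℝ)) := by
    ext <;> simp
  rw [e2, ← e1]

theorem Gr.farX {r : ℝ} {ψ P S κ : E4 → ℝ} (h : Trip r ψ P S κ) (m : E4) (hm : r < |m.2.2.2 - 1|) :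
    dX ψ m = 1 := by
  have hev : ψ =ᶠ[𝓝 m] (fun m => m.1) := by
    have hc : Continuous (fun m : E4 => |m.2.2.2 - 1|) := by fun_prop
    filter_upwards [hc.continuousAt.eventually_const_lt hm] with m' hm'
    exact (h.triv m' (Or.inr hm'.le)).1
  unfold dX
  rw [hev.fderiv_eq]
  have : HasFDerivAt (fun m : E4 => m.1) (ContinuousLinearMap.fst ℝ ℝ (ℝ × ℝ × ℝ)) m := hasFDerivAt_fst
  rw [this.fderiv]
  rfl

theorem Trip.graph {r : ℝ} {ψ P S κ : E4 → ℝ} (h : Trip r ψ P S κ)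
    (hk : ∀ m, -1 < D2 κ m (0, 0, 1, 0)) (m : E4) : 0 < dX ψ m := by
  by_contra hneg
  push Not at hneg
  obtain ⟨x1, y1, c, e1⟩ := m
  have one : (1 : WithTop ℕ∞) ≠ 0 := by norm_num
  have hXc1 : ContDiff ℝ 1 (dX ψ) := diff_dir (infty2 h.smψ) _
  have hXc : Continuous (dX ψ) := hXc1.continuous
  set F : ℝ × ℝ × ℝ → ℝ := fun q => dX ψ (q.1, q.2.1, c, q.2.2) with hF
  have hFc : Continuous F := hXc.comp (by fun_prop)
  have hfar : ∀ q : ℝ × ℝ × ℝ, F q ≤ 0 → |q.2.2 - 1| ≤ r := by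
    intro q hq
    by_contra hlt
    push Not at hlt
    have := farX h (q.1, q.2.1, c, q.2.2) hlt
    simp only [hF] at hq
    rw [this] at hq
    linarith
  have hfr : ∀ x y e : ℝ, F (Int.fract x, Int.fract y, e) = F (x, y, e) := by
    intro x y e
    have := perX h (x, y, c, e) (-⌊x⌋) (-⌊y⌋)
    simp only [hF]
    rw [← this]
    simp only [Int.cast_neg]
    rfl
  set B : Set (ℝ × ℝ × ℝ) := Set.Icc 0 1 ×ˢ (Set.Icc 0 1 ×ˢ Set.Icc (-r) (2 + r)) with hB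
  have hBc : IsCompact B := isCompact_Icc.prod (isCompact_Icc.prod isCompact_Icc)
  set K : Set (ℝ × ℝ × ℝ) := B ∩ {q | F q ≤ 0} with hK
  have hKc : IsCompact K := hBc.inter_right (isClosed_le hFc continuous_const)
  have hmem : ∀ x y e : ℝ, F (x, y, e) ≤ 0 → ((Int.fract x, Int.fract y, e) : ℝ × ℝ × ℝ) ∈ K := by
    intro x y e hq
    have h1 : F (Int.fract x, Int.fract y, e) ≤ 0 := by rw [hfr]; exact hq
    have h2 := hfar _ hq
    rw [abs_le] at h2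
    refine ⟨?_, h1⟩
    simp only [hB, Set.mem_prod, Set.mem_Icc]
    refine ⟨⟨Int.fract_nonneg _, (Int.fract_lt_one _).le⟩, ⟨Int.fract_nonneg _, (Int.fract_lt_one _).le⟩, ?_, ?_⟩
    · linarith [h2.1]
    · linarith [h2.2]
  have hKne : K.Nonempty := ⟨_, hmem x1 y1 e1 hneg⟩
  obtain ⟨q, hqK, hqmin⟩ := hKc.exists_isMinOn hKne (f := fun q : ℝ × ℝ × ℝ => q.2.2) (by fun_prop)
  have hmin : ∀ x y e : ℝ, F (x, y, e) ≤ 0 → q.2.2 ≤ e := fun x y e hxy => hqmin (hmem x y e hxy)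
  have hnn : ∀ x y : ℝ, 0 ≤ F (x, y, q.2.2) := by
    intro x y
    by_contra hlt
    push Not at hlt
    have hc : Continuous (fun e : ℝ => F (x, y, e)) := hFc.comp (by fun_prop)
    have hev := hc.continuousAt.eventually_lt_const hlt
    have hev2 : ∀ᶠ e in 𝓝[<] q.2.2, F (x, y, e) < 0 := hev.filter_mono nhdsWithin_le_nhds
    obtain ⟨e, he, he2⟩ := (hev2.and self_mem_nhdsWithin).exists
    exact absurd (hmin x y e he.le) (not_le.2 he2)
  have hq0 : F q = 0 := le_antisymm hqK.2 (hnn q.1 q.2.1)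
  set ms : E4 := (q.1, q.2.1, c, q.2.2) with hms
  have hX0 : dX ψ ms = 0 := hq0
  -- first derivatives of `dX ψ` vanish
  have hd1 : fderiv ℝ (dX ψ) ms (1, 0, 0, 0) = 0 := by
    have hl := line ((hXc1.differentiable one) ms) (1, 0, 0, 0)
    refine IsLocalMin.hasDerivAt_eq_zero (a := (0:ℝ)) ?_ hl
    refine Filter.Eventually.of_forall fun t => ?_
    have h1 : dX ψ (ms + (0:ℝ) • (1, 0, 0, 0)) = 0 := by simpa using hX0
    have h2 : dX ψ (ms + t • (1, 0, 0, 0)) = F (q.1 + t, q.2.1, q.2.2) := by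
      simp [hF, hms]
    show dX ψ (ms + (0:ℝ) • (1, 0, 0, 0)) ≤ dX ψ (ms + t • (1, 0, 0, 0))
    rw [h1, h2]
    exact hnn _ _
  have hd2 : fderiv ℝ (dX ψ) ms (0, 1, 0, 0) = 0 := by
    have hl := line ((hXc1.differentiable one) ms) (0, 1, 0, 0)
    refine IsLocalMin.hasDerivAt_eq_zero (a := (0:ℝ)) ?_ hl
    refine Filter.Eventually.of_forall fun t => ?_
    have h1 : dX ψ (ms + (0:ℝ) • (0, 1, 0, 0)) = 0 := by simpa using hX0
    have h2 : dX ψ (ms + t • (0, 1, 0, 0)) = F (q.1, q.2.1 + t, q.2.2) := by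
      simp [hF, hms]
    show dX ψ (ms + (0:ℝ) • (0, 1, 0, 0)) ≤ dX ψ (ms + t • (0, 1, 0, 0))
    rw [h1, h2]
    exact hnn _ _
  -- differentiate the motion identity
  have hd3 : fderiv ℝ (dT ψ) ms (1, 0, 0, 0) = 0 := by
    have := symm2 (infty2 h.smψ) ms (1, 0, 0, 0) (0, 1, 0, 0)
    exact this.trans hd2
  have hTc1 : ContDiff ℝ 1 (dT ψ) := diff_dir (infty2 h.smψ) _
  have hκp : ContDiff ℝ 1 (dP κ) := diff_dir (infty2 h.smκ) _
  have l1 := line ((hTc1.differentiable one) ms) (1, 0, 0, 0)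
  have l2 := line ((hXc1.differentiable one) ms) (1, 0, 0, 0)
  have l3 := line (((infty2 h.smP).differentiable (by norm_num)) ms) (1, 0, 0, 0)
  have l4 := lineF ((hκp.differentiable one) (ψ ms, ms.2.1, P ms, ms.2.2.2))
    (((infty2 h.smψ).differentiable (by norm_num)) ms)
    (((infty2 h.smP).differentiable (by norm_num)) ms) (1, 0, 0, 0)
  have l5 := l1.add (l2.const_mul (om + c))
  have l6 := (l3.const_add om).add l4
  have e : (fun t : ℝ => dT ψ (ms + t • (1, 0, 0, 0)) + (om + c) * dX ψ (ms + t • (1, 0, 0, 0))) =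
      fun t : ℝ => om + P (ms + t • (1, 0, 0, 0)) + dP κ (ψ (ms + t • (1, 0, 0, 0)),
        (ms + t • (1, 0, 0, 0)).2.1, P (ms + t • (1, 0, 0, 0)), (ms + t • (1, 0, 0, 0)).2.2.2) := by
    funext t
    rw [← h.motion]
    simp [hms]
  have u := (l5.congr_of_eventuallyEq (Filter.EventuallyEq.of_eq e.symm)).unique l6
  rw [hd1, hd3, Gr.split (fderiv ℝ (dP κ) _)] at u
  have hX0' : fderiv ℝ ψ ms (1, 0, 0, 0) = 0 := hX0
  have hD2 : fderiv ℝ (dP κ) (ψ ms, ms.2.1, P ms, ms.2.2.2) (0, 0, 1, 0) =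
      D2 κ (ψ ms, ms.2.1, P ms, ms.2.2.2) (0, 0, 1, 0) := dir2 (infty2 h.smκ) _ _ _
  rw [hX0', hD2] at u
  have hkk := hk (ψ ms, ms.2.1, P ms, ms.2.2.2)
  have hP0 : fderiv ℝ P ms (1, 0, 0, 0) = 0 := by
    have : fderiv ℝ P ms (1, 0, 0, 0) * (1 + D2 κ (ψ ms, ms.2.1, P ms, ms.2.2.2) (0, 0, 1, 0)) = 0 := by
      linear_combination -u
    rcases mul_eq_zero.1 this with h0 | h0
    · exact h0
    · linarith
  have hdet := h.det ms
  have hP0' : dX P ms = 0 := hP0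
  rw [hX0, hP0'] at hdet
  norm_num at hdet

end Pool.Agent.MP_ff4374_an
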