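import Pool.Agent.MP_ff4374_an.Basic

/-!
MP_ff4374_an, module H0: the unperturbed Hamiltonian, quadratic at infinity.
-/

set_option autoImplicit false
open MeasureTheory Filter Topology
open scoped ContDiff

namespace Pool.Agent.MP_ff4374_an

/-! ### compactly supported functions of one variable -/

private structure Cs (f : ℝ → ℝ) : Prop where
  sm : ContDiff ℝ ∞ f
  z : ∀ u, 2 < |u| → f u = 0

private theorem Cs.deriv {f : ℝ → ℝ} (h : Cs f) : Cs (deriv f) where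
  sm := (contDiff_infty_iff_deriv.1 h.sm).2
  z := by
    intro u hu
    have h1 : ∀ᶠ y in 𝓝 u, 2 < |y| := continuous_abs.continuousAt.eventually (lt_mem_nhds hu)
    have h2 : f =ᶠ[𝓝 u] fun _ => (0:ℝ) := by
      filter_upwards [h1] with y hy
      exact h.z y hy
    rw [h2.deriv_eq]
    simp

private theorem Cs.bound {f : ℝ → ℝ} (h : Cs f) : ∃ K : ℝ, ∀ u, |f u| ≤ K := by
  obtain ⟨K, hK⟩ := isCompact_Icc.exists_bound_of_continuousOn (s := Set.Icc (-2 : ℝ) 2)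
    h.sm.continuous.continuousOn
  refine ⟨K, fun u => ?_⟩
  rcases le_or_gt |u| 2 with hu | hu
  · exact hK u (abs_le.1 hu)
  · rw [h.z u hu, abs_zero]
    exact (norm_nonneg _).trans (hK 0 (by constructor <;> norm_num))

private theorem Cs.bound3 {f : ℝ → ℝ} (h : Cs f) : ∃ K : ℝ, 0 ≤ K ∧ (∀ u, |f u| ≤ K) ∧
    (∀ u, |_root_.deriv f u| ≤ K) ∧ (∀ u, |_root_.deriv (_root_.deriv f) u| ≤ K) := by
  obtain ⟨K0, h0⟩ := h.bound
  obtain ⟨K1, h1⟩ := h.deriv.bound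
  obtain ⟨K2, h2⟩ := h.deriv.deriv.bound
  have p0 : 0 ≤ K0 := (abs_nonneg _).trans (h0 0)
  have p1 : 0 ≤ K1 := (abs_nonneg _).trans (h1 0)
  have p2 : 0 ≤ K2 := (abs_nonneg _).trans (h2 0)
  refine ⟨K0 + K1 + K2, by linarith, fun u => (h0 u).trans (by linarith),
    fun u => (h1 u).trans (by linarith), fun u => (h2 u).trans (by linarith)⟩

private noncomputable def chi (k : ℕ) (x : ℝ) : ℝ := Real.smoothTransition (2 - x ^ 2) * x ^ k

private theorem chi_cs (k : ℕ) : Cs (chi k) where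
  sm := by
    unfold chi
    exact (Real.smoothTransition.contDiff.comp (contDiff_const.sub (contDiff_id.pow 2))).mul
      (contDiff_id.pow k)
  z := by
    intro u hu
    unfold chi
    have : 4 < u ^ 2 := by
      rw [← sq_abs]
      nlinarith [abs_nonneg u]
    rw [Real.smoothTransition.zero_of_nonpos (by linarith), zero_mul]

private theorem chi_one {k : ℕ} {x : ℝ} (hx : |x| ≤ 1) : chi k x = x ^ k := by
  unfold chi
  have : x ^ 2 ≤ 1 := by
    rw [← sq_abs]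
    nlinarith [abs_nonneg x]
  rw [Real.smoothTransition.one_of_one_le (by linarith), one_mul]

/-! ### second derivatives -/

private theorem D2_prod {X Y : ℝ → ℝ} (hX : ContDiff ℝ ∞ X) (hY : ContDiff ℝ ∞ Y)
    (a b : V →L[ℝ] ℝ) (p w : V) :
    D2 (fun p => X (a p) * Y (b p)) p w =
      deriv (deriv X) (a p) * Y (b p) * (a w) ^ 2 + 2 * (deriv X (a p) * deriv Y (b p)) * (a w * b w)
        + X (a p) * deriv (deriv Y) (b p) * (b w) ^ 2 := by
  have hX' := (contDiff_infty_iff_deriv.1 hX).2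
  have hY' := (contDiff_infty_iff_deriv.1 hY).2
  have key : ∀ (f : ℝ → ℝ) (c : V →L[ℝ] ℝ), ContDiff ℝ ∞ f → ∀ q,
      HasFDerivAt (fun q : V => f (c q)) (deriv f (c q) • c) q := by
    intro f c hf q
    exact ((hf.differentiable (by simp)) (c q)).hasDerivAt.comp_hasFDerivAt q c.hasFDerivAt
  have h1 : fderiv ℝ (fun p => X (a p) * Y (b p)) =
      fun q => (X (a q) * deriv Y (b q)) • b + (Y (b q) * deriv X (a q)) • a := by
    funext q
    have h := ((key X a hX q).fun_mul (key Y b hY q)).fderiv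
    rw [h, smul_smul, smul_smul]
  have h2 : HasFDerivAt (fun q : V => (X (a q) * deriv Y (b q)) • b + (Y (b q) * deriv X (a q)) • a)
      (((X (a p) • (deriv (deriv Y) (b p) • b) + deriv Y (b p) • (deriv X (a p) • a)).smulRight b) +
        ((Y (b p) • (deriv (deriv X) (a p) • a) + deriv X (a p) • (deriv Y (b p) • b)).smulRight a)) p :=
    (((key X a hX p).mul (key _ b hY' p)).smul_const b).add
      (((key Y b hY p).mul (key _ a hX' p)).smul_const a)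
  unfold D2
  rw [h1, h2.fderiv]
  simp only [_root_.add_apply, ContinuousLinearMap.smulRight_apply,
    _root_.smul_apply, smul_eq_mul]
  ring

private theorem D2_add {f g : V → ℝ} (hf : ContDiff ℝ ∞ f) (hg : ContDiff ℝ ∞ g) (p w : V) :
    D2 (fun p => f p + g p) p w = D2 f p w + D2 g p w := by
  have hf1 : Differentiable ℝ f := hf.differentiable (by simp)
  have hg1 : Differentiable ℝ g := hg.differentiable (by simp)
  have hf2 : Differentiable ℝ (fderiv ℝ f) :=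
    (hf.fderiv_right (m := ∞) (by simp)).differentiable (by simp)
  have hg2 : Differentiable ℝ (fderiv ℝ g) :=
    (hg.fderiv_right (m := ∞) (by simp)).differentiable (by simp)
  have h1 : fderiv ℝ (fun p => f p + g p) = fun q => fderiv ℝ f q + fderiv ℝ g q := by
    funext q
    exact ((hf1 q).hasFDerivAt.fun_add (hg1 q).hasFDerivAt).fderiv
  unfold D2
  rw [h1, ((hf2 p).hasFDerivAt.fun_add (hg2 p).hasFDerivAt).fderiv]
  rfl

private theorem prod_cd {X Y : ℝ → ℝ} (hX : ContDiff ℝ ∞ X) (hY : ContDiff ℝ ∞ Y)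
    (a b : V →L[ℝ] ℝ) : ContDiff ℝ ∞ (fun p => X (a p) * Y (b p)) :=
  (hX.comp a.contDiff).mul (hY.comp b.contDiff)

private noncomputable def cA (ρ : ℝ) : V →L[ℝ] ℝ := ρ⁻¹ • ContinuousLinearMap.proj 0

private noncomputable def cB (ρ : ℝ) : V →L[ℝ] ℝ :=
  ρ⁻¹ • (ContinuousLinearMap.proj 1 + om • ContinuousLinearMap.proj 0)

private theorem cA_apply (ρ : ℝ) (w : V) : cA ρ w = w 0 / ρ := by
  simp [cA, div_eq_inv_mul]

private theorem cB_apply (ρ : ℝ) (w : V) : cB ρ w = (w 1 + om * w 0) / ρ := by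
  simp [cB, div_eq_inv_mul, mul_add]

theorem exists_H0 : ∃ (m M r : ℝ) (H0 : V → ℝ), IsH0 m M r H0 := by
  obtain ⟨K0, k0, b00, b01, b02⟩ := (chi_cs 0).bound3
  obtain ⟨K1, k1, b10, b11, b12⟩ := (chi_cs 1).bound3
  obtain ⟨K2, k2, b20, b21, b22⟩ := (chi_cs 2).bound3
  obtain ⟨K4, k4, b40, b41, b42⟩ := (chi_cs 4).bound3
  set K := K0 + K1 + K2 + K4 with hK
  have hKnn : 0 ≤ K := by positivity
  set ρ : ℝ := 1 / (4 * K ^ 2 + 2) with hρ
  have hρpos : 0 < ρ := by positivity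
  have hρ2 : ρ ≤ 1 / 2 := by
    rw [hρ]
    apply one_div_le_one_div_of_le (by norm_num)
    nlinarith [sq_nonneg K]
  have hρK : 2 * K ^ 2 * ρ ≤ 1 / 2 := by
    rw [hρ, mul_one_div, div_le_iff₀ (by positivity)]
    nlinarith [sq_nonneg K]
  -- pieces
  obtain ⟨P1, hP1⟩ : ∃ f : ℝ → ℝ, f = fun x => 1 / 2 + x ^ 2 / 2 := ⟨_, rfl⟩
  obtain ⟨Q1, hQ1⟩ : ∃ f : ℝ → ℝ, f = fun _ => 1 := ⟨_, rfl⟩
  obtain ⟨P2, hP2⟩ : ∃ f : ℝ → ℝ, f = fun _ => 1 := ⟨_, rfl⟩
  obtain ⟨Q2, hQ2⟩ : ∃ f : ℝ → ℝ, f = fun y => y + y ^ 2 / 2 := ⟨_, rfl⟩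
  obtain ⟨P3, hP3⟩ : ∃ f : ℝ → ℝ, f = fun x => ρ ^ 3 / 2 * chi 2 x := ⟨_, rfl⟩
  obtain ⟨P4, hP4⟩ : ∃ f : ℝ → ℝ, f = fun x => ρ ^ 4 / 8 * chi 4 x := ⟨_, rfl⟩
  have cP1 : ContDiff ℝ ∞ P1 := by rw [hP1]; fun_prop
  have cQ1 : ContDiff ℝ ∞ Q1 := by rw [hQ1]; exact contDiff_const
  have cP2 : ContDiff ℝ ∞ P2 := by rw [hP2]; exact contDiff_const
  have cQ2 : ContDiff ℝ ∞ Q2 := by rw [hQ2]; fun_prop
  have cP3 : ContDiff ℝ ∞ P3 := by rw [hP3]; exact contDiff_const.mul (chi_cs 2).sm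
  have cP4 : ContDiff ℝ ∞ P4 := by rw [hP4]; exact contDiff_const.mul (chi_cs 4).sm
  obtain ⟨F1, hF1⟩ : ∃ f : V → ℝ, f = fun p => P1 (cA 1 p) * Q1 (cB 1 p) := ⟨_, rfl⟩
  obtain ⟨F2, hF2⟩ : ∃ f : V → ℝ, f = fun p => P2 (cA 1 p) * Q2 (cB 1 p) := ⟨_, rfl⟩
  obtain ⟨F3, hF3⟩ : ∃ f : V → ℝ, f = fun p => P3 (cA ρ p) * chi 1 (cB ρ p) := ⟨_, rfl⟩
  obtain ⟨F4, hF4⟩ : ∃ f : V → ℝ, f = fun p => P4 (cA ρ p) * chi 0 (cB ρ p) := ⟨_, rfl⟩
  have cF1 : ContDiff ℝ ∞ F1 := by rw [hF1]; exact prod_cd cP1 cQ1 (cA 1) (cB 1)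
  have cF2 : ContDiff ℝ ∞ F2 := by rw [hF2]; exact prod_cd cP2 cQ2 (cA 1) (cB 1)
  have cF3 : ContDiff ℝ ∞ F3 := by rw [hF3]; exact prod_cd cP3 (chi_cs 1).sm (cA ρ) (cB ρ)
  have cF4 : ContDiff ℝ ∞ F4 := by rw [hF4]; exact prod_cd cP4 (chi_cs 0).sm (cA ρ) (cB ρ)
  have hD : ∀ p w : V, |D2 (fun p => F1 p + F2 p + F3 p + F4 p) p w -
      ((w 0) ^ 2 + (w 1 + om * w 0) ^ 2)| ≤ 1 / 2 * ((w 0) ^ 2 + (w 1 + om * w 0) ^ 2) := by
    intro p w
    rw [D2_add (f := fun p => F1 p + F2 p + F3 p) ((cF1.add cF2).add cF3) cF4,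
      D2_add (f := fun p => F1 p + F2 p) (cF1.add cF2) cF3, D2_add cF1 cF2]
    rw [hF1, hF2, hF3, hF4, D2_prod cP1 cQ1 (cA 1) (cB 1), D2_prod cP2 cQ2 (cA 1) (cB 1),
      D2_prod cP3 (chi_cs 1).sm (cA ρ) (cB ρ), D2_prod cP4 (chi_cs 0).sm (cA ρ) (cB ρ)]
    have e1 : deriv P1 = fun x => x := by
      rw [hP1]
      funext x
      apply HasDerivAt.deriv
      have h := ((hasDerivAt_pow 2 x).div_const 2).const_add (1 / 2)
      refine h.congr_deriv ?_
      simp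
    have e1' : deriv (deriv P1) = fun _ => 1 := by
      rw [e1]
      funext x
      exact (hasDerivAt_id x).deriv
    have e2 : deriv Q2 = fun y => 1 + y := by
      rw [hQ2]
      funext y
      apply HasDerivAt.deriv
      have := (hasDerivAt_id y).add ((hasDerivAt_pow 2 y).div_const 2)
      refine this.congr_deriv ?_
      simp
    have e2' : deriv (deriv Q2) = fun _ => 1 := by
      rw [e2]
      funext y
      exact ((hasDerivAt_id y).const_add 1).deriv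
    have e3 : deriv Q1 = fun _ => 0 := by
      rw [hQ1]; funext y; simp
    have e3' : deriv (deriv Q1) = fun _ => 0 := by
      rw [e3]; funext y; simp
    have e4 : deriv P2 = fun _ => 0 := by
      rw [hP2]; funext y; simp
    have e4' : deriv (deriv P2) = fun _ => 0 := by
      rw [e4]; funext y; simp
    have dd : ∀ (k : ℕ), Differentiable ℝ (chi k) := fun k => (chi_cs k).sm.differentiable (by simp)
    have dd' : ∀ (k : ℕ), Differentiable ℝ (deriv (chi k)) :=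
      fun k => (chi_cs k).deriv.sm.differentiable (by simp)
    have e5 : deriv P3 = fun x => ρ ^ 3 / 2 * deriv (chi 2) x := by
      rw [hP3]
      funext x
      exact ((dd 2 x).hasDerivAt.const_mul (ρ ^ 3 / 2)).deriv
    have e5' : deriv (deriv P3) = fun x => ρ ^ 3 / 2 * deriv (deriv (chi 2)) x := by
      rw [e5]
      funext x
      exact ((dd' 2 x).hasDerivAt.const_mul (ρ ^ 3 / 2)).deriv
    have e6 : deriv P4 = fun x => ρ ^ 4 / 8 * deriv (chi 4) x := by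
      rw [hP4]
      funext x
      exact ((dd 4 x).hasDerivAt.const_mul (ρ ^ 4 / 8)).deriv
    have e6' : deriv (deriv P4) = fun x => ρ ^ 4 / 8 * deriv (deriv (chi 4)) x := by
      rw [e6]
      funext x
      exact ((dd' 4 x).hasDerivAt.const_mul (ρ ^ 4 / 8)).deriv
    rw [e1', e1, e2', e2, e3', e3, e4', e4, e5', e5, e6', e6]
    simp only [hQ1, hP2, hP1, hQ2, hP3, hP4]
    rw [cA_apply 1 w, cB_apply 1 w, cA_apply ρ w, cB_apply ρ w]
    set A := w 0 with hA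
    set B := w 1 + om * w 0 with hB
    set x := cA ρ p
    set y := cB ρ p
    have bilin : ∀ (f0 f1 f2 g0 g1 g2 : ℝ), |f0| ≤ K → |f1| ≤ K → |f2| ≤ K → |g0| ≤ K → |g1| ≤ K →
        |g2| ≤ K → |f2 * g0 * A ^ 2 + 2 * (f1 * g1) * (A * B) + f0 * g2 * B ^ 2| ≤
          2 * K ^ 2 * (A ^ 2 + B ^ 2) := by
      intro f0 f1 f2 g0 g1 g2 hf0 hf1 hf2 hg0 hg1 hg2
      have pr : ∀ s t : ℝ, |s| ≤ K → |t| ≤ K → |s * t| ≤ K ^ 2 := by
        intro s t hs ht
        rw [abs_mul, sq]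
        exact mul_le_mul hs ht (abs_nonneg _) hKnn
      have q1 := abs_le.1 (pr _ _ hf2 hg0)
      have q2 := abs_le.1 (pr _ _ hf1 hg1)
      have q3 := abs_le.1 (pr _ _ hf0 hg2)
      have r2 : |2 * (f1 * g1) * (A * B)| ≤ K ^ 2 * (A ^ 2 + B ^ 2) := by
        rw [abs_mul, abs_mul, abs_two]
        have t1 : 2 * |A * B| ≤ A ^ 2 + B ^ 2 := by
          rw [abs_mul, ← sq_abs A, ← sq_abs B]
          nlinarith [sq_nonneg (|A| - |B|)]
        have t2 := pr _ _ hf1 hg1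
        calc 2 * |f1 * g1| * |A * B| = |f1 * g1| * (2 * |A * B|) := by ring
          _ ≤ K ^ 2 * (A ^ 2 + B ^ 2) := mul_le_mul t2 t1 (by positivity) (by positivity)
      have r2' := abs_le.1 r2
      rw [abs_le]
      constructor
      · nlinarith [sq_nonneg A, sq_nonneg B]
      · nlinarith [sq_nonneg A, sq_nonneg B]
    have bK0 : K0 ≤ K := by rw [hK]; linarith
    have bK1 : K1 ≤ K := by rw [hK]; linarith
    have bK2 : K2 ≤ K := by rw [hK]; linarith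
    have bK4 : K4 ≤ K := by rw [hK]; linarith
    have s3 := bilin (chi 2 x) (deriv (chi 2) x) (deriv (deriv (chi 2)) x) (chi 1 y) (deriv (chi 1) y)
      (deriv (deriv (chi 1)) y) ((b20 _).trans bK2) ((b21 _).trans bK2) ((b22 _).trans bK2)
      ((b10 _).trans bK1) ((b11 _).trans bK1) ((b12 _).trans bK1)
    have s4 := bilin (chi 4 x) (deriv (chi 4) x) (deriv (deriv (chi 4)) x) (chi 0 y) (deriv (chi 0) y)
      (deriv (deriv (chi 0)) y) ((b40 _).trans bK4) ((b41 _).trans bK4) ((b42 _).trans bK4)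
      ((b00 _).trans bK0) ((b01 _).trans bK0) ((b02 _).trans bK0)
    set s3v := deriv (deriv (chi 2)) x * chi 1 y * A ^ 2 +
      2 * (deriv (chi 2) x * deriv (chi 1) y) * (A * B) + chi 2 x * deriv (deriv (chi 1)) y * B ^ 2
      with hs3v
    set s4v := deriv (deriv (chi 4)) x * chi 0 y * A ^ 2 +
      2 * (deriv (chi 4) x * deriv (chi 0) y) * (A * B) + chi 4 x * deriv (deriv (chi 0)) y * B ^ 2
      with hs4v
    have hfin : ∀ z : ℝ, z = ρ / 2 * s3v + ρ ^ 2 / 8 * s4v → |z| ≤ 1 / 2 * (A ^ 2 + B ^ 2) := by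
      intro z hz
      rw [hz]
      have hAB : 0 ≤ A ^ 2 + B ^ 2 := by positivity
      have u3 : |ρ / 2 * s3v| ≤ ρ / 2 * (2 * K ^ 2 * (A ^ 2 + B ^ 2)) := by
        rw [abs_mul, abs_of_nonneg (by positivity : 0 ≤ ρ / 2)]
        exact mul_le_mul_of_nonneg_left s3 (by positivity)
      have u4 : |ρ ^ 2 / 8 * s4v| ≤ ρ / 8 * (2 * K ^ 2 * (A ^ 2 + B ^ 2)) := by
        rw [abs_mul, abs_of_nonneg (by positivity : 0 ≤ ρ ^ 2 / 8)]
        apply mul_le_mul _ s4 (abs_nonneg _) (by positivity)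
        have u9 : ρ * ρ ≤ ρ * 1 := mul_le_mul_of_nonneg_left (by linarith) hρpos.le
        rw [sq]
        linarith
      have u5 := abs_add_le (ρ / 2 * s3v) (ρ ^ 2 / 8 * s4v)
      have u6 : 2 * K ^ 2 * ρ * (A ^ 2 + B ^ 2) ≤ 1 / 2 * (A ^ 2 + B ^ 2) :=
        mul_le_mul_of_nonneg_right hρK hAB
      have u7 : 0 ≤ 2 * K ^ 2 * ρ * (A ^ 2 + B ^ 2) := by positivity
      have u8 : ρ / 2 * (2 * K ^ 2 * (A ^ 2 + B ^ 2)) + ρ / 8 * (2 * K ^ 2 * (A ^ 2 + B ^ 2)) =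
          5 / 8 * (2 * K ^ 2 * ρ * (A ^ 2 + B ^ 2)) := by ring
      linarith
    apply hfin
    rw [hs3v, hs4v]
    field_simp
    ring
  have hom := om_sq
  have hompos := om_pos
  have qlow : ∀ w : V, 1 / 4 * dot w w ≤ (w 0) ^ 2 + (w 1 + om * w 0) ^ 2 := by
    intro w
    unfold dot
    nlinarith [sq_nonneg (w 0 + 3 / 4 * om * w 1 ), sq_nonneg (w 0), sq_nonneg (w 1),
      sq_nonneg (3 * w 1 + 4 * om * w 0)]
  have qup : ∀ w : V, (w 0) ^ 2 + (w 1 + om * w 0) ^ 2 ≤ 5 * dot w w := by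
    intro w
    unfold dot
    nlinarith [sq_nonneg (w 1 - om * w 0), sq_nonneg (w 0), sq_nonneg (w 1)]
  refine ⟨1 / 8, 8, ρ / 4, fun p => F1 p + F2 p + F3 p + F4 p, ?_, ?_, ?_, ?_, ?_, ?_, ?_⟩
  · norm_num
  · positivity
  · linarith
  · exact ((cF1.add cF2).add cF3).add cF4
  · intro p w
    have h1 := (abs_le.1 (hD p w)).1
    have h2 := qlow w
    linarith
  · intro p w
    have h1 := (abs_le.1 (hD p w)).2
    have h2 := qup w
    have h3 : 0 ≤ dot w w := by unfold dot; nlinarith [sq_nonneg (w 0), sq_nonneg (w 1)]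
    linarith
  · intro p hp1 hp2
    have t1 : |p 0 / ρ| ≤ 1 := by
      rw [abs_div, abs_of_pos hρpos, div_le_one hρpos]
      linarith
    have t2 : |(p 1 + om * p 0) / ρ| ≤ 1 := by
      rw [abs_div, abs_of_pos hρpos, div_le_one hρpos]
      linarith
    simp only [hF1, hF2, hF3, hF4, hP1, hQ1, hP2, hQ2, hP3, hP4, cA_apply, cB_apply]
    rw [chi_one t1, chi_one t2, chi_one t1, chi_one t2]
    unfold e0
    field_simp
    ring

end Pool.Agent.MP_ff4374_an
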