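import Pool.Agent.MP_ff4374_an.Inv

/-!
MP_ff4374_an, module HJ: leaves of a canonical map as graphs, Hamilton-Jacobi solutions.
-/

set_option autoImplicit false
open MeasureTheory Filter Topology
open scoped ContDiff

namespace Pool.Agent.MP_ff4374_an

namespace HJAux

/-- the point of the leaf over `(X, y)` -/
def pt (c e : ℝ) (z : ℝ × ℝ) : E4 := (z.1, z.2, c, e)

theorem contDiff_pt (c e : ℝ) : ContDiff ℝ ∞ (pt c e) :=
  contDiff_fst.prodMk (contDiff_snd.prodMk (contDiff_const.prodMk contDiff_const))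

theorem hasFDerivAt_pt (c e : ℝ) (z v : ℝ × ℝ) : fderiv ℝ (pt c e) z v = (v.1, v.2, 0, 0) := by
  have h : HasFDerivAt (pt c e) ((ContinuousLinearMap.fst ℝ ℝ ℝ).prod
      ((ContinuousLinearMap.snd ℝ ℝ ℝ).prod ((0 : ℝ × ℝ →L[ℝ] ℝ).prod 0))) z :=
    (ContinuousLinearMap.fst ℝ ℝ ℝ).hasFDerivAt.prodMk
      ((ContinuousLinearMap.snd ℝ ℝ ℝ).hasFDerivAt.prodMk
        ((hasFDerivAt_const c z).prodMk (hasFDerivAt_const e z)))
  rw [h.fderiv]
  rfl

theorem fderiv_comp_pt {f : E4 → ℝ} (hf : ContDiff ℝ ∞ f) (c e : ℝ) (z v : ℝ × ℝ) :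
    fderiv ℝ (fun z => f (pt c e z)) z v = fderiv ℝ f (pt c e z) (v.1, v.2, 0, 0) := by
  have hne : (∞ : WithTop ℕ∞) ≠ 0 := by simp
  have h3 := fderiv_comp z ((hf.differentiable hne) (pt c e z))
    (((contDiff_pt c e).differentiable hne) z)
  have h4 : (fun z => f (pt c e z)) = f ∘ pt c e := rfl
  rw [h4, h3, ContinuousLinearMap.comp_apply, hasFDerivAt_pt]

/-- projections of the plane -/
noncomputable def pr (x : V) : ℝ × ℝ := (x 0, x 1)

theorem contDiff_pr : ContDiff ℝ ∞ pr :=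
  (contDiff_apply ℝ ℝ (0 : Fin 2)).prodMk (contDiff_apply ℝ ℝ (1 : Fin 2))

theorem fderiv_pr (x w : V) : fderiv ℝ pr x w = (w 0, w 1) := by
  have h : HasFDerivAt pr ((ContinuousLinearMap.proj (R := ℝ) (φ := fun _ : Fin 2 => ℝ) 0).prod
      (ContinuousLinearMap.proj (R := ℝ) (φ := fun _ : Fin 2 => ℝ) 1)) x :=
    (ContinuousLinearMap.proj (R := ℝ) (φ := fun _ : Fin 2 => ℝ) 0).hasFDerivAt.prodMk
      (ContinuousLinearMap.proj (R := ℝ) (φ := fun _ : Fin 2 => ℝ) 1).hasFDerivAt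
  rw [h.fderiv]
  rfl

/-- the parametrisation of the leaf by the base point -/
noncomputable def lf (Z : ℝ × ℝ → ℝ) (c e : ℝ) (x : V) : E4 := (Z (x 0, x 1), x 1, c, e)

theorem contDiff_lf {Z : ℝ × ℝ → ℝ} (hZ : ContDiff ℝ ∞ Z) (c e : ℝ) : ContDiff ℝ ∞ (lf Z c e) :=
  (hZ.comp contDiff_pr).prodMk ((contDiff_apply ℝ ℝ (1 : Fin 2)).prodMk
    (contDiff_const.prodMk contDiff_const))

theorem fderiv_lf {Z : ℝ × ℝ → ℝ} (hZ : ContDiff ℝ ∞ Z) (c e : ℝ) (x w : V) :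
    fderiv ℝ (lf Z c e) x w = (fderiv ℝ (fun x : V => Z (x 0, x 1)) x w, w 1, 0, 0) := by
  have hne : (∞ : WithTop ℕ∞) ≠ 0 := by simp
  have hZ' : ContDiff ℝ ∞ (fun x : V => Z (x 0, x 1)) := hZ.comp contDiff_pr
  have h : HasFDerivAt (lf Z c e) ((fderiv ℝ (fun x : V => Z (x 0, x 1)) x).prod
      ((ContinuousLinearMap.proj (R := ℝ) (φ := fun _ : Fin 2 => ℝ) 1).prod
        ((0 : V →L[ℝ] ℝ).prod 0))) x :=
    ((hZ'.differentiable hne) x).hasFDerivAt.prodMk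
      ((ContinuousLinearMap.proj (R := ℝ) (φ := fun _ : Fin 2 => ℝ) 1).hasFDerivAt.prodMk
        ((hasFDerivAt_const c x).prodMk (hasFDerivAt_const e x)))
  rw [h.fderiv]
  rfl

theorem fderiv_comp_lf {f : E4 → ℝ} (hf : ContDiff ℝ ∞ f) {Z : ℝ × ℝ → ℝ} (hZ : ContDiff ℝ ∞ Z)
    (c e : ℝ) (x w : V) : fderiv ℝ (fun x => f (lf Z c e x)) x w =
      fderiv ℝ f (lf Z c e x) (fderiv ℝ (fun x : V => Z (x 0, x 1)) x w, w 1, 0, 0) := by
  have hne : (∞ : WithTop ℕ∞) ≠ 0 := by simp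
  have h3 := fderiv_comp x ((hf.differentiable hne) (lf Z c e x))
    (((contDiff_lf hZ c e).differentiable hne) x)
  have h4 : (fun x => f (lf Z c e x)) = f ∘ lf Z c e := rfl
  rw [h4, h3, ContinuousLinearMap.comp_apply, fderiv_lf hZ]

end HJAux

open HJAux

theorem Trip.hj {r : ℝ} {ψ P S κ : E4 → ℝ} (h : Trip r ψ P S κ) (hg : ∀ m, 0 < dX ψ m) (c e : ℝ) :
    ∃ (u Pf : V → ℝ), ContDiff ℝ ∞ u ∧ ZPer u ∧ ContDiff ℝ ∞ Pf ∧
      (∀ x, fderiv ℝ u x (Pi.single 0 1) = Pf x - c) ∧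
      (∀ x, fderiv ℝ u x (Pi.single 1 1) =
        om * c + c ^ 2 / 2 - (om * Pf x + Pf x ^ 2 / 2 + κ (x 0, x 1, Pf x, e))) ∧
      (∀ X y, Pf ![ψ (X, y, c, e), y] = P (X, y, c, e)) ∧
      (∀ x : V, ∃ X, ψ (X, x 1, c, e) = x 0) := by
  have hne : (∞ : WithTop ℕ∞) ≠ 0 := by simp
  -- the map X ↦ ψ (X, y, c, e)
  have hgs : ContDiff ℝ ∞ (fun z => ψ (pt c e z)) := h.smψ.comp (contDiff_pt c e)
  have hpos : ∀ z : ℝ × ℝ, 0 < fderiv ℝ (fun z => ψ (pt c e z)) z (1, 0) := by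
    intro z
    rw [fderiv_comp_pt h.smψ]
    exact hg _
  have hper : ∀ (X y : ℝ) (i j : ℤ), ψ (X + i, y + j, c, e) = ψ (X, y, c, e) + i :=
    fun X y i j => h.perψ (X, y, c, e) i j
  have hsurj : ∀ (y : ℝ) (p : ℝ), ∃ X, (fun z => ψ (pt c e z)) (X, y) = p := by
    intro y p
    have hcont : Continuous (fun X : ℝ => ψ (X, y, c, e)) :=
      h.smψ.continuous.comp (by fun_prop)
    set n : ℤ := ⌈|p - ψ (0, y, c, e)|⌉ with hn
    have hn1 : |p - ψ (0, y, c, e)| ≤ n := Int.le_ceil _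
    have h1 : ψ ((n : ℝ), y, c, e) = ψ (0, y, c, e) + n := by
      have := hper 0 y n 0
      simpa using this
    have h2 : ψ (-(n : ℝ), y, c, e) = ψ (0, y, c, e) - n := by
      have := hper 0 y (-n) 0
      simpa [sub_eq_add_neg] using this
    have hn0 : (0 : ℝ) ≤ n := le_trans (abs_nonneg _) hn1
    have hmem : p ∈ Set.Icc ((fun X : ℝ => ψ (X, y, c, e)) (-(n : ℝ)))
        ((fun X : ℝ => ψ (X, y, c, e)) (n : ℝ)) := by
      simp only [h1, h2, Set.mem_Icc]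
      rw [abs_le] at hn1
      constructor <;> linarith [hn1.1, hn1.2]
    obtain ⟨X, _, hX⟩ := intermediate_value_Icc (by linarith : -(n : ℝ) ≤ n) hcont.continuousOn hmem
    exact ⟨X, hX⟩
  obtain ⟨Z, hZ, hZ1, hZ2⟩ := inv1 hne (fun z => ψ (pt c e z)) hgs hpos hsurj
  have hZ1' : ∀ p y, ψ (Z (p, y), y, c, e) = p := hZ1
  have hZ2' : ∀ X y, Z (ψ (X, y, c, e), y) = X := hZ2
  have hZper : ∀ (p y : ℝ) (i j : ℤ), Z (p + i, y + j) = Z (p, y) + i := by
    intro p y i j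
    have e1 := hper (Z (p, y)) y i j
    rw [hZ1'] at e1
    rw [← e1, hZ2']
  have hu : ContDiff ℝ ∞ (fun x : V => S (lf Z c e x) + c * (Z (x 0, x 1) - x 0)) :=
    (h.smS.comp (contDiff_lf hZ c e)).add (contDiff_const.mul
      ((hZ.comp contDiff_pr).sub (contDiff_apply ℝ ℝ (0 : Fin 2))))
  have hψlf : ∀ x : V, ψ (lf Z c e x) = x 0 := fun x => hZ1' (x 0) (x 1)
  have hder : ∀ x w : V, fderiv ℝ (fun x : V => S (lf Z c e x) + c * (Z (x 0, x 1) - x 0)) x w =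
      (P (lf Z c e x) - c) * w 0 + (om * c + c ^ 2 / 2 - (om * P (lf Z c e x) +
        P (lf Z c e x) ^ 2 / 2 + κ (x 0, x 1, P (lf Z c e x), e))) * w 1 := by
    intro x w
    have hZ' : ContDiff ℝ ∞ (fun x : V => Z (x 0, x 1)) := hZ.comp contDiff_pr
    have d1 : HasFDerivAt (fun x : V => S (lf Z c e x))
        (fderiv ℝ (fun x : V => S (lf Z c e x)) x) x :=
      (((h.smS.comp (contDiff_lf hZ c e)).differentiable hne) x).hasFDerivAt
    have d2 : HasFDerivAt (fun x : V => Z (x 0, x 1)) (fderiv ℝ (fun x : V => Z (x 0, x 1)) x) x :=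
      ((hZ'.differentiable hne) x).hasFDerivAt
    have d3 : HasFDerivAt (fun x : V => x 0)
        (ContinuousLinearMap.proj (R := ℝ) (φ := fun _ : Fin 2 => ℝ) 0) x :=
      (ContinuousLinearMap.proj (R := ℝ) (φ := fun _ : Fin 2 => ℝ) 0).hasFDerivAt
    have d4 := d1.add ((d2.sub d3).const_mul c)
    have d5 : fderiv ℝ (fun x : V => S (lf Z c e x) + c * (Z (x 0, x 1) - x 0)) x w =
        fderiv ℝ (fun x : V => S (lf Z c e x)) x w +
          c * (fderiv ℝ (fun x : V => Z (x 0, x 1)) x w - w 0) := by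
      have := d4.fderiv
      have e1 : (fun x : V => S (lf Z c e x) + c * (Z (x 0, x 1) - x 0)) =
          ((fun x : V => S (lf Z c e x)) + fun y => c * ((fun x : V => Z (x 0, x 1)) - fun x : V => x 0) y) :=
        rfl
      rw [e1, this]
      simp
    -- derivative of ψ ∘ lf
    have d6 : fderiv ℝ (fun x => ψ (lf Z c e x)) x w = w 0 := by
      have : (fun x => ψ (lf Z c e x)) = fun x : V => x 0 := funext hψlf
      rw [this, d3.fderiv]
      rfl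
    rw [fderiv_comp_lf h.smψ hZ] at d6
    rw [d5, fderiv_comp_lf h.smS hZ, h.form _ _ rfl, d6, hψlf x]
    simp only [lf]
    ring
  refine ⟨fun x : V => S (lf Z c e x) + c * (Z (x 0, x 1) - x 0), fun x => P (lf Z c e x), hu, ?_,
    h.smP.comp (contDiff_lf hZ c e), ?_, ?_, ?_, ?_⟩
  · intro x k
    have e1 : lf Z c e (x + fun i => (k i : ℝ)) =
        ((lf Z c e x).1 + (k 0 : ℤ), (lf Z c e x).2.1 + (k 1 : ℤ), (lf Z c e x).2.2.1,
          (lf Z c e x).2.2.2) := by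
      unfold lf
      simp only [Pi.add_apply]
      rw [hZper]
    simp only [e1]
    rw [h.perS]
    simp only [Pi.add_apply]
    rw [hZper]
    ring
  · intro x
    rw [hder]
    simp
  · intro x
    rw [hder]
    simp
  · intro X y
    simp only [lf, Matrix.cons_val_zero, Matrix.cons_val_one]
    rw [hZ2']
  · intro x
    exact ⟨Z (x 0, x 1), hZ1' (x 0) (x 1)⟩

end Pool.Agent.MP_ff4374_an
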