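import Pool.Agent.MP_ff4374_an.MkConv
import Pool.Agent.MP_ff4374_an.HJ
import Pool.Agent.MP_ff4374_an.Graph

/-! # Module Leaf: Hamilton-Jacobi solutions and invariant measures of the perturbed system -/

set_option autoImplicit false
open MeasureTheory Filter Topology
open scoped ContDiff

namespace Pool.Agent.MP_ff4374_an

namespace LeafAux

/-- the unit cell -/
def cell : Set (ℝ × ℝ) := Set.Ioc (0:ℝ) 1 ×ˢ Set.Ioc (0:ℝ) 1

theorem cell_integrable {g : ℝ × ℝ → ℝ} (hg : Continuous g) : IntegrableOn g cell volume := by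
  have h1 : IntegrableOn g (Set.Icc (0:ℝ) 1 ×ˢ Set.Icc (0:ℝ) 1) volume :=
    hg.continuousOn.integrableOn_compact (isCompact_Icc.prod isCompact_Icc)
  exact h1.mono_set (Set.prod_mono Set.Ioc_subset_Icc_self Set.Ioc_subset_Icc_self)

theorem cell_y {f : ℝ × ℝ → ℝ} (hf : ContDiff ℝ 1 f) (hp : ∀ (z : ℝ × ℝ) (i j : ℤ),
    f (z.1 + i, z.2 + j) = f z) :
    ∫ z in cell, fderiv ℝ f z (0, 1) = 0 := by
  have hc : Continuous (fun z => fderiv ℝ f z (0, 1)) :=
    (hf.continuous_fderiv (by norm_num)).clm_apply continuous_const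
  have h1 := setIntegral_prod (μ := (volume : Measure ℝ)) (ν := (volume : Measure ℝ))
    (fun z : ℝ × ℝ => fderiv ℝ f z (0, 1)) (s := Set.Ioc (0:ℝ) 1) (t := Set.Ioc (0:ℝ) 1)
    (cell_integrable hc)
  rw [← Measure.volume_eq_prod] at h1
  unfold cell
  rw [h1]
  have h2 : ∀ x : ℝ, ∫ y in Set.Ioc (0:ℝ) 1, fderiv ℝ f (x, y) (0, 1) = 0 := by
    intro x
    rw [← intervalIntegral.integral_of_le (by norm_num : (0:ℝ) ≤ 1)]
    have h3 : ∀ y ∈ Set.uIcc (0:ℝ) 1, HasDerivAt (fun y' => f (x, y')) (fderiv ℝ f (x, y) (0, 1)) y := by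
      intro y _
      have h4 : HasDerivAt (fun y' : ℝ => ((x, y') : ℝ × ℝ)) (0, 1) y :=
        (hasDerivAt_const y x).prodMk (hasDerivAt_id y)
      exact ((hf.differentiable (by norm_num)) (x, y)).hasFDerivAt.comp_hasDerivAt y h4
    have hc2 : Continuous (fun y : ℝ => fderiv ℝ f (x, y) (0, 1)) := hc.comp (by fun_prop)
    rw [intervalIntegral.integral_eq_sub_of_hasDerivAt h3 (hc2.intervalIntegrable _ _)]
    have h5 := hp (x, 0) 0 1
    simp only [Int.cast_zero, add_zero, Int.cast_one, zero_add] at h5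
    rw [h5, sub_self]
  simp [h2]

theorem cell_x {f : ℝ × ℝ → ℝ} (hf : ContDiff ℝ 1 f) (hp : ∀ (z : ℝ × ℝ) (i j : ℤ),
    f (z.1 + i, z.2 + j) = f z) :
    ∫ z in cell, fderiv ℝ f z (1, 0) = 0 := by
  have hs : ContDiff ℝ 1 (fun z : ℝ × ℝ => f z.swap) := hf.comp (by
    show ContDiff ℝ 1 (fun z : ℝ × ℝ => (z.2, z.1))
    fun_prop)
  have h1 := cell_y hs (fun z i j => hp (z.2, z.1) j i)
  have h2 := setIntegral_prod_swap (μ := (volume : Measure ℝ)) (ν := (volume : Measure ℝ))
    (Set.Ioc (0:ℝ) 1) (Set.Ioc (0:ℝ) 1) (fun z : ℝ × ℝ => fderiv ℝ f z (1, 0))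
  rw [← Measure.volume_eq_prod] at h2
  unfold cell
  rw [← h2]
  unfold cell at h1
  refine Eq.trans ?_ h1
  congr 1
  funext z
  have h3 : HasFDerivAt (fun z : ℝ × ℝ => (z.2, z.1))
      ((ContinuousLinearMap.snd ℝ ℝ ℝ).prod (ContinuousLinearMap.fst ℝ ℝ ℝ)) z :=
    (ContinuousLinearMap.snd ℝ ℝ ℝ).hasFDerivAt.prodMk (ContinuousLinearMap.fst ℝ ℝ ℝ).hasFDerivAt
  have h4 : HasFDerivAt (fun z : ℝ × ℝ => f z.swap)
      ((fderiv ℝ f z.swap).comp ((ContinuousLinearMap.snd ℝ ℝ ℝ).prod (ContinuousLinearMap.fst ℝ ℝ ℝ))) z :=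
    ((hf.differentiable (by norm_num)) z.swap).hasFDerivAt.comp z h3
  rw [h4.fderiv]
  rfl

end LeafAux

theorem cell_closed {f : ℝ × ℝ → ℝ} (hf : ContDiff ℝ 1 f) (hp : ∀ (z : ℝ × ℝ) (i j : ℤ),
    f (z.1 + i, z.2 + j) = f z) (v : ℝ × ℝ) :
    ∫ z in Set.Ioc (0:ℝ) 1 ×ˢ Set.Ioc (0:ℝ) 1, fderiv ℝ f z v = 0 := by
  have h1 := LeafAux.cell_x hf hp
  have h2 := LeafAux.cell_y hf hp
  have hc : ∀ w : ℝ × ℝ, Continuous (fun z => fderiv ℝ f z w) := fun w =>
    (hf.continuous_fderiv (by norm_num)).clm_apply continuous_const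
  have e : (fun z => fderiv ℝ f z v) = fun z => v.1 * fderiv ℝ f z (1, 0) + v.2 * fderiv ℝ f z (0, 1) := by
    funext z
    have : v = v.1 • ((1, 0) : ℝ × ℝ) + v.2 • ((0, 1) : ℝ × ℝ) := by
      ext <;> simp
    conv_lhs => rw [this]
    rw [map_add, map_smul, map_smul]
    simp
  rw [e]
  unfold LeafAux.cell at h1 h2
  have i1 := LeafAux.cell_integrable (hc (1, 0))
  have i2 := LeafAux.cell_integrable (hc (0, 1))
  unfold LeafAux.cell at i1 i2
  rw [integral_add (i1.const_mul _) (i2.const_mul _), integral_const_mul, integral_const_mul, h1, h2]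
  simp

namespace LeafAux

theorem cell_volume : (volume : Measure (ℝ × ℝ)) cell = 1 := by
  unfold cell
  rw [Measure.volume_eq_prod, Measure.prod_prod]
  simp

/-- a weighted image of Lebesgue measure on the cell -/
theorem exists_nu {F : ℝ × ℝ → V} (hF : ContDiff ℝ 1 F)
    (hFp : ∀ (z : ℝ × ℝ) (i j : ℤ), F (z.1 + i, z.2 + j) = F z + fun l => ((![i, j] l : ℤ) : ℝ))
    {ρ : ℝ × ℝ → ℝ} (hρ : Continuous ρ) (hρ0 : ∀ z, 0 < ρ z) {Vf : V → V} (hV : Continuous Vf)
    {w : ℝ × ℝ} (h : ∀ z, ρ z • Vf (F z) = fderiv ℝ F z w) :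
    ∃ ν : Measure V, IsProbabilityMeasure ν ∧ ∀ φ : V → ℝ, ContDiff ℝ 1 φ → ZPer φ →
      ∫ x, fderiv ℝ φ x (Vf x) ∂ν = 0 := by
  set μ0 : Measure (ℝ × ℝ) := volume.restrict cell with hμ0
  have hμp : IsProbabilityMeasure μ0 := ⟨by
    rw [hμ0, Measure.restrict_apply_univ, cell_volume]⟩
  have hint : Integrable ρ μ0 := cell_integrable hρ
  set Zn : ℝ := ∫ z, ρ z ∂μ0 with hZn
  have hZpos : 0 < Zn := by
    rw [hZn]
    rw [integral_pos_iff_support_of_nonneg (fun z => (hρ0 z).le) hint]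
    have : Function.support ρ = Set.univ := by
      ext z
      simp [(hρ0 z).ne']
    rw [this]
    simp
  let dn : ℝ × ℝ → ENNReal := fun z => ENNReal.ofReal (ρ z / Zn)
  have hdn : Measurable dn := (hρ.div_const Zn).measurable.ennreal_ofReal
  set μ1 : Measure (ℝ × ℝ) := μ0.withDensity dn with hμ1
  have hp1 : IsProbabilityMeasure μ1 := ⟨by
    rw [hμ1, withDensity_apply _ MeasurableSet.univ, Measure.restrict_univ]
    rw [← ofReal_integral_eq_lintegral_ofReal (hint.div_const Zn)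
      (ae_of_all _ (fun z => (div_pos (hρ0 z) hZpos).le))]
    rw [integral_div, ← hZn, div_self hZpos.ne']
    simp⟩
  have hFm : Measurable F := hF.continuous.measurable
  refine ⟨μ1.map F, Measure.isProbabilityMeasure_map hFm.aemeasurable, ?_⟩
  intro φ hφ hφp
  have hg : Continuous (fun x => fderiv ℝ φ x (Vf x)) :=
    (hφ.continuous_fderiv (by norm_num)).clm_apply hV
  rw [integral_map hFm.aemeasurable hg.aestronglyMeasurable]
  rw [hμ1, integral_withDensity_eq_integral_toReal_smul hdn (ae_of_all _ (fun z => ENNReal.ofReal_lt_top))]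
  have e : ∀ z, (dn z).toReal • fderiv ℝ φ (F z) (Vf (F z)) = Zn⁻¹ * fderiv ℝ (fun z => φ (F z)) z w := by
    intro z
    have h1 : HasFDerivAt (fun z => φ (F z)) ((fderiv ℝ φ (F z)).comp (fderiv ℝ F z)) z :=
      ((hφ.differentiable (by norm_num)) (F z)).hasFDerivAt.comp z
        ((hF.differentiable (by norm_num)) z).hasFDerivAt
    rw [h1.fderiv]
    rw [ContinuousLinearMap.comp_apply, ← h z, map_smul, smul_eq_mul, smul_eq_mul]
    show (ENNReal.ofReal (ρ z / Zn)).toReal * _ = _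
    rw [ENNReal.toReal_ofReal (div_pos (hρ0 z) hZpos).le]
    ring
  simp only [e]
  rw [integral_const_mul]
  have hcl := cell_closed (f := fun z => φ (F z)) (hφ.comp hF) (by
    intro z i j
    show φ (F (z.1 + i, z.2 + j)) = φ (F z)
    rw [hFp z i j]
    exact hφp _ ![i, j]) w
  rw [hμ0]
  unfold cell
  rw [hcl, mul_zero]

/-- gradient of `H0` in the region where it is `e0^2/2` -/
theorem grad_near {m M r : ℝ} {H0 : V → ℝ} (h0 : IsH0 m M r H0) {p : V} (h1 : |p 0| < 4 * r)
    (h2 : |p 1 + om * p 0| < 4 * r) : grad H0 p 0 = e0 p * (om + p 0) ∧ grad H0 p 1 = e0 p := by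
  have hd : Differentiable ℝ H0 := h0.sm.differentiable (by simp)
  have hloc : H0 =ᶠ[𝓝 p] fun p' => e0 p' ^ 2 / 2 := by
    have c1 : Continuous (fun p' : V => |p' 0|) := by fun_prop
    have c2 : Continuous (fun p' : V => |p' 1 + om * p' 0|) := by fun_prop
    filter_upwards [(c1.tendsto p).eventually (gt_mem_nhds h1), (c2.tendsto p).eventually (gt_mem_nhds h2)]
      with p' hp1 hp2
    exact h0.near p' hp1 hp2
  have key : ∀ w : V, fderiv ℝ H0 p w = e0 p * ((om + p 0) * w 0 + w 1) := by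
    intro w
    have hl : HasDerivAt (fun s : ℝ => p + s • w) w 0 := by
      have := ((hasDerivAt_id (0:ℝ)).smul_const w).const_add p
      simpa using this
    have a1 : HasDerivAt (fun s : ℝ => H0 (p + s • w)) (fderiv ℝ H0 p w) 0 := by
      have : HasFDerivAt H0 (fderiv ℝ H0 p) (p + (0:ℝ) • w) := by
        simpa using (hd p).hasFDerivAt
      exact HasFDerivAt.comp_hasDerivAt (l := H0) 0 this hl
    have a2 : HasDerivAt (fun s : ℝ => e0 (p + s • w) ^ 2 / 2) (e0 p * ((om + p 0) * w 0 + w 1)) 0 := by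
      have b := ((MkHAux.e0_hasDerivAt p w 0).pow 2).div_const 2
      refine b.congr_deriv ?_
      simp
      ring
    have hev : (fun s : ℝ => H0 (p + s • w)) =ᶠ[𝓝 0] fun s => e0 (p + s • w) ^ 2 / 2 := by
      have hcont : Tendsto (fun s : ℝ => p + s • w) (𝓝 0) (𝓝 p) := by
        have := hl.continuousAt.tendsto
        simpa using this
      exact hcont.eventually hloc
    exact (a1.congr_of_eventuallyEq hev.symm).unique a2
  constructor
  · show fderiv ℝ H0 p (Pi.single 0 1) = _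
    rw [key]; simp
  · show fderiv ℝ H0 p (Pi.single 1 1) = _
    rw [key]; simp

end LeafAux

open LeafAux in
theorem leaf {m M r δ : ℝ} {H0 : V → ℝ} {ψ P S κ : E4 → ℝ} (h0 : IsH0 m M r H0)
    (hT : Trip r ψ P S κ) (hg : ∀ m, 0 < dX ψ m) (hK : KB δ r κ) (hδ : δ ≤ 1 / 2) (hδr : δ ≤ r)
    (flat : ∀ m : E4, |m.2.2.2 - 1| < r / 2 → dE κ m = 0) (c : V) :
    ∃ u : V → ℝ, ContDiff ℝ 1 u ∧ ZPer u ∧ (∀ x, mkH H0 κ (x, c + grad u x) = H0 c) ∧
      (∃ ν : Measure V, IsProbabilityMeasure ν ∧ ∀ φ : V → ℝ, ContDiff ℝ 1 φ → ZPer φ →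
        ∫ x, fderiv ℝ φ x (gradP (mkH H0 κ) x (c + grad u x)) ∂ν = 0) ∧
      (c = 0 → ∀ X y, gradP (mkH H0 κ) ![ψ (X, y, 0, 1), y] (grad u ![ψ (X, y, 0, 1), y]) =
        ![dT ψ (X, y, 0, 1) + om * dX ψ (X, y, 0, 1), 1]) ∧
      (∀ x : V, ∃ X, ψ (X, x 1, 0, 1) = x 0) := by
  have hr := h0.rpos
  have hr8 := h0.rle
  set e : ℝ := e0 c with he
  obtain ⟨u, Pf, hu, hup, hPf, hu0, hu1, hPψ, hsurj⟩ := hT.hj hg (c 0) e
  obtain ⟨_, _, _, _, _, _, _, _, hsurj0⟩ := hT.hj hg 0 1
  -- the momentum on the leaf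
  have hp0 : ∀ x, (c + grad u x) 0 = Pf x := by
    intro x
    show c 0 + fderiv ℝ u x (Pi.single 0 1) = Pf x
    rw [hu0]; ring
  have hp1 : ∀ x, (c + grad u x) 1 = c 1 + (om * c 0 + c 0 ^ 2 / 2 -
      (om * Pf x + Pf x ^ 2 / 2 + κ (x 0, x 1, Pf x, e))) := by
    intro x
    show c 1 + fderiv ℝ u x (Pi.single 1 1) = _
    rw [hu1]
  have he0 : ∀ x, e0 (c + grad u x) = e - κ (x 0, x 1, Pf x, e) := by
    intro x
    unfold e0
    rw [hp0, hp1, he]
    unfold e0
    ring
  have hee : ∀ x, ee κ x (c + grad u x) = e := by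
    intro x
    apply ee_unique hK hδ
    rw [hp0, he0]
  have hecont : e = 1 + c 1 + om * c 0 + c 0 ^ 2 / 2 := by rw [he]; rfl
  -- the alternative
  have hB : (r ≤ |c 0| ∨ r ≤ |e - 1|) → ∀ x, Pf x = c 0 ∧ grad u x = 0 ∧ κ (x 0, x 1, c 0, e) = 0 := by
    intro hc x
    have h1 := hT.triv (x 0, x 1, c 0, e) hc
    have h2 := hPψ (x 0) (x 1)
    rw [h1.1, h1.2.1] at h2
    have h3 : (![x 0, x 1] : V) = x := by
      ext i; fin_cases i <;> rfl
    simp only at h2
    rw [h3] at h2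
    refine ⟨h2, ?_, h1.2.2.2⟩
    ext i
    fin_cases i
    · show fderiv ℝ u x (Pi.single 0 1) = 0
      rw [hu0, h2]; ring
    · show fderiv ℝ u x (Pi.single 1 1) = 0
      have h4 : κ (x 0, x 1, c 0, e) = 0 := h1.2.2.2
      rw [hu1, h2, h4]; ring
  have hA : |c 0| < r → |e - 1| < r → ∀ x, |(c + grad u x) 0| < 4 * r ∧
      |(c + grad u x) 1 + om * (c + grad u x) 0| < 4 * r := by
    intro h1 h2 x
    obtain ⟨X, hX⟩ := hsurj x
    have h3 : Pf x = P (X, x 1, c 0, e) := by
      have := hPψ X (x 1)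
      rw [hX] at this
      have h4 : (![x 0, x 1] : V) = x := by
        ext i; fin_cases i <;> rfl
      rw [h4] at this
      exact this
    have h4 : |Pf x| ≤ r := by
      rw [h3]
      exact hT.bd _ h1.le
    have h5 := hK.b0 (x 0, x 1, Pf x, e)
    have h6 : Pf x ^ 2 ≤ r ^ 2 := sq_le_sq' (by linarith [(abs_le.mp h4).1]) (abs_le.mp h4).2
    constructor
    · rw [hp0]; linarith
    · rw [hp0, hp1]
      have h7 : c 1 + (om * c 0 + c 0 ^ 2 / 2 - (om * Pf x + Pf x ^ 2 / 2 + κ (x 0, x 1, Pf x, e)))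
          + om * Pf x = (e - 1) - κ (x 0, x 1, Pf x, e) - Pf x ^ 2 / 2 := by
        rw [hecont]; ring
      rw [h7, abs_lt]
      obtain ⟨a1, a2⟩ := abs_lt.mp h2
      obtain ⟨b1, b2⟩ := abs_le.mp h5
      have h8 : 0 ≤ Pf x ^ 2 := sq_nonneg _
      constructor <;> nlinarith
  have hAc : |c 0| < r → |e - 1| < r → H0 c = e ^ 2 / 2 := by
    intro h1 h2
    rw [he]
    apply h0.near c (by linarith)
    have h7 : c 1 + om * c 0 = (e - 1) - c 0 ^ 2 / 2 := by rw [hecont]; ring
    rw [h7, abs_lt]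
    obtain ⟨a1, a2⟩ := abs_lt.mp h2
    have h6 : c 0 ^ 2 ≤ r ^ 2 := sq_le_sq' (by linarith [(abs_lt.mp h1).1]) (abs_lt.mp h1).2.le
    have h8 : 0 ≤ c 0 ^ 2 := sq_nonneg _
    constructor <;> nlinarith
  have hgA : |c 0| < r → |e - 1| < r → ∀ x,
      gradP (mkH H0 κ) x (c + grad u x) 0 =
        e * ((om + Pf x + dP κ (x 0, x 1, Pf x, e)) / (1 - dE κ (x 0, x 1, Pf x, e))) ∧
      gradP (mkH H0 κ) x (c + grad u x) 1 = e * (1 / (1 - dE κ (x 0, x 1, Pf x, e))) := by
    intro h1 h2 x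
    obtain ⟨a1, a2⟩ := hA h1 h2 x
    obtain ⟨b1, b2⟩ := grad_near h0 a1 a2
    obtain ⟨c1, c2⟩ := mkH_grad h0 hK hδ x (c + grad u x)
    rw [c1, c2, b1, b2, hee, hp0]
    constructor <;> ring
  refine ⟨u, hu.of_le (by simp), hup, ?_, ?_, ?_, hsurj0⟩
  · intro x
    by_cases hc : r ≤ |c 0| ∨ r ≤ |e - 1|
    · obtain ⟨h1, h2, h3⟩ := hB hc x
      have h4 := hee x
      rw [h2, add_zero] at h4 ⊢
      show H0 c + ee κ x c ^ 2 / 2 - e0 c ^ 2 / 2 = H0 c
      rw [h4, ← he]; ring
    · push Not at hc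
      obtain ⟨a1, a2⟩ := hA hc.1 hc.2 x
      show H0 (c + grad u x) + ee κ x (c + grad u x) ^ 2 / 2 - e0 (c + grad u x) ^ 2 / 2 = H0 c
      rw [h0.near _ a1 a2, hee, hAc hc.1 hc.2]; ring
  · -- the invariant measure
    by_cases hc : r ≤ |c 0| ∨ r ≤ |e - 1|
    · have hconst : ∀ x, gradP (mkH H0 κ) x (c + grad u x) = grad H0 c := by
        intro x
        obtain ⟨h1, h2, h3⟩ := hB hc x
        have h4 := hee x
        rw [h2, add_zero] at h4 ⊢
        obtain ⟨c1, c2⟩ := mkH_grad h0 hK hδ x c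
        have h5 : fderiv ℝ κ (x 0, x 1, c 0, e) = 0 := MkConvAux.fderiv_zero hr hK hc
        have h6 : dP κ (x 0, x 1, c 0, e) = 0 := by unfold dP; rw [h5]; rfl
        have h7 : dE κ (x 0, x 1, c 0, e) = 0 := by unfold dE; rw [h5]; rfl
        rw [h4, h6, h7, ← he] at c1
        rw [h4, h7, ← he] at c2
        ext i
        fin_cases i
        · show gradP (mkH H0 κ) x c 0 = grad H0 c 0
          rw [c1]; ring
        · show gradP (mkH H0 κ) x c 1 = grad H0 c 1
          rw [c2]; ring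
      simp only [hconst]
      have hF : ContDiff ℝ 1 (fun z : ℝ × ℝ => (![z.1, z.2] : V)) := by
        rw [contDiff_pi]
        intro i
        fin_cases i
        · exact contDiff_fst
        · exact contDiff_snd
      have hF' : ∀ z w : ℝ × ℝ, fderiv ℝ (fun z : ℝ × ℝ => (![z.1, z.2] : V)) z w = ![w.1, w.2] := by
        intro z w
        have h1 : HasFDerivAt (fun z : ℝ × ℝ => (![z.1, z.2] : V))
            (ContinuousLinearMap.pi (fun i : Fin 2 => (![ContinuousLinearMap.fst ℝ ℝ ℝ,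
              ContinuousLinearMap.snd ℝ ℝ ℝ] : Fin 2 → (ℝ × ℝ →L[ℝ] ℝ)) i)) z := by
          rw [hasFDerivAt_pi]
          intro i
          fin_cases i
          · exact (ContinuousLinearMap.fst ℝ ℝ ℝ).hasFDerivAt
          · exact (ContinuousLinearMap.snd ℝ ℝ ℝ).hasFDerivAt
        rw [h1.fderiv]
        ext i
        fin_cases i <;> rfl
      refine exists_nu (F := fun z : ℝ × ℝ => (![z.1, z.2] : V)) hF ?_ (ρ := fun _ => 1)
        continuous_const (fun _ => one_pos) (Vf := fun _ => grad H0 c) continuous_const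
        (w := (grad H0 c 0, grad H0 c 1)) ?_
      · intro z i j
        ext l
        fin_cases l <;> simp
      · intro z
        rw [hF' z, one_smul]
        ext i
        fin_cases i <;> rfl
    · push Not at hc
      have hV : Continuous (fun x => gradP (mkH H0 κ) x (c + grad u x)) := by
        have hq : Continuous (fun x : V => ((x 0, x 1, Pf x, e) : E4)) := by
          have := hPf.continuous
          fun_prop
        have hκc : Continuous (fderiv ℝ κ) := hK.c2.continuous_fderiv (by norm_num)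
        have hdP : Continuous (fun x : V => dP κ (x 0, x 1, Pf x, e)) := by
          unfold dP
          exact (hκc.comp hq).clm_apply continuous_const
        have hdE : Continuous (fun x : V => dE κ (x 0, x 1, Pf x, e)) := by
          unfold dE
          exact (hκc.comp hq).clm_apply continuous_const
        have hne : ∀ x : V, 1 - dE κ (x 0, x 1, Pf x, e) ≠ 0 := fun x =>
          (by have := MkHAux.one_sub_pos hK hδ (x 0, x 1, Pf x, e); linarith :
            (0:ℝ) < 1 - dE κ (x 0, x 1, Pf x, e)).ne'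
        have hPc := hPf.continuous
        rw [continuous_pi_iff]
        intro i
        fin_cases i
        · have : (fun x => gradP (mkH H0 κ) x (c + grad u x) 0) = fun x =>
              e * ((om + Pf x + dP κ (x 0, x 1, Pf x, e)) / (1 - dE κ (x 0, x 1, Pf x, e))) :=
            funext fun x => (hgA hc.1 hc.2 x).1
          show Continuous (fun x => gradP (mkH H0 κ) x (c + grad u x) 0)
          rw [this]
          exact continuous_const.mul (((continuous_const.add hPc).add hdP).div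
            (continuous_const.sub hdE) hne)
        · have : (fun x => gradP (mkH H0 κ) x (c + grad u x) 1) = fun x =>
              e * (1 / (1 - dE κ (x 0, x 1, Pf x, e))) :=
            funext fun x => (hgA hc.1 hc.2 x).2
          show Continuous (fun x => gradP (mkH H0 κ) x (c + grad u x) 1)
          rw [this]
          exact continuous_const.mul (continuous_const.div (continuous_const.sub hdE) hne)
      have hepos : 0 < e := by
        have := (abs_lt.mp hc.2).1
        linarith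
      -- the parametrisation
      have hψ1 : ContDiff ℝ 1 (fun z : ℝ × ℝ => ψ (z.1, z.2, c 0, e)) :=
        (hT.smψ.of_le (by simp)).comp (by fun_prop)
      have hF : ContDiff ℝ 1 (fun z : ℝ × ℝ => (![ψ (z.1, z.2, c 0, e), z.2] : V)) := by
        rw [contDiff_pi]
        intro i
        fin_cases i
        · exact hψ1
        · exact contDiff_snd
      have hF' : ∀ z w : ℝ × ℝ, fderiv ℝ (fun z : ℝ × ℝ => (![ψ (z.1, z.2, c 0, e), z.2] : V)) z w =
          ![w.1 * dX ψ (z.1, z.2, c 0, e) + w.2 * dT ψ (z.1, z.2, c 0, e), w.2] := by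
        intro z w
        have h1 : HasFDerivAt (fun z : ℝ × ℝ => (![ψ (z.1, z.2, c 0, e), z.2] : V))
            (ContinuousLinearMap.pi (fun i : Fin 2 =>
              (![fderiv ℝ (fun z : ℝ × ℝ => ψ (z.1, z.2, c 0, e)) z,
              ContinuousLinearMap.snd ℝ ℝ ℝ] : Fin 2 → (ℝ × ℝ →L[ℝ] ℝ)) i)) z := by
          rw [hasFDerivAt_pi]
          intro i
          fin_cases i
          · exact ((hψ1.differentiable (by norm_num)) z).hasFDerivAt
          · exact (ContinuousLinearMap.snd ℝ ℝ ℝ).hasFDerivAt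
        rw [h1.fderiv]
        ext i
        fin_cases i
        · show fderiv ℝ (fun z : ℝ × ℝ => ψ (z.1, z.2, c 0, e)) z w =
            w.1 * dX ψ (z.1, z.2, c 0, e) + w.2 * dT ψ (z.1, z.2, c 0, e)
          have h2 := HJAux.fderiv_comp_pt hT.smψ (c 0) e z w
          have h3 : (fun z : ℝ × ℝ => ψ (HJAux.pt (c 0) e z)) = fun z => ψ (z.1, z.2, c 0, e) := rfl
          rw [h3] at h2
          rw [h2]
          have h4 : ((w.1, w.2, 0, 0) : E4) = w.1 • ((1, 0, 0, 0) : E4) + w.2 • ((0, 1, 0, 0) : E4) := by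
            simp
          rw [h4, map_add, map_smul, map_smul]
          rfl
        · rfl
      have hPz : ∀ z : ℝ × ℝ, Pf ![ψ (z.1, z.2, c 0, e), z.2] = P (z.1, z.2, c 0, e) := fun z =>
        hPψ z.1 z.2
      refine exists_nu (F := fun z : ℝ × ℝ => (![ψ (z.1, z.2, c 0, e), z.2] : V)) hF ?_
        (ρ := fun z => (1 - dE κ (ψ (z.1, z.2, c 0, e), z.2, P (z.1, z.2, c 0, e), e)) / e) ?_ ?_
        hV (w := (om + c 0, 1)) ?_
      · intro z i j
        have h1 := hT.perψ (z.1, z.2, c 0, e) i j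
        simp only at h1
        ext l
        fin_cases l
        · simp [h1]
        · simp
      · have hκc : Continuous (fderiv ℝ κ) := hK.c2.continuous_fderiv (by norm_num)
        have hψc := hT.smψ.continuous
        have hPc := hT.smP.continuous
        have hq : Continuous (fun z : ℝ × ℝ =>
            ((ψ (z.1, z.2, c 0, e), z.2, P (z.1, z.2, c 0, e), e) : E4)) := by fun_prop
        have hdE : Continuous (fun z : ℝ × ℝ =>
            dE κ (ψ (z.1, z.2, c 0, e), z.2, P (z.1, z.2, c 0, e), e)) := by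
          unfold dE
          exact (hκc.comp hq).clm_apply continuous_const
        exact (continuous_const.sub hdE).div_const e
      · intro z
        have := MkHAux.one_sub_pos hK hδ (ψ (z.1, z.2, c 0, e), z.2, P (z.1, z.2, c 0, e), e)
        apply div_pos _ hepos
        linarith
      · intro z
        rw [hF' z]
        obtain ⟨g0, g1⟩ := hgA hc.1 hc.2 ![ψ (z.1, z.2, c 0, e), z.2]
        rw [hPz] at g0 g1
        have hmot := hT.motion (z.1, z.2, c 0, e)
        simp only at hmot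
        have hpos := MkHAux.one_sub_pos hK hδ (ψ (z.1, z.2, c 0, e), z.2, P (z.1, z.2, c 0, e), e)
        have hne : 1 - dE κ (ψ (z.1, z.2, c 0, e), z.2, P (z.1, z.2, c 0, e), e) ≠ 0 := by
          intro h; rw [h] at hpos; linarith
        ext i
        fin_cases i
        · show (1 - dE κ (ψ (z.1, z.2, c 0, e), z.2, P (z.1, z.2, c 0, e), e)) / e *
            gradP (mkH H0 κ) ![ψ (z.1, z.2, c 0, e), z.2]
              (c + grad u ![ψ (z.1, z.2, c 0, e), z.2]) 0 =
            (om + c 0) * dX ψ (z.1, z.2, c 0, e) + 1 * dT ψ (z.1, z.2, c 0, e)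
          rw [g0]
          have e1 : (![ψ (z.1, z.2, c 0, e), z.2] : V) 0 = ψ (z.1, z.2, c 0, e) := rfl
          have e2 : (![ψ (z.1, z.2, c 0, e), z.2] : V) 1 = z.2 := rfl
          rw [e1, e2]
          field_simp
          linarith
        · show (1 - dE κ (ψ (z.1, z.2, c 0, e), z.2, P (z.1, z.2, c 0, e), e)) / e *
            gradP (mkH H0 κ) ![ψ (z.1, z.2, c 0, e), z.2]
              (c + grad u ![ψ (z.1, z.2, c 0, e), z.2]) 1 = 1
          rw [g1]
          have e1 : (![ψ (z.1, z.2, c 0, e), z.2] : V) 0 = ψ (z.1, z.2, c 0, e) := rfl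
          have e2 : (![ψ (z.1, z.2, c 0, e), z.2] : V) 1 = z.2 := rfl
          rw [e1, e2]
          field_simp
  · intro hc0 X y
    have he1 : e = 1 := by
      rw [he, hc0]; unfold e0; simp
    have h1 : |c 0| < r := by rw [hc0]; simpa using hr
    have h2 : |e - 1| < r := by rw [he1]; simpa using hr
    obtain ⟨g0, g1⟩ := hgA h1 h2 ![ψ (X, y, 0, 1), y]
    have hP := hPψ X y
    have hc00 : c 0 = 0 := by rw [hc0]; rfl
    rw [hc00, he1] at hP
    have e1 : (![ψ (X, y, 0, 1), y] : V) 0 = ψ (X, y, 0, 1) := rfl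
    have e2 : (![ψ (X, y, 0, 1), y] : V) 1 = y := rfl
    have hfl : dE κ (ψ (X, y, 0, 1), y, P (X, y, 0, 1), 1) = 0 := flat _ (by simpa using hr)
    rw [he1, hP, e1, e2, hfl, hc0, zero_add] at g0 g1
    have hmot := hT.motion (X, y, 0, 1)
    simp only at hmot
    ext i
    fin_cases i
    · show gradP (mkH H0 κ) ![ψ (X, y, 0, 1), y] (grad u ![ψ (X, y, 0, 1), y]) 0 =
        dT ψ (X, y, 0, 1) + om * dX ψ (X, y, 0, 1)
      rw [g0]
      simp only [add_zero] at hmot
      rw [hmot]; ring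
    · show gradP (mkH H0 κ) ![ψ (X, y, 0, 1), y] (grad u ![ψ (X, y, 0, 1), y]) 1 = 1
      rw [g1]; ring

end Pool.Agent.MP_ff4374_an
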