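import Pool.Agent.MP_ff4374_an.Basic

set_option autoImplicit false
open MeasureTheory Filter Topology
open scoped ContDiff

namespace Pool.Agent.MP_ff4374_an

namespace Leg

theorem dot_comm (v w : V) : dot v w = dot w v := by unfold dot; ring

theorem dot_add_left (a b c : V) : dot (a + b) c = dot a c + dot b c := by
  simp only [dot, Pi.add_apply]; ring

theorem dot_add_right (a b c : V) : dot a (b + c) = dot a b + dot a c := by
  simp only [dot, Pi.add_apply]; ring

theorem dot_sub_left (a b c : V) : dot (a - b) c = dot a c - dot b c := by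
  simp only [dot, Pi.sub_apply]; ring

theorem dot_sub_right (a b c : V) : dot a (b - c) = dot a b - dot a c := by
  simp only [dot, Pi.sub_apply]; ring

theorem dot_smul_right (t : ℝ) (a b : V) : dot a (t • b) = t * dot a b := by
  simp only [dot, Pi.smul_apply, smul_eq_mul]; ring

theorem dot_smul_left (t : ℝ) (a b : V) : dot (t • a) b = t * dot a b := by
  simp only [dot, Pi.smul_apply, smul_eq_mul]; ring

theorem dot_self_nonneg (w : V) : 0 ≤ dot w w := by
  unfold dot; nlinarith [mul_self_nonneg (w 0), mul_self_nonneg (w 1)]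

theorem dot_self_pos {w : V} (h : w ≠ 0) : 0 < dot w w := by
  rcases (dot_self_nonneg w).lt_or_eq with h1 | h1
  · exact h1
  · exfalso
    apply h
    unfold dot at h1
    have h0 : w 0 = 0 := by nlinarith [mul_self_nonneg (w 0), mul_self_nonneg (w 1)]
    have h2 : w 1 = 0 := by nlinarith [mul_self_nonneg (w 0), mul_self_nonneg (w 1)]
    funext i
    fin_cases i
    · exact h0
    · exact h2

theorem norm_sq_le_dot (w : V) : ‖w‖ ^ 2 ≤ dot w w := by
  have h : ‖w‖ ≤ Real.sqrt (dot w w) := by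
    rw [pi_norm_le_iff_of_nonneg (Real.sqrt_nonneg _)]
    intro i
    rw [Real.norm_eq_abs]
    apply Real.abs_le_sqrt
    unfold dot
    fin_cases i
    · simp only [Fin.zero_eta, Fin.isValue]; nlinarith [mul_self_nonneg (w 1)]
    · simp only [Fin.mk_one, Fin.isValue]; nlinarith [mul_self_nonneg (w 0)]
  calc ‖w‖ ^ 2 ≤ Real.sqrt (dot w w) ^ 2 := by
        apply pow_le_pow_left₀ (norm_nonneg _) h
    _ = dot w w := Real.sq_sqrt (dot_self_nonneg w)

theorem abs_dot_le (v w : V) : |dot v w| ≤ 2 * ‖v‖ * ‖w‖ := by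
  unfold dot
  have h0 : |v 0| ≤ ‖v‖ := norm_le_pi_norm v 0
  have h1 : |v 1| ≤ ‖v‖ := norm_le_pi_norm v 1
  have h2 : |w 0| ≤ ‖w‖ := norm_le_pi_norm w 0
  have h3 : |w 1| ≤ ‖w‖ := norm_le_pi_norm w 1
  calc |v 0 * w 0 + v 1 * w 1| ≤ |v 0 * w 0| + |v 1 * w 1| := abs_add_le _ _
    _ = |v 0| * |w 0| + |v 1| * |w 1| := by rw [abs_mul, abs_mul]
    _ ≤ ‖v‖ * ‖w‖ + ‖v‖ * ‖w‖ := by
        apply add_le_add <;> apply mul_le_mul <;> first | assumption | positivity
    _ = 2 * ‖v‖ * ‖w‖ := by ring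

theorem vec_decomp (w : V) : w = w 0 • (Pi.single 0 1 : V) + w 1 • (Pi.single 1 1 : V) := by
  funext i
  fin_cases i <;> simp

theorem fderiv_eq_dot (f : V → ℝ) (p w : V) : fderiv ℝ f p w = dot (grad f p) w := by
  conv_lhs => rw [vec_decomp w]
  rw [map_add, map_smul, map_smul]
  simp only [dot, grad, smul_eq_mul]
  ring

/-- one dimensional Taylor estimate -/
theorem taylor1 {φ φ' φ'' : ℝ → ℝ} (h1 : ∀ t, HasDerivAt φ (φ' t) t)
    (h2 : ∀ t, HasDerivAt φ' (φ'' t) t) {K : ℝ} (hK : ∀ t, φ'' t ≤ K) :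
    φ 1 ≤ φ 0 + φ' 0 + K / 2 := by
  have hψ : Antitone fun t => φ' t - K * t := by
    have hd : ∀ t, HasDerivAt (fun t => φ' t - K * t) (φ'' t - K) t := by
      intro t
      have := (h2 t).sub ((hasDerivAt_id' t).const_mul K)
      exact this.congr_deriv (by ring)
    apply antitone_of_deriv_nonpos
    · intro t; exact (hd t).differentiableAt
    · intro t; rw [(hd t).deriv]; linarith [hK t]
  have hχ : AntitoneOn (fun t => φ t - φ' 0 * t - K * t ^ 2 / 2) (Set.Icc (0:ℝ) 1) := by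
    have hd : ∀ t, HasDerivAt (fun t => φ t - φ' 0 * t - K * t ^ 2 / 2)
        (φ' t - φ' 0 - K * t) t := by
      intro t
      have e1 := ((h1 t).sub ((hasDerivAt_id' t).const_mul (φ' 0)))
      have e2 := (((hasDerivAt_id' t).pow 2).const_mul K).div_const 2
      have := e1.sub e2
      exact this.congr_deriv (by simp; ring)
    apply antitoneOn_of_deriv_nonpos (convex_Icc 0 1)
    · intro t _; exact (hd t).continuousAt.continuousWithinAt
    · intro t _; exact (hd t).differentiableAt.differentiableWithinAt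
    · intro t ht
      rw [interior_Icc] at ht
      rw [(hd t).deriv]
      have := hψ ht.1.le
      simp only at this
      linarith
  have := hχ (by simp : (0:ℝ) ∈ Set.Icc (0:ℝ) 1) (by simp : (1:ℝ) ∈ Set.Icc (0:ℝ) 1) zero_le_one
  simp only at this
  nlinarith

theorem line_hasDerivAt {f : V → ℝ} (hf : ContDiff ℝ 2 f) (p w : V) (t : ℝ) :
    HasDerivAt (fun t : ℝ => f (p + t • w)) (fderiv ℝ f (p + t • w) w) t := by
  have h1 : HasDerivAt (fun t : ℝ => p + t • w) w t := by
    have := ((hasDerivAt_id t).smul_const w).const_add p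
    simpa using this
  exact (hf.differentiable (by norm_num) _).hasFDerivAt.comp_hasDerivAt t h1

theorem line_hasDerivAt2 {f : V → ℝ} (hf : ContDiff ℝ 2 f) (p w u : V) (t : ℝ) :
    HasDerivAt (fun t : ℝ => fderiv ℝ f (p + t • w) u)
      (fderiv ℝ (fderiv ℝ f) (p + t • w) w u) t := by
  have h1 : HasDerivAt (fun t : ℝ => p + t • w) w t := by
    have := ((hasDerivAt_id t).smul_const w).const_add p
    simpa using this
  have hd : ContDiff ℝ 1 (fderiv ℝ f) := hf.fderiv_right (by norm_num)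
  have h2 := (hd.differentiable (by norm_num) (p + t • w)).hasFDerivAt.comp_hasDerivAt t h1
  exact h2.clm_apply (hasDerivAt_const t u) |>.congr_deriv (by simp)

theorem taylor_upper {f : V → ℝ} (hf : ContDiff ℝ 2 f) {M : ℝ}
    (hM : ∀ p w, D2 f p w ≤ M * dot w w) (p w : V) :
    f (p + w) ≤ f p + fderiv ℝ f p w + M * dot w w / 2 := by
  have := taylor1 (φ := fun t : ℝ => f (p + t • w)) (line_hasDerivAt hf p w)
    (line_hasDerivAt2 hf p w w) (K := M * dot w w) (fun t => hM _ _)
  simpa using this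

theorem taylor_lower {f : V → ℝ} (hf : ContDiff ℝ 2 f) {m : ℝ}
    (hm : ∀ p w, m * dot w w ≤ D2 f p w) (p w : V) :
    f p + fderiv ℝ f p w + m * dot w w / 2 ≤ f (p + w) := by
  have := taylor1 (φ := fun t : ℝ => - f (p + t • w))
    (fun t => (line_hasDerivAt hf p w t).neg)
    (fun t => (line_hasDerivAt2 hf p w w t).neg) (K := - (m * dot w w))
    (fun t => neg_le_neg (hm _ _))
  simp only [one_smul, zero_smul, add_zero] at this
  linarith

section

variable {m M : ℝ} {H : V × V → ℝ}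

theorem slice_contDiff (hH : ContDiff ℝ 2 H) (x : V) : ContDiff ℝ 2 (fun p => H (x, p)) :=
  hH.comp (contDiff_const.prodMk contDiff_id)

theorem slice_fderiv (hH : ContDiff ℝ 2 H) (x p w : V) :
    fderiv ℝ (fun p' => H (x, p')) p w = fderiv ℝ H (x, p) (0, w) := by
  have h1 : HasFDerivAt (fun p' : V => (x, p')) (ContinuousLinearMap.inr ℝ V V) p :=
    hasFDerivAt_prodMk_right x p
  have h2 := (hH.differentiable (by norm_num) (x, p)).hasFDerivAt.comp p h1
  have h3 : (fun p' => H (x, p')) = H ∘ (fun p' : V => (x, p')) := rfl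
  rw [h3, h2.fderiv]
  simp

theorem gradP_eq (hH : ContDiff ℝ 2 H) (x p : V) (i : Fin 2) :
    gradP H x p i = fderiv ℝ H (x, p) (0, Pi.single i 1) := by
  unfold gradP
  exact slice_fderiv hH x p _

theorem fderiv_dot_gradP (hH : ContDiff ℝ 2 H) (x p w : V) :
    fderiv ℝ H (x, p) (0, w) = dot (gradP H x p) w := by
  rw [← slice_fderiv hH, fderiv_eq_dot]
  rfl

theorem slice_D2 (hH : ContDiff ℝ 2 H) (x p w : V) :
    D2 (fun p' => H (x, p')) p w = fderiv ℝ (fderiv ℝ H) (x, p) (0, w) (0, w) := by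
  unfold D2
  have h1 : HasFDerivAt (fun p' : V => (x, p')) (ContinuousLinearMap.inr ℝ V V) p :=
    hasFDerivAt_prodMk_right x p
  have hd : ContDiff ℝ 1 (fderiv ℝ H) := hH.fderiv_right (by norm_num)
  have h2 := (hd.differentiable (by norm_num) (x, p)).hasFDerivAt.comp p h1
  have hsl : ContDiff ℝ 2 (fun p' => H (x, p')) := slice_contDiff hH x
  have hds : ContDiff ℝ 1 (fderiv ℝ (fun p' => H (x, p'))) := hsl.fderiv_right (by norm_num)
  have h3 := ((hds.differentiable (by norm_num) p).hasFDerivAt).clm_apply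
    (hasFDerivAt_const w p)
  have h4 := h2.clm_apply (hasFDerivAt_const ((0 : V), w) p)
  have h5 : (fun p' => fderiv ℝ (fun p'' => H (x, p'')) p' w)
      = fun p' => (fderiv ℝ H ∘ fun p'' : V => (x, p'')) p' (0, w) := by
    funext p'
    exact slice_fderiv hH x p' w
  rw [h5] at h3
  have h6 := h3.unique h4
  have h7 := congrArg (fun L : V →L[ℝ] ℝ => L w) h6
  simpa using h7

/-- the map `(x,p) ↦ (x, grad_p H)` -/
noncomputable def GG' (H : V × V → ℝ) (z : V × V) : V × V := (z.1, gradP H z.1 z.2)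

theorem gradP_contDiff (hH : ContDiff ℝ 2 H) : ContDiff ℝ 1 (fun z : V × V => gradP H z.1 z.2) := by
  rw [contDiff_pi]
  intro i
  have hd : ContDiff ℝ 1 (fderiv ℝ H) := hH.fderiv_right (by norm_num)
  have h : (fun z : V × V => gradP H z.1 z.2 i) = fun z => fderiv ℝ H z (0, Pi.single i 1) := by
    funext z
    exact gradP_eq hH z.1 z.2 i
  rw [h]
  exact hd.clm_apply contDiff_const

theorem GG_contDiff (hH : ContDiff ℝ 2 H) : ContDiff ℝ 1 (GG' H) :=
  contDiff_fst.prodMk (gradP_contDiff hH)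

theorem fderiv_gradP (hH : ContDiff ℝ 2 H) (z ζ : V × V) (i : Fin 2) :
    fderiv ℝ (fun z : V × V => gradP H z.1 z.2) z ζ i
      = fderiv ℝ (fderiv ℝ H) z ζ (0, Pi.single i 1) := by
  have hd : ContDiff ℝ 1 (fderiv ℝ H) := hH.fderiv_right (by norm_num)
  have h1 := ((gradP_contDiff hH).differentiable (by norm_num) z).hasFDerivAt
  have h2 := hasFDerivAt_pi'.1 h1 i
  have h3 := ((hd.differentiable (by norm_num) z).hasFDerivAt).clm_apply
    (hasFDerivAt_const ((0 : V), (Pi.single i 1 : V)) z)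
  have h : (fun z : V × V => gradP H z.1 z.2 i) = fun z => fderiv ℝ H z (0, Pi.single i 1) := by
    funext z
    exact gradP_eq hH z.1 z.2 i
  rw [h] at h2
  have h6 := h2.unique h3
  have h7 := congrArg (fun L : V × V →L[ℝ] ℝ => L ζ) h6
  simpa using h7

theorem dot_fderiv_gradP (hH : ContDiff ℝ 2 H) (z : V × V) (w : V) :
    dot w (fderiv ℝ (fun z : V × V => gradP H z.1 z.2) z (0, w)) = D2 (fun p' => H (z.1, p')) z.2 w := by
  rw [slice_D2 hH]
  have e : ((0 : V), w) = w 0 • ((0 : V), (Pi.single 0 1 : V)) + w 1 • ((0 : V), (Pi.single 1 1 : V)) := by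
    rw [Prod.smul_mk, Prod.smul_mk, Prod.mk_add_mk, ← vec_decomp]
    simp
  conv_rhs => rw [show fderiv ℝ (fderiv ℝ H) (z.1, z.2) (0, w) (0, w) =
    fderiv ℝ (fderiv ℝ H) (z.1, z.2) (0, w) (w 0 • ((0 : V), (Pi.single 0 1 : V))
      + w 1 • ((0 : V), (Pi.single 1 1 : V))) by rw [← e]]
  rw [map_add, map_smul, map_smul]
  unfold dot
  rw [fderiv_gradP hH, fderiv_gradP hH]
  simp [smul_eq_mul]

theorem mono_gradP (hH : Ham m M H) (x p q : V) :
    m * dot (p - q) (p - q) ≤ dot (gradP H x p - gradP H x q) (p - q) := by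
  have h1 := taylor_lower (slice_contDiff hH.c2 x) (hH.lo x) q (p - q)
  have h2 := taylor_lower (slice_contDiff hH.c2 x) (hH.lo x) p (q - p)
  rw [fderiv_eq_dot] at h1 h2
  simp only [add_sub_cancel] at h1 h2
  have e : dot (q - p) (q - p) = dot (p - q) (p - q) := by unfold dot; simp only [Pi.sub_apply]; ring
  rw [e] at h2
  have e2 : dot (grad (fun p => H (x, p)) p) (q - p) = - dot (gradP H x p) (p - q) := by
    unfold dot gradP grad; simp only [Pi.sub_apply]; ring
  have e3 : dot (grad (fun p => H (x, p)) q) (p - q) = dot (gradP H x q) (p - q) := rfl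
  rw [e2] at h2
  rw [e3] at h1
  have e4 : dot (gradP H x p - gradP H x q) (p - q)
      = dot (gradP H x p) (p - q) - dot (gradP H x q) (p - q) := dot_sub_left _ _ _
  rw [e4]
  linarith

theorem gradP_injective (hm : 0 < m) (hH : Ham m M H) (x : V) :
    Function.Injective (gradP H x) := by
  intro p q hpq
  have h := mono_gradP hH x p q
  rw [hpq, sub_self] at h
  have h0 : dot (0 : V) (p - q) = 0 := by unfold dot; simp
  rw [h0] at h
  by_contra hne
  have := dot_self_pos (sub_ne_zero.2 hne)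
  nlinarith

theorem gradP_surjective (hm : 0 < m) (hH : Ham m M H) (x : V) :
    Function.Surjective (gradP H x) := by
  intro v
  set f : V → ℝ := fun p => H (x, p) - dot p v with hf
  have hcont : Continuous f := by
    have := (slice_contDiff hH.c2 x).continuous
    have h2 : Continuous fun p : V => dot p v := by unfold dot; fun_prop
    exact this.sub h2
  have hlow : ∀ p : V, H (x, 0) - (2 * ‖gradP H x 0 - v‖) * ‖p‖ + m / 2 * ‖p‖ ^ 2 ≤ f p := by
    intro p
    have h1 := taylor_lower (slice_contDiff hH.c2 x) (hH.lo x) 0 p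
    rw [fderiv_eq_dot, zero_add] at h1
    have e3 : dot (grad (fun p => H (x, p)) 0) p = dot (gradP H x 0) p := rfl
    rw [e3] at h1
    have h2 := abs_dot_le (gradP H x 0 - v) p
    have h3 := norm_sq_le_dot p
    have h4 := neg_abs_le (dot (gradP H x 0 - v) p)
    have h5 : dot (gradP H x 0 - v) p = dot (gradP H x 0) p - dot p v := by
      rw [dot_sub_left, dot_comm p v]
    simp only [hf]
    have h6 : m / 2 * ‖p‖ ^ 2 ≤ m / 2 * dot p p := by
      apply mul_le_mul_of_nonneg_left h3; linarith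
    linarith
  have hlim : Tendsto f (cocompact V) atTop := by
    apply tendsto_atTop_mono hlow
    have h1 : Tendsto (fun r : ℝ => H (x, 0) - (2 * ‖gradP H x 0 - v‖) * r + m / 2 * r ^ 2) atTop atTop := by
      have e : (fun r : ℝ => H (x, 0) - (2 * ‖gradP H x 0 - v‖) * r + m / 2 * r ^ 2)
          = fun r : ℝ => H (x, 0) + r * (m / 2 * r - (2 * ‖gradP H x 0 - v‖)) := by
        funext r; ring
      rw [e]
      apply tendsto_atTop_add_const_left
      apply Tendsto.atTop_mul_atTop₀ tendsto_id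
      apply tendsto_atTop_add_const_right
      exact Tendsto.const_mul_atTop (by linarith) tendsto_id
    exact h1.comp tendsto_norm_cocompact_atTop
  obtain ⟨p, hp⟩ := hcont.exists_forall_le hlim
  refine ⟨p, ?_⟩
  have hmin : IsLocalMin f p := Filter.Eventually.of_forall hp
  have hz := hmin.fderiv_eq_zero
  funext i
  have hd1 : HasFDerivAt (fun p => H (x, p)) (fderiv ℝ (fun p => H (x, p)) p) p :=
    ((slice_contDiff hH.c2 x).differentiable (by norm_num) p).hasFDerivAt
  have hd2 : HasFDerivAt (fun p : V => dot p v)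
      (v 0 • (ContinuousLinearMap.proj 0 : V →L[ℝ] ℝ) + v 1 • (ContinuousLinearMap.proj 1 : V →L[ℝ] ℝ)) p := by
    have : (fun p : V => dot p v) = fun p =>
      (v 0 • (ContinuousLinearMap.proj 0 : V →L[ℝ] ℝ) + v 1 • (ContinuousLinearMap.proj 1 : V →L[ℝ] ℝ)) p := by
      funext p; simp [dot]; ring
    rw [this]
    exact ContinuousLinearMap.hasFDerivAt _
  have h3 := hd1.sub hd2
  have h4 : fderiv ℝ f p = _ := h3.fderiv
  rw [hz] at h4
  have h5 := congrArg (fun L : V →L[ℝ] ℝ => L (Pi.single i 1)) h4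
  simp only [zero_apply, sub_apply, add_apply, smul_apply, ContinuousLinearMap.proj_apply,
    smul_eq_mul] at h5
  unfold gradP
  fin_cases i
  · simp at h5 ⊢; linarith
  · simp at h5 ⊢; linarith

theorem GG_bijective (hm : 0 < m) (hH : Ham m M H) : Function.Bijective (GG' H) := by
  constructor
  · rintro ⟨x, p⟩ ⟨y, q⟩ h
    simp only [GG', Prod.mk.injEq] at h
    obtain ⟨rfl, h2⟩ := h
    rw [gradP_injective hm hH x h2]
  · rintro ⟨x, v⟩
    obtain ⟨p, hp⟩ := gradP_surjective hm hH x v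
    exact ⟨(x, p), by simp [GG', hp]⟩

theorem fderiv_GG (hH : ContDiff ℝ 2 H) (z ζ : V × V) :
    fderiv ℝ (GG' H) z ζ = (ζ.1, fderiv ℝ (fun z : V × V => gradP H z.1 z.2) z ζ) := by
  have h1 := ((gradP_contDiff hH).differentiable (by norm_num) z).hasFDerivAt
  have h2 := (hasFDerivAt_fst (𝕜 := ℝ) (p := z)).prodMk h1
  have h3 : GG' H = fun z : V × V => (z.1, gradP H z.1 z.2) := rfl
  rw [h3, h2.fderiv]
  simp

theorem fderiv_GG_injective (hm : 0 < m) (hH : Ham m M H) (z : V × V) :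
    Function.Injective (fderiv ℝ (GG' H) z) := by
  rw [injective_iff_map_eq_zero]
  rintro ⟨ξ, π⟩ h
  rw [fderiv_GG hH.c2] at h
  simp only [Prod.mk_eq_zero] at h
  obtain ⟨rfl, h2⟩ := h
  have h3 := dot_fderiv_gradP hH.c2 z π
  rw [h2] at h3
  have h4 := hH.lo z.1 z.2 π
  rw [← h3] at h4
  have h5 : dot π (0 : V) = 0 := by unfold dot; simp
  rw [h5] at h4
  have : π = 0 := by
    by_contra hne
    have := dot_self_pos hne
    nlinarith
  rw [this]
  rfl

/-- the derivative as an equivalence -/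
noncomputable def GGe (hm : 0 < m) (hH : Ham m M H) (z : V × V) : (V × V) ≃L[ℝ] (V × V) :=
  (LinearEquiv.ofInjectiveEndo (fderiv ℝ (GG' H) z : (V × V) →ₗ[ℝ] (V × V))
    (fderiv_GG_injective hm hH z)).toContinuousLinearEquiv

theorem GGe_coe (hm : 0 < m) (hH : Ham m M H) (z : V × V) :
    (GGe hm hH z : (V × V) →L[ℝ] (V × V)) = fderiv ℝ (GG' H) z := by
  apply ContinuousLinearMap.ext
  intro ζ
  rfl

theorem exists_inverse (hm : 0 < m) (hH : Ham m M H) :
    ∃ Q : V × V → V, ContDiff ℝ 1 Q ∧ (∀ x v, gradP H x (Q (x, v)) = v) ∧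
      (∀ x p, Q (x, gradP H x p) = p) := by
  have hstrict : ∀ z, HasStrictFDerivAt (GG' H) (GGe hm hH z : (V × V) →L[ℝ] (V × V)) z := by
    intro z
    rw [GGe_coe]
    exact (GG_contDiff hH.c2).contDiffAt.hasStrictFDerivAt (by norm_num)
  have hopen : IsOpenMap (GG' H) := isOpenMap_of_hasStrictFDerivAt_equiv hstrict
  let e : (V × V) ≃ₜ (V × V) :=
    (Equiv.ofBijective (GG' H) (GG_bijective hm hH)).toHomeomorphOfContinuousOpen
      (GG_contDiff hH.c2).continuous hopen
  have he : (e : V × V → V × V) = GG' H := rfl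
  have hs : ContDiff ℝ 1 (e.symm : V × V → V × V) := by
    apply e.contDiff_symm (f₀' := GGe hm hH)
    · intro z
      rw [he]
      exact (hstrict z).hasFDerivAt
    · rw [he]; exact GG_contDiff hH.c2
  refine ⟨fun z => (e.symm z).2, contDiff_snd.comp hs, ?_, ?_⟩
  · intro x v
    have h1 : GG' H (e.symm (x, v)) = (x, v) := e.apply_symm_apply (x, v)
    simp only [GG', Prod.mk.injEq] at h1
    have h2 := h1.2
    rw [h1.1] at h2
    exact h2
  · intro x p
    have h1 : e.symm (GG' H (x, p)) = (x, p) := e.symm_apply_apply (x, p)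
    have h2 : GG' H (x, p) = (x, gradP H x p) := rfl
    rw [h2] at h1
    simp only [h1]

/-- the Legendre transform for a given inverse of the gradient map -/
noncomputable def Lag (H : V × V → ℝ) (Q : V × V → V) (z : V × V) : ℝ := dot (Q z) z.2 - H (z.1, Q z)

noncomputable def P0 (i : Fin 2) : (V × V) →L[ℝ] ℝ :=
  (ContinuousLinearMap.proj i : V →L[ℝ] ℝ).comp (ContinuousLinearMap.snd ℝ V V)

noncomputable def Lder (H : V × V → ℝ) (Q : V × V → V) (z : V × V) : (V × V) →L[ℝ] ℝ :=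
  Q z 0 • P0 0 + Q z 1 • P0 1 -
    (fderiv ℝ H (z.1, Q z)).comp ((ContinuousLinearMap.inl ℝ V V).comp (ContinuousLinearMap.fst ℝ V V))

theorem Lag_hasFDerivAt (hH : ContDiff ℝ 2 H) {Q : V × V → V} (hQ : ContDiff ℝ 1 Q)
    (h1 : ∀ x v, gradP H x (Q (x, v)) = v) (z : V × V) :
    HasFDerivAt (Lag H Q) (Lder H Q z) z := by
  have hQd := (hQ.differentiable (by norm_num) z).hasFDerivAt
  have hQi : ∀ i, HasFDerivAt (fun z => Q z i) ((ContinuousLinearMap.proj i).comp (fderiv ℝ Q z)) z :=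
    fun i => hasFDerivAt_pi'.1 hQd i
  have hPi : ∀ i, HasFDerivAt (fun z : V × V => z.2 i) (P0 i) z := fun i => (P0 i).hasFDerivAt
  have hHd := (hH.differentiable (by norm_num) (z.1, Q z)).hasFDerivAt.comp z
    ((hasFDerivAt_fst (𝕜 := ℝ) (p := z)).prodMk hQd)
  have h2 := (((hQi 0).mul (hPi 0)).add ((hQi 1).mul (hPi 1))).sub hHd
  have h3 : Lag H Q = (((fun z => Q z 0) * fun z => z.2 0) + ((fun z => Q z 1) * fun z => z.2 1))
      - H ∘ fun z : V × V => (z.1, Q z) := by
    funext y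
    simp [Lag, dot]
  rw [h3]
  refine h2.congr_fderiv ?_
  apply ContinuousLinearMap.ext
  intro ζ
  have h4 : fderiv ℝ H (z.1, Q z) (ζ.1, fderiv ℝ Q z ζ)
      = fderiv ℝ H (z.1, Q z) (ζ.1, 0) + dot z.2 (fderiv ℝ Q z ζ) := by
    have e : ((ζ.1, fderiv ℝ Q z ζ) : V × V) = (ζ.1, 0) + (0, fderiv ℝ Q z ζ) := by simp
    rw [e, map_add, fderiv_dot_gradP hH, h1]
  simp only [Lder, P0, sub_apply, add_apply, smul_apply, ContinuousLinearMap.comp_apply,
    ContinuousLinearMap.prod_apply, ContinuousLinearMap.coe_fst', ContinuousLinearMap.coe_snd',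
    ContinuousLinearMap.inl_apply, ContinuousLinearMap.proj_apply, smul_eq_mul]
  rw [h4]
  unfold dot
  ring

theorem Lder_contDiff (hH : ContDiff ℝ 2 H) {Q : V × V → V} (hQ : ContDiff ℝ 1 Q) :
    ContDiff ℝ 1 (Lder H Q) := by
  have hd : ContDiff ℝ 1 (fderiv ℝ H) := hH.fderiv_right (by norm_num)
  have hQi : ∀ i, ContDiff ℝ 1 (fun z => Q z i) := fun i => contDiff_pi.1 hQ i
  unfold Lder
  apply ContDiff.sub
  · exact ((hQi 0).smul contDiff_const).add ((hQi 1).smul contDiff_const)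
  · exact (hd.comp (contDiff_fst.prodMk hQ)).clm_comp contDiff_const

theorem Lag_contDiff (hH : ContDiff ℝ 2 H) {Q : V × V → V} (hQ : ContDiff ℝ 1 Q)
    (h1 : ∀ x v, gradP H x (Q (x, v)) = v) : ContDiff ℝ 2 (Lag H Q) := by
  have := (contDiff_succ_iff_hasFDerivAt (𝕜 := ℝ) (n := 1) (f := Lag H Q)).2
    ⟨Lder H Q, Lder_contDiff hH hQ, Lag_hasFDerivAt hH hQ h1⟩
  have e : ((1 : ℕ) : WithTop ℕ∞) + 1 = 2 := by norm_num
  rw [e] at this
  exact this

theorem Lag_conv (hm : 0 < m) (hH : Ham m M H) {Q : V × V → V} (hQ : ContDiff ℝ 1 Q)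
    (h1 : ∀ x v, gradP H x (Q (x, v)) = v) (x v w : V) (hw : w ≠ 0) :
    0 < D2 (fun u => Lag H Q (x, u)) v w := by
  rw [slice_D2 (Lag_contDiff hH.c2 hQ h1)]
  have hfd : fderiv ℝ (Lag H Q) = Lder H Q := by
    funext z; exact (Lag_hasFDerivAt hH.c2 hQ h1 z).fderiv
  rw [hfd]
  have hQd := (hQ.differentiable (by norm_num) (x, v)).hasFDerivAt
  have h2 := ((Lder_contDiff hH.c2 hQ).differentiable (by norm_num) (x, v)).hasFDerivAt.clm_apply
    (hasFDerivAt_const ((0 : V), w) (x, v))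
  have h3 : (fun z => Lder H Q z (0, w)) = fun z => Q z 0 * w 0 + Q z 1 * w 1 := by
    funext z
    simp [Lder, P0]
    exact map_zero _
  rw [h3] at h2
  have hQi : ∀ i, HasFDerivAt (fun z => Q z i) ((ContinuousLinearMap.proj i).comp (fderiv ℝ Q (x, v))) (x, v) :=
    fun i => hasFDerivAt_pi'.1 hQd i
  have h4 := ((hQi 0).mul_const (w 0)).add ((hQi 1).mul_const (w 1))
  have h5 := congrArg (fun L : V × V →L[ℝ] ℝ => L (0, w)) (h2.unique h4)
  simp at h5
  rw [h5]
  set ζ := fderiv ℝ Q (x, v) (0, w) with hζ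
  -- derivative of gradP H x (Q (x,v)) = v
  have h6 := ((gradP_contDiff hH.c2).differentiable (by norm_num) (x, Q (x, v))).hasFDerivAt.comp (x, v)
    ((hasFDerivAt_fst (𝕜 := ℝ) (p := ((x, v) : V × V))).prodMk hQd)
  have h7 : ((fun z : V × V => gradP H z.1 z.2) ∘ fun z : V × V => (z.1, Q z)) = fun z => z.2 := by
    funext z
    exact h1 z.1 z.2
  rw [h7] at h6
  have h8 := congrArg (fun L : V × V →L[ℝ] V => L (0, w))
    (h6.unique (hasFDerivAt_snd (𝕜 := ℝ) (p := ((x, v) : V × V))))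
  simp at h8
  rw [← hζ] at h8
  have h9 := dot_fderiv_gradP hH.c2 (x, Q (x, v)) ζ
  rw [h8] at h9
  have h10 := hH.lo x (Q (x, v)) ζ
  rw [← h9] at h10
  have hζ0 : ζ ≠ 0 := by
    intro h0
    rw [h0] at h8
    apply hw
    rw [← h8]
    exact map_zero _
  have h11 := dot_self_pos hζ0
  have h12 : ζ 0 * w 0 + ζ 1 * w 1 = dot ζ w := rfl
  have h13 : 0 < dot ζ w := by nlinarith
  first
    | exact h13
    | (unfold dot at h13; nlinarith)

theorem M_pos (hm : 0 < m) (hH : Ham m M H) : 0 < M := by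
  have h1 := hH.lo 0 0 (Pi.single 0 1)
  have h2 := hH.hi 0 0 (Pi.single 0 1)
  have h3 : dot (Pi.single 0 1 : V) (Pi.single 0 1) = 1 := by simp [dot]
  rw [h3] at h1 h2
  linarith

theorem cocoercive (hm : 0 < m) (hH : Ham m M H) (x p q : V) :
    H (x, q) + dot (gradP H x q) (p - q)
      + dot (gradP H x q - gradP H x p) (gradP H x q - gradP H x p) / (2 * M) ≤ H (x, p) := by
  have hM := M_pos hm hH
  set v := gradP H x q with hv
  set g := gradP H x p with hg
  -- lower bound of H - v at the shifted point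
  set w : V := (1 / M) • (v - g) with hw
  have h1 := taylor_upper (slice_contDiff hH.c2 x) (hH.hi x) p w
  have h2 := taylor_lower (slice_contDiff hH.c2 x) (hH.lo x) q (p + w - q)
  rw [fderiv_eq_dot] at h1 h2
  simp only [add_sub_cancel] at h2
  have e1 : dot (grad (fun p => H (x, p)) p) w = dot g w := rfl
  have e2 : dot (grad (fun p => H (x, p)) q) (p + w - q) = dot v (p + w - q) := rfl
  rw [e1] at h1
  rw [e2] at h2
  have h3 : 0 ≤ m * dot (p + w - q) (p + w - q) / 2 := by
    have := dot_self_nonneg (p + w - q)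
    positivity
  have h4 : dot v (p + w - q) = dot v (p - q) + dot v w := by
    unfold dot; simp only [Pi.sub_apply, Pi.add_apply]; ring
  rw [h4] at h2
  have h5 : dot v w - dot g w = dot (v - g) (v - g) / M := by
    rw [← dot_sub_left, hw, dot_smul_right]; ring
  have h6 : M * dot w w / 2 = dot (v - g) (v - g) / (2 * M) := by
    rw [hw, dot_smul_right, dot_smul_left]
    field_simp
  have h7 : dot (v - g) (v - g) / M = 2 * (dot (v - g) (v - g) / (2 * M)) := by
    field_simp
  rw [h6] at h1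
  rw [h7] at h5
  linarith

theorem Lag_fenchel (hm : 0 < m) (hH : Ham m M H) {Q : V × V → V}
    (h1 : ∀ x v, gradP H x (Q (x, v)) = v) (x p v : V) :
    dot p v + dot (v - gradP H x p) (v - gradP H x p) / (2 * M) ≤ Lag H Q (x, v) + H (x, p) := by
  have h := cocoercive hm hH x p (Q (x, v))
  rw [h1] at h
  have e : dot v (p - Q (x, v)) = dot p v - dot (Q (x, v)) v := by
    unfold dot; simp only [Pi.sub_apply]; ring
  rw [e] at h
  simp only [Lag]
  linarith

theorem bounded_on_ball (hH : Ham m M H) (A : ℝ) : ∃ B : ℝ, ∀ x p : V, ‖p‖ ≤ A → H (x, p) ≤ B := by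
  have hK : IsCompact ((Set.Icc (0 : V) 1) ×ˢ (Metric.closedBall (0 : V) A)) :=
    isCompact_Icc.prod (isCompact_closedBall 0 A)
  obtain ⟨B, hB⟩ := (hK.image hH.c2.continuous).bddAbove
  refine ⟨B, fun x p hp => ?_⟩
  have hx : H (x, p) = H (fun i => Int.fract (x i), p) := by
    have h := hH.per (fun i => Int.fract (x i)) p (fun i => ⌊x i⌋)
    rw [← h]
    congr 2
    funext i
    simp [Int.fract_add_floor]
  rw [hx]
  apply hB
  refine ⟨_, ⟨⟨?_, ?_⟩, ?_⟩, rfl⟩
  · intro i; exact Int.fract_nonneg _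
  · intro i; exact (Int.fract_lt_one _).le
  · simpa using hp

theorem Lag_superlin (hm : 0 < m) (hH : Ham m M H) {Q : V × V → V}
    (h1 : ∀ x v, gradP H x (Q (x, v)) = v) (A : ℝ) :
    ∃ B : ℝ, ∀ x v : V, A * ‖v‖ - B ≤ Lag H Q (x, v) := by
  have hM := M_pos hm hH
  obtain ⟨B, hB⟩ := bounded_on_ball hH |A|
  refine ⟨B, fun x v => ?_⟩
  -- choose a coordinate with |v i| = ‖v‖
  obtain ⟨i, hi⟩ : ∃ i : Fin 2, ‖v‖ = |v i| := by
    rcases le_total |v 0| |v 1| with h | h
    · refine ⟨1, le_antisymm ?_ (norm_le_pi_norm v 1)⟩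
      rw [pi_norm_le_iff_of_nonneg (abs_nonneg _)]
      intro j
      fin_cases j
      · exact h
      · exact le_rfl
    · refine ⟨0, le_antisymm ?_ (norm_le_pi_norm v 0)⟩
      rw [pi_norm_le_iff_of_nonneg (abs_nonneg _)]
      intro j
      fin_cases j
      · exact le_rfl
      · exact h
  obtain ⟨s, hs, hsv⟩ : ∃ s : ℝ, |s| ≤ 1 ∧ s * v i = |v i| := by
    rcases le_total 0 (v i) with h | h
    · exact ⟨1, by simp, by rw [abs_of_nonneg h]; ring⟩
    · exact ⟨-1, by simp, by rw [abs_of_nonpos h]; ring⟩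
  set p : V := Pi.single i (|A| * s) with hp
  have hpn : ‖p‖ ≤ |A| := by
    rw [hp, Pi.norm_single, Real.norm_eq_abs, abs_mul, abs_abs]
    have := abs_nonneg A
    nlinarith
  have h2 := Lag_fenchel hm hH h1 x p v
  have h3 : dot p v = |A| * ‖v‖ := by
    rw [hi, ← hsv, hp]
    unfold dot
    fin_cases i <;> simp <;> ring
  have h4 : 0 ≤ dot (v - gradP H x p) (v - gradP H x p) / (2 * M) := by
    have := dot_self_nonneg (v - gradP H x p)
    positivity
  have h5 := hB x p hpn
  have h6 : A * ‖v‖ ≤ |A| * ‖v‖ := mul_le_mul_of_nonneg_right (le_abs_self A) (norm_nonneg _)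
  linarith

theorem gradP_per (hH : Ham m M H) (x p : V) (k : Fin 2 → ℤ) :
    gradP H (x + (fun i => (k i : ℝ))) p = gradP H x p := by
  unfold gradP
  funext i
  have : (fun p' => H (x + (fun i => (k i : ℝ)), p')) = fun p' => H (x, p') := by
    funext p'; exact hH.per x p' k
  rw [this]

end

end Leg

open Leg in
theorem legendre {m M : ℝ} {H : V × V → ℝ} (hm : 0 < m) (hH : Ham m M H) :
    ∃ L : V × V → ℝ, Dual M H L := by
  obtain ⟨Q, hQ, h1, h2⟩ := exists_inverse hm hH
  refine ⟨Lag H Q, ⟨Lag_contDiff hH.c2 hQ h1, ?_, fun x v w hw => Lag_conv hm hH hQ h1 x v w hw,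
    Lag_superlin hm hH h1, Lag_fenchel hm hH h1, ?_, fun x v => ⟨Q (x, v), h1 x v⟩⟩⟩
  · intro x v k
    have h3 : Q (x + (fun i => (k i : ℝ)), v) = Q (x, v) := by
      apply gradP_injective hm hH x
      rw [h1, ← gradP_per hH x _ k, h1]
    simp only [Lag]
    rw [h3, hH.per]
  · intro x p
    simp only [Lag]
    rw [h2]

end Pool.Agent.MP_ff4374_an
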