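import Pool.Agent.MP_ff4374_an.Basic

/-!
Module LevelBound of MP_ff4374_an: C^2 bounds of the Hamiltonian of one level.
-/

set_option autoImplicit false
open MeasureTheory Filter Topology
open scoped ContDiff

namespace Pool.Agent.MP_ff4374_an

theorem comp_curve {F : Type*} [NormedAddCommGroup F] [NormedSpace ℝ F] {f : E4 → F}
    {f' : E4 →L[ℝ] F} {γ : ℝ → E4} {γ' : E4} {x : ℝ} {y : E4} (hf : HasFDerivAt f f' y)
    (hγ : HasDerivAt γ γ' x) (hy : γ x = y) : HasDerivAt (fun h => f (γ h)) (f' γ') x := by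
  subst hy
  exact hf.comp_hasDerivAt x hγ

theorem smooth_two {F : Type*} [NormedAddCommGroup F] [NormedSpace ℝ F] {f : E4 → F}
    (hf : ContDiff ℝ ∞ f) : ContDiff ℝ 2 f := by
  have := contDiff_infty.mp hf 2
  exact_mod_cast this

theorem D2_line {f : E4 → ℝ} (hf : ContDiff ℝ 2 f) (m v : E4) :
    HasDerivAt (fun h : ℝ => fderiv ℝ f (m + h • v) v) (D2 f m v) 0 := by
  have h1 : ContDiff ℝ 1 (fderiv ℝ f) := hf.fderiv_right (m := 1) (by norm_num)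
  have h2 : HasFDerivAt (fderiv ℝ f) (fderiv ℝ (fderiv ℝ f) m) (m + (0 : ℝ) • v) := by
    simpa using (h1.differentiable (by norm_num)).differentiableAt.hasFDerivAt
  have h3 : HasDerivAt (fun h : ℝ => m + h • v) v 0 := by
    simpa using ((hasDerivAt_id (0 : ℝ)).smul_const v).const_add m
  have h4 : HasDerivAt (fun h : ℝ => fderiv ℝ f (m + h • v)) (fderiv ℝ (fderiv ℝ f) m v) 0 :=
    h2.comp_hasDerivAt (0 : ℝ) h3
  have h5 := h4.clm_apply (hasDerivAt_const (0 : ℝ) v)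
  simpa [D2] using h5

theorem vanish_gen {E : Type*} [NormedAddCommGroup E] [NormedSpace ℝ E] {G : E → ℝ}
    (hG : ContDiff ℝ 2 G) {U : Set E} (hU : IsOpen U) (g0 : ∀ q ∈ U, G q = 0) {q d : E}
    (hd : ∀ η : ℝ, 0 < η → η < 1 → q + η • d ∈ U) :
    G q = 0 ∧ (∀ v, fderiv ℝ G q v = 0) ∧ ∀ v w, fderiv ℝ (fderiv ℝ G) q v w = 0 := by
  have lim_zero : ∀ (f : E → ℝ), Continuous f → (∀ q ∈ U, f q = 0) → f q = 0 := by
    intro f hf h0
    have h1 : Tendsto (fun η : ℝ => f (q + η • d)) (𝓝[>] 0) (𝓝 (f q)) := by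
      have hc : Continuous (fun η : ℝ => f (q + η • d)) := by fun_prop
      have := hc.tendsto 0
      simp only [zero_smul, add_zero] at this
      exact this.mono_left nhdsWithin_le_nhds
    have h2 : Tendsto (fun η : ℝ => f (q + η • d)) (𝓝[>] 0) (𝓝 0) := by
      apply tendsto_const_nhds.congr'
      have : Set.Ioo (0 : ℝ) 1 ∈ 𝓝[>] (0 : ℝ) := Ioo_mem_nhdsGT (by norm_num)
      filter_upwards [this] with η hη
      exact (h0 _ (hd η hη.1 hη.2)).symm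
    exact tendsto_nhds_unique h1 h2
  have h1 : ContDiff ℝ 1 (fderiv ℝ G) := hG.fderiv_right (m := 1) (by norm_num)
  have c1 : Continuous (fderiv ℝ G) := h1.continuous
  have c2 : Continuous (fderiv ℝ (fderiv ℝ G)) := h1.continuous_fderiv (by norm_num)
  have g1 : ∀ q ∈ U, fderiv ℝ G q = 0 := by
    intro q h
    have : G =ᶠ[𝓝 q] fun _ => (0 : ℝ) := by
      filter_upwards [hU.mem_nhds h] with q' hq'
      exact g0 q' hq'
    rw [this.fderiv_eq]
    simp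
  have g2 : ∀ q ∈ U, ∀ v w, fderiv ℝ (fderiv ℝ G) q v w = 0 := by
    intro q h v w
    have : fderiv ℝ G =ᶠ[𝓝 q] fun _ => (0 : E →L[ℝ] ℝ) := by
      filter_upwards [hU.mem_nhds h] with q' hq'
      exact g1 q' hq'
    rw [this.fderiv_eq]
    simp
  refine ⟨lim_zero _ hG.continuous g0, fun v => ?_, fun v w => ?_⟩
  · exact lim_zero (fun q => fderiv ℝ G q v) (c1.clm_apply continuous_const)
      (fun q hq => by simp [g1 q hq])
  · exact lim_zero (fun q => fderiv ℝ (fderiv ℝ G) q v w)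
      ((c2.clm_apply continuous_const).clm_apply continuous_const) (fun q hq => g2 q hq v w)

theorem bounds_gen {E : Type*} [NormedAddCommGroup E] [NormedSpace ℝ E] {G : E → ℝ}
    (hG : ContDiff ℝ 2 G) {K : Set E} (hK : IsCompact K) (h0 : ∀ q, q ∉ K → G q = 0) :
    ∃ N : ℝ, 1 ≤ N ∧ ∀ q, |G q| ≤ N ∧ (∀ v, |fderiv ℝ G q v| ≤ N * ‖v‖) ∧
      (∀ v w, |fderiv ℝ (fderiv ℝ G) q v w| ≤ N * ‖v‖ * ‖w‖) := by
  have h1 : ContDiff ℝ 1 (fderiv ℝ G) := hG.fderiv_right (m := 1) (by norm_num)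
  have c0 : Continuous (fun q => ‖G q‖) := hG.continuous.norm
  have c1 : Continuous (fun q => ‖fderiv ℝ G q‖) := h1.continuous.norm
  have c2 : Continuous (fun q => ‖fderiv ℝ (fderiv ℝ G) q‖) :=
    (h1.continuous_fderiv (by norm_num)).norm
  obtain ⟨A, hA⟩ := hK.bddAbove_image c0.continuousOn
  obtain ⟨B, hB⟩ := hK.bddAbove_image c1.continuousOn
  obtain ⟨C, hC⟩ := hK.bddAbove_image c2.continuousOn
  have hA' : ∀ q ∈ K, ‖G q‖ ≤ A := fun q hq => hA (Set.mem_image_of_mem _ hq)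
  have hB' : ∀ q ∈ K, ‖fderiv ℝ G q‖ ≤ B := fun q hq => hB (Set.mem_image_of_mem _ hq)
  have hC' : ∀ q ∈ K, ‖fderiv ℝ (fderiv ℝ G) q‖ ≤ C := fun q hq => hC (Set.mem_image_of_mem _ hq)
  have hN1 : 1 ≤ max 1 (max A (max B C)) := le_max_left _ _
  have hNA : A ≤ max 1 (max A (max B C)) := by simp
  have hNB : B ≤ max 1 (max A (max B C)) := by simp
  have hNC : C ≤ max 1 (max A (max B C)) := by simp
  generalize max 1 (max A (max B C)) = N at hN1 hNA hNB hNC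
  refine ⟨N, hN1, fun q => ?_⟩
  by_cases hq : q ∈ K
  · refine ⟨(hA' q hq).trans hNA, fun v => ?_, fun v w => ?_⟩
    · have := (fderiv ℝ G q).le_opNorm v
      rw [Real.norm_eq_abs] at this
      exact this.trans (mul_le_mul_of_nonneg_right ((hB' q hq).trans hNB) (norm_nonneg _))
    · have := (fderiv ℝ (fderiv ℝ G) q).le_opNorm₂ v w
      rw [Real.norm_eq_abs] at this
      refine this.trans ?_
      have h3 := (hC' q hq).trans hNC
      gcongr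
  · have hU : IsOpen Kᶜ := hK.isClosed.isOpen_compl
    obtain ⟨v0, v1, v2⟩ := vanish_gen hG hU h0 (q := q) (d := 0) (fun η _ _ => by simpa using hq)
    refine ⟨by rw [v0]; simp; linarith, fun v => ?_, fun v w => ?_⟩
    · rw [v1 v]; simp; positivity
    · rw [v2 v w]; simp; positivity

/-- `G` vanishes to second order outside the box -/
theorem Block.vanish {r δ R : ℝ} {Z G : E4 → ℝ} (hB : Block r δ R Z G) {q : E4}
    (hq : 16 ≤ |q.2.1| ∨ |q.2.1| ≤ 1 ∨ R ≤ |q.2.2.1|) :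
    G q = 0 ∧ (∀ v, fderiv ℝ G q v = 0) ∧ ∀ v w, fderiv ℝ (fderiv ℝ G) q v w = 0 := by
  have hR := hB.one_le
  let U : Set E4 := {q | 16 < |q.2.1| ∨ |q.2.1| < 1 ∨ R < |q.2.2.1|}
  have hU : IsOpen U := by
    have c1 : Continuous (fun q : E4 => |q.2.1|) := by fun_prop
    have c2 : Continuous (fun q : E4 => |q.2.2.1|) := by fun_prop
    exact (isOpen_lt continuous_const c1).union
      ((isOpen_lt c1 continuous_const).union (isOpen_lt continuous_const c2))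
  have g0 : ∀ q ∈ U, G q = 0 := by
    rintro ⟨x, s, p, e⟩ h
    apply hB.Gfar
    rcases h with h | h | h
    · exact Or.inl h.le
    · exact Or.inr (Or.inl h.le)
    · exact Or.inr (Or.inr (Or.inr (Or.inl h.le)))
  have hd : ∃ d : E4, ∀ η : ℝ, 0 < η → η < 1 → q + η • d ∈ U := by
    rcases hq with h | h | h
    · refine ⟨(0, q.2.1, 0, 0), fun η h0 h1 => Or.inl ?_⟩
      have e : (q + η • ((0, q.2.1, 0, 0) : E4)).2.1 = (1 + η) * q.2.1 := by
        simp; ring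
      rw [e, abs_mul, abs_of_pos (by linarith : (0:ℝ) < 1 + η)]
      nlinarith
    · refine ⟨(0, -q.2.1, 0, 0), fun η h0 h1 => Or.inr (Or.inl ?_)⟩
      have e : (q + η • ((0, -q.2.1, 0, 0) : E4)).2.1 = (1 - η) * q.2.1 := by
        simp; ring
      rw [e, abs_mul, abs_of_pos (by linarith : (0:ℝ) < 1 - η)]
      have : (1 - η) * |q.2.1| ≤ (1 - η) * 1 := mul_le_mul_of_nonneg_left h (by linarith)
      linarith
    · refine ⟨(0, 0, q.2.2.1, 0), fun η h0 h1 => Or.inr (Or.inr ?_)⟩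
      have e : (q + η • ((0, 0, q.2.2.1, 0) : E4)).2.2.1 = (1 + η) * q.2.2.1 := by
        simp; ring
      rw [e, abs_mul, abs_of_pos (by linarith : (0:ℝ) < 1 + η)]
      have h3 : 0 < |q.2.2.1| := by linarith
      nlinarith
  obtain ⟨d, hd⟩ := hd
  exact vanish_gen (smooth_two hB.smG) hU g0 hd

theorem Block.bounds {r δ R : ℝ} {Z G : E4 → ℝ} (hB : Block r δ R Z G) :
    ∃ N : ℝ, 1 ≤ N ∧ ∀ q, |G q| ≤ N ∧ (∀ v, |fderiv ℝ G q v| ≤ N * ‖v‖) ∧
      (∀ v w, |fderiv ℝ (fderiv ℝ G) q v w| ≤ N * ‖v‖ * ‖w‖) := by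
  have hK : IsCompact (Metric.closedBall (0 : E4) (max R (max 16 (1 + |r|)))) :=
    isCompact_closedBall _ _
  apply bounds_gen (smooth_two hB.smG) hK
  intro q h
  by_contra hne
  apply h
  have hn : ¬ (16 ≤ |q.2.1| ∨ |q.2.1| ≤ 1 ∨ R ≤ |q.1| ∨ R ≤ |q.2.2.1| ∨ r ≤ |q.2.2.2 - 1|) :=
    fun h' => hne (hB.Gfar q.1 q.2.1 q.2.2.1 q.2.2.2 h')
  push Not at hn
  obtain ⟨h1, -, h2, h3, h4⟩ := hn
  have h5 : |q.2.2.2| ≤ 1 + |r| := by
    have := abs_add_le (q.2.2.2 - 1) 1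
    rw [sub_add_cancel, abs_one] at this
    linarith [le_abs_self r]
  rw [mem_closedBall_zero_iff, Prod.norm_def, Prod.norm_def, Prod.norm_def]
  simp only [Real.norm_eq_abs]
  refine max_le (h2.le.trans (le_max_left _ _)) (max_le (h1.le.trans ?_)
    (max_le (h3.le.trans (le_max_left _ _)) (h5.trans ?_)))
  · exact (le_max_left _ _).trans (le_max_right _ _)
  · exact (le_max_right _ _).trans (le_max_right _ _)

/-! ### the inner map -/

noncomputable def qq0 (a H : ℝ) (σ : ℝ → ℝ) (m : E4) : E4 :=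
  ((m.1 - m.2.2.1 * m.2.1) / a, σ m.2.1, m.2.2.1 * H / a, m.2.2.2)

noncomputable def qq1 (a H : ℝ) (σ : ℝ → ℝ) (v m : E4) : E4 :=
  ((v.1 - (v.2.2.1 * m.2.1 + m.2.2.1 * v.2.1)) / a, deriv σ m.2.1 * v.2.1, v.2.2.1 * H / a, v.2.2.2)

noncomputable def qq2 (a : ℝ) (σ : ℝ → ℝ) (v m : E4) : E4 :=
  (-(v.2.2.1 * v.2.1 + v.2.2.1 * v.2.1) / a, deriv (deriv σ) m.2.1 * v.2.1 * v.2.1, 0, 0)

theorem line_comp (m v : E4) (h : ℝ) :
    HasDerivAt (fun h : ℝ => (m + h • v).1) v.1 h ∧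
    HasDerivAt (fun h : ℝ => (m + h • v).2.1) v.2.1 h ∧
    HasDerivAt (fun h : ℝ => (m + h • v).2.2.1) v.2.2.1 h ∧
    HasDerivAt (fun h : ℝ => (m + h • v).2.2.2) v.2.2.2 h := by
  refine ⟨?_, ?_, ?_, ?_⟩
  · simpa using ((hasDerivAt_id h).mul_const v.1).const_add m.1
  · simpa using ((hasDerivAt_id h).mul_const v.2.1).const_add m.2.1
  · simpa using ((hasDerivAt_id h).mul_const v.2.2.1).const_add m.2.2.1
  · simpa using ((hasDerivAt_id h).mul_const v.2.2.2).const_add m.2.2.2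

theorem smooth_deriv {σ : ℝ → ℝ} (hσ : ContDiff ℝ ∞ σ) : ContDiff ℝ ∞ (deriv σ) :=
  (contDiff_infty_iff_deriv.mp hσ).2

theorem smooth_hasDeriv {σ : ℝ → ℝ} (hσ : ContDiff ℝ ∞ σ) (t : ℝ) : HasDerivAt σ (deriv σ t) t :=
  ((hσ.differentiable (by simp)) t).hasDerivAt

theorem comp_line {τ : ℝ → ℝ} (hτ : ContDiff ℝ ∞ τ) (m v : E4) (h : ℝ) :
    HasDerivAt (fun h : ℝ => τ (m + h • v).2.1) (deriv τ (m + h • v).2.1 * v.2.1) h := by
  have := HasDerivAt.comp h (smooth_hasDeriv hτ (m + h • v).2.1) (line_comp m v h).2.1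
  exact this

theorem qq0_line {a H : ℝ} {σ : ℝ → ℝ} (hσ : ContDiff ℝ ∞ σ) (m v : E4) (h : ℝ) :
    HasDerivAt (fun h : ℝ => qq0 a H σ (m + h • v)) (qq1 a H σ v (m + h • v)) h := by
  obtain ⟨h1, h2, h3, h4⟩ := line_comp m v h
  have a1 : HasDerivAt (fun h : ℝ => ((m + h • v).1 - (m + h • v).2.2.1 * (m + h • v).2.1) / a)
      ((v.1 - (v.2.2.1 * (m + h • v).2.1 + (m + h • v).2.2.1 * v.2.1)) / a) h :=
    (h1.sub (h3.mul h2)).div_const a
  have a2 : HasDerivAt (fun h : ℝ => σ (m + h • v).2.1) (deriv σ (m + h • v).2.1 * v.2.1) h :=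
    comp_line hσ m v h
  have a3 : HasDerivAt (fun h : ℝ => (m + h • v).2.2.1 * H / a) (v.2.2.1 * H / a) h :=
    (h3.mul_const H).div_const a
  exact a1.prodMk (a2.prodMk (a3.prodMk h4))

theorem qq1_line {a H : ℝ} {σ : ℝ → ℝ} (hσ : ContDiff ℝ ∞ σ) (m v : E4) (h : ℝ) :
    HasDerivAt (fun h : ℝ => qq1 a H σ v (m + h • v)) (qq2 a σ v (m + h • v)) h := by
  obtain ⟨h1, h2, h3, h4⟩ := line_comp m v h
  have a1 : HasDerivAt (fun h : ℝ =>
      (v.1 - (v.2.2.1 * (m + h • v).2.1 + (m + h • v).2.2.1 * v.2.1)) / a)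
      (-(v.2.2.1 * v.2.1 + v.2.2.1 * v.2.1) / a) h := by
    have := (((h2.const_mul v.2.2.1).add (h3.mul_const v.2.1)).const_sub v.1).div_const a
    simpa using this
  have a2 : HasDerivAt (fun h : ℝ => deriv σ (m + h • v).2.1 * v.2.1)
      (deriv (deriv σ) (m + h • v).2.1 * v.2.1 * v.2.1) h :=
    (comp_line (smooth_deriv hσ) m v h).mul_const v.2.1
  have a3 : HasDerivAt (fun _ : ℝ => v.2.2.1 * H / a) 0 h := hasDerivAt_const h _
  have a4 : HasDerivAt (fun _ : ℝ => v.2.2.2) 0 h := hasDerivAt_const h _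
  exact a1.prodMk (a2.prodMk (a3.prodMk a4))

theorem Klev_smooth {G : E4 → ℝ} (hG : ContDiff ℝ ∞ G) {a H : ℝ} {σ : ℝ → ℝ}
    (hσ : ContDiff ℝ ∞ σ) : ContDiff ℝ ∞ (Klev G a H σ) := by
  have hσ' := smooth_deriv hσ
  have c1 : ContDiff ℝ ∞ (fun m : E4 => m.1) := contDiff_fst
  have c2 : ContDiff ℝ ∞ (fun m : E4 => m.2.1) := contDiff_fst.comp contDiff_snd
  have c3 : ContDiff ℝ ∞ (fun m : E4 => m.2.2.1) :=
    contDiff_fst.comp (contDiff_snd.comp contDiff_snd)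
  have c4 : ContDiff ℝ ∞ (fun m : E4 => m.2.2.2) :=
    contDiff_snd.comp (contDiff_snd.comp contDiff_snd)
  have c5 : ContDiff ℝ ∞ (fun m : E4 =>
      (((m.1 - m.2.2.1 * m.2.1) / a, σ m.2.1, m.2.2.1 * H / a, m.2.2.2) : E4)) :=
    ((c1.sub (c3.mul c2)).div_const a).prodMk
      ((hσ.comp c2).prodMk (((c3.mul contDiff_const).div_const a).prodMk c4))
  exact (contDiff_const.mul (hσ'.comp c2)).mul (hG.comp c5)

/-- first derivative of the level Hamiltonian -/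
theorem Klev_fderiv {G : E4 → ℝ} (hG : ContDiff ℝ ∞ G) {a H : ℝ} {σ : ℝ → ℝ}
    (hσ : ContDiff ℝ ∞ σ) (m v : E4) :
    fderiv ℝ (Klev G a H σ) m v =
      a ^ 2 / H * (deriv (deriv σ) m.2.1 * v.2.1 * G (qq0 a H σ m)
        + deriv σ m.2.1 * fderiv ℝ G (qq0 a H σ m) (qq1 a H σ v m)) := by
  have e0 : m + (0 : ℝ) • v = m := by simp
  have h3 : HasDerivAt (fun h : ℝ => m + h • v) v 0 := by
    simpa using ((hasDerivAt_id (0 : ℝ)).smul_const v).const_add m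
  have hk : HasFDerivAt (Klev G a H σ) (fderiv ℝ (Klev G a H σ) m) (m + (0 : ℝ) • v) := by
    rw [e0]
    exact ((Klev_smooth hG hσ).differentiable (by simp)).differentiableAt.hasFDerivAt
  have k1 : HasDerivAt (fun h : ℝ => Klev G a H σ (m + h • v)) (fderiv ℝ (Klev G a H σ) m v) 0 :=
    comp_curve hk h3 (by simp)
  have hg : HasFDerivAt G (fderiv ℝ G (qq0 a H σ m)) (qq0 a H σ (m + (0 : ℝ) • v)) := by
    rw [e0]
    exact (hG.differentiable (by simp)).differentiableAt.hasFDerivAt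
  have g1 : HasDerivAt (fun h : ℝ => G (qq0 a H σ (m + h • v)))
      (fderiv ℝ G (qq0 a H σ m) (qq1 a H σ v (m + (0:ℝ) • v))) 0 :=
    hg.comp_hasDerivAt (0 : ℝ) (qq0_line hσ m v 0)
  have s1 : HasDerivAt (fun h : ℝ => deriv σ (m + h • v).2.1)
      (deriv (deriv σ) (m + (0:ℝ) • v).2.1 * v.2.1) 0 :=
    comp_line (smooth_deriv hσ) m v 0
  have k2 := (s1.const_mul (a ^ 2 / H)).mul g1
  rw [e0] at k2
  have k3 := k1.unique k2
  rw [k3]
  ring

/-- second derivative of the level Hamiltonian -/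
theorem Klev_D2 {G : E4 → ℝ} (hG : ContDiff ℝ ∞ G) {a H : ℝ} {σ : ℝ → ℝ}
    (hσ : ContDiff ℝ ∞ σ) (m v : E4) :
    D2 (Klev G a H σ) m v =
      a ^ 2 / H * (deriv (deriv (deriv σ)) m.2.1 * v.2.1 * v.2.1 * G (qq0 a H σ m)
        + 2 * (deriv (deriv σ) m.2.1 * v.2.1) * fderiv ℝ G (qq0 a H σ m) (qq1 a H σ v m)
        + deriv σ m.2.1 * (fderiv ℝ (fderiv ℝ G) (qq0 a H σ m) (qq1 a H σ v m) (qq1 a H σ v m)
          + fderiv ℝ G (qq0 a H σ m) (qq2 a σ v m))) := by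
  have e0 : m + (0 : ℝ) • v = m := by simp
  have hK2 : ContDiff ℝ 2 (Klev G a H σ) := smooth_two (Klev_smooth hG hσ)
  have k1 := D2_line hK2 m v
  have hG2 : ContDiff ℝ 2 G := smooth_two hG
  have hG1 : ContDiff ℝ 1 (fderiv ℝ G) := hG2.fderiv_right (m := 1) (by norm_num)
  have hfun : (fun h : ℝ => fderiv ℝ (Klev G a H σ) (m + h • v) v) = fun h : ℝ =>
      a ^ 2 / H * (deriv (deriv σ) (m + h • v).2.1 * v.2.1 * G (qq0 a H σ (m + h • v))
        + deriv σ (m + h • v).2.1 *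
          fderiv ℝ G (qq0 a H σ (m + h • v)) (qq1 a H σ v (m + h • v))) := by
    funext h
    exact Klev_fderiv hG hσ (m + h • v) v
  rw [hfun] at k1
  have hg : HasFDerivAt G (fderiv ℝ G (qq0 a H σ m)) (qq0 a H σ (m + (0 : ℝ) • v)) := by
    rw [e0]
    exact (hG.differentiable (by simp)).differentiableAt.hasFDerivAt
  have g1 : HasDerivAt (fun h : ℝ => G (qq0 a H σ (m + h • v)))
      (fderiv ℝ G (qq0 a H σ m) (qq1 a H σ v (m + (0:ℝ) • v))) 0 :=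
    hg.comp_hasDerivAt (0 : ℝ) (qq0_line hσ m v 0)
  have hg' : HasFDerivAt (fderiv ℝ G) (fderiv ℝ (fderiv ℝ G) (qq0 a H σ m))
      (qq0 a H σ (m + (0 : ℝ) • v)) := by
    rw [e0]
    exact (hG1.differentiable (by norm_num)).differentiableAt.hasFDerivAt
  have g2 : HasDerivAt (fun h : ℝ => fderiv ℝ G (qq0 a H σ (m + h • v)))
      (fderiv ℝ (fderiv ℝ G) (qq0 a H σ m) (qq1 a H σ v (m + (0:ℝ) • v))) 0 :=
    hg'.comp_hasDerivAt (0 : ℝ) (qq0_line hσ m v 0)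
  have g3 := g2.clm_apply (qq1_line (a := a) (H := H) hσ m v 0)
  have s1 : HasDerivAt (fun h : ℝ => deriv σ (m + h • v).2.1)
      (deriv (deriv σ) (m + (0:ℝ) • v).2.1 * v.2.1) 0 :=
    comp_line (smooth_deriv hσ) m v 0
  have s2 : HasDerivAt (fun h : ℝ => deriv (deriv σ) (m + h • v).2.1)
      (deriv (deriv (deriv σ)) (m + (0:ℝ) • v).2.1 * v.2.1) 0 :=
    comp_line (smooth_deriv (smooth_deriv hσ)) m v 0
  have k2 := (((s2.mul_const v.2.1).mul g1).add (s1.mul g3)).const_mul (a ^ 2 / H)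
  rw [e0] at k2
  have k3 := k1.unique k2
  rw [k3]
  ring


theorem comp_le_norm (v : E4) : |v.1| ≤ ‖v‖ ∧ |v.2.1| ≤ ‖v‖ ∧ |v.2.2.1| ≤ ‖v‖ ∧ |v.2.2.2| ≤ ‖v‖ := by
  have h1 := norm_fst_le v
  have h2 := norm_snd_le v
  have h3 := norm_fst_le v.2
  have h4 := norm_snd_le v.2
  have h5 := norm_fst_le v.2.2
  have h6 := norm_snd_le v.2.2
  simp only [Real.norm_eq_abs] at *
  exact ⟨h1, h3.trans h2, h5.trans (h4.trans h2), h6.trans (h4.trans h2)⟩

theorem norm_le_of {v : E4} {c : ℝ} (h1 : |v.1| ≤ c) (h2 : |v.2.1| ≤ c) (h3 : |v.2.2.1| ≤ c)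
    (h4 : |v.2.2.2| ≤ c) : ‖v‖ ≤ c := by
  rw [Prod.norm_def, Prod.norm_def, Prod.norm_def]
  simp only [Real.norm_eq_abs]
  exact max_le h1 (max_le h2 (max_le h3 h4))

/-- norm of the first derivative of the inner map -/
theorem qq1_norm {R C1 a H : ℝ} {σ : ℝ → ℝ} (hR : 0 ≤ R) (hC1 : 0 ≤ C1) (hH : 1 ≤ H) (ha : 0 < a)
    (ha1 : a ≤ 1) {m v : E4} (ht : |m.2.1| ≤ 16 * H) (hp : |m.2.2.1| ≤ R)
    (hs : |deriv σ m.2.1| ≤ C1 / H) :
    ‖qq1 a H σ v m‖ ≤ (17 + R + C1) * (H / a) * ‖v‖ := by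
  obtain ⟨v1, v2, v3, v4⟩ := comp_le_norm v
  have hn := norm_nonneg v
  have hHa : 1 ≤ H / a := by
    rw [le_div_iff₀ ha]; linarith
  have hC : C1 / H ≤ C1 * (H / a) := by
    have h1 : C1 / H ≤ C1 := div_le_self hC1 hH
    have h2 : C1 * 1 ≤ C1 * (H / a) := mul_le_mul_of_nonneg_left hHa hC1
    linarith
  have hpos : 0 ≤ H / a := by linarith
  refine norm_le_of ?_ ?_ ?_ ?_
  · have e : (qq1 a H σ v m).1 = (v.1 - (v.2.2.1 * m.2.1 + m.2.2.1 * v.2.1)) / a := rfl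
    rw [e, abs_div, abs_of_pos ha, div_le_iff₀ ha]
    have e2 : (17 + R + C1) * (H / a) * ‖v‖ * a = (17 + R + C1) * H * ‖v‖ := by
      field_simp
    rw [e2]
    have b1 : |v.2.2.1 * m.2.1| ≤ ‖v‖ * (16 * H) := by
      rw [abs_mul]; exact mul_le_mul v3 ht (abs_nonneg _) hn
    have b2 : |m.2.2.1 * v.2.1| ≤ R * ‖v‖ := by
      rw [abs_mul]; exact mul_le_mul hp v2 (abs_nonneg _) hR
    have b3 := abs_sub v.1 (v.2.2.1 * m.2.1 + m.2.2.1 * v.2.1)
    have b4 := abs_add_le (v.2.2.1 * m.2.1) (m.2.2.1 * v.2.1)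
    have b5 : ‖v‖ ≤ H * ‖v‖ := by nlinarith
    have b6 : R * ‖v‖ ≤ R * (H * ‖v‖) := mul_le_mul_of_nonneg_left b5 hR
    have b7 : 0 ≤ C1 * (H * ‖v‖) := by positivity
    nlinarith
  · have e : (qq1 a H σ v m).2.1 = deriv σ m.2.1 * v.2.1 := rfl
    rw [e, abs_mul]
    have b1 : |deriv σ m.2.1| * |v.2.1| ≤ (C1 * (H / a)) * ‖v‖ :=
      mul_le_mul (hs.trans hC) v2 (abs_nonneg _) (by positivity)
    have b2 : 0 ≤ (17 + R) * (H / a) * ‖v‖ := by positivity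
    nlinarith
  · have e : (qq1 a H σ v m).2.2.1 = v.2.2.1 * H / a := rfl
    rw [e, mul_div_assoc, abs_mul, abs_of_nonneg hpos]
    have b1 : |v.2.2.1| * (H / a) ≤ ‖v‖ * (H / a) := mul_le_mul_of_nonneg_right v3 hpos
    have b2 : 0 ≤ (16 + R + C1) * (H / a) * ‖v‖ := by positivity
    nlinarith
  · have e : (qq1 a H σ v m).2.2.2 = v.2.2.2 := rfl
    rw [e]
    have b1 : ‖v‖ ≤ (H / a) * ‖v‖ := by nlinarith
    have b2 : 0 ≤ (16 + R + C1) * (H / a) * ‖v‖ := by positivity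
    nlinarith

/-- the small part of the first derivative of the inner map -/
noncomputable def qqB (a : ℝ) (σ : ℝ → ℝ) (v m : E4) : E4 :=
  ((v.1 - m.2.2.1 * v.2.1) / a, deriv σ m.2.1 * v.2.1, 0, v.2.2.2)

theorem qqB_norm {R C1 a H : ℝ} {σ : ℝ → ℝ} (hR : 0 ≤ R) (hC1 : 0 ≤ C1) (hH : 1 ≤ H) (ha : 0 < a)
    (ha1 : a ≤ 1) {m v : E4} (hp : |m.2.2.1| ≤ R) (hs : |deriv σ m.2.1| ≤ C1 / H) :
    ‖qqB a σ v m‖ ≤ (17 + R + C1) / a * ‖v‖ := by
  obtain ⟨v1, v2, v3, v4⟩ := comp_le_norm v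
  have hn := norm_nonneg v
  have hC : C1 / H ≤ C1 := div_le_self hC1 hH
  have hk : 17 + R + C1 ≤ (17 + R + C1) / a := by
    rw [le_div_iff₀ ha]; nlinarith
  refine norm_le_of ?_ ?_ ?_ ?_
  · have e : (qqB a σ v m).1 = (v.1 - m.2.2.1 * v.2.1) / a := rfl
    rw [e, abs_div, abs_of_pos ha, div_le_iff₀ ha]
    have e2 : (17 + R + C1) / a * ‖v‖ * a = (17 + R + C1) * ‖v‖ := by
      field_simp
    rw [e2]
    have b2 : |m.2.2.1 * v.2.1| ≤ R * ‖v‖ := by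
      rw [abs_mul]; exact mul_le_mul hp v2 (abs_nonneg _) hR
    have b3 := abs_sub v.1 (m.2.2.1 * v.2.1)
    have b7 : 0 ≤ C1 * ‖v‖ := by positivity
    nlinarith
  · have e : (qqB a σ v m).2.1 = deriv σ m.2.1 * v.2.1 := rfl
    rw [e, abs_mul]
    have b1 : |deriv σ m.2.1| * |v.2.1| ≤ C1 * ‖v‖ :=
      mul_le_mul (hs.trans hC) v2 (abs_nonneg _) (by positivity)
    have b2 : (17 + R + C1) * ‖v‖ ≤ (17 + R + C1) / a * ‖v‖ := mul_le_mul_of_nonneg_right hk hn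
    have b3 : 0 ≤ (17 + R) * ‖v‖ := by positivity
    nlinarith
  · have e : (qqB a σ v m).2.2.1 = 0 := rfl
    rw [e, abs_zero]
    positivity
  · have e : (qqB a σ v m).2.2.2 = v.2.2.2 := rfl
    rw [e]
    have b2 : (17 + R + C1) * ‖v‖ ≤ (17 + R + C1) / a * ‖v‖ := mul_le_mul_of_nonneg_right hk hn
    have b3 : 0 ≤ (16 + R + C1) * ‖v‖ := by positivity
    nlinarith

theorem qq1_split {a H : ℝ} {σ : ℝ → ℝ} (ha : 0 < a) (hH : 0 < H) (m v : E4) :
    qq1 a H σ v m = (H / a * v.2.2.1) • ((- m.2.1 / H, 0, 1, 0) : E4) + qqB a σ v m := by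
  simp only [qq1, qqB, Prod.smul_mk, Prod.mk_add_mk, smul_eq_mul]
  ext
  · simp only
    field_simp
    ring
  · simp
  · simp only
    field_simp
    ring
  · simp

theorem qq2_norm {C1 a H : ℝ} {σ : ℝ → ℝ} (hC1 : 0 ≤ C1) (hH : 1 ≤ H) (ha : 0 < a)
    {m v : E4} (hs : |deriv (deriv σ) m.2.1| ≤ C1 / H) :
    ‖qq2 a σ v m‖ ≤ (2 / a + C1 / H) * ‖v‖ ^ 2 := by
  obtain ⟨v1, v2, v3, v4⟩ := comp_le_norm v
  have hn := norm_nonneg v
  have h0 : 0 ≤ C1 / H := by positivity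
  refine norm_le_of ?_ ?_ ?_ ?_
  · have e : (qq2 a σ v m).1 = -(v.2.2.1 * v.2.1 + v.2.2.1 * v.2.1) / a := rfl
    rw [e, abs_div, abs_of_pos ha, div_le_iff₀ ha, abs_neg]
    have e2 : (2 / a + C1 / H) * ‖v‖ ^ 2 * a = 2 * ‖v‖ ^ 2 + C1 / H * ‖v‖ ^ 2 * a := by
      field_simp
    rw [e2]
    have b1 : |v.2.2.1 * v.2.1| ≤ ‖v‖ * ‖v‖ := by
      rw [abs_mul]; exact mul_le_mul v3 v2 (abs_nonneg _) hn
    have b2 := abs_add_le (v.2.2.1 * v.2.1) (v.2.2.1 * v.2.1)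
    have b3 : 0 ≤ C1 / H * ‖v‖ ^ 2 * a := by positivity
    nlinarith
  · have e : (qq2 a σ v m).2.1 = deriv (deriv σ) m.2.1 * v.2.1 * v.2.1 := rfl
    rw [e, abs_mul, abs_mul]
    have b0 : |deriv (deriv σ) m.2.1| * |v.2.1| ≤ C1 / H * ‖v‖ :=
      mul_le_mul hs v2 (abs_nonneg _) h0
    have b1 : |deriv (deriv σ) m.2.1| * |v.2.1| * |v.2.1| ≤ C1 / H * ‖v‖ * ‖v‖ :=
      mul_le_mul b0 v2 (abs_nonneg _) (by positivity)
    have b3 : 0 ≤ 2 / a * ‖v‖ ^ 2 := by positivity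
    nlinarith
  · have e : (qq2 a σ v m).2.2.1 = 0 := rfl
    rw [e, abs_zero]; positivity
  · have e : (qq2 a σ v m).2.2.2 = 0 := rfl
    rw [e, abs_zero]; positivity

/-- the quadratic form of `G` at the direction of the inner map -/
theorem quad_bound {q w w' B : E4} {F2 : E4 →L[ℝ] E4 →L[ℝ] ℝ} {N δ ε κ c : ℝ} (hN : 1 ≤ N)
    (hF : ∀ v w, |F2 v w| ≤ N * ‖v‖ * ‖w‖) (hw : ‖w‖ ≤ 16) (hw' : ‖w'‖ ≤ 16)
    (hd : ‖w - w'‖ ≤ ε) (hε : 32 * N * ε ≤ δ) (hcost : |F2 w' w'| ≤ δ) (hB : ‖B‖ ≤ κ)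
    (hκ : 0 ≤ κ) :
    |F2 (c • w + B) (c • w + B)| ≤ c ^ 2 * (2 * δ) + 32 * N * |c| * κ + N * κ ^ 2 := by
  have e1 : F2 (c • w + B) (c • w + B) = c ^ 2 * F2 w w + c * F2 w B + c * F2 B w + F2 B B := by
    simp only [map_add, map_smul, ContinuousLinearMap.add_apply, ContinuousLinearMap.smul_apply,
      smul_eq_mul]
    ring
  have e2 : F2 w w = F2 w' w' + F2 (w - w') w + F2 w' (w - w') := by
    simp only [map_sub, ContinuousLinearMap.sub_apply]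
    ring
  have hεn : 0 ≤ ε := (norm_nonneg _).trans hd
  have b1 : |F2 (w - w') w| ≤ N * ε * 16 := by
    refine (hF _ _).trans ?_
    have : N * ‖w - w'‖ ≤ N * ε := mul_le_mul_of_nonneg_left hd (by linarith)
    exact mul_le_mul this hw (norm_nonneg _) (by positivity)
  have b2 : |F2 w' (w - w')| ≤ N * 16 * ε := by
    refine (hF _ _).trans ?_
    have : N * ‖w'‖ ≤ N * 16 := mul_le_mul_of_nonneg_left hw' (by linarith)
    exact mul_le_mul this hd (norm_nonneg _) (by positivity)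
  have b3 : |F2 w w| ≤ 2 * δ := by
    rw [e2]
    have h1 := abs_add_le (F2 w' w' + F2 (w - w') w) (F2 w' (w - w'))
    have h2 := abs_add_le (F2 w' w') (F2 (w - w') w)
    nlinarith
  have b4 : |F2 w B| ≤ N * 16 * κ := by
    refine (hF _ _).trans ?_
    have : N * ‖w‖ ≤ N * 16 := mul_le_mul_of_nonneg_left hw (by linarith)
    exact mul_le_mul this hB (norm_nonneg _) (by positivity)
  have b5 : |F2 B w| ≤ N * κ * 16 := by
    refine (hF _ _).trans ?_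
    have : N * ‖B‖ ≤ N * κ := mul_le_mul_of_nonneg_left hB (by linarith)
    exact mul_le_mul this hw (norm_nonneg _) (by positivity)
  have b6 : |F2 B B| ≤ N * κ * κ := by
    refine (hF _ _).trans ?_
    have : N * ‖B‖ ≤ N * κ := mul_le_mul_of_nonneg_left hB (by linarith)
    exact mul_le_mul this hB (norm_nonneg _) (by positivity)
  rw [e1]
  have h1 := abs_add_le (c ^ 2 * F2 w w + c * F2 w B + c * F2 B w) (F2 B B)
  have h2 := abs_add_le (c ^ 2 * F2 w w + c * F2 w B) (c * F2 B w)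
  have h3 := abs_add_le (c ^ 2 * F2 w w) (c * F2 w B)
  rw [abs_mul (c ^ 2), abs_mul c, abs_of_nonneg (sq_nonneg c)] at h3
  rw [abs_mul c (F2 B w)] at h2
  have h4 : c ^ 2 * |F2 w w| ≤ c ^ 2 * (2 * δ) := mul_le_mul_of_nonneg_left b3 (sq_nonneg c)
  have h5 : |c| * |F2 w B| ≤ |c| * (N * 16 * κ) := mul_le_mul_of_nonneg_left b4 (abs_nonneg c)
  have h6 : |c| * |F2 B w| ≤ |c| * (N * κ * 16) := mul_le_mul_of_nonneg_left b5 (abs_nonneg c)
  nlinarith

theorem level_bound {r δ R : ℝ} {Z G : E4 → ℝ} (hB : Block r δ R Z G) {C1 : ℝ} (hC1 : 0 < C1)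
    (hδ : 0 < δ) :
    ∃ ε M : ℝ, 0 < ε ∧ 1 ≤ M ∧ ∀ (H a : ℝ) (good : ℤ → Prop) (σ : ℝ → ℝ),
      1 ≤ H → 0 < a → a ≤ 1 → Clock C1 H ε good σ → ∀ m : E4,
        |Klev G a H σ m| ≤ M * a ∧
        (∀ v, |fderiv ℝ (Klev G a H σ) m v| ≤ M * a * ‖v‖) ∧
        (∀ v, |D2 (Klev G a H σ) m v| ≤ (2 * C1 * δ + M * (1 / H + a)) * ‖v‖ ^ 2) := by
  obtain ⟨N, hN, hNb⟩ := hB.bounds
  have hR := hB.one_le
  set κ : ℝ := 17 + R + C1 with hκ
  have hκ1 : 1 ≤ κ := by rw [hκ]; linarith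
  have hκ0 : 0 ≤ κ := by linarith
  refine ⟨δ / (32 * N), 1 + C1 * N * (3 + C1 + 34 * κ + κ ^ 2), by positivity, ?_, ?_⟩
  · have : 0 ≤ C1 * N * (3 + C1 + 34 * κ + κ ^ 2) := by positivity
    linarith
  intro H a good σ hH ha ha1 hCl m
  set M : ℝ := 1 + C1 * N * (3 + C1 + 34 * κ + κ ^ 2) with hM
  have hH0 : 0 < H := by linarith
  have hMpos : 0 < M := by
    have : 0 ≤ C1 * N * (3 + C1 + 34 * κ + κ ^ 2) := by positivity
    rw [hM]; linarith
  have hσ := hCl.sm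
  by_cases hv : 16 ≤ |(qq0 a H σ m).2.1| ∨ |(qq0 a H σ m).2.1| ≤ 1 ∨ R ≤ |(qq0 a H σ m).2.2.1|
  · obtain ⟨z0, z1, z2⟩ := hB.vanish hv
    refine ⟨?_, fun v => ?_, fun v => ?_⟩
    · have : Klev G a H σ m = a ^ 2 / H * deriv σ m.2.1 * G (qq0 a H σ m) := rfl
      rw [this, z0]
      simp
      positivity
    · rw [Klev_fderiv hB.smG hσ, z0, z1]
      simp
      positivity
    · rw [Klev_D2 hB.smG hσ, z0, z1, z1, z2]
      simp
      positivity
  push Not at hv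
  obtain ⟨hv1, hv2, hv3⟩ := hv
  have hv1' : |σ m.2.1| < 16 := hv1
  have hv2' : 1 < |σ m.2.1| := hv2
  have ht : |m.2.1| ≤ 16 * H := by
    by_contra h
    push Not at h
    exact absurd (hCl.far m.2.1 h.le) (not_le.mpr hv1')
  have hp : |m.2.2.1| ≤ R := by
    have h1 : |m.2.2.1 * H / a| < R := hv3
    rw [abs_div, abs_mul, abs_of_pos ha, abs_of_pos hH0, div_lt_iff₀ ha] at h1
    have h2 : |m.2.2.1| ≤ |m.2.2.1| * H := by nlinarith [abs_nonneg m.2.2.1]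
    have h3 : R * a ≤ R := by nlinarith
    linarith
  have s1 := hCl.b1 m.2.1
  have s2 := hCl.b2 m.2.1
  have s3 := hCl.b3 m.2.1
  obtain ⟨g0, g1, g2⟩ := hNb (qq0 a H σ m)
  have haH : 0 < a ^ 2 / H := by positivity
  have hCH : 0 < C1 / H := by positivity
  -- elementary inequalities
  have i1 : a / H ≤ a := div_le_self ha.le hH
  have hH2 : 1 ≤ H ^ 2 := one_le_pow₀ hH
  have hH3 : 1 ≤ H ^ 3 := one_le_pow₀ hH
  have haa : a ^ 2 ≤ a := by nlinarith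
  have i2 : a ^ 2 / H ^ 2 ≤ a := (div_le_self (by positivity) hH2).trans haa
  have i3 : a / H ^ 2 ≤ a := div_le_self ha.le hH2
  have i4 : a ^ 2 / H ^ 3 ≤ a := (div_le_self (by positivity) hH3).trans haa
  have i5 : 1 / H ^ 2 ≤ 1 / H := by
    apply one_div_le_one_div_of_le hH0
    nlinarith
  refine ⟨?_, fun v => ?_, fun v => ?_⟩
  · have e : Klev G a H σ m = a ^ 2 / H * deriv σ m.2.1 * G (qq0 a H σ m) := rfl
    rw [e, abs_mul, abs_mul, abs_of_pos haH]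
    have h1 : a ^ 2 / H * |deriv σ m.2.1| ≤ a ^ 2 / H * (C1 / H) := mul_le_mul_of_nonneg_left s1 haH.le
    have h2 : a ^ 2 / H * |deriv σ m.2.1| * |G (qq0 a H σ m)| ≤ a ^ 2 / H * (C1 / H) * N :=
      mul_le_mul h1 g0 (abs_nonneg _) (by positivity)
    have h3 : a ^ 2 / H * (C1 / H) * N = C1 * N * (a ^ 2 / H ^ 2) := by
      field_simp
    have h4 : C1 * N * (a ^ 2 / H ^ 2) ≤ C1 * N * a := mul_le_mul_of_nonneg_left i2 (by positivity)
    have h5 : C1 * N * a ≤ M * a := by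
      apply mul_le_mul_of_nonneg_right _ ha.le
      rw [hM]
      have : 0 ≤ C1 * N * (2 + C1 + 34 * κ + κ ^ 2) := by positivity
      linarith
    linarith
  · obtain ⟨v1, v2, v3, v4⟩ := comp_le_norm v
    have hn := norm_nonneg v
    have hq1 : ‖qq1 a H σ v m‖ ≤ κ * (H / a) * ‖v‖ :=
      qq1_norm (by linarith) hC1.le hH ha ha1 ht hp s1
    rw [Klev_fderiv hB.smG hσ, abs_mul, abs_of_pos haH]
    have b1 : |deriv (deriv σ) m.2.1 * v.2.1 * G (qq0 a H σ m)| ≤ C1 / H * ‖v‖ * N := by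
      rw [abs_mul, abs_mul]
      exact mul_le_mul (mul_le_mul s2 v2 (abs_nonneg _) hCH.le) g0 (abs_nonneg _) (by positivity)
    have b2 : |deriv σ m.2.1 * fderiv ℝ G (qq0 a H σ m) (qq1 a H σ v m)| ≤
        C1 / H * (N * (κ * (H / a) * ‖v‖)) := by
      rw [abs_mul]
      exact mul_le_mul s1 ((g1 _).trans (mul_le_mul_of_nonneg_left hq1 (by linarith)))
        (abs_nonneg _) hCH.le
    have b3 := abs_add_le (deriv (deriv σ) m.2.1 * v.2.1 * G (qq0 a H σ m))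
      (deriv σ m.2.1 * fderiv ℝ G (qq0 a H σ m) (qq1 a H σ v m))
    have b4 : a ^ 2 / H * |deriv (deriv σ) m.2.1 * v.2.1 * G (qq0 a H σ m) +
        deriv σ m.2.1 * fderiv ℝ G (qq0 a H σ m) (qq1 a H σ v m)| ≤
        a ^ 2 / H * (C1 / H * ‖v‖ * N + C1 / H * (N * (κ * (H / a) * ‖v‖))) :=
      mul_le_mul_of_nonneg_left (by linarith) haH.le
    have b5 : a ^ 2 / H * (C1 / H * ‖v‖ * N + C1 / H * (N * (κ * (H / a) * ‖v‖))) =
        C1 * N * (a ^ 2 / H ^ 2) * ‖v‖ + C1 * N * κ * (a / H) * ‖v‖ := by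
      field_simp
    have b6 : C1 * N * (a ^ 2 / H ^ 2) * ‖v‖ ≤ C1 * N * a * ‖v‖ :=
      mul_le_mul_of_nonneg_right (mul_le_mul_of_nonneg_left i2 (by positivity)) hn
    have b7 : C1 * N * κ * (a / H) * ‖v‖ ≤ C1 * N * κ * a * ‖v‖ :=
      mul_le_mul_of_nonneg_right (mul_le_mul_of_nonneg_left i1 (by positivity)) hn
    have b8 : (C1 * N + C1 * N * κ) * (a * ‖v‖) ≤ M * (a * ‖v‖) := by
      apply mul_le_mul_of_nonneg_right _ (by positivity)
      rw [hM]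
      have : 0 ≤ C1 * N * (2 + C1 + 33 * κ + κ ^ 2) := by positivity
      linarith
    calc _ ≤ _ := b4
      _ = _ := b5
      _ ≤ C1 * N * a * ‖v‖ + C1 * N * κ * a * ‖v‖ := add_le_add b6 b7
      _ = (C1 * N + C1 * N * κ) * (a * ‖v‖) := by ring
      _ ≤ M * (a * ‖v‖) := b8
      _ = M * a * ‖v‖ := by ring
  · obtain ⟨v1, v2, v3, v4⟩ := comp_le_norm v
    have hn := norm_nonneg v
    have hq1 : ‖qq1 a H σ v m‖ ≤ κ * (H / a) * ‖v‖ :=
      qq1_norm (by linarith) hC1.le hH ha ha1 ht hp s1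
    have hq2 : ‖qq2 a σ v m‖ ≤ (2 / a + C1 / H) * ‖v‖ ^ 2 := qq2_norm hC1.le hH ha s2
    have hqB : ‖qqB a σ v m‖ ≤ κ / a * ‖v‖ := qqB_norm (by linarith) hC1.le hH ha ha1 hp s1
    rw [Klev_D2 hB.smG hσ, abs_mul, abs_of_pos haH]
    -- the main term
    have c3 : |deriv σ m.2.1 * fderiv ℝ (fderiv ℝ G) (qq0 a H σ m) (qq1 a H σ v m) (qq1 a H σ v m)| ≤
        C1 / H * ((H / a * ‖v‖) ^ 2 * (2 * δ) + 32 * N * (H / a * ‖v‖) * (κ / a * ‖v‖)
          + N * (κ / a * ‖v‖) ^ 2) := by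
      by_cases hs0 : deriv σ m.2.1 = 0
      · rw [hs0]
        simp only [zero_mul, abs_zero]
        positivity
      rw [abs_mul]
      refine mul_le_mul s1 ?_ (abs_nonneg _) hCH.le
      have hnear : |σ m.2.1 - m.2.1 / H| ≤ δ / (32 * N) := by
        rcases hCl.near m.2.1 hs0 with h | h
        · exact absurd h (not_le.mpr hv2')
        · exact h
      have hw : ‖((- m.2.1 / H, 0, 1, 0) : E4)‖ ≤ 16 := by
        refine norm_le_of ?_ ?_ ?_ ?_
        · simp only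
          rw [abs_div, abs_neg, abs_of_pos hH0, div_le_iff₀ hH0]
          exact ht
        · simp
        · simp
        · simp
      have hw' : ‖((- (qq0 a H σ m).2.1, 0, 1, 0) : E4)‖ ≤ 16 := by
        refine norm_le_of ?_ ?_ ?_ ?_
        · simp only [abs_neg]
          exact hv1.le
        · simp
        · simp
        · simp
      have hd : ‖((- m.2.1 / H, 0, 1, 0) : E4) - ((- (qq0 a H σ m).2.1, 0, 1, 0) : E4)‖
          ≤ δ / (32 * N) := by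
        have hpos : 0 ≤ δ / (32 * N) := by positivity
        refine norm_le_of ?_ ?_ ?_ ?_
        · have e : (((- m.2.1 / H, 0, 1, 0) : E4) - ((- (qq0 a H σ m).2.1, 0, 1, 0) : E4)).1
              = σ m.2.1 - m.2.1 / H := by
            simp [qq0]
            ring
          rw [e]
          exact hnear
        · simpa using hpos
        · simpa using hpos
        · simpa using hpos
      have hcost := hB.cost (qq0 a H σ m)
      have hε : 32 * N * (δ / (32 * N)) ≤ δ := by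
        rw [mul_div_cancel₀ _ (by positivity)]
      have hmain := quad_bound (q := qq0 a H σ m) (c := H / a * v.2.2.1) hN g2 hw hw' hd hε hcost hqB
        (by positivity)
      rw [← qq1_split ha hH0] at hmain
      refine hmain.trans ?_
      have hc : |H / a * v.2.2.1| ≤ H / a * ‖v‖ := by
        rw [abs_mul, abs_of_pos (by positivity : 0 < H / a)]
        exact mul_le_mul_of_nonneg_left v3 (by positivity)
      have hc2 : (H / a * v.2.2.1) ^ 2 ≤ (H / a * ‖v‖) ^ 2 := by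
        rw [← sq_abs (H / a * v.2.2.1)]
        exact pow_le_pow_left₀ (abs_nonneg _) hc 2
      have hc3 : (H / a * v.2.2.1) ^ 2 * (2 * δ) ≤ (H / a * ‖v‖) ^ 2 * (2 * δ) :=
        mul_le_mul_of_nonneg_right hc2 (by positivity)
      have hc4 : 32 * N * |H / a * v.2.2.1| * (κ / a * ‖v‖) ≤
          32 * N * (H / a * ‖v‖) * (κ / a * ‖v‖) :=
        mul_le_mul_of_nonneg_right (mul_le_mul_of_nonneg_left hc (by positivity)) (by positivity)
      linarith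
    have c1 : |deriv (deriv (deriv σ)) m.2.1 * v.2.1 * v.2.1 * G (qq0 a H σ m)| ≤
        C1 / H * ‖v‖ * ‖v‖ * N := by
      rw [abs_mul, abs_mul, abs_mul]
      exact mul_le_mul (mul_le_mul (mul_le_mul s3 v2 (abs_nonneg _) hCH.le) v2 (abs_nonneg _)
        (by positivity)) g0 (abs_nonneg _) (by positivity)
    have c2 : |2 * (deriv (deriv σ) m.2.1 * v.2.1) * fderiv ℝ G (qq0 a H σ m) (qq1 a H σ v m)| ≤
        2 * (C1 / H * ‖v‖) * (N * (κ * (H / a) * ‖v‖)) := by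
      rw [abs_mul, abs_mul, abs_mul, abs_two]
      exact mul_le_mul (mul_le_mul_of_nonneg_left (mul_le_mul s2 v2 (abs_nonneg _) hCH.le)
        (by norm_num)) ((g1 _).trans (mul_le_mul_of_nonneg_left hq1 (by linarith)))
        (abs_nonneg _) (by positivity)
    have c4 : |deriv σ m.2.1 * fderiv ℝ G (qq0 a H σ m) (qq2 a σ v m)| ≤
        C1 / H * (N * ((2 / a + C1 / H) * ‖v‖ ^ 2)) := by
      rw [abs_mul]
      exact mul_le_mul s1 ((g1 _).trans (mul_le_mul_of_nonneg_left hq2 (by linarith)))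
        (abs_nonneg _) hCH.le
    set t1 := deriv (deriv (deriv σ)) m.2.1 * v.2.1 * v.2.1 * G (qq0 a H σ m) with ht1
    set t2 := 2 * (deriv (deriv σ) m.2.1 * v.2.1) * fderiv ℝ G (qq0 a H σ m) (qq1 a H σ v m) with ht2
    set t3 := fderiv ℝ (fderiv ℝ G) (qq0 a H σ m) (qq1 a H σ v m) (qq1 a H σ v m) with ht3
    set t4 := fderiv ℝ G (qq0 a H σ m) (qq2 a σ v m) with ht4
    have d1 : |t1 + t2 + deriv σ m.2.1 * (t3 + t4)| ≤
        C1 / H * ‖v‖ * ‖v‖ * N + 2 * (C1 / H * ‖v‖) * (N * (κ * (H / a) * ‖v‖))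
        + C1 / H * ((H / a * ‖v‖) ^ 2 * (2 * δ) + 32 * N * (H / a * ‖v‖) * (κ / a * ‖v‖)
          + N * (κ / a * ‖v‖) ^ 2)
        + C1 / H * (N * ((2 / a + C1 / H) * ‖v‖ ^ 2)) := by
      have e : t1 + t2 + deriv σ m.2.1 * (t3 + t4) =
        t1 + t2 + deriv σ m.2.1 * t3 + deriv σ m.2.1 * t4 := by ring
      rw [e]
      have h1 := abs_add_le (t1 + t2 + deriv σ m.2.1 * t3) (deriv σ m.2.1 * t4)
      have h2 := abs_add_le (t1 + t2) (deriv σ m.2.1 * t3)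
      have h3 := abs_add_le t1 t2
      linarith
    have d2 := mul_le_mul_of_nonneg_left d1 haH.le
    refine d2.trans ?_
    have d3 : a ^ 2 / H * (C1 / H * ‖v‖ * ‖v‖ * N + 2 * (C1 / H * ‖v‖) * (N * (κ * (H / a) * ‖v‖))
        + C1 / H * ((H / a * ‖v‖) ^ 2 * (2 * δ) + 32 * N * (H / a * ‖v‖) * (κ / a * ‖v‖)
          + N * (κ / a * ‖v‖) ^ 2)
        + C1 / H * (N * ((2 / a + C1 / H) * ‖v‖ ^ 2))) =
        (C1 * N * (a ^ 2 / H ^ 2) + 2 * C1 * N * κ * (a / H) + 2 * C1 * δ + 32 * C1 * N * κ * (1 / H)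
          + C1 * N * κ ^ 2 * (1 / H ^ 2) + 2 * C1 * N * (a / H ^ 2)
          + C1 * C1 * N * (a ^ 2 / H ^ 3)) * ‖v‖ ^ 2 := by
      field_simp
      ring
    rw [d3]
    apply mul_le_mul_of_nonneg_right _ (by positivity)
    have f1 : C1 * N * (a ^ 2 / H ^ 2) ≤ C1 * N * a := mul_le_mul_of_nonneg_left i2 (by positivity)
    have f2 : 2 * C1 * N * κ * (a / H) ≤ 2 * C1 * N * κ * a :=
      mul_le_mul_of_nonneg_left i1 (by positivity)
    have f3 : C1 * N * κ ^ 2 * (1 / H ^ 2) ≤ C1 * N * κ ^ 2 * (1 / H) :=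
      mul_le_mul_of_nonneg_left i5 (by positivity)
    have f4 : 2 * C1 * N * (a / H ^ 2) ≤ 2 * C1 * N * a :=
      mul_le_mul_of_nonneg_left i3 (by positivity)
    have f5 : C1 * C1 * N * (a ^ 2 / H ^ 3) ≤ C1 * C1 * N * a :=
      mul_le_mul_of_nonneg_left i4 (by positivity)
    have hH1 : 0 < 1 / H := by positivity
    have f6 : (C1 * N + 2 * C1 * N * κ + 2 * C1 * N + C1 * C1 * N) * a ≤ M * a := by
      apply mul_le_mul_of_nonneg_right _ ha.le
      rw [hM]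
      have : 0 ≤ C1 * N * (32 * κ + κ ^ 2) := by positivity
      linarith
    have f7 : (32 * C1 * N * κ + C1 * N * κ ^ 2) * (1 / H) ≤ M * (1 / H) := by
      apply mul_le_mul_of_nonneg_right _ hH1.le
      rw [hM]
      have : 0 ≤ C1 * N * (3 + C1 + 2 * κ) := by positivity
      linarith
    linarith

end Pool.Agent.MP_ff4374_an
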