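import Pool.Agent.MP_ff4374_an.Basic

/-!
Module Per of MP_ff4374_an: periodisation of a map supported in a thin strip.
-/

set_option autoImplicit false
open MeasureTheory Filter Topology
open scoped ContDiff

namespace Pool.Agent.MP_ff4374_an

theorem act_fst_sub (g : ℤ × ℤ) (m m0 : E4) :
    (act g m).1 - (act g m0).1 = (m.1 - m0.1) - om * (m.2.1 - m0.2.1) := by
  simp only [act]; ring

theorem act_snd_sub (g : ℤ × ℤ) (m m0 : E4) :
    (act g m).2.1 - (act g m0).2.1 = m.2.1 - m0.2.1 := by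
  simp only [act]; ring

/-- in a thin tube at most one translate matters -/
theorem act_unique {W T : ℝ} (hthin : Thin W T) {m : E4} {g g' : ℤ × ℤ}
    (h1 : |(act g m).1| ≤ W) (h2 : |(act g m).2.1| ≤ T)
    (h1' : |(act g' m).1| ≤ W) (h2' : |(act g' m).2.1| ≤ T) : g' = g := by
  have key := hthin (g.1 - g'.1) (g.2 - g'.2) ?_ ?_
  · obtain ⟨ha, hb⟩ := key
    ext
    · omega
    · omega
  · have : (((g.1 - g'.1 : ℤ)) : ℝ) = (act g m).2.1 - (act g' m).2.1 := by
      simp only [act]; push_cast; ring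
    rw [this]
    calc |(act g m).2.1 - (act g' m).2.1| ≤ |(act g m).2.1| + |(act g' m).2.1| := abs_sub _ _
      _ ≤ 2 * T := by linarith
  · have : om * (((g.1 - g'.1 : ℤ)) : ℝ) + ((g.2 - g'.2 : ℤ) : ℝ)
        = -((act g m).1 - (act g' m).1) := by
      simp only [act]; push_cast; ring
    rw [this, abs_neg]
    calc |(act g m).1 - (act g' m).1| ≤ |(act g m).1| + |(act g' m).1| := abs_sub _ _
      _ ≤ 2 * W := by linarith

theorem thin_mono {W T W' T' : ℝ} (h : Thin W T) (hW : W' ≤ W) (hT : T' ≤ T) : Thin W' T' := by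
  intro n j h1 h2
  exact h n j (by linarith) (by linarith)

theorem per_eq {W T : ℝ} (hW : 0 < W) (hT : 0 < T) (hthin : Thin (2 * W) (T + 1)) {f : E4 → ℝ}
    (hf : ∀ m' : E4, (W ≤ |m'.1| ∨ T ≤ |m'.2.1|) → f m' = 0) {m : E4} {g : ℤ × ℤ}
    (h1 : |(act g m).1| ≤ W) (h2 : |(act g m).2.1| ≤ T) : per f m = f (act g m) := by
  have hthin' : Thin W T := thin_mono hthin (by linarith) (by linarith)
  unfold per
  apply tsum_eq_single g
  intro g' hg'
  by_contra hne
  apply hg'
  have h3 : ¬ (W ≤ |(act g' m).1| ∨ T ≤ |(act g' m).2.1|) := fun h => hne (hf _ h)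
  push Not at h3
  exact act_unique hthin' h1 h2 h3.1.le h3.2.le

theorem per_out {W T : ℝ} {f : E4 → ℝ}
    (hf : ∀ m' : E4, (W ≤ |m'.1| ∨ T ≤ |m'.2.1|) → f m' = 0) {m : E4}
    (h : ∀ g : ℤ × ℤ, ¬ (|(act g m).1| < W ∧ |(act g m).2.1| < T)) : per f m = 0 := by
  unfold per
  have : ∀ g : ℤ × ℤ, f (act g m) = 0 := by
    intro g
    apply hf
    by_contra h3
    push Not at h3
    exact h g h3
  simp [this]

theorem per_local' {W T : ℝ} (hW : 0 < W) (hT : 0 < T) (hthin : Thin (2 * W) (T + 1)) (m0 : E4) :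
    ∃ g : ℤ × ℤ, (∀ g' : ℤ × ℤ, |(act g' m0).1| < W → |(act g' m0).2.1| < T → g' = g) ∧
      ∀ᶠ m in 𝓝 m0, ∀ f : E4 → ℝ,
      (∀ m' : E4, (W ≤ |m'.1| ∨ T ≤ |m'.2.1|) → f m' = 0) → per f m = f (act g m) := by
  have hev1 : ∀ᶠ m : E4 in 𝓝 m0, |(m.1 - m0.1) - om * (m.2.1 - m0.2.1)| < W / 2 := by
    have hc : Continuous (fun m : E4 => |(m.1 - m0.1) - om * (m.2.1 - m0.2.1)|) := by fun_prop
    have := hc.tendsto m0
    simp only [sub_self, mul_zero, abs_zero] at this
    exact this.eventually_lt_const (by linarith)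
  have hev2 : ∀ᶠ m : E4 in 𝓝 m0, |m.2.1 - m0.2.1| < 1 / 2 := by
    have hc : Continuous (fun m : E4 => |m.2.1 - m0.2.1|) := by fun_prop
    have := hc.tendsto m0
    simp only [sub_self, abs_zero] at this
    exact this.eventually_lt_const (by norm_num)
  by_cases hex : ∃ g : ℤ × ℤ, |(act g m0).1| < 3 * W / 2 ∧ |(act g m0).2.1| < T + 1 / 2
  · obtain ⟨g, hg1, hg2⟩ := hex
    refine ⟨g, ?_, ?_⟩
    · intro g' h1 h2
      exact act_unique hthin (by linarith) (by linarith) (by linarith) (by linarith)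
    · filter_upwards [hev1, hev2] with m hm1 hm2 f hf
      unfold per
      apply tsum_eq_single g
      intro g' hg'
      by_contra hne
      apply hg'
      have h3 : ¬ (W ≤ |(act g' m).1| ∨ T ≤ |(act g' m).2.1|) := fun h => hne (hf _ h)
      push Not at h3
      have e1 := act_fst_sub g m m0
      have e2 := act_snd_sub g m m0
      rw [← e1] at hm1
      rw [← e2] at hm2
      have a1 : |(act g m).1| ≤ 2 * W := by
        have := abs_add_le ((act g m).1 - (act g m0).1) (act g m0).1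
        rw [sub_add_cancel] at this
        linarith
      have a2 : |(act g m).2.1| ≤ T + 1 := by
        have := abs_add_le ((act g m).2.1 - (act g m0).2.1) (act g m0).2.1
        rw [sub_add_cancel] at this
        linarith
      exact act_unique hthin a1 a2 (by linarith [h3.1]) (by linarith [h3.2])
  · push Not at hex
    refine ⟨(0, 0), ?_, ?_⟩
    · intro g' h1 h2
      exact absurd (hex g' (by linarith)) (by linarith)
    · filter_upwards [hev1, hev2] with m hm1 hm2 f hf
      have hz : ∀ g' : ℤ × ℤ, f (act g' m) = 0 := by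
        intro g'
        by_contra hne
        have h3 : ¬ (W ≤ |(act g' m).1| ∨ T ≤ |(act g' m).2.1|) := fun h => hne (hf _ h)
        push Not at h3
        have e1 := act_fst_sub g' m m0
        have e2 := act_snd_sub g' m m0
        rw [← e1] at hm1
        rw [← e2] at hm2
        have a1 : |(act g' m0).1| < 3 * W / 2 := by
          have := abs_sub ((act g' m).1) ((act g' m).1 - (act g' m0).1)
          rw [sub_sub_cancel] at this
          linarith [h3.1]
        have a2 : |(act g' m0).2.1| < T + 1 / 2 := by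
          have := abs_sub ((act g' m).2.1) ((act g' m).2.1 - (act g' m0).2.1)
          rw [sub_sub_cancel] at this
          linarith [h3.2]
        exact absurd (hex g' a1) (by linarith)
      unfold per
      simp [hz]

theorem per_local {W T : ℝ} (hW : 0 < W) (hT : 0 < T) (hthin : Thin (2 * W) (T + 1)) (m0 : E4) :
    ∃ g : ℤ × ℤ, ∀ᶠ m in 𝓝 m0, ∀ f : E4 → ℝ,
      (∀ m' : E4, (W ≤ |m'.1| ∨ T ≤ |m'.2.1|) → f m' = 0) → per f m = f (act g m) := by
  obtain ⟨g, -, h⟩ := per_local' hW hT hthin m0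
  exact ⟨g, h⟩

/-! ### the action is affine -/

/-- linear part of `act g` -/
noncomputable def actL : E4 →L[ℝ] E4 :=
  ((ContinuousLinearMap.fst ℝ ℝ (ℝ × ℝ × ℝ)) -
    om • ((ContinuousLinearMap.fst ℝ ℝ (ℝ × ℝ)).comp (ContinuousLinearMap.snd ℝ ℝ (ℝ × ℝ × ℝ)))).prod
    (ContinuousLinearMap.snd ℝ ℝ (ℝ × ℝ × ℝ))

theorem actL_apply (v : E4) : actL v = (v.1 - om * v.2.1, v.2) := by
  simp [actL]

theorem act_eq (g : ℤ × ℤ) (m : E4) :
    act g m = actL m + (- om * g.1 - g.2, (g.1 : ℝ), 0, 0) := by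
  rw [actL_apply]
  ext <;> simp [act]
  ring

theorem act_hasFDerivAt (g : ℤ × ℤ) (m : E4) : HasFDerivAt (act g) actL m := by
  have h : act g = fun m => actL m + (- om * g.1 - g.2, (g.1 : ℝ), 0, 0) := by
    funext m; exact act_eq g m
  rw [h]
  exact actL.hasFDerivAt.add_const _

theorem act_contDiff (g : ℤ × ℤ) {n : WithTop ℕ∞} : ContDiff ℝ n (act g) := by
  have h : act g = fun m => actL m + (- om * g.1 - g.2, (g.1 : ℝ), 0, 0) := by
    funext m; exact act_eq g m
  rw [h]
  exact actL.contDiff.add contDiff_const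

theorem per_contDiff {W T : ℝ} (hW : 0 < W) (hT : 0 < T) (hthin : Thin (2 * W) (T + 1))
    {f : E4 → ℝ} (hf : ∀ m' : E4, (W ≤ |m'.1| ∨ T ≤ |m'.2.1|) → f m' = 0)
    {n : WithTop ℕ∞} (hc : ContDiff ℝ n f) : ContDiff ℝ n (per f) := by
  rw [contDiff_iff_contDiffAt]
  intro m0
  obtain ⟨g, hg⟩ := per_local hW hT hthin m0
  have h : per f =ᶠ[𝓝 m0] fun m => f (act g m) := by
    filter_upwards [hg] with m hm
    exact hm f hf
  exact ((hc.comp (act_contDiff g)).contDiffAt).congr_of_eventuallyEq h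

theorem act_shift (g : ℤ × ℤ) (m : E4) (i j : ℤ) :
    act g (m.1 + i, m.2.1 + j, m.2.2.1, m.2.2.2) = act (g.1 + j, g.2 - i) m := by
  ext <;> simp [act] <;> ring

theorem per_shift (f : E4 → ℝ) (m : E4) (i j : ℤ) :
    per f (m.1 + i, m.2.1 + j, m.2.2.1, m.2.2.2) = per f m := by
  unfold per
  let e : ℤ × ℤ ≃ ℤ × ℤ := (Equiv.addRight j).prodCongr (Equiv.subRight i)
  rw [← e.tsum_eq (fun g => f (act g m))]
  congr 1
  funext g
  rw [act_shift]
  rfl

theorem per_zero_of {f : E4 → ℝ} {m : E4} (h : ∀ g : ℤ × ℤ, f (act g m) = 0) : per f m = 0 := by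
  unfold per
  simp [h]

theorem globalize {W T r : ℝ} {ψ P S K : E4 → ℝ} (hL : LTrip W T r ψ P S K) (hW : 0 < W)
    (hT : 0 < T) (hthin : Thin (2 * W) (T + 1)) :
    Trip r (fun m => m.1 + per (fun m' => ψ m' - m'.1) m)
      (fun m => m.2.2.1 + per (fun m' => P m' - m'.2.2.1) m) (per S) (per K) := by
  have hthin' : Thin W T := thin_mono hthin (by linarith) (by linarith)
  have fψ : ∀ m' : E4, (W ≤ |m'.1| ∨ T ≤ |m'.2.1|) → (fun m' : E4 => ψ m' - m'.1) m' = 0 := by
    intro m' h
    simp [(hL.trivtube m' h).1]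
  have fP : ∀ m' : E4, (W ≤ |m'.1| ∨ T ≤ |m'.2.1|) → (fun m' : E4 => P m' - m'.2.2.1) m' = 0 := by
    intro m' h
    simp [(hL.trivtube m' h).2.1]
  have fS : ∀ m' : E4, (W ≤ |m'.1| ∨ T ≤ |m'.2.1|) → S m' = 0 := fun m' h => (hL.trivtube m' h).2.2.1
  have fK : ∀ m' : E4, (W ≤ |m'.1| ∨ T ≤ |m'.2.1|) → K m' = 0 := fun m' h => (hL.trivtube m' h).2.2.2
  set ψb : E4 → ℝ := fun m => m.1 + per (fun m' => ψ m' - m'.1) m with hψb
  set Pb : E4 → ℝ := fun m => m.2.2.1 + per (fun m' => P m' - m'.2.2.1) m with hPb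
  have cψ : ContDiff ℝ ∞ (fun m' : E4 => ψ m' - m'.1) := hL.smψ.sub contDiff_fst
  have cP : ContDiff ℝ ∞ (fun m' : E4 => P m' - m'.2.2.1) :=
    hL.smP.sub (contDiff_fst.comp (contDiff_snd.comp contDiff_snd))
  -- inside the open tube
  have inA : ∀ (m : E4) (g : ℤ × ℤ), |(act g m).1| < W → |(act g m).2.1| < T →
      act g (ψb m, m.2.1, Pb m, m.2.2.2) = (ψ (act g m), (act g m).2.1, P (act g m), m.2.2.2) ∧
      |ψ (act g m)| < W ∧ Pb m = P (act g m) := by
    intro m g h1 h2
    have e1 : ψb m = m.1 + (ψ (act g m) - (act g m).1) := by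
      simp only [hψb]
      rw [per_eq hW hT hthin fψ h1.le h2.le]
    have e2 : Pb m = P (act g m) := by
      simp only [hPb]
      rw [per_eq hW hT hthin fP h1.le h2.le]
      simp [act]
    refine ⟨?_, ?_, e2⟩
    · rw [e1, e2]
      ext <;> simp [act]
      ring
    · by_contra h3
      push Not at h3
      have ht := hL.trivtube (ψ (act g m), (act g m).2.1, P (act g m), (act g m).2.2.2) (Or.inl h3)
      have := hL.inj (ψ (act g m), (act g m).2.1, P (act g m), (act g m).2.2.2) (act g m) rfl rfl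
        ht.1 ht.2.1
      rw [← this] at h1
      exact absurd h1 (not_lt.mpr h3)
  -- outside
  have outB : ∀ m : E4, (∀ g : ℤ × ℤ, ¬ (|(act g m).1| < W ∧ |(act g m).2.1| < T)) →
      ψb m = m.1 ∧ Pb m = m.2.2.1 := by
    intro m h
    simp only [hψb, hPb]
    rw [per_out fψ h, per_out fP h]
    simp
  refine ⟨?_, ?_, ?_, ?_, ?_, ?_, ?_, ?_, ?_, ?_, ?_, ?_⟩
  · exact contDiff_fst.add (per_contDiff hW hT hthin fψ cψ)
  · exact (contDiff_fst.comp (contDiff_snd.comp contDiff_snd)).add
      (per_contDiff hW hT hthin fP cP)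
  · exact per_contDiff hW hT hthin fS hL.smS
  · exact per_contDiff hW hT hthin fK hL.smK
  · intro m i j
    simp only [hψb]
    rw [per_shift]
    ring
  · intro m i j
    simp only [hPb]
    rw [per_shift]
  · intro m i j
    exact per_shift S m i j
  · intro m i j
    exact per_shift K m i j
  · -- form
    intro m v hv
    obtain ⟨g, hgu, hg⟩ := per_local' hW hT hthin m
    have eS : per S =ᶠ[𝓝 m] fun m' => S (act g m') := by
      filter_upwards [hg] with m' hm'
      exact hm' S fS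
    have eψ : ψb =ᶠ[𝓝 m] fun m' => m'.1 + (ψ (act g m') - (act g m').1) := by
      filter_upwards [hg] with m' hm'
      simp only [hψb]
      rw [hm' _ fψ]
    have hψm : ψb m = m.1 + (ψ (act g m) - (act g m).1) := eψ.self_of_nhds
    have hPm : Pb m = P (act g m) := by
      simp only [hPb]
      rw [hg.self_of_nhds _ fP]
      simp [act]
    -- derivatives
    have dS : fderiv ℝ (per S) m v = fderiv ℝ S (act g m) (actL v) := by
      rw [eS.fderiv_eq]
      have h1 : HasFDerivAt (fun m' => S (act g m')) ((fderiv ℝ S (act g m)).comp actL) m :=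
        ((hL.smS.differentiable (by simp)).differentiableAt.hasFDerivAt).comp m (act_hasFDerivAt g m)
      rw [h1.fderiv]
      rfl
    have dψ : fderiv ℝ ψb m v = fderiv ℝ ψ (act g m) (actL v) + om * v.2.1 := by
      rw [eψ.fderiv_eq]
      have h1 : HasFDerivAt (fun m' => ψ (act g m')) ((fderiv ℝ ψ (act g m)).comp actL) m :=
        ((hL.smψ.differentiable (by simp)).differentiableAt.hasFDerivAt).comp m (act_hasFDerivAt g m)
      have h2 : HasFDerivAt (fun m' : E4 => (act g m').1)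
          ((ContinuousLinearMap.fst ℝ ℝ (ℝ × ℝ × ℝ)).comp actL) m :=
        (ContinuousLinearMap.fst ℝ ℝ (ℝ × ℝ × ℝ)).hasFDerivAt.comp m (act_hasFDerivAt g m)
      have h3 : HasFDerivAt (fun m' : E4 => m'.1 + (ψ (act g m') - (act g m').1))
          ((ContinuousLinearMap.fst ℝ ℝ (ℝ × ℝ × ℝ)) + ((fderiv ℝ ψ (act g m)).comp actL -
            (ContinuousLinearMap.fst ℝ ℝ (ℝ × ℝ × ℝ)).comp actL)) m :=
        (ContinuousLinearMap.fst ℝ ℝ (ℝ × ℝ × ℝ)).hasFDerivAt.add (h1.sub h2)
      rw [h3.fderiv]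
      simp [actL_apply]
      ring
    have hform := hL.form (act g m) (actL v) (by rw [actL_apply]; exact hv)
    have hKK : K (ψ (act g m), (act g m).2.1, P (act g m), (act g m).2.2.2)
        = per K (ψb m, m.2.1, Pb m, m.2.2.2) := by
      by_cases hA : ∃ g' : ℤ × ℤ, |(act g' m).1| < W ∧ |(act g' m).2.1| < T
      · obtain ⟨g', h1, h2⟩ := hA
        have hgg : g' = g := hgu g' h1 h2
        subst hgg
        obtain ⟨ha, hb, -⟩ := inA m g' h1 h2
        have h3 : |(act g' (ψb m, m.2.1, Pb m, m.2.2.2)).1| ≤ W := by rw [ha]; exact hb.le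
        have h4 : |(act g' (ψb m, m.2.1, Pb m, m.2.2.2)).2.1| ≤ T := by rw [ha]; exact h2.le
        rw [per_eq hW hT hthin fK h3 h4, ha]
        rfl
      · push Not at hA
        have hA' : ∀ g' : ℤ × ℤ, ¬ (|(act g' m).1| < W ∧ |(act g' m).2.1| < T) := by
          intro g' hh
          exact absurd hh.2 (not_lt.mpr (hA g' hh.1))
        obtain ⟨hb1, hb2⟩ := outB m hA'
        have htr : W ≤ |(act g m).1| ∨ T ≤ |(act g m).2.1| := by
          by_contra h3
          push Not at h3
          exact hA' g h3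
        have ht := hL.trivtube (act g m) htr
        rw [hb1, hb2, ht.1, ht.2.1]
        have : ((m.1, m.2.1, m.2.2.1, m.2.2.2) : E4) = m := rfl
        rw [this, per_out fK hA']
        exact ht.2.2.2
    rw [dS, hform, dψ, hKK, hPm]
    have ec : (act g m).2.2.1 = m.2.2.1 := rfl
    rw [ec, actL_apply]
    simp only
    ring
  · -- inj
    intro m m' h1 h2 h3 h4
    have himg : ((ψb m, m.2.1, Pb m, m.2.2.2) : E4) = (ψb m', m'.2.1, Pb m', m'.2.2.2) := by
      rw [h1, h2, h3, h4]
    by_cases hA : ∃ g : ℤ × ℤ, |(act g m).1| < W ∧ |(act g m).2.1| < T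
    · obtain ⟨g, ha1, ha2⟩ := hA
      obtain ⟨ia, ib, ic⟩ := inA m g ha1 ha2
      have j1 : |(act g (ψb m, m.2.1, Pb m, m.2.2.2)).1| ≤ W := by rw [ia]; exact ib.le
      have j1' : |(act g (ψb m, m.2.1, Pb m, m.2.2.2)).1| < W := by rw [ia]; exact ib
      have j2 : |(act g (ψb m, m.2.1, Pb m, m.2.2.2)).2.1| ≤ T := by rw [ia]; exact ha2.le
      have j2' : |(act g (ψb m, m.2.1, Pb m, m.2.2.2)).2.1| < T := by rw [ia]; exact ha2
      by_cases hA' : ∃ g' : ℤ × ℤ, |(act g' m').1| < W ∧ |(act g' m').2.1| < T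
      · obtain ⟨g', hb1, hb2⟩ := hA'
        obtain ⟨ia', ib', ic'⟩ := inA m' g' hb1 hb2
        rw [← himg] at ia'
        have k1 : |(act g' (ψb m, m.2.1, Pb m, m.2.2.2)).1| ≤ W := by rw [ia']; exact ib'.le
        have k2 : |(act g' (ψb m, m.2.1, Pb m, m.2.2.2)).2.1| ≤ T := by rw [ia']; exact hb2.le
        have hgg : g' = g := act_unique hthin' j1 j2 k1 k2
        subst hgg
        rw [ia] at ia'
        have q1 : ψ (act g' m) = ψ (act g' m') := congrArg (fun z : E4 => z.1) ia'
        have q2 : P (act g' m) = P (act g' m') := congrArg (fun z : E4 => z.2.2.1) ia'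
        have q3 : (act g' m).2.1 = (act g' m').2.1 := by
          simp only [act]
          rw [h1]
        have q := hL.inj (act g' m) (act g' m') q3 h2 q1 q2
        have r1 := congrArg (fun z : E4 => z.1) q
        have r2 := congrArg (fun z : E4 => z.2.2.1) q
        simp only [act] at r1 r2
        rw [h1] at r1
        ext
        · linarith
        · exact h1
        · exact r2
        · exact h2
      · push Not at hA'
        have hA2 : ∀ g' : ℤ × ℤ, ¬ (|(act g' m').1| < W ∧ |(act g' m').2.1| < T) := by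
          intro g' hh
          exact absurd hh.2 (not_lt.mpr (hA' g' hh.1))
        obtain ⟨hb1, hb2⟩ := outB m' hA2
        exfalso
        have : ((ψb m, m.2.1, Pb m, m.2.2.2) : E4) = m' := by
          rw [himg, hb1, hb2]
        rw [this] at j1' j2'
        exact hA2 g ⟨j1', j2'⟩
    · push Not at hA
      have hA1 : ∀ g' : ℤ × ℤ, ¬ (|(act g' m).1| < W ∧ |(act g' m).2.1| < T) := by
        intro g' hh
        exact absurd hh.2 (not_lt.mpr (hA g' hh.1))
      obtain ⟨hb1, hb2⟩ := outB m hA1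
      have hm : ((ψb m, m.2.1, Pb m, m.2.2.2) : E4) = m := by
        rw [hb1, hb2]
      by_cases hA' : ∃ g' : ℤ × ℤ, |(act g' m').1| < W ∧ |(act g' m').2.1| < T
      · obtain ⟨g', hc1, hc2⟩ := hA'
        obtain ⟨ia', ib', ic'⟩ := inA m' g' hc1 hc2
        rw [← himg, hm] at ia'
        exfalso
        apply hA1 g'
        rw [ia']
        exact ⟨ib', hc2⟩
      · push Not at hA'
        have hA2 : ∀ g' : ℤ × ℤ, ¬ (|(act g' m').1| < W ∧ |(act g' m').2.1| < T) := by
          intro g' hh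
          exact absurd hh.2 (not_lt.mpr (hA' g' hh.1))
        obtain ⟨hb1', hb2'⟩ := outB m' hA2
        ext
        · rw [← hb1, ← hb1', h3]
        · exact h1
        · rw [← hb2, ← hb2', h4]
        · exact h2
  · -- triv
    intro m h
    have hz : ∀ g : ℤ × ℤ, ψ (act g m) = (act g m).1 ∧ P (act g m) = (act g m).2.2.1 ∧
        S (act g m) = 0 ∧ K (act g m) = 0 := fun g => hL.trivr (act g m) h
    refine ⟨?_, ?_, ?_, ?_⟩
    · simp only [hψb]
      rw [per_zero_of (fun g => by simp [(hz g).1])]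
      simp
    · simp only [hPb]
      rw [per_zero_of (fun g => by simp [(hz g).2.1])]
      simp
    · exact per_zero_of (fun g => (hz g).2.2.1)
    · exact per_zero_of (fun g => (hz g).2.2.2)
  · -- bd
    intro m h
    by_cases hA : ∃ g : ℤ × ℤ, |(act g m).1| < W ∧ |(act g m).2.1| < T
    · obtain ⟨g, h1, h2⟩ := hA
      obtain ⟨ia, ib, ic⟩ := inA m g h1 h2
      rw [ic]
      by_contra h3
      push Not at h3
      have ht := hL.trivr (ψ (act g m), (act g m).2.1, P (act g m), (act g m).2.2.2)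
        (Or.inl h3.le)
      have := hL.inj (ψ (act g m), (act g m).2.1, P (act g m), (act g m).2.2.2) (act g m) rfl rfl
        ht.1 ht.2.1
      have hc := congrArg (fun z : E4 => z.2.2.1) this
      have hc' : P (act g m) = m.2.2.1 := hc
      rw [hc'] at h3
      exact absurd h (not_le.mpr h3)
    · push Not at hA
      have hA1 : ∀ g' : ℤ × ℤ, ¬ (|(act g' m).1| < W ∧ |(act g' m).2.1| < T) := by
        intro g' hh
        exact absurd hh.2 (not_lt.mpr (hA g' hh.1))
      rw [(outB m hA1).2]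
      exact h

end Pool.Agent.MP_ff4374_an
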