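import Pool.Agent.MP_ff4374_an.Local
import Pool.Agent.MP_ff4374_an.Per
import Pool.Agent.MP_ff4374_an.LevelBound

/-!
Module LevGlobal of MP_ff4374_an: one level on the torus.
-/

set_option autoImplicit false
open MeasureTheory Filter Topology
open scoped ContDiff

namespace Pool.Agent.MP_ff4374_an

theorem actL_norm (v : E4) : ‖actL v‖ ≤ 3 * ‖v‖ := by
  obtain ⟨v1, v2, v3, v4⟩ := comp_le_norm v
  have hn := norm_nonneg v
  rw [actL_apply]
  refine norm_le_of ?_ ?_ ?_ ?_
  · simp only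
    have h1 := abs_sub v.1 (om * v.2.1)
    rw [abs_mul, abs_of_pos om_pos] at h1
    have h2 : om * |v.2.1| ≤ 3 / 2 * ‖v‖ :=
      mul_le_mul om_lt.le v2 (abs_nonneg _) (by norm_num)
    linarith
  · simp only
    linarith
  · simp only
    linarith
  · simp only
    linarith

theorem act_line (g : ℤ × ℤ) (m v : E4) (h : ℝ) : act g (m + h • v) = act g m + h • actL v := by
  rw [act_eq, act_eq, map_add, map_smul]
  abel

/-- derivatives of a periodised function -/
theorem per_derivs {W T : ℝ} (hW : 0 < W) (hT : 0 < T) (hthin : Thin (2 * W) (T + 1))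
    {f : E4 → ℝ} (hf : ∀ m' : E4, (W ≤ |m'.1| ∨ T ≤ |m'.2.1|) → f m' = 0)
    (hc : ContDiff ℝ 2 f) (m : E4) :
    ∃ g : ℤ × ℤ, per f m = f (act g m) ∧
      (∀ v, fderiv ℝ (per f) m v = fderiv ℝ f (act g m) (actL v)) ∧
      ∀ v, D2 (per f) m v = D2 f (act g m) (actL v) := by
  obtain ⟨g, hg⟩ := per_local hW hT hthin m
  have hev : per f =ᶠ[𝓝 m] fun m' => f (act g m') := by
    filter_upwards [hg] with m' hm'
    exact hm' f hf
  have hdiff : Differentiable ℝ f := hc.differentiable (by norm_num)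
  have hd1 : ∀ m' v : E4, fderiv ℝ (fun m' => f (act g m')) m' v
      = fderiv ℝ f (act g m') (actL v) := by
    intro m' v
    have h1 : HasFDerivAt (fun m' => f (act g m')) ((fderiv ℝ f (act g m')).comp actL) m' :=
      (hdiff (act g m')).hasFDerivAt.comp m' (act_hasFDerivAt g m')
    rw [h1.fderiv]
    rfl
  refine ⟨g, hev.self_of_nhds, fun v => ?_, fun v => ?_⟩
  · rw [hev.fderiv_eq]
    exact hd1 m v
  · have c2 : ContDiff ℝ 2 (per f) := per_contDiff hW hT hthin hf hc
    have k1 := D2_line c2 m v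
    have k2 := D2_line hc (act g m) (actL v)
    have hev2 : ∀ᶠ m' in 𝓝 m, fderiv ℝ (per f) m' v = fderiv ℝ f (act g m') (actL v) := by
      filter_upwards [hev.eventuallyEq_nhds] with m' hm'
      rw [hm'.fderiv_eq]
      exact hd1 m' v
    have htend : Tendsto (fun h : ℝ => m + h • v) (𝓝 0) (𝓝 m) := by
      have hcont : Continuous (fun h : ℝ => m + h • v) := by fun_prop
      have := hcont.tendsto 0
      simpa using this
    have hev3 : (fun h : ℝ => fderiv ℝ (per f) (m + h • v) v) =ᶠ[𝓝 0]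
        fun h : ℝ => fderiv ℝ f (act g m + h • actL v) (actL v) := by
      filter_upwards [htend.eventually hev2] with h hh
      rw [hh, act_line]
    exact (k1.congr_of_eventuallyEq hev3.symm).unique k2

theorem Klev_dE {r δ R : ℝ} {Z G : E4 → ℝ} (hB : Block r δ R Z G) {a H : ℝ} {σ : ℝ → ℝ}
    (hσ : ContDiff ℝ ∞ σ) {m : E4} (hm : |m.2.2.2 - 1| < r / 2) :
    fderiv ℝ (Klev G a H σ) m (0, 0, 0, 1) = 0 := by
  rw [Klev_fderiv hB.smG hσ]
  have e : qq1 a H σ (0, 0, 0, 1) m = (0, 0, 0, 1) := by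
    simp [qq1]
  rw [e]
  have h := hB.flatE (qq0 a H σ m) hm
  have h' : fderiv ℝ G (qq0 a H σ m) (0, 0, 0, 1) = 0 := h
  rw [h']
  simp

theorem LTrip.mono_W {W W' T r : ℝ} {ψ P S K : E4 → ℝ} (h : LTrip W T r ψ P S K) (hW : W ≤ W') :
    LTrip W' T r ψ P S K :=
  ⟨h.smψ, h.smP, h.smS, h.smK, h.form, h.inj,
    fun m hm => h.trivtube m (hm.imp (fun h' => hW.trans h') id), h.trivr⟩

theorem level_global {r δ R : ℝ} {Z G : E4 → ℝ} {C1 H ε : ℝ} {good : ℤ → Prop} {σ : ℝ → ℝ}
    {a b W : ℝ}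
    (hB : Block r δ R Z G) (hC : Clock C1 H ε good σ) (hH : 1 ≤ H) (ha : 0 < a)
    (hr : R * a / H ≤ r) (hW : 17 * R * a ≤ W) (hthin : Thin (2 * W) (16 * H + 1)) (hb : 0 ≤ b)
    (hbd : ∀ m : E4, |Klev G a H σ m| ≤ b ∧
        (∀ v, |fderiv ℝ (Klev G a H σ) m v| ≤ b * ‖v‖) ∧
        (∀ v, |D2 (Klev G a H σ) m v| ≤ b * ‖v‖ ^ 2)) :
    ∃ ψ P S K : E4 → ℝ, Lev r W (16 * H) good a H (9 * b) ψ P S K := by
  obtain ⟨ψ0, P0, S0, hL0, hhold⟩ := local_level hB hC hH ha hr
  have hL : LTrip W (16 * H) r ψ0 P0 S0 (Klev G a H σ) := hL0.mono_W hW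
  have hR := hB.one_le
  have hRa : a ≤ R * a := by nlinarith
  have hW0 : 0 < W := by nlinarith
  have hT0 : 0 < 16 * H := by linarith
  have fψ : ∀ m' : E4, (W ≤ |m'.1| ∨ 16 * H ≤ |m'.2.1|) → (fun m' : E4 => ψ0 m' - m'.1) m' = 0 := by
    intro m' h
    simp [(hL.trivtube m' h).1]
  have fP : ∀ m' : E4, (W ≤ |m'.1| ∨ 16 * H ≤ |m'.2.1|) →
      (fun m' : E4 => P0 m' - m'.2.2.1) m' = 0 := by
    intro m' h
    simp [(hL.trivtube m' h).2.1]
  have fK : ∀ m' : E4, (W ≤ |m'.1| ∨ 16 * H ≤ |m'.2.1|) → Klev G a H σ m' = 0 :=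
    fun m' h => (hL.trivtube m' h).2.2.2
  have hTrip := globalize hL hW0 hT0 hthin
  have cK : ContDiff ℝ 2 (Klev G a H σ) := smooth_two hL.smK
  refine ⟨_, _, _, _, ⟨hTrip, ⟨smooth_two hTrip.smκ, hTrip.perκ, ?_, ?_, ?_, ?_⟩, ?_, ?_, ?_, ?_⟩⟩
  · intro m
    obtain ⟨g, e0, -, -⟩ := per_derivs hW0 hT0 hthin fK cK m
    rw [e0]
    linarith [(hbd (act g m)).1]
  · intro m v
    obtain ⟨g, -, e1, -⟩ := per_derivs hW0 hT0 hthin fK cK m
    rw [e1]
    have h1 := (hbd (act g m)).2.1 (actL v)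
    have h2 : b * ‖actL v‖ ≤ b * (3 * ‖v‖) := mul_le_mul_of_nonneg_left (actL_norm v) hb
    have h3 : 0 ≤ b * ‖v‖ := by positivity
    linarith
  · intro m v
    obtain ⟨g, -, -, e2⟩ := per_derivs hW0 hT0 hthin fK cK m
    rw [e2]
    have h1 := (hbd (act g m)).2.2 (actL v)
    have h2 : ‖actL v‖ ^ 2 ≤ (3 * ‖v‖) ^ 2 := pow_le_pow_left₀ (norm_nonneg _) (actL_norm v) 2
    have h3 : b * ‖actL v‖ ^ 2 ≤ b * (3 * ‖v‖) ^ 2 := mul_le_mul_of_nonneg_left h2 hb
    calc _ ≤ _ := h1
      _ ≤ _ := h3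
      _ = 9 * b * ‖v‖ ^ 2 := by ring
  · intro m hm
    exact (hTrip.triv m hm).2.2.2
  · -- flat
    intro m hm
    obtain ⟨g, -, e1, -⟩ := per_derivs hW0 hT0 hthin fK cK m
    unfold dE
    rw [e1]
    have e : actL ((0, 0, 0, 1) : E4) = (0, 0, 0, 1) := by
      rw [actL_apply]; simp
    rw [e]
    exact Klev_dE hB hC.sm hm
  · -- supp
    intro m hm
    obtain ⟨g, hg⟩ := per_local hW0 hT0 hthin m
    have hfreq : ∃ᶠ m' in 𝓝 m, m' ∈ Function.support (per (Klev G a H σ)) :=
      mem_closure_iff_frequently.mp hm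
    set t0 : ℝ := (act g m).2.1 with ht0
    have hnear : ∀ᶠ m' : E4 in 𝓝 m, |(act g m').2.1 - t0| < 1 / 8 := by
      have hc : Continuous (fun m' : E4 => |(act g m').2.1 - t0|) := by
        have : Continuous (act g) := (act_contDiff g (n := 0)).continuous
        fun_prop
      have := hc.tendsto m
      simp only [ht0, sub_self, abs_zero] at this
      exact this.eventually_lt_const (by norm_num)
    have hfr2 : ∃ᶠ m' in 𝓝 m, (|(act g m').1| ≤ W ∧ |(act g m').2.1| ≤ 16 * H ∧
        |(act g m').2.1 - (round t0 : ℤ)| ≤ 1 / 4) ∧ good (round t0) := by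
      refine (hfreq.and_eventually (hg.and hnear)).mono ?_
      rintro m' ⟨h1, h2, h3⟩
      have h4 : per (Klev G a H σ) m' ≠ 0 := h1
      rw [h2 _ fK] at h4
      have h5 : ¬ (W ≤ |(act g m').1| ∨ 16 * H ≤ |(act g m').2.1|) := fun h => h4 (fK _ h)
      push Not at h5
      have e : Klev G a H σ (act g m') = a ^ 2 / H * deriv σ (act g m').2.1 *
        G (qq0 a H σ (act g m')) := rfl
      have h6 : deriv σ (act g m').2.1 ≠ 0 := by
        intro h
        rw [e, h] at h4
        simp at h4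
      have h7 : ¬ |σ (act g m').2.1| ≤ 1 := by
        intro h
        have := (hB.vanish (q := qq0 a H σ (act g m')) (Or.inr (Or.inl h))).1
        rw [e, this] at h4
        simp at h4
      rcases hC.good _ h6 with h8 | ⟨n, hn, hn2⟩
      · exact absurd h8 h7
      · have hn3 : n = round t0 := by
          have h9 : |t0 - n| < 1 / 2 := by
            have := abs_sub ((act g m').2.1 - n) ((act g m').2.1 - t0)
            have e2 : (act g m').2.1 - (n : ℝ) - ((act g m').2.1 - t0) = t0 - n := by ring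
            rw [e2] at this
            linarith
          have h10 := abs_sub_round t0
          have h11 : |(n : ℝ) - (round t0 : ℤ)| < 1 := by
            have := abs_sub (t0 - (round t0 : ℤ)) (t0 - n)
            have e2 : t0 - ((round t0 : ℤ) : ℝ) - (t0 - n) = n - (round t0 : ℤ) := by ring
            rw [e2] at this
            linarith
          have h12 : |n - round t0| < 1 := by exact_mod_cast h11
          have := Int.abs_lt_one_iff.mp h12
          omega
        rw [← hn3]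
        exact ⟨⟨h5.1.le, h5.2.le, hn2⟩, hn⟩
    have hgood : good (round t0) := by
      obtain ⟨m', hm'⟩ := hfr2.exists
      exact hm'.2
    have hcl : IsClosed {m' : E4 | |(act g m').1| ≤ W ∧ |(act g m').2.1| ≤ 16 * H ∧
        |(act g m').2.1 - (round t0 : ℤ)| ≤ 1 / 4} := by
      have hcont : Continuous (act g) := (act_contDiff g (n := 0)).continuous
      have c1 : Continuous (fun m' : E4 => |(act g m').1|) := by fun_prop
      have c2 : Continuous (fun m' : E4 => |(act g m').2.1|) := by fun_prop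
      have c3 : Continuous (fun m' : E4 => |(act g m').2.1 - ((round t0 : ℤ) : ℝ)|) := by fun_prop
      exact (isClosed_le c1 continuous_const).inter ((isClosed_le c2 continuous_const).inter
        (isClosed_le c3 continuous_const))
    have hmem : m ∈ {m' : E4 | |(act g m').1| ≤ W ∧ |(act g m').2.1| ≤ 16 * H ∧
        |(act g m').2.1 - (round t0 : ℤ)| ≤ 1 / 4} := by
      rw [← hcl.closure_eq]
      exact mem_closure_iff_frequently.mpr (hfr2.mono fun m' h => h.1)
    exact ⟨g, round t0, hgood, hmem.1, hmem.2.1, hmem.2.2⟩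
  · -- out
    intro m h
    rw [per_out fψ h, per_out fP h]
    simp
  · -- hold
    intro m g h1 h2 h3 h4
    have h5 : |(act g m).1| ≤ W := by
      have : a / 4096 ≤ a := by linarith
      nlinarith
    have h6 : |(act g m).2.1| ≤ 16 * H := by linarith
    have e : act g m = ((act g m).1, (act g m).2.1, 0, 1) := by
      ext
      · rfl
      · rfl
      · exact h3
      · exact h4
    have hh := hhold (act g m).1 (act g m).2.1 h1 h2
    rw [← e] at hh
    rw [per_eq hW0 hT0 hthin fψ h5 h6, per_eq hW0 hT0 hthin fP h5 h6, hh.1, hh.2]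
    have e3 : (act g m).2.2.1 = 0 := h3
    rw [e3, h3]
    constructor
    · ring
    · ring

end Pool.Agent.MP_ff4374_an
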