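import Pool.Agent.MP_ff4374_an.Inv

/-!
MP_ff4374_an, module Local: one level in strip coordinates.
-/

set_option autoImplicit false
open MeasureTheory Filter Topology
open scoped ContDiff

namespace Pool.Agent.MP_ff4374_an

namespace LocAux

theorem ne0 : (∞ : WithTop ℕ∞) ≠ 0 := by simp

theorem dif {f : E4 → ℝ} (hf : ContDiff ℝ ∞ f) (m : E4) : DifferentiableAt ℝ f m :=
  (hf.differentiable ne0) m

/-- derivative along a line -/
def HD (f : E4 → ℝ) (m v : E4) (d : ℝ) : Prop := HasDerivAt (fun s : ℝ => f (m + s • v)) d 0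

theorem hd_of {f : E4 → ℝ} (hf : ContDiff ℝ ∞ f) (m v : E4) : HD f m v (fderiv ℝ f m v) := by
  have h1 : HasFDerivAt f (fderiv ℝ f (m + (0 : ℝ) • v)) (m + (0 : ℝ) • v) :=
    (dif hf _).hasFDerivAt
  have h2 : HasDerivAt (fun s : ℝ => m + s • v) ((1 : ℝ) • v) 0 :=
    ((hasDerivAt_id (0 : ℝ)).smul_const v).const_add m
  have h3 := h1.comp_hasDerivAt (0 : ℝ) h2
  have e : m + (0 : ℝ) • v = m := by simp
  rw [e, one_smul] at h3
  exact h3

theorem HD.unique {f : E4 → ℝ} {m v : E4} {d d' : ℝ} (h : HD f m v d) (h' : HD f m v d') :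
    d = d' := HasDerivAt.unique h h'

theorem HD.val {f : E4 → ℝ} (hf : ContDiff ℝ ∞ f) {m v : E4} {d : ℝ} (h : HD f m v d) :
    fderiv ℝ f m v = d := (hd_of hf m v).unique h

theorem HD.add {f g : E4 → ℝ} {m v : E4} {d d' : ℝ} (h : HD f m v d) (h' : HD g m v d') :
    HD (fun m => f m + g m) m v (d + d') := HasDerivAt.add h h'

theorem HD.sub {f g : E4 → ℝ} {m v : E4} {d d' : ℝ} (h : HD f m v d) (h' : HD g m v d') :
    HD (fun m => f m - g m) m v (d - d') := HasDerivAt.sub h h'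

theorem HD.mul {f g : E4 → ℝ} {m v : E4} {d d' : ℝ} (h : HD f m v d) (h' : HD g m v d') :
    HD (fun m => f m * g m) m v (d * g m + f m * d') := by
  have := HasDerivAt.mul h h'
  have e : m + (0 : ℝ) • v = m := by simp
  rw [e] at this
  exact this

theorem HD.cmul {f : E4 → ℝ} {m v : E4} {d : ℝ} (k : ℝ) (h : HD f m v d) :
    HD (fun m => k * f m) m v (k * d) := HasDerivAt.const_mul k h

theorem hd1 (m v : E4) : HD (fun m => m.1) m v v.1 := by
  have := hd_of (f := fun m : E4 => m.1) contDiff_fst m v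
  rw [fderiv_fst] at this
  exact this

theorem hd2 (m v : E4) : HD (fun m => m.2.1) m v v.2.1 := by
  have h : HasDerivAt (fun s : ℝ => m.2.1 + s * v.2.1) (1 * v.2.1) 0 :=
    ((hasDerivAt_id (0 : ℝ)).mul_const v.2.1).const_add m.2.1
  rw [one_mul] at h
  exact h

theorem hd3 (m v : E4) : HD (fun m => m.2.2.1) m v v.2.2.1 := by
  have h : HasDerivAt (fun s : ℝ => m.2.2.1 + s * v.2.2.1) (1 * v.2.2.1) 0 :=
    ((hasDerivAt_id (0 : ℝ)).mul_const v.2.2.1).const_add m.2.2.1
  rw [one_mul] at h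
  exact h

theorem hd4 (m v : E4) : HD (fun m => m.2.2.2) m v v.2.2.2 := by
  have h : HasDerivAt (fun s : ℝ => m.2.2.2 + s * v.2.2.2) (1 * v.2.2.2) 0 :=
    ((hasDerivAt_id (0 : ℝ)).mul_const v.2.2.2).const_add m.2.2.2
  rw [one_mul] at h
  exact h

theorem decomp (f : E4 → ℝ) (m v : E4) :
    fderiv ℝ f m v = dX f m * v.1 + dT f m * v.2.1 + dP f m * v.2.2.1 + dE f m * v.2.2.2 := by
  have hv : v = v.1 • ((1, 0, 0, 0) : E4) + v.2.1 • ((0, 1, 0, 0) : E4) +
      v.2.2.1 • ((0, 0, 1, 0) : E4) + v.2.2.2 • ((0, 0, 0, 1) : E4) := by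
    ext <;> simp
  conv_lhs => rw [hv]
  simp only [map_add, map_smul, smul_eq_mul, dX, dT, dP, dE]
  ring

theorem HD.comp4 {f : E4 → ℝ} (hf : ContDiff ℝ ∞ f) {g1 g2 g3 g4 : E4 → ℝ} {m v : E4}
    {d1 d2 d3 d4 : ℝ} (h1 : HD g1 m v d1) (h2 : HD g2 m v d2) (h3 : HD g3 m v d3)
    (h4 : HD g4 m v d4) :
    HD (fun m => f (g1 m, g2 m, g3 m, g4 m)) m v
      (dX f (g1 m, g2 m, g3 m, g4 m) * d1 + dT f (g1 m, g2 m, g3 m, g4 m) * d2 +
        dP f (g1 m, g2 m, g3 m, g4 m) * d3 + dE f (g1 m, g2 m, g3 m, g4 m) * d4) := by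
  have h := HasDerivAt.prodMk h1 (HasDerivAt.prodMk h2 (HasDerivAt.prodMk h3 h4))
  have hF : HasFDerivAt f (fderiv ℝ f (g1 (m + (0 : ℝ) • v), g2 (m + (0 : ℝ) • v),
      g3 (m + (0 : ℝ) • v), g4 (m + (0 : ℝ) • v))) (g1 (m + (0 : ℝ) • v), g2 (m + (0 : ℝ) • v),
      g3 (m + (0 : ℝ) • v), g4 (m + (0 : ℝ) • v)) := (dif hf _).hasFDerivAt
  have h3 := hF.comp_hasDerivAt (0 : ℝ) h
  have e : m + (0 : ℝ) • v = m := by simp
  rw [e, decomp] at h3
  exact h3

theorem HD.comp1 {σ : ℝ → ℝ} (hσ : ContDiff ℝ ∞ σ) {g : E4 → ℝ} {m v : E4} {d : ℝ}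
    (h : HD g m v d) : HD (fun m => σ (g m)) m v (deriv σ (g m) * d) := by
  have e : m + (0 : ℝ) • v = m := by simp
  have h1 : HasDerivAt σ (deriv σ (g (m + (0 : ℝ) • v))) (g (m + (0 : ℝ) • v)) :=
    ((hσ.differentiable ne0) _).hasDerivAt
  have h2 := h1.comp (0 : ℝ) h
  rw [e] at h2
  exact h2

theorem sm_dX {f : E4 → ℝ} (hf : ContDiff ℝ ∞ f) : ContDiff ℝ ∞ (dX f) :=
  (hf.fderiv_right (m := ∞) (by simp)).clm_apply contDiff_const

theorem sm_dT {f : E4 → ℝ} (hf : ContDiff ℝ ∞ f) : ContDiff ℝ ∞ (dT f) :=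
  (hf.fderiv_right (m := ∞) (by simp)).clm_apply contDiff_const

theorem sm_dP {f : E4 → ℝ} (hf : ContDiff ℝ ∞ f) : ContDiff ℝ ∞ (dP f) :=
  (hf.fderiv_right (m := ∞) (by simp)).clm_apply contDiff_const

theorem symm_XP {f : E4 → ℝ} (hf : ContDiff ℝ ∞ f) (m : E4) : dP (dX f) m = dX (dP f) m := by
  have h1 : DifferentiableAt ℝ (fderiv ℝ f) m :=
    ((hf.fderiv_right (m := ∞) (by simp)).differentiable ne0) m
  have hs : IsSymmSndFDerivAt ℝ f m :=
    (hf.contDiffAt).isSymmSndFDerivAt (by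
      simp only [minSmoothness_of_isRCLikeNormedField]
      exact WithTop.coe_le_coe.2 le_top)
  have key : ∀ u w : E4, fderiv ℝ (fun m => fderiv ℝ f m u) m w =
      fderiv ℝ (fderiv ℝ f) m w u := by
    intro u w
    have := (h1.hasFDerivAt.clm_apply (hasFDerivAt_const u m)).fderiv
    rw [this]
    simp
  unfold dP dX
  rw [key, key]
  exact hs _ _

theorem lineX {f : E4 → ℝ} (hf : ContDiff ℝ ∞ f) (x s c e : ℝ) :
    HasDerivAt (fun x' => f (x', s, c, e)) (dX f (x, s, c, e)) x := by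
  have h : HasDerivAt (fun x' : ℝ => ((x', s, c, e) : E4)) (1, 0, 0, 0) x :=
    (hasDerivAt_id x).prodMk ((hasDerivAt_const x s).prodMk
      ((hasDerivAt_const x c).prodMk (hasDerivAt_const x e)))
  exact (dif hf (x, s, c, e)).hasFDerivAt.comp_hasDerivAt x h

theorem lineP {f : E4 → ℝ} (hf : ContDiff ℝ ∞ f) (x s c e : ℝ) :
    HasDerivAt (fun c' => f (x, s, c', e)) (dP f (x, s, c, e)) c := by
  have h : HasDerivAt (fun c' : ℝ => ((x, s, c', e) : E4)) (0, 0, 1, 0) c :=
    (hasDerivAt_const c x).prodMk ((hasDerivAt_const c s).prodMk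
      ((hasDerivAt_id c).prodMk (hasDerivAt_const c e)))
  exact (dif hf (x, s, c, e)).hasFDerivAt.comp_hasDerivAt c h

theorem one_sided {f : ℝ → ℝ} {d k x0 : ℝ} (hf : HasDerivAt f d x0)
    (h : (∀ x, x0 ≤ x → f x = x * k) ∨ (∀ x, x ≤ x0 → f x = x * k)) : d = k := by
  have hk : ∀ s : Set ℝ, HasDerivWithinAt (fun x : ℝ => x * k) k s x0 := by
    intro s
    have := ((hasDerivAt_id x0).mul_const k).hasDerivWithinAt (s := s)
    simpa using this
  rcases h with h | h
  · have h1 : HasDerivWithinAt f k (Set.Ici x0) x0 :=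
      (hk _).congr (fun x hx => h x hx) (h x0 le_rfl)
    exact (uniqueDiffWithinAt_Ici x0).eq_deriv _ hf.hasDerivWithinAt h1
  · have h1 : HasDerivWithinAt f k (Set.Iic x0) x0 :=
      (hk _).congr (fun x hx => h x hx) (h x0 le_rfl)
    exact (uniqueDiffWithinAt_Iic x0).eq_deriv _ hf.hasDerivWithinAt h1

theorem farD {r δ R : ℝ} {Z G : E4 → ℝ} (hB : Block r δ R Z G) {x s c e : ℝ}
    (h : 16 ≤ |s| ∨ R ≤ |x| ∨ R ≤ |c| ∨ r ≤ |e - 1|) :
    dX Z (x, s, c, e) = c ∧ dP Z (x, s, c, e) = x := by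
  have hR := hB.one_le
  constructor
  · apply one_sided (lineX hB.smZ x s c e)
    rcases h with h | h | h | h
    · exact Or.inl fun x' _ => hB.far x' s c e (Or.inl h)
    · rcases le_total 0 x with hx | hx
      · rw [abs_of_nonneg hx] at h
        refine Or.inl fun x' hx' => hB.far x' s c e (Or.inr (Or.inl ?_))
        rw [abs_of_nonneg (by linarith)]
        linarith
      · rw [abs_of_nonpos hx] at h
        refine Or.inr fun x' hx' => hB.far x' s c e (Or.inr (Or.inl ?_))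
        rw [abs_of_nonpos (by linarith)]
        linarith
    · exact Or.inl fun x' _ => hB.far x' s c e (Or.inr (Or.inr (Or.inl h)))
    · exact Or.inl fun x' _ => hB.far x' s c e (Or.inr (Or.inr (Or.inr h)))
  · apply one_sided (lineP hB.smZ x s c e)
    rcases h with h | h | h | h
    · exact Or.inl fun c' _ => (hB.far x s c' e (Or.inl h)).trans (mul_comm _ _)
    · exact Or.inl fun c' _ => (hB.far x s c' e (Or.inr (Or.inl h))).trans (mul_comm _ _)
    · rcases le_total 0 c with hx | hx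
      · rw [abs_of_nonneg hx] at h
        refine Or.inl fun c' hx' =>
          (hB.far x s c' e (Or.inr (Or.inr (Or.inl ?_)))).trans (mul_comm _ _)
        rw [abs_of_nonneg (by linarith)]
        linarith
      · rw [abs_of_nonpos hx] at h
        refine Or.inr fun c' hx' =>
          (hB.far x s c' e (Or.inr (Or.inr (Or.inl ?_)))).trans (mul_comm _ _)
        rw [abs_of_nonpos (by linarith)]
        linarith
    · exact Or.inl fun c' _ =>
        (hB.far x s c' e (Or.inr (Or.inr (Or.inr h)))).trans (mul_comm _ _)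

theorem monoX {r δ R : ℝ} {Z G : E4 → ℝ} (hB : Block r δ R Z G) (s c e : ℝ) :
    StrictMono (fun x => dP Z (x, s, c, e)) := by
  refine strictMono_of_deriv_pos fun x => ?_
  rw [(lineX (sm_dP hB.smZ) x s c e).deriv]
  exact hB.mono _

theorem monoP {r δ R : ℝ} {Z G : E4 → ℝ} (hB : Block r δ R Z G) (x s e : ℝ) :
    StrictMono (fun c => dX Z (x, s, c, e)) := by
  refine strictMono_of_deriv_pos fun c => ?_
  rw [(lineP (sm_dX hB.smZ) x s c e).deriv, symm_XP hB.smZ]
  exact hB.mono _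

end LocAux

open LocAux

theorem local_level {r δ R : ℝ} {Z G : E4 → ℝ} {C1 H ε : ℝ} {good : ℤ → Prop} {σ : ℝ → ℝ} {a : ℝ}
    (hB : Block r δ R Z G) (hC : Clock C1 H ε good σ) (hH : 1 ≤ H) (ha : 0 < a)
    (hr : R * a / H ≤ r) :
    ∃ ψ P S : E4 → ℝ, LTrip (17 * R * a) (16 * H) r ψ P S (Klev G a H σ) ∧
      ∀ X t : ℝ, |t| ≤ H → |X| ≤ a / 4096 → ψ (X, t, 0, 1) = 4096 * X ∧ P (X, t, 0, 1) = 0 := by
  have hH0 : 0 < H := by linarith
  have hR := hB.one_le
  have ha' : a ≠ 0 := ha.ne'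
  have hH' : H ≠ 0 := hH0.ne'
  -- the equation for x
  have hnf : ∀ f : E4 → ℝ, ContDiff ℝ ∞ f →
      ContDiff ℝ ∞ (fun m : E4 => ((f m / a, σ m.2.1, m.2.2.1 * H / a, m.2.2.2) : E4)) := by
    intro f hf
    exact (hf.div_const a).prodMk ((hC.sm.comp contDiff_snd.fst).prodMk
      (((contDiff_snd.snd.fst.mul contDiff_const).div_const a).prodMk contDiff_snd.snd.snd))
  have hgs : ContDiff ℝ ∞ (fun m : E4 => a * dP Z (m.1 / a, σ m.2.1, m.2.2.1 * H / a, m.2.2.2) +
      m.2.2.1 * m.2.1) :=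
    (contDiff_const.mul ((sm_dP hB.smZ).comp (hnf _ contDiff_fst))).add
      (contDiff_snd.snd.fst.mul contDiff_snd.fst)
  have hpos : ∀ m : ℝ × (ℝ × ℝ × ℝ), 0 < fderiv ℝ (fun m : E4 =>
      a * dP Z (m.1 / a, σ m.2.1, m.2.2.1 * H / a, m.2.2.2) + m.2.2.1 * m.2.1) m (1, 0) := by
    intro m
    have h1 : HD (fun m : E4 => m.1 / a) m (1, 0) (1 / a) := by
      have := HD.cmul (1 / a) (hd1 m (1, 0))
      convert this using 2
      · ring
      · simp
    have h2 : HD (fun m : E4 => σ m.2.1) m (1, 0) (deriv σ m.2.1 * 0) :=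
      HD.comp1 hC.sm (hd2 m (1, 0))
    have h3 : HD (fun m : E4 => m.2.2.1 * H / a) m (1, 0) 0 := by
      have := HD.cmul (H / a) (hd3 m (1, 0))
      convert this using 2
      · ring
      · simp
    have h4 : HD (fun m : E4 => m.2.2.2) m (1, 0) 0 := hd4 m (1, 0)
    have h5 := (HD.cmul a (HD.comp4 (sm_dP hB.smZ) h1 h2 h3 h4)).add
      ((hd3 m (1, 0)).mul (hd2 m (1, 0)))
    rw [HD.val hgs h5]
    have := hB.mono (m.1 / a, σ m.2.1, m.2.2.1 * H / a, m.2.2.2)
    have e : a * (dX (dP Z) (m.1 / a, σ m.2.1, m.2.2.1 * H / a, m.2.2.2) * (1 / a) +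
        dT (dP Z) (m.1 / a, σ m.2.1, m.2.2.1 * H / a, m.2.2.2) * (deriv σ m.2.1 * 0) +
        dP (dP Z) (m.1 / a, σ m.2.1, m.2.2.1 * H / a, m.2.2.2) * 0 +
        dE (dP Z) (m.1 / a, σ m.2.1, m.2.2.1 * H / a, m.2.2.2) * 0) +
        (((1, 0) : ℝ × (ℝ × ℝ × ℝ)).2.2.1 * m.2.1 + m.2.2.1 * ((1, 0) : ℝ × (ℝ × ℝ × ℝ)).2.1) =
        dX (dP Z) (m.1 / a, σ m.2.1, m.2.2.1 * H / a, m.2.2.2) := by
      simp only [mul_zero, add_zero, Prod.fst_zero, Prod.snd_zero, zero_mul]
      field_simp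
    rw [e]
    exact this
  have hsurj : ∀ (y : ℝ × ℝ × ℝ) (p : ℝ), ∃ x, (fun m : E4 =>
      a * dP Z (m.1 / a, σ m.2.1, m.2.2.1 * H / a, m.2.2.2) + m.2.2.1 * m.2.1) (x, y) = p := by
    rintro ⟨t, c, e⟩ p
    have hcont : Continuous (fun x : ℝ => a * dP Z (x / a, σ t, c * H / a, e) + c * t) := by
      have : Continuous (dP Z) := (sm_dP hB.smZ).continuous
      have h2 : Continuous (fun x : ℝ => ((x / a, σ t, c * H / a, e) : E4)) := by fun_prop
      exact (continuous_const.mul (this.comp h2)).add continuous_const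
    have hval : ∀ x, R * a ≤ |x| → a * dP Z (x / a, σ t, c * H / a, e) + c * t = x + c * t := by
      intro x hx
      have : R ≤ |x / a| := by
        rw [abs_div, abs_of_pos ha, le_div_iff₀ ha]
        exact hx
      rw [(farD hB (Or.inr (Or.inl this))).2]
      field_simp
    set B := max (R * a) |p - c * t| with hBdef
    have hB0 : 0 < B := lt_of_lt_of_le (by positivity) (le_max_left _ _)
    have hB1 : R * a ≤ |B| := by rw [abs_of_pos hB0]; exact le_max_left _ _
    have hB2 : R * a ≤ |-B| := by rw [abs_neg]; exact hB1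
    have hB3 : |p - c * t| ≤ B := le_max_right _ _
    rw [abs_le] at hB3
    have hmem : p ∈ Set.Icc ((fun x : ℝ => a * dP Z (x / a, σ t, c * H / a, e) + c * t) (-B))
        ((fun x : ℝ => a * dP Z (x / a, σ t, c * H / a, e) + c * t) B) := by
      simp only [Set.mem_Icc]
      rw [hval B hB1, hval (-B) hB2]
      constructor <;> linarith [hB3.1, hB3.2]
    obtain ⟨x, _, hx⟩ := intermediate_value_Icc (by linarith : -B ≤ B) hcont.continuousOn hmem
    exact ⟨x, hx⟩
  obtain ⟨Xi, hXs, hX1, hX2⟩ := inv1 ne0 (fun m : E4 =>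
      a * dP Z (m.1 / a, σ m.2.1, m.2.2.1 * H / a, m.2.2.2) + m.2.2.1 * m.2.1) hgs hpos hsurj
  have hXe : ∀ m : E4, a * dP Z (Xi m / a, σ m.2.1, m.2.2.1 * H / a, m.2.2.2) =
      m.1 - m.2.2.1 * m.2.1 := by
    intro m
    have := hX1 m.1 m.2
    simp only at this
    linarith
  have hXu : ∀ (m : E4) (x : ℝ), a * dP Z (x / a, σ m.2.1, m.2.2.1 * H / a, m.2.2.2) =
      m.1 - m.2.2.1 * m.2.1 → Xi m = x := by
    intro m x hx
    have := hX2 x m.2
    simp only at this
    rw [hx] at this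
    rw [← this]
    congr 1
    ext <;> simp
  -- the point in block coordinates
  set Nf : E4 → E4 := fun m => (Xi m / a, σ m.2.1, m.2.2.1 * H / a, m.2.2.2) with hNf
  have hNs : ContDiff ℝ ∞ Nf := hnf Xi hXs
  set Pf : E4 → ℝ := fun m => a / H * dX Z (Nf m) with hPf
  have hPs : ContDiff ℝ ∞ Pf := contDiff_const.mul ((sm_dX hB.smZ).comp hNs)
  set Sf : E4 → ℝ := fun m => a ^ 2 / H * Z (Nf m) - m.2.2.1 * (m.1 - m.2.2.1 * m.2.1) +
    1 / 2 * (m.2.1 * (Pf m * Pf m - m.2.2.1 * m.2.2.1)) with hSf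
  have hSs : ContDiff ℝ ∞ Sf := by
    refine ((contDiff_const.mul (hB.smZ.comp hNs)).sub
      (contDiff_snd.snd.fst.mul (contDiff_fst.sub (contDiff_snd.snd.fst.mul contDiff_snd.fst)))).add
      (contDiff_const.mul (contDiff_snd.fst.mul ((hPs.mul hPs).sub
        (contDiff_snd.snd.fst.mul contDiff_snd.snd.fst))))
  have hψs : ContDiff ℝ ∞ (fun m : E4 => Xi m + m.2.1 * Pf m) :=
    hXs.add (contDiff_snd.fst.mul hPs)
  have hKs : ContDiff ℝ ∞ (Klev G a H σ) := by
    have hσ' : ContDiff ℝ ∞ (deriv σ) := (contDiff_infty_iff_deriv.1 hC.sm).2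
    unfold Klev
    refine (contDiff_const.mul (hσ'.comp contDiff_snd.fst)).mul (hB.smG.comp ?_)
    exact ((contDiff_fst.sub (contDiff_snd.snd.fst.mul contDiff_snd.fst)).div_const a).prodMk
      ((hC.sm.comp contDiff_snd.fst).prodMk
        (((contDiff_snd.snd.fst.mul contDiff_const).div_const a).prodMk contDiff_snd.snd.snd))
  have hKval : ∀ m : E4, Klev G a H σ (Xi m + m.2.1 * Pf m, m.2.1, Pf m, m.2.2.2) =
      - (a ^ 2 / H * deriv σ m.2.1 * dT Z (Nf m)) := by
    intro m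
    unfold Klev
    have e1 : (Xi m + m.2.1 * Pf m - Pf m * m.2.1) / a = Xi m / a := by
      congr 1
      ring
    have e2 : Pf m * H / a = dX Z (Nf m) := by
      rw [hPf]
      field_simp
    simp only
    rw [e1, e2]
    have := hB.rel (Xi m / a) (σ m.2.1) (m.2.2.1 * H / a) m.2.2.2
    have e3 : Nf m = (Xi m / a, σ m.2.1, m.2.2.1 * H / a, m.2.2.2) := rfl
    rw [e3, this]
    ring
  -- far points
  have hfar : ∀ m : E4, (16 ≤ |σ m.2.1| ∨ R ≤ |Xi m / a| ∨ R ≤ |m.2.2.1 * H / a| ∨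
      r ≤ |m.2.2.2 - 1|) → Xi m + m.2.1 * Pf m = m.1 ∧ Pf m = m.2.2.1 ∧ Sf m = 0 ∧
        Klev G a H σ m = 0 := by
    intro m hm
    have hf := farD hB (x := Xi m / a) (s := σ m.2.1) (c := m.2.2.1 * H / a) (e := m.2.2.2) hm
    have hZv := hB.far (Xi m / a) (σ m.2.1) (m.2.2.1 * H / a) m.2.2.2 hm
    have e3 : Nf m = (Xi m / a, σ m.2.1, m.2.2.1 * H / a, m.2.2.2) := rfl
    have hP1 : Pf m = m.2.2.1 := by
      have : Pf m = a / H * dX Z (Nf m) := rfl
      rw [this, e3, hf.1]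
      field_simp
    have hX3 : Xi m = m.1 - m.2.2.1 * m.2.1 := by
      have := hXe m
      rw [hf.2] at this
      rw [← this]
      field_simp
    refine ⟨?_, hP1, ?_, ?_⟩
    · rw [hP1, hX3]; ring
    · have : Sf m = a ^ 2 / H * Z (Nf m) - m.2.2.1 * (m.1 - m.2.2.1 * m.2.1) +
        1 / 2 * (m.2.1 * (Pf m * Pf m - m.2.2.1 * m.2.2.1)) := rfl
      rw [this, e3, hZv, hP1, ← hX3]
      field_simp
      ring
    · unfold Klev
      rw [← hX3, hB.Gfar (Xi m / a) (σ m.2.1) (m.2.2.1 * H / a) m.2.2.2 (by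
        rcases hm with h | h | h | h
        · exact Or.inl h
        · exact Or.inr (Or.inr (Or.inl h))
        · exact Or.inr (Or.inr (Or.inr (Or.inl h)))
        · exact Or.inr (Or.inr (Or.inr (Or.inr h)))), mul_zero]
  refine ⟨fun m => Xi m + m.2.1 * Pf m, Pf, Sf, ⟨hψs, hPs, hSs, hKs, ?_, ?_, ?_, ?_⟩, ?_⟩
  · -- form
    intro m v hv
    have dXi := hd_of hXs m v
    have dPf := hd_of hPs m v
    have h1 : HD (fun m : E4 => Xi m / a) m v (fderiv ℝ Xi m v / a) := by
      have := HD.cmul (1 / a) dXi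
      convert this using 2
      · ring
      · ring
    have h2 : HD (fun m : E4 => σ m.2.1) m v (deriv σ m.2.1 * v.2.1) :=
      HD.comp1 hC.sm (hd2 m v)
    have h3 : HD (fun m : E4 => m.2.2.1 * H / a) m v (v.2.2.1 * H / a) := by
      have := HD.cmul (H / a) (hd3 m v)
      convert this using 2
      · ring
      · ring
    have hZ4 := HD.comp4 hB.smZ h1 h2 h3 (hd4 m v)
    have hψd := HD.val hψs (dXi.add ((hd2 m v).mul dPf))
    have hSd := HD.val hSs (((HD.cmul (a ^ 2 / H) hZ4).sub ((hd3 m v).mul ((hd1 m v).sub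
      ((hd3 m v).mul (hd2 m v))))).add (HD.cmul (1 / 2) ((hd2 m v).mul ((dPf.mul dPf).sub
        ((hd3 m v).mul (hd3 m v))))))
    rw [hSd, hψd, hKval m]
    have e3 : Nf m = (Xi m / a, σ m.2.1, m.2.2.1 * H / a, m.2.2.2) := rfl
    rw [← e3, hv]
    have e4 : a / H * dX Z (Nf m) = Pf m := rfl
    have e5 : a * dP Z (Nf m) = m.1 - m.2.2.1 * m.2.1 := hXe m
    have e6 : a ^ 2 / H * (dX Z (Nf m) * (fderiv ℝ Xi m v / a) +
        dT Z (Nf m) * (deriv σ m.2.1 * v.2.1) + dP Z (Nf m) * (v.2.2.1 * H / a) +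
        dE Z (Nf m) * 0) = Pf m * fderiv ℝ Xi m v + a ^ 2 / H * deriv σ m.2.1 * dT Z (Nf m) * v.2.1
          + (m.1 - m.2.2.1 * m.2.1) * v.2.2.1 := by
      rw [← e4, ← e5]
      field_simp
      ring
    rw [e6]
    ring
  · -- injectivity
    intro m m' ht he hψ hP
    have hxx : Xi m = Xi m' := by
      rw [hP, ht] at hψ
      linarith
    have hdX : dX Z (Nf m) = dX Z (Nf m') := by
      have h1 : a / H * dX Z (Nf m) = a / H * dX Z (Nf m') := hP
      have h2 : a / H ≠ 0 := by positivity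
      exact mul_left_cancel₀ h2 h1
    have e3 : Nf m = (Xi m' / a, σ m'.2.1, m.2.2.1 * H / a, m'.2.2.2) := by
      rw [← hxx, ← ht, ← he]
    have e3' : Nf m' = (Xi m' / a, σ m'.2.1, m'.2.2.1 * H / a, m'.2.2.2) := rfl
    rw [e3, e3'] at hdX
    have hc := (monoP hB (Xi m' / a) (σ m'.2.1) m'.2.2.2).injective hdX
    have hc' : m.2.2.1 = m'.2.2.1 := by
      field_simp at hc
      exact hc
    have h1 := hXe m
    have h2 := hXe m'
    rw [hxx, ht, he, hc', h2] at h1
    have hX : m.1 = m'.1 := by linarith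
    ext
    · exact hX
    · exact ht
    · exact hc'
    · exact he
  · -- the tube
    intro m hm
    apply hfar
    by_cases ht : 16 * H ≤ |m.2.1|
    · exact Or.inl (hC.far _ ht)
    · right
      by_contra hcon
      push Not at hcon
      obtain ⟨c1, c2, c3⟩ := hcon
      rcases hm with hm | hm
      · have h1 := hXe m
        set D := dP Z (Xi m / a, σ m.2.1, m.2.2.1 * H / a, m.2.2.2) with hD
        have hmono := monoX hB (σ m.2.1) (m.2.2.1 * H / a) m.2.2.2
        have hRv := (farD hB (x := R) (s := σ m.2.1) (c := m.2.2.1 * H / a) (e := m.2.2.2)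
          (Or.inr (Or.inl (le_abs_self R)))).2
        have hRv' := (farD hB (x := -R) (s := σ m.2.1) (c := m.2.2.1 * H / a) (e := m.2.2.2)
          (Or.inr (Or.inl (by rw [abs_neg]; exact le_abs_self R)))).2
        rw [abs_lt] at c1
        have d1 : D < R := by
          have := hmono c1.2
          simp only at this
          rw [hRv] at this
          exact this
        have d2 : -R < D := by
          have := hmono c1.1
          simp only at this
          rw [hRv'] at this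
          exact this
        have d3 : |m.2.2.1 * m.2.1| ≤ R * a / H * (16 * H) := by
          rw [abs_mul]
          have : |m.2.2.1| ≤ R * a / H := by
            rw [abs_div, abs_mul, abs_of_pos ha, abs_of_pos hH0, div_lt_iff₀ ha] at c2
            rw [le_div_iff₀ hH0]
            exact c2.le
          exact mul_le_mul this (not_le.1 ht).le (abs_nonneg _) (by positivity)
        have d4 : R * a / H * (16 * H) = 16 * R * a := by field_simp
        rw [d4] at d3
        have d5 : |m.1| < 17 * R * a := by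
          have e1 : m.1 = a * D + m.2.2.1 * m.2.1 := by linarith
          rw [e1]
          have e2 : |a * D| < R * a := by
            rw [abs_mul, abs_of_pos ha, mul_comm]
            exact mul_lt_mul_of_pos_right (abs_lt.2 ⟨d2, d1⟩) ha
          calc |a * D + m.2.2.1 * m.2.1| ≤ |a * D| + |m.2.2.1 * m.2.1| := abs_add_le _ _
            _ < 17 * R * a := by linarith
        linarith
      · exact ht hm
  · -- trivial momenta and energies
    intro m hm
    apply hfar
    rcases hm with hm | hm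
    · right; right; left
      rw [abs_div, abs_mul, abs_of_pos ha, abs_of_pos hH0, le_div_iff₀ ha]
      have : R * a / H ≤ |m.2.2.1| := le_trans hr hm
      rwa [div_le_iff₀ hH0] at this
    · exact Or.inr (Or.inr (Or.inr hm))
  · -- the hold
    intro X t ht hX
    have hσ : |σ t| ≤ 1 := hC.hold t ht
    have hx1 : |4096 * X / a| ≤ 1 := by
      rw [abs_div, abs_mul, abs_of_pos ha, abs_of_pos (by norm_num : (0:ℝ) < 4096), div_le_iff₀ ha]
      linarith
    have hXv : Xi (X, t, 0, 1) = 4096 * X := by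
      apply hXu
      simp only [zero_mul, sub_zero, zero_div]
      rw [hB.hold1 _ _ hσ hx1]
      field_simp
    have hPv : Pf (X, t, 0, 1) = 0 := by
      have : Pf (X, t, 0, 1) = a / H * dX Z (Xi (X, t, 0, 1) / a, σ t, 0 * H / a, 1) := rfl
      rw [this]
      simp only [zero_mul, zero_div]
      rw [hB.hold0 _ _ _ hσ, mul_zero]
    refine ⟨?_, hPv⟩
    simp only
    rw [hXv, hPv]
    ring

end Pool.Agent.MP_ff4374_an
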