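import Pool.Agent.MP_ff4374_an.MkH

/-! # Module MkConv: convergence of the perturbed Hamiltonians -/

set_option autoImplicit false
open MeasureTheory Filter Topology
open scoped ContDiff

namespace Pool.Agent.MP_ff4374_an

namespace MkConvAux

/-- the derivative vanishes outside the support region -/
theorem fderiv_zero {δ r : ℝ} (hr : 0 < r) {κ : E4 → ℝ} (h : KB δ r κ) {m : E4}
    (hm : r ≤ |m.2.2.1| ∨ r ≤ |m.2.2.2 - 1|) : fderiv ℝ κ m = 0 := by
  have hcont : Continuous (fderiv ℝ κ) := h.c2.continuous_fderiv (by norm_num)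
  -- the approach path
  let γ : ℝ → E4 := fun t => (m.1, m.2.1, (1 + t) * m.2.2.1, 1 + (1 + t) * (m.2.2.2 - 1))
  have hγ : Continuous γ := by
    show Continuous fun t : ℝ =>
      ((m.1, m.2.1, (1 + t) * m.2.2.1, 1 + (1 + t) * (m.2.2.2 - 1)) : E4)
    fun_prop
  have hγ0 : γ 0 = m := by
    show ((m.1, m.2.1, (1 + 0) * m.2.2.1, 1 + (1 + 0) * (m.2.2.2 - 1)) : E4) = m
    ext <;> simp
  have hpos : ∀ t : ℝ, 0 < t → fderiv ℝ κ (γ t) = 0 := by
    intro t ht
    have hopen : IsOpen {m' : E4 | r < |m'.2.2.1| ∨ r < |m'.2.2.2 - 1|} := by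
      have o1 : IsOpen {m' : E4 | r < |m'.2.2.1|} := isOpen_lt continuous_const (by fun_prop)
      have o2 : IsOpen {m' : E4 | r < |m'.2.2.2 - 1|} := isOpen_lt continuous_const (by fun_prop)
      exact o1.union o2
    have hmem : γ t ∈ {m' : E4 | r < |m'.2.2.1| ∨ r < |m'.2.2.2 - 1|} := by
      rcases hm with hm | hm
      · left
        show r < |(1 + t) * m.2.2.1|
        rw [abs_mul, abs_of_pos (by linarith)]
        nlinarith
      · right
        show r < |1 + (1 + t) * (m.2.2.2 - 1) - 1|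
        rw [add_sub_cancel_left, abs_mul, abs_of_pos (by linarith)]
        nlinarith
    have hev : κ =ᶠ[𝓝 (γ t)] fun _ => 0 := by
      filter_upwards [hopen.mem_nhds hmem] with m' hm'
      rcases hm' with hm' | hm'
      · exact h.supp m' (Or.inl hm'.le)
      · exact h.supp m' (Or.inr hm'.le)
    rw [hev.fderiv_eq]
    simp
  have h1 : Tendsto (fun t => fderiv ℝ κ (γ t)) (𝓝[>] 0) (𝓝 (fderiv ℝ κ (γ 0))) :=
    ((hcont.comp hγ).tendsto 0).mono_left nhdsWithin_le_nhds
  have h2 : Tendsto (fun t => fderiv ℝ κ (γ t)) (𝓝[>] 0) (𝓝 0) := by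
    refine tendsto_const_nhds.congr' ?_
    filter_upwards [self_mem_nhdsWithin] with t ht
    exact (hpos t ht).symm
  rw [hγ0] at h1
  exact tendsto_nhds_unique h1 h2

/-- mixed second derivatives -/
theorem mixed {δ r : ℝ} {κ : E4 → ℝ} (h : KB δ r κ) (hδ : δ ≤ 1 / 2) (m u v : E4)
    (hu : ‖u‖ ≤ 1) (hv : ‖v‖ ≤ 1) : |fderiv ℝ (fderiv ℝ κ) m u v| ≤ 1 := by
  have hsym : fderiv ℝ (fderiv ℝ κ) m u v = fderiv ℝ (fderiv ℝ κ) m v u :=
    (h.c2.contDiffAt (x := m)).isSymmSndFDerivAt (by simp) u v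
  have e : 4 * fderiv ℝ (fderiv ℝ κ) m u v = D2 κ m (u + v) - D2 κ m (u - v) := by
    simp only [D2, map_add, map_sub, add_apply, sub_apply]
    rw [hsym]
    ring
  have h1 := h.b2 m (u + v)
  have h2 := h.b2 m (u - v)
  have h3 : ‖u + v‖ ≤ 2 := (norm_add_le _ _).trans (by linarith)
  have h4 : ‖u - v‖ ≤ 2 := (norm_sub_le _ _).trans (by linarith)
  have h5 : δ * ‖u + v‖ ^ 2 ≤ 2 := by
    have : ‖u + v‖ ^ 2 ≤ 4 := by nlinarith [norm_nonneg (u + v)]
    nlinarith [sq_nonneg ‖u + v‖]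
  have h6 : δ * ‖u - v‖ ^ 2 ≤ 2 := by
    have : ‖u - v‖ ^ 2 ≤ 4 := by nlinarith [norm_nonneg (u - v)]
    nlinarith [sq_nonneg ‖u - v‖]
  rw [abs_le] at h1 h2 ⊢
  constructor <;> linarith [h1.1, h1.2, h2.1, h2.2]

theorem norm_E : ‖((0, 0, 0, 1) : E4)‖ = 1 := by
  simp [Prod.norm_def]

theorem norm_P : ‖((0, 0, 1, 0) : E4)‖ = 1 := by
  simp [Prod.norm_def]

theorem hasDerivAt_line (x y p e : ℝ) :
    HasDerivAt (fun e' : ℝ => ((x, y, p, e') : E4)) (0, 0, 0, 1) e := by
  exact (hasDerivAt_const e x).prodMk ((hasDerivAt_const e y).prodMk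
    ((hasDerivAt_const e p).prodMk (hasDerivAt_id e)))

/-- Lipschitz in the energy variable -/
theorem lip0 {δ r : ℝ} {κ : E4 → ℝ} (h : KB δ r κ) (hδ : δ ≤ 1 / 2) (x y p e e' : ℝ) :
    |κ (x, y, p, e') - κ (x, y, p, e)| ≤ 1 / 2 * |e' - e| := by
  have hd : ∀ s ∈ (Set.univ : Set ℝ), HasDerivWithinAt (fun e' : ℝ => κ (x, y, p, e'))
      (fderiv ℝ κ (x, y, p, s) (0, 0, 0, 1)) Set.univ s := by
    intro s _
    have h1 : HasFDerivAt κ (fderiv ℝ κ (x, y, p, s)) (x, y, p, s) :=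
      (h.c2.differentiable (by norm_num) _).hasFDerivAt
    exact (h1.comp_hasDerivAt s (hasDerivAt_line x y p s)).hasDerivWithinAt
  have hb : ∀ s ∈ (Set.univ : Set ℝ), ‖fderiv ℝ κ (x, y, p, s) (0, 0, 0, 1)‖ ≤ 1 / 2 := by
    intro s _
    have h2 := h.b1 (x, y, p, s) (0, 0, 0, 1)
    rw [norm_E, mul_one] at h2
    exact h2.trans hδ
  exact (convex_univ).norm_image_sub_le_of_norm_hasDerivWithin_le hd hb (Set.mem_univ e)
    (Set.mem_univ e')

/-- the derivatives are Lipschitz in the energy variable -/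
theorem lip1 {δ r : ℝ} {κ : E4 → ℝ} (h : KB δ r κ) (hδ : δ ≤ 1 / 2) (x y p e e' : ℝ) (v : E4)
    (hv : ‖v‖ ≤ 1) :
    |fderiv ℝ κ (x, y, p, e') v - fderiv ℝ κ (x, y, p, e) v| ≤ 1 * |e' - e| := by
  have hd : ∀ s ∈ (Set.univ : Set ℝ), HasDerivWithinAt (fun e' : ℝ => fderiv ℝ κ (x, y, p, e') v)
      (fderiv ℝ (fderiv ℝ κ) (x, y, p, s) (0, 0, 0, 1) v) Set.univ s := by
    intro s _
    have h0 : ContDiff ℝ 1 (fderiv ℝ κ) := h.c2.fderiv_right (by norm_num)
    have h1 : HasFDerivAt (fderiv ℝ κ) (fderiv ℝ (fderiv ℝ κ) (x, y, p, s)) (x, y, p, s) :=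
      (h0.differentiable (by norm_num) _).hasFDerivAt
    have h2 := h1.comp_hasDerivAt s (hasDerivAt_line x y p s)
    have h3 := h2.clm_apply (hasDerivAt_const s v)
    simp only [map_zero, add_zero] at h3
    exact HasDerivAt.hasDerivWithinAt h3
  have hb : ∀ s ∈ (Set.univ : Set ℝ), ‖fderiv ℝ (fderiv ℝ κ) (x, y, p, s) (0, 0, 0, 1) v‖ ≤ 1 := by
    intro s _
    exact mixed h hδ _ _ _ norm_E.le hv
  exact (convex_univ).norm_image_sub_le_of_norm_hasDerivWithin_le hd hb (Set.mem_univ e)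
    (Set.mem_univ e')

theorem prod3 {a b c a' b' c' η A B C : ℝ} (hη : 0 ≤ η) (ha : |a' - a| ≤ A * η)
    (hb : |b' - b| ≤ B * η) (hc : |c' - c| ≤ C * η) (hA : 0 ≤ A) (hB : 0 ≤ B) (_hC : 0 ≤ C)
    (h1 : |a| ≤ 3) (h2 : |b| ≤ 3) (h3 : |b'| ≤ 3) (h4 : |c'| ≤ 2) :
    |a' * (b' * c') - a * (b * c)| ≤ (6 * A + 6 * B + 9 * C) * η := by
  have e : a' * (b' * c') - a * (b * c)
      = (a' - a) * (b' * c') + a * ((b' - b) * c') + a * (b * (c' - c)) := by ring
  have t1 : |(a' - a) * (b' * c')| ≤ 6 * A * η := by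
    rw [abs_mul, abs_mul]
    have : |b'| * |c'| ≤ 3 * 2 := mul_le_mul h3 h4 (abs_nonneg _) (by norm_num)
    calc |a' - a| * (|b'| * |c'|) ≤ (A * η) * (3 * 2) :=
          mul_le_mul ha this (by positivity) (by positivity)
      _ = 6 * A * η := by ring
  have t2 : |a * ((b' - b) * c')| ≤ 6 * B * η := by
    rw [abs_mul, abs_mul]
    have : |b' - b| * |c'| ≤ (B * η) * 2 := mul_le_mul hb h4 (abs_nonneg _) (by positivity)
    calc |a| * (|b' - b| * |c'|) ≤ 3 * ((B * η) * 2) :=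
          mul_le_mul h1 this (by positivity) (by norm_num)
      _ = 6 * B * η := by ring
  have t3 : |a * (b * (c' - c))| ≤ 9 * C * η := by
    rw [abs_mul, abs_mul]
    have : |b| * |c' - c| ≤ 3 * (C * η) := mul_le_mul h2 hc (abs_nonneg _) (by norm_num)
    calc |a| * (|b| * |c' - c|) ≤ 3 * (3 * (C * η)) :=
          mul_le_mul h1 this (by positivity) (by norm_num)
      _ = 9 * C * η := by ring
  rw [e]
  calc _ ≤ |(a' - a) * (b' * c') + a * ((b' - b) * c')| + |a * (b * (c' - c))| := abs_add_le _ _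
    _ ≤ |(a' - a) * (b' * c')| + |a * ((b' - b) * c')| + |a * (b * (c' - c))| := by
        linarith [abs_add_le ((a' - a) * (b' * c')) (a * ((b' - b) * c'))]
    _ ≤ (6 * A + 6 * B + 9 * C) * η := by linarith

end MkConvAux

open MkConvAux in
theorem mkH_conv {m M r δ0 : ℝ} {H0 : V → ℝ} (h0 : IsH0 m M r H0) (hδ : δ0 ≤ 1 / 2)
    {κ : E4 → ℝ} {κk : ℕ → E4 → ℝ} (h : KB δ0 r κ) (hk : ∀ k, KB δ0 r (κk k))
    {η : ℕ → ℝ} (hη : Tendsto η atTop (𝓝 0)) (c0 : ∀ k m, |κk k m - κ m| ≤ η k)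
    (c1 : ∀ k m v, |fderiv ℝ (κk k) m v - fderiv ℝ κ m v| ≤ η k * ‖v‖) :
    ∃ ε : ℕ → ℝ, Tendsto ε atTop (𝓝 0) ∧
      (∀ k x p, |mkH H0 (κk k) (x, p) - mkH H0 κ (x, p)| ≤ ε k) ∧
      (∀ k x p i, |gradP (mkH H0 (κk k)) x p i - gradP (mkH H0 κ) x p i| ≤ ε k) := by
  have hr := h0.rpos
  have hr8 := h0.rle
  have hη0 : ∀ k, 0 ≤ η k := fun k => (abs_nonneg _).trans (c0 k 0)
  have key : ∀ k (x p : V),
      (ee (κk k) x p = ee κ x p ∧ fderiv ℝ (κk k) (x 0, x 1, p 0, ee (κk k) x p) = 0 ∧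
        fderiv ℝ κ (x 0, x 1, p 0, ee κ x p) = 0) ∨
      (|p 0| < r ∧ |ee (κk k) x p| ≤ 3 ∧ |ee κ x p| ≤ 3 ∧
        |ee (κk k) x p - ee κ x p| ≤ 2 * η k) := by
    intro k x p
    have s1 := ee_spec (hk k) hδ x p
    have s2 := ee_spec h hδ x p
    have hdist : |ee (κk k) x p - ee κ x p| ≤ 2 * η k := by
      have l1 := c0 k (x 0, x 1, p 0, ee (κk k) x p)
      have l2 := lip0 h hδ (x 0) (x 1) (p 0) (ee κ x p) (ee (κk k) x p)
      have e : ee (κk k) x p - ee κ x p
          = (κk k (x 0, x 1, p 0, ee (κk k) x p) - κ (x 0, x 1, p 0, ee (κk k) x p))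
            + (κ (x 0, x 1, p 0, ee (κk k) x p) - κ (x 0, x 1, p 0, ee κ x p)) := by linarith
      have l3 := abs_add_le
        (κk k (x 0, x 1, p 0, ee (κk k) x p) - κ (x 0, x 1, p 0, ee (κk k) x p))
        (κ (x 0, x 1, p 0, ee (κk k) x p) - κ (x 0, x 1, p 0, ee κ x p))
      rw [← e] at l3
      linarith
    have hclose : |ee (κk k) x p - ee κ x p| ≤ 1 := by
      have l1 := (hk k).b0 (x 0, x 1, p 0, ee (κk k) x p)
      have l2 := h.b0 (x 0, x 1, p 0, ee κ x p)
      have e : ee (κk k) x p - ee κ x p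
          = κk k (x 0, x 1, p 0, ee (κk k) x p) - κ (x 0, x 1, p 0, ee κ x p) := by linarith
      have l3 := abs_sub (κk k (x 0, x 1, p 0, ee (κk k) x p)) (κ (x 0, x 1, p 0, ee κ x p))
      rw [← e] at l3
      linarith
    by_cases hp : r ≤ |p 0|
    · left
      have z1 := (hk k).supp (x 0, x 1, p 0, ee (κk k) x p) (Or.inl hp)
      have z2 := h.supp (x 0, x 1, p 0, ee κ x p) (Or.inl hp)
      refine ⟨by linarith, fderiv_zero hr (hk k) (Or.inl hp), fderiv_zero hr h (Or.inl hp)⟩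
    · push Not at hp
      by_cases h1 : r ≤ |ee (κk k) x p - 1| ∧ r ≤ |ee κ x p - 1|
      · left
        have z1 := (hk k).supp (x 0, x 1, p 0, ee (κk k) x p) (Or.inr h1.1)
        have z2 := h.supp (x 0, x 1, p 0, ee κ x p) (Or.inr h1.2)
        exact ⟨by linarith, fderiv_zero hr (hk k) (Or.inr h1.1), fderiv_zero hr h (Or.inr h1.2)⟩
      · right
        refine ⟨hp, ?_, ?_, hdist⟩
        · rw [not_and_or, not_le, not_le] at h1
          rw [abs_le] at hclose ⊢
          rcases h1 with h1 | h1 <;> rw [abs_lt] at h1 <;> constructor <;>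
            linarith [h1.1, h1.2, hclose.1, hclose.2]
        · rw [not_and_or, not_le, not_le] at h1
          rw [abs_le] at hclose ⊢
          rcases h1 with h1 | h1 <;> rw [abs_lt] at h1 <;> constructor <;>
            linarith [h1.1, h1.2, hclose.1, hclose.2]
  refine ⟨fun k => 200 * η k, by simpa using hη.const_mul 200, ?_, ?_⟩
  · intro k x p
    have e : mkH H0 (κk k) (x, p) - mkH H0 κ (x, p)
        = (ee (κk k) x p - ee κ x p) * ((ee (κk k) x p + ee κ x p) / 2) := by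
      simp only [mkH]
      ring
    rw [e]
    rcases key k x p with ⟨h1, -, -⟩ | ⟨-, h2, h3, h4⟩
    · rw [h1, sub_self, zero_mul, abs_zero]
      have := hη0 k
      positivity
    · rw [abs_mul]
      have h5 : |(ee (κk k) x p + ee κ x p) / 2| ≤ 3 := by
        rw [abs_le] at h2 h3 ⊢
        constructor <;> linarith [h2.1, h2.2, h3.1, h3.2]
      calc _ ≤ (2 * η k) * 3 := mul_le_mul h4 h5 (abs_nonneg _) (by linarith [hη0 k])
        _ ≤ 200 * η k := by linarith [hη0 k]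
  · intro k x p i
    obtain ⟨g1, g1'⟩ := mkH_grad h0 (hk k) hδ x p
    obtain ⟨g2, g2'⟩ := mkH_grad h0 h hδ x p
    have hη' := hη0 k
    set e' := ee (κk k) x p with he'
    set e := ee κ x p with he
    set m' : E4 := (x 0, x 1, p 0, e') with hm'
    set m0 : E4 := (x 0, x 1, p 0, e) with hm0
    rcases key k x p with ⟨h1, h2, h3⟩ | ⟨hp, h2, h3, h4⟩
    · have z1 : dP (κk k) m' = 0 := by rw [dP, h2]; rfl
      have z2 : dE (κk k) m' = 0 := by rw [dE, h2]; rfl
      have z3 : dP κ m0 = 0 := by rw [dP, h3]; rfl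
      have z4 : dE κ m0 = 0 := by rw [dE, h3]; rfl
      rw [z1, z2] at g1
      rw [z2] at g1'
      rw [z3, z4] at g2
      rw [z4] at g2'
      have : gradP (mkH H0 (κk k)) x p i = gradP (mkH H0 κ) x p i := by
        fin_cases i
        · show gradP (mkH H0 (κk k)) x p 0 = gradP (mkH H0 κ) x p 0
          rw [g1, g2, show e' = e from h1]
        · show gradP (mkH H0 (κk k)) x p 1 = gradP (mkH H0 κ) x p 1
          rw [g1', g2', show e' = e from h1]
      rw [this, sub_self, abs_zero]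
      positivity
    · -- bounds of the derivatives
      have bP' : |dP (κk k) m'| ≤ 1 / 2 := by
        have := (hk k).b1 m' (0, 0, 1, 0)
        rw [norm_P, mul_one] at this
        exact this.trans hδ
      have bP : |dP κ m0| ≤ 1 / 2 := by
        have := h.b1 m0 (0, 0, 1, 0)
        rw [norm_P, mul_one] at this
        exact this.trans hδ
      have bE' : |dE (κk k) m'| ≤ 1 / 2 := by
        have := (hk k).b1 m' (0, 0, 0, 1)
        rw [norm_E, mul_one] at this
        exact this.trans hδ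
      have bE : |dE κ m0| ≤ 1 / 2 := by
        have := h.b1 m0 (0, 0, 0, 1)
        rw [norm_E, mul_one] at this
        exact this.trans hδ
      have dPd : |dP (κk k) m' - dP κ m0| ≤ 3 * η k := by
        have a1 := c1 k m' (0, 0, 1, 0)
        rw [norm_P, mul_one] at a1
        have a2 := lip1 h hδ (x 0) (x 1) (p 0) e e' (0, 0, 1, 0) norm_P.le
        have a3 := abs_add_le (dP (κk k) m' - dP κ m') (dP κ m' - dP κ m0)
        rw [sub_add_sub_cancel] at a3
        unfold dP at a3 ⊢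
        linarith
      have dEd : |dE (κk k) m' - dE κ m0| ≤ 3 * η k := by
        have a1 := c1 k m' (0, 0, 0, 1)
        rw [norm_E, mul_one] at a1
        have a2 := lip1 h hδ (x 0) (x 1) (p 0) e e' (0, 0, 0, 1) norm_E.le
        have a3 := abs_add_le (dE (κk k) m' - dE κ m') (dE κ m' - dE κ m0)
        rw [sub_add_sub_cancel] at a3
        unfold dE at a3 ⊢
        linarith
      have q' : 1 / 2 ≤ 1 - dE (κk k) m' := by linarith [(abs_le.1 bE').2]
      have q : 1 / 2 ≤ 1 - dE κ m0 := by linarith [(abs_le.1 bE).2]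
      have i' : |(1 - dE (κk k) m')⁻¹| ≤ 2 := by
        rw [abs_of_pos (by positivity), inv_le_comm₀ (by linarith) (by norm_num)]
        linarith
      have i0 : |(1 - dE κ m0)⁻¹| ≤ 2 := by
        rw [abs_of_pos (by positivity), inv_le_comm₀ (by linarith) (by norm_num)]
        linarith
      have id : |(1 - dE (κk k) m')⁻¹ - (1 - dE κ m0)⁻¹| ≤ 12 * η k := by
        have e1 : (1 - dE (κk k) m')⁻¹ - (1 - dE κ m0)⁻¹
            = (dE (κk k) m' - dE κ m0) * ((1 - dE (κk k) m')⁻¹ * (1 - dE κ m0)⁻¹) := by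
          have n1 : (1 - dE (κk k) m') ≠ 0 := by linarith
          have n2 : (1 - dE κ m0) ≠ 0 := by linarith
          field_simp
          ring
        rw [e1, abs_mul, abs_mul]
        calc _ ≤ (3 * η k) * (2 * 2) :=
              mul_le_mul dEd (mul_le_mul i' i0 (abs_nonneg _) (by norm_num)) (by positivity)
                (by positivity)
          _ = 12 * η k := by ring
      have hom1 := om_lt
      have hom2 := om_pos
      have hp2 := abs_lt.1 hp
      fin_cases i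
      · show |gradP (mkH H0 (κk k)) x p 0 - gradP (mkH H0 κ) x p 0| ≤ 200 * η k
        have e2 : gradP (mkH H0 (κk k)) x p 0 - gradP (mkH H0 κ) x p 0
            = e' * ((om + p 0 + dP (κk k) m') * (1 - dE (κk k) m')⁻¹)
              - e * ((om + p 0 + dP κ m0) * (1 - dE κ m0)⁻¹) := by
          rw [g1, g2, div_eq_mul_inv, div_eq_mul_inv]
          ring
        rw [e2]
        have hN' : |om + p 0 + dP (κk k) m'| ≤ 3 := by
          rw [abs_le] at bP' ⊢
          constructor <;> linarith [bP'.1, bP'.2, hp2.1, hp2.2]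
        have hN : |om + p 0 + dP κ m0| ≤ 3 := by
          rw [abs_le] at bP ⊢
          constructor <;> linarith [bP.1, bP.2, hp2.1, hp2.2]
        have := prod3 (A := 2) (B := 3) (C := 12) hη' h4
          (b := om + p 0 + dP κ m0) (b' := om + p 0 + dP (κk k) m')
          (by rw [add_sub_add_left_eq_sub]; exact dPd) id (by norm_num) (by norm_num)
          (by norm_num) h3 hN hN' i'
        linarith
      · show |gradP (mkH H0 (κk k)) x p 1 - gradP (mkH H0 κ) x p 1| ≤ 200 * η k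
        have e2 : gradP (mkH H0 (κk k)) x p 1 - gradP (mkH H0 κ) x p 1
            = e' * (1 * (1 - dE (κk k) m')⁻¹) - e * (1 * (1 - dE κ m0)⁻¹) := by
          rw [g1', g2', one_div, one_div]
          ring
        rw [e2]
        have := prod3 (A := 2) (B := 0) (C := 12) hη' h4 (b := 1) (b' := 1)
          (by simp) id (by norm_num) (by norm_num)
          (by norm_num) h3 (by norm_num) (by norm_num) i'
        linarith

end Pool.Agent.MP_ff4374_an
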