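import Pool.Agent.MP_ff4374_an.Inv

/-!
Module MkH: the perturbed energy variable `ee` and the momentum gradient of `mkH`.
-/

set_option autoImplicit false
open scoped ContDiff

namespace Pool.Agent.MP_ff4374_an

namespace MkHAux

/-- derivative of a function of four variables along a curve in the last two variables -/
theorem comp4 {κ : E4 → ℝ} (hκ : Differentiable ℝ κ) {x y : ℝ} {p e : ℝ → ℝ} {p' e' t : ℝ}
    (hp : HasDerivAt p p' t) (he : HasDerivAt e e' t) :
    HasDerivAt (fun s => κ (x, y, p s, e s))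
      (p' * dP κ (x, y, p t, e t) + e' * dE κ (x, y, p t, e t)) t := by
  have h1 : HasDerivAt (fun s => ((x, y, p s, e s) : E4)) (0, 0, p', e') t :=
    (hasDerivAt_const t x).prodMk ((hasDerivAt_const t y).prodMk (hp.prodMk he))
  have h2 := (hκ (x, y, p t, e t)).hasFDerivAt.comp_hasDerivAt t h1
  refine HasDerivAt.congr_deriv h2 ?_
  have h3 : ((0, 0, p', e') : E4) = p' • ((0, 0, 1, 0) : E4) + e' • ((0, 0, 0, 1) : E4) := by
    ext <;> simp
  rw [h3, map_add, map_smul, map_smul]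
  simp [dP, dE]

theorem kb_diff {δ r : ℝ} {κ : E4 → ℝ} (h : KB δ r κ) : Differentiable ℝ κ :=
  h.c2.differentiable (by norm_num)

theorem dE_le {δ r : ℝ} {κ : E4 → ℝ} (h : KB δ r κ) (m : E4) : |dE κ m| ≤ δ := by
  have h1 := h.b1 m (0, 0, 0, 1)
  have h2 : ‖((0, 0, 0, 1) : E4)‖ = 1 := by
    simp [Prod.norm_def]
  rw [h2, mul_one] at h1
  exact h1

theorem dP_le {δ r : ℝ} {κ : E4 → ℝ} (h : KB δ r κ) (m : E4) : |dP κ m| ≤ δ := by
  have h1 := h.b1 m (0, 0, 1, 0)
  have h2 : ‖((0, 0, 1, 0) : E4)‖ = 1 := by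
    simp [Prod.norm_def]
  rw [h2, mul_one] at h1
  exact h1

theorem one_sub_pos {δ r : ℝ} {κ : E4 → ℝ} (h : KB δ r κ) (hδ : δ ≤ 1 / 2) (m : E4) :
    1 / 2 ≤ 1 - dE κ m := by
  have := abs_le.mp (dE_le h m)
  linarith

theorem hasDerivAt_g {δ r : ℝ} {κ : E4 → ℝ} (h : KB δ r κ) (x y p e : ℝ) :
    HasDerivAt (fun e => e - κ (x, y, p, e)) (1 - dE κ (x, y, p, e)) e := by
  have h1 := comp4 (kb_diff h) (x := x) (y := y) (hasDerivAt_const e p) (hasDerivAt_id e)
  have h2 := (hasDerivAt_id e).sub h1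
  refine HasDerivAt.congr_deriv h2 ?_
  simp

theorem strictMono_g {δ r : ℝ} {κ : E4 → ℝ} (h : KB δ r κ) (hδ : δ ≤ 1 / 2) (x y p : ℝ) :
    StrictMono (fun e : ℝ => e - κ (x, y, p, e)) := by
  apply strictMono_of_deriv_pos
  intro e
  rw [(hasDerivAt_g h x y p e).deriv]
  linarith [one_sub_pos h hδ (x, y, p, e)]

theorem exists_g {δ r : ℝ} {κ : E4 → ℝ} (h : KB δ r κ) (x y p E : ℝ) :
    ∃ e : ℝ, e - κ (x, y, p, e) = E := by
  have hδ0 : 0 ≤ δ := (abs_nonneg _).trans (h.b0 0)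
  have hc : Continuous (fun e : ℝ => e - κ (x, y, p, e)) := by
    have := h.c2.continuous
    fun_prop
  have h1 : E - δ ≤ E + δ := by linarith
  have h2 := intermediate_value_Icc h1 hc.continuousOn
  have h3 : E ∈ Set.Icc ((fun e : ℝ => e - κ (x, y, p, e)) (E - δ))
      ((fun e : ℝ => e - κ (x, y, p, e)) (E + δ)) := by
    constructor
    · have := abs_le.mp (h.b0 (x, y, p, E - δ))
      simp only
      linarith
    · have := abs_le.mp (h.b0 (x, y, p, E + δ))
      simp only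
      linarith
  obtain ⟨e, -, he⟩ := h2 h3
  exact ⟨e, he⟩

end MkHAux

open MkHAux

theorem ee_spec {δ r : ℝ} {κ : E4 → ℝ} (h : KB δ r κ) (hδ : δ ≤ 1 / 2) (x p : V) :
    ee κ x p - κ (x 0, x 1, p 0, ee κ x p) = e0 p := by
  have _ := hδ
  have h1 := exists_g h (x 0) (x 1) (p 0) (e0 p)
  have h2 : ee κ x p = h1.choose := by
    unfold ee
    rw [dif_pos h1]
  rw [h2]
  exact h1.choose_spec

theorem ee_unique {δ r : ℝ} {κ : E4 → ℝ} (h : KB δ r κ) (hδ : δ ≤ 1 / 2) {x p : V} {e : ℝ}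
    (he : e - κ (x 0, x 1, p 0, e) = e0 p) : ee κ x p = e := by
  apply (strictMono_g h hδ (x 0) (x 1) (p 0)).injective
  simp only
  rw [ee_spec h hδ x p, he]

theorem ee_contDiff {δ r : ℝ} {κ : E4 → ℝ} (h : KB δ r κ) (hδ : δ ≤ 1 / 2) :
    ContDiff ℝ 2 (fun z : V × V => ee κ z.1 z.2) := by
  have hc2 := h.c2
  have hg : ContDiff ℝ 2 (fun m : ℝ × (V × V) => m.1 - κ (m.2.1 0, m.2.1 1, m.2.2 0, m.1)) := by
    fun_prop
  obtain ⟨C, hC, h1, h2⟩ := inv1 (n := 2) (by norm_num)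
    (fun m : ℝ × (V × V) => m.1 - κ (m.2.1 0, m.2.1 1, m.2.2 0, m.1)) hg (by
      intro m
      have h3 : HasDerivAt (fun s : ℝ => m + s • ((1, 0) : ℝ × (V × V))) (1, 0) 0 := by
        have := ((hasDerivAt_id (0:ℝ)).smul_const ((1, 0) : ℝ × (V × V))).const_add m
        simpa using this
      have h4 : HasFDerivAt (fun m : ℝ × (V × V) => m.1 - κ (m.2.1 0, m.2.1 1, m.2.2 0, m.1))
          (fderiv ℝ (fun m : ℝ × (V × V) => m.1 - κ (m.2.1 0, m.2.1 1, m.2.2 0, m.1)) m)
          (m + (0:ℝ) • ((1, 0) : ℝ × (V × V))) := by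
        rw [zero_smul, add_zero]
        exact (hg.differentiable (by norm_num) m).hasFDerivAt
      have h5 := h4.comp_hasDerivAt 0 h3
      have h6 : HasDerivAt (fun s : ℝ => (m.1 + s) - κ (m.2.1 0, m.2.1 1, m.2.2 0, m.1 + s))
          ((1 - dE κ (m.2.1 0, m.2.1 1, m.2.2 0, m.1 + 0)) * 1) 0 :=
        (hasDerivAt_g h (m.2.1 0) (m.2.1 1) (m.2.2 0) (m.1 + 0)).comp 0
          ((hasDerivAt_id (0:ℝ)).const_add m.1)
      have h7 : (fun m : ℝ × (V × V) => m.1 - κ (m.2.1 0, m.2.1 1, m.2.2 0, m.1)) ∘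
          (fun s : ℝ => m + s • ((1, 0) : ℝ × (V × V))) =
          (fun s : ℝ => (m.1 + s) - κ (m.2.1 0, m.2.1 1, m.2.2 0, m.1 + s)) := by
        funext s
        simp
      rw [h7] at h5
      rw [h5.unique h6]
      linarith [one_sub_pos h hδ (m.2.1 0, m.2.1 1, m.2.2 0, m.1 + 0)])
    (fun y p => exists_g h (y.1 0) (y.1 1) (y.2 0) p)
  have h8 : (fun z : V × V => ee κ z.1 z.2) = fun z : V × V => C (e0 z.2, z) := by
    funext z
    apply ee_unique h hδ
    exact h1 (e0 z.2) z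
  rw [h8]
  have h9 : ContDiff ℝ 2 (fun z : V × V => e0 z.2) := by
    unfold e0
    fun_prop
  exact hC.comp (h9.prodMk contDiff_id)

namespace MkHAux

theorem e0_hasDerivAt (p w : V) (t : ℝ) :
    HasDerivAt (fun s : ℝ => e0 (p + s • w)) ((om + (p + t • w) 0) * w 0 + w 1) t := by
  have h0 : HasDerivAt (fun s : ℝ => (p + s • w) 0) (w 0) t := by
    have := ((hasDerivAt_id t).mul_const (w 0)).const_add (p 0)
    simpa using this
  have h1 : HasDerivAt (fun s : ℝ => (p + s • w) 1) (w 1) t := by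
    have := ((hasDerivAt_id t).mul_const (w 1)).const_add (p 1)
    simpa using this
  have h2 := ((h1.const_add 1).add (h0.const_mul om)).add ((h0.pow 2).div_const 2)
  refine HasDerivAt.congr_deriv h2 ?_
  simp
  ring

theorem ee_diff {δ r : ℝ} {κ : E4 → ℝ} (h : KB δ r κ) (hδ : δ ≤ 1 / 2) (x p : V) :
    DifferentiableAt ℝ (fun p' : V => ee κ x p') p := by
  have h1 := (ee_contDiff h hδ).differentiable (by norm_num) (x, p)
  have h2 : DifferentiableAt ℝ (fun p' : V => ((x, p') : V × V)) p := by fun_prop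
  exact h1.comp p h2

/-- derivative of `ee` along a line in `p` -/
theorem ee_hasDerivAt {δ r : ℝ} {κ : E4 → ℝ} (h : KB δ r κ) (hδ : δ ≤ 1 / 2) (x p w : V) (t : ℝ) :
    HasDerivAt (fun s : ℝ => ee κ x (p + s • w))
      (((om + (p + t • w) 0) * w 0 + w 1
        + w 0 * dP κ (x 0, x 1, (p + t • w) 0, ee κ x (p + t • w)))
        / (1 - dE κ (x 0, x 1, (p + t • w) 0, ee κ x (p + t • w)))) t := by
  have hl : HasDerivAt (fun s : ℝ => p + s • w) w t := by
    have := ((hasDerivAt_id t).smul_const w).const_add p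
    simpa using this
  have h0 : HasDerivAt (fun s : ℝ => (p + s • w) 0) (w 0) t := by
    have := ((hasDerivAt_id t).mul_const (w 0)).const_add (p 0)
    simpa using this
  have h1 : HasDerivAt (fun s : ℝ => ee κ x (p + s • w))
      (fderiv ℝ (fun p' : V => ee κ x p') (p + t • w) w) t :=
    HasFDerivAt.comp_hasDerivAt (l := fun p' : V => ee κ x p') t
      (ee_diff h hδ x (p + t • w)).hasFDerivAt hl
  have h2 := h1.sub (comp4 (kb_diff h) (x := x 0) (y := x 1) h0 h1)
  have h3 : (fun s : ℝ => ee κ x (p + s • w)) -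
      (fun s : ℝ => κ (x 0, x 1, (p + s • w) 0, ee κ x (p + s • w))) =
      fun s : ℝ => e0 (p + s • w) := by
    funext s
    exact ee_spec h hδ x (p + s • w)
  rw [h3] at h2
  have h4 := h2.unique (e0_hasDerivAt p w t)
  have h5 := one_sub_pos h hδ (x 0, x 1, (p + t • w) 0, ee κ x (p + t • w))
  have h6 : (fderiv ℝ (fun p' : V => ee κ x p') (p + t • w) w) =
      (((om + (p + t • w) 0) * w 0 + w 1
        + w 0 * dP κ (x 0, x 1, (p + t • w) 0, ee κ x (p + t • w)))
        / (1 - dE κ (x 0, x 1, (p + t • w) 0, ee κ x (p + t • w)))) := by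
    rw [eq_div_iff (by linarith)]
    linear_combination h4
  rw [← h6]
  exact h1

/-- derivative of the perturbed Hamiltonian along a line in `p` -/
theorem mkH_hasDerivAt {δ r : ℝ} {H0 : V → ℝ} {κ : E4 → ℝ} (hH : Differentiable ℝ H0)
    (h : KB δ r κ) (hδ : δ ≤ 1 / 2) (x p w : V) (t : ℝ) :
    HasDerivAt (fun s : ℝ => mkH H0 κ (x, p + s • w))
      (fderiv ℝ H0 (p + t • w) w
        + ee κ x (p + t • w) * (((om + (p + t • w) 0) * w 0 + w 1
        + w 0 * dP κ (x 0, x 1, (p + t • w) 0, ee κ x (p + t • w)))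
        / (1 - dE κ (x 0, x 1, (p + t • w) 0, ee κ x (p + t • w))))
        - e0 (p + t • w) * ((om + (p + t • w) 0) * w 0 + w 1)) t := by
  have hl : HasDerivAt (fun s : ℝ => p + s • w) w t := by
    have := ((hasDerivAt_id t).smul_const w).const_add p
    simpa using this
  have h1 := (hH (p + t • w)).hasFDerivAt.comp_hasDerivAt t hl
  have h2 := ee_hasDerivAt h hδ x p w t
  have h3 := e0_hasDerivAt p w t
  have h4 := (h1.add ((h2.pow 2).div_const 2)).sub ((h3.pow 2).div_const 2)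
  refine HasDerivAt.congr_deriv h4 ?_
  simp
  ring

end MkHAux

theorem mkH_grad {m M r δ : ℝ} {H0 : V → ℝ} {κ : E4 → ℝ} (h0 : IsH0 m M r H0) (h : KB δ r κ)
    (hδ : δ ≤ 1 / 2) (x p : V) :
    gradP (mkH H0 κ) x p 0 = grad H0 p 0
      + ee κ x p * ((om + p 0 + dP κ (x 0, x 1, p 0, ee κ x p)) / (1 - dE κ (x 0, x 1, p 0, ee κ x p)))
      - e0 p * (om + p 0) ∧
    gradP (mkH H0 κ) x p 1 = grad H0 p 1
      + ee κ x p * (1 / (1 - dE κ (x 0, x 1, p 0, ee κ x p))) - e0 p := by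
  have hH : Differentiable ℝ H0 := h0.sm.differentiable (by norm_num)
  have hd : DifferentiableAt ℝ (fun p' : V => mkH H0 κ (x, p')) p := by
    have h1 := ee_diff h hδ x p
    have h2 : DifferentiableAt ℝ (fun p' : V => e0 p') p := by
      unfold e0
      fun_prop
    have h3 := hH p
    have h4 : ∀ f g k : V → ℝ, DifferentiableAt ℝ f p → DifferentiableAt ℝ g p →
        DifferentiableAt ℝ k p →
        DifferentiableAt ℝ (fun p' => f p' + g p' ^ 2 / 2 - k p' ^ 2 / 2) p := by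
      intro f g k hf hg hk
      fun_prop
    exact h4 H0 (fun p' => ee κ x p') e0 h3 h1 h2
  have key : ∀ w : V, fderiv ℝ (fun p' : V => mkH H0 κ (x, p')) p w =
      fderiv ℝ H0 p w
        + ee κ x p * (((om + p 0) * w 0 + w 1
        + w 0 * dP κ (x 0, x 1, p 0, ee κ x p))
        / (1 - dE κ (x 0, x 1, p 0, ee κ x p)))
        - e0 p * ((om + p 0) * w 0 + w 1) := by
    intro w
    have h4 := mkH_hasDerivAt hH h hδ x p w 0
    simp only [zero_smul, add_zero] at h4
    have hl : HasDerivAt (fun s : ℝ => p + s • w) w 0 := by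
      have := ((hasDerivAt_id (0:ℝ)).smul_const w).const_add p
      simpa using this
    have h5 : HasDerivAt (fun s : ℝ => mkH H0 κ (x, p + s • w))
        (fderiv ℝ (fun p' : V => mkH H0 κ (x, p')) p w) 0 := by
      have h6 : HasFDerivAt (fun p' : V => mkH H0 κ (x, p'))
          (fderiv ℝ (fun p' : V => mkH H0 κ (x, p')) p) (p + (0:ℝ) • w) := by
        rw [zero_smul, add_zero]
        exact hd.hasFDerivAt
      exact HasFDerivAt.comp_hasDerivAt (l := fun p' : V => mkH H0 κ (x, p')) 0 h6 hl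
    exact h5.unique h4
  constructor
  · unfold gradP grad
    rw [key]
    simp
  · unfold gradP grad
    rw [key]
    simp

end Pool.Agent.MP_ff4374_an
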