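import Pool.Agent.MP_ff4374_an.MkH

/-!
Module MkHam: `mkH H0 κ` is a uniformly convex periodic Hamiltonian.
-/

set_option autoImplicit false
open Filter Topology
open scoped ContDiff

namespace Pool.Agent.MP_ff4374_an

namespace MkHamAux

open MkHAux

/-- second derivative along a line -/
theorem line2 {E : Type*} [NormedAddCommGroup E] [NormedSpace ℝ E] {f : E → ℝ}
    (hf : ContDiff ℝ 2 f) (p w : E) (t : ℝ) :
    HasDerivAt (fun s : ℝ => fderiv ℝ f (p + s • w) w) (D2 f (p + t • w) w) t := by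
  have hl : HasDerivAt (fun s : ℝ => p + s • w) w t := by
    have := ((hasDerivAt_id t).smul_const w).const_add p
    simpa using this
  have h1 : Differentiable ℝ (fderiv ℝ f) :=
    (hf.fderiv_right (m := 1) (by norm_num)).differentiable (by norm_num)
  have h2 := HasFDerivAt.comp_hasDerivAt (l := fderiv ℝ f) t (h1 (p + t • w)).hasFDerivAt hl
  have h3 := (ContinuousLinearMap.apply ℝ ℝ w).hasFDerivAt.comp_hasDerivAt t h2
  exact h3

/-- first derivative along a line -/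
theorem line1 {E : Type*} [NormedAddCommGroup E] [NormedSpace ℝ E] {f : E → ℝ}
    (hf : ContDiff ℝ 2 f) (p w : E) (t : ℝ) :
    HasDerivAt (fun s : ℝ => f (p + s • w)) (fderiv ℝ f (p + t • w) w) t := by
  have hl : HasDerivAt (fun s : ℝ => p + s • w) w t := by
    have := ((hasDerivAt_id t).smul_const w).const_add p
    simpa using this
  exact HasFDerivAt.comp_hasDerivAt (l := f) t
    (hf.differentiable (by norm_num) (p + t • w)).hasFDerivAt hl

/-- characterisation of `D2` by a second derivative along a line -/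
theorem D2_eq {E : Type*} [NormedAddCommGroup E] [NormedSpace ℝ E] {f : E → ℝ}
    (hf : ContDiff ℝ 2 f) (p w : E) {g : ℝ → ℝ} {a : ℝ}
    (h1 : ∀ t, HasDerivAt (fun s : ℝ => f (p + s • w)) (g t) t) (h2 : HasDerivAt g a 0) :
    D2 f p w = a := by
  have h3 : g = fun t => fderiv ℝ f (p + t • w) w := by
    funext t
    exact (h1 t).unique (line1 hf p w t)
  have h4 := line2 hf p w 0
  rw [← h3] at h4
  rw [zero_smul, add_zero] at h4
  exact h4.unique h2

/-- the derivatives of `κ` vanish outside the support region -/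
theorem kb_zero {δ r : ℝ} {κ : E4 → ℝ} (h : KB δ r κ) (hr : 0 < r) (m : E4)
    (hm : r ≤ |m.2.2.1| ∨ r ≤ |m.2.2.2 - 1|) :
    fderiv ℝ κ m = 0 ∧ fderiv ℝ (fderiv ℝ κ) m = 0 := by
  set U : Set E4 := {m | r < |m.2.2.1| ∨ r < |m.2.2.2 - 1|} with hU
  have hUo : IsOpen U := by
    have c1 : Continuous (fun m : E4 => |m.2.2.1|) := by fun_prop
    have c2 : Continuous (fun m : E4 => |m.2.2.2 - 1|) := by fun_prop
    exact (isOpen_lt continuous_const c1).union (isOpen_lt continuous_const c2)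
  have hk0 : ∀ m ∈ U, κ =ᶠ[𝓝 m] fun _ => 0 := by
    intro m hm
    filter_upwards [hUo.mem_nhds hm] with m' hm'
    apply h.supp
    rcases hm' with h1 | h1
    · left; exact h1.le
    · right; exact h1.le
  have hk1 : ∀ m ∈ U, fderiv ℝ κ m = 0 := by
    intro m hm
    rw [(hk0 m hm).fderiv_eq]
    simp
  have hk2 : ∀ m ∈ U, fderiv ℝ (fderiv ℝ κ) m = 0 := by
    intro m hm
    have h1 : fderiv ℝ κ =ᶠ[𝓝 m] fun _ => 0 := by
      filter_upwards [hUo.mem_nhds hm] with m' hm'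
      exact hk1 m' hm'
    rw [h1.fderiv_eq]
    simp
  have hcl : m ∈ closure U := by
    -- approximating sequence
    have hlim : Tendsto (fun s : ℝ => ((m.1, m.2.1, m.2.2.1 * (1 + s), 1 + (m.2.2.2 - 1) * (1 + s)) : E4))
        (𝓝[>] 0) (𝓝 m) := by
      have hc : Continuous (fun s : ℝ => ((m.1, m.2.1, m.2.2.1 * (1 + s),
          1 + (m.2.2.2 - 1) * (1 + s)) : E4)) := by fun_prop
      have h1 := (hc.tendsto 0).mono_left (nhdsWithin_le_nhds (s := Set.Ioi (0:ℝ)))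
      simpa using h1
    apply mem_closure_of_tendsto hlim
    filter_upwards [self_mem_nhdsWithin] with s hs
    have hs' : (0:ℝ) < s := hs
    rcases hm with h1 | h1
    · left
      simp only
      rw [abs_mul, abs_of_pos (by linarith : (0:ℝ) < 1 + s)]
      nlinarith
    · right
      simp only
      rw [add_sub_cancel_left, abs_mul, abs_of_pos (by linarith : (0:ℝ) < 1 + s)]
      nlinarith
  have hc1 : Continuous (fderiv ℝ κ) := h.c2.continuous_fderiv (by norm_num)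
  have hc2 : Continuous (fderiv ℝ (fderiv ℝ κ)) :=
    (h.c2.fderiv_right (m := 1) (by norm_num)).continuous_fderiv (by norm_num)
  constructor
  · have hcl1 : IsClosed {m : E4 | fderiv ℝ κ m = 0} := isClosed_eq hc1 continuous_const
    exact closure_minimal (fun m hm => hk1 m hm) hcl1 hcl
  · have hcl1 : IsClosed {m : E4 | fderiv ℝ (fderiv ℝ κ) m = 0} := isClosed_eq hc2 continuous_const
    exact closure_minimal (fun m hm => hk2 m hm) hcl1 hcl

/-- second derivative of `mkH` along a line in the momentum -/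
theorem mkH_D2 {δ r : ℝ} {H0 : V → ℝ} {κ : E4 → ℝ} (hH : ContDiff ℝ 2 H0)
    (h : KB δ r κ) (hδ : δ ≤ 1 / 2) (x p w : V) {a φ' : ℝ} {m : E4}
    (ha : a = (om + p 0) * w 0 + w 1) (hm : m = (x 0, x 1, p 0, ee κ x p))
    (hφ : φ' = (a + w 0 * dP κ m) / (1 - dE κ m)) :
    D2 (fun p' => mkH H0 κ (x, p')) p w =
      D2 H0 p w + (φ' ^ 2 - a ^ 2) +
        (ee κ x p * ((w 0 ^ 2 + D2 κ m (0, 0, w 0, φ')) / (1 - dE κ m)) - e0 p * w 0 ^ 2) := by
  have hb := one_sub_pos h hδ m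
  have hee := ee_contDiff h hδ
  have hc2 : ContDiff ℝ 2 (fun p' => mkH H0 κ (x, p')) := by
    have h1 : ContDiff ℝ 2 (fun p' : V => ee κ x p') :=
      hee.comp (f := fun p' : V => ((x, p') : V × V)) (by fun_prop)
    have h2 : ContDiff ℝ 2 e0 := by
      unfold e0
      fun_prop
    exact (hH.add ((h1.pow 2).div_const (2:ℝ))).sub ((h2.pow 2).div_const (2:ℝ))
  apply D2_eq hc2 p w (mkH_hasDerivAt (hH.differentiable (by norm_num)) h hδ x p w)
  -- the curve of base points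
  have h0 : HasDerivAt (fun s : ℝ => (p + s • w) 0) (w 0) 0 := by
    have := ((hasDerivAt_id (0:ℝ)).mul_const (w 0)).const_add (p 0)
    simpa using this
  have h1 : HasDerivAt (fun s : ℝ => ee κ x (p + s • w)) φ' 0 := by
    have h2 := ee_hasDerivAt h hδ x p w 0
    simp only [zero_smul, add_zero] at h2
    rw [hφ, ha, hm]
    exact h2
  have hcur : HasDerivAt (fun s : ℝ => ((x 0, x 1, (p + s • w) 0, ee κ x (p + s • w)) : E4))
      (0, 0, w 0, φ') 0 :=
    (hasDerivAt_const 0 (x 0)).prodMk ((hasDerivAt_const 0 (x 1)).prodMk (h0.prodMk h1))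
  have hm0 : ((x 0, x 1, (p + (0:ℝ) • w) 0, ee κ x (p + (0:ℝ) • w)) : E4) = m := by
    rw [hm]
    simp
  have hdd : ∀ v : E4, HasDerivAt
      (fun s : ℝ => fderiv ℝ κ (x 0, x 1, (p + s • w) 0, ee κ x (p + s • w)) v)
      (fderiv ℝ (fderiv ℝ κ) m (0, 0, w 0, φ') v) 0 := by
    intro v
    have h3 : Differentiable ℝ (fderiv ℝ κ) :=
      (h.c2.fderiv_right (m := 1) (by norm_num)).differentiable (by norm_num)
    have h4 := HasFDerivAt.comp_hasDerivAt (l := fderiv ℝ κ) 0 (h3 _).hasFDerivAt hcur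
    rw [hm0] at h4
    exact (ContinuousLinearMap.apply ℝ ℝ v).hasFDerivAt.comp_hasDerivAt 0 h4
  have hP := hdd (0, 0, 1, 0)
  have hE := hdd (0, 0, 0, 1)
  have hψ : HasDerivAt (fun s : ℝ => (om + (p + s • w) 0) * w 0 + w 1) (w 0 * w 0) 0 :=
    ((h0.const_add om).mul_const (w 0)).add_const (w 1)
  have hH2 := line2 hH p w 0
  have he := e0_hasDerivAt p w 0
  have hb' : (1 - dE κ (x 0, x 1, (p + (0:ℝ) • w) 0, ee κ x (p + (0:ℝ) • w))) ≠ 0 := by
    rw [hm0]
    linarith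
  have hall := (hH2.add (h1.mul ((hψ.add (hP.const_mul (w 0))).div (hE.const_sub 1) hb'))).sub
    (he.mul hψ)
  refine HasDerivAt.congr_deriv hall ?_
  have hu : ((0, 0, w 0, φ') : E4) = w 0 • ((0, 0, 1, 0) : E4) + φ' • ((0, 0, 0, 1) : E4) := by
    ext <;> simp
  have hD : D2 κ m (0, 0, w 0, φ') =
      w 0 * fderiv ℝ (fderiv ℝ κ) m (0, 0, w 0, φ') (0, 0, 1, 0)
      + φ' * fderiv ℝ (fderiv ℝ κ) m (0, 0, w 0, φ') (0, 0, 0, 1) := by
    unfold D2
    conv_lhs => rw [show fderiv ℝ (fderiv ℝ κ) m (0, 0, w 0, φ') (0, 0, w 0, φ') =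
      fderiv ℝ (fderiv ℝ κ) m (0, 0, w 0, φ')
        (w 0 • ((0, 0, 1, 0) : E4) + φ' • ((0, 0, 0, 1) : E4)) by rw [← hu]]
    rw [map_add, map_smul, map_smul]
    simp
  have hbne : (1 - dE κ m) ≠ 0 := by linarith
  have hφb : a + w 0 * dP κ m = φ' * (1 - dE κ m) := by
    rw [hφ]
    field_simp
  simp only [Pi.add_apply, Pi.div_apply, zero_smul, Pi.zero_apply, add_zero]
  rw [← hm, ← ha]
  simp only [← dP.eq_1, ← dE.eq_1]
  rw [hD]
  generalize fderiv ℝ (fderiv ℝ κ) m (0, 0, w 0, φ') (0, 0, 1, 0) = α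
  generalize fderiv ℝ (fderiv ℝ κ) m (0, 0, w 0, φ') (0, 0, 0, 1) = β
  rw [hφb]
  field_simp
  ring

/-- the quadratic estimate in the perturbation region -/
theorem quad_est {δ φ ψ a φ' P E Q w0 N : ℝ} (hδ : 0 ≤ δ) (hδ2 : δ ≤ 1 / 2)
    (hN : 0 ≤ N) (hw0 : |w0| ≤ N) (hP : |P| ≤ δ) (hE : |E| ≤ δ)
    (ha : |a| ≤ 3 * N) (hφ : |φ| ≤ 9 / 8) (hφψ : |φ - ψ| ≤ δ) (hφ' : φ' = (a + w0 * P) / (1 - E))
    (hQ : |Q| ≤ δ * (7 * N) ^ 2) :
    |φ'| ≤ 7 * N ∧
    |(φ' ^ 2 - a ^ 2) + (φ * ((w0 ^ 2 + Q) / (1 - E)) - ψ * w0 ^ 2)| ≤ 200 * δ * N ^ 2 := by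
  have hE' := abs_le.mp hE
  have hb : 1 / 2 ≤ 1 - E := by linarith
  have hb0 : (0:ℝ) < 1 - E := by linarith
  have hwP : |w0 * P| ≤ N * δ := by
    rw [abs_mul]
    exact mul_le_mul hw0 hP (abs_nonneg _) hN
  have hEa : |E * a| ≤ δ * (3 * N) := by
    rw [abs_mul]
    exact mul_le_mul hE ha (abs_nonneg _) hδ
  have hφa : |φ' - a| ≤ 8 * δ * N := by
    have e1 : φ' - a = (w0 * P + E * a) / (1 - E) := by
      rw [hφ']
      field_simp
      ring
    rw [e1, abs_div, abs_of_pos hb0, div_le_iff₀ hb0]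
    have e2 := abs_add_le (w0 * P) (E * a)
    have e3 : 4 * δ * N ≤ 8 * δ * N * (1 - E) := by
      have : 0 ≤ δ * N := mul_nonneg hδ hN
      nlinarith
    nlinarith
  have hφb : |φ'| ≤ 7 * N := by
    have e1 : φ' = (φ' - a) + a := by ring
    have e2 := abs_add_le (φ' - a) a
    rw [← e1] at e2
    have e3 : 8 * δ * N ≤ 4 * N := by nlinarith
    linarith
  refine ⟨hφb, ?_⟩
  have h1 : |φ' ^ 2 - a ^ 2| ≤ 80 * δ * N ^ 2 := by
    have e1 : φ' ^ 2 - a ^ 2 = (φ' - a) * (φ' + a) := by ring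
    rw [e1, abs_mul]
    have e2 : |φ' + a| ≤ 10 * N := by
      have := abs_add_le φ' a
      linarith
    calc |φ' - a| * |φ' + a| ≤ (8 * δ * N) * (10 * N) :=
          mul_le_mul hφa e2 (abs_nonneg _) (by positivity)
      _ = 80 * δ * N ^ 2 := by ring
  have hw2 : w0 ^ 2 ≤ N ^ 2 := by
    rw [← sq_abs w0]
    exact pow_le_pow_left₀ (abs_nonneg _) hw0 2
  have h2 : |(w0 ^ 2 + Q) / (1 - E) - w0 ^ 2| ≤ 100 * δ * N ^ 2 := by
    have e1 : (w0 ^ 2 + Q) / (1 - E) - w0 ^ 2 = (Q + E * w0 ^ 2) / (1 - E) := by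
      field_simp
      ring
    rw [e1, abs_div, abs_of_pos hb0, div_le_iff₀ hb0]
    have e2 := abs_add_le Q (E * w0 ^ 2)
    have e3 : |E * w0 ^ 2| ≤ δ * N ^ 2 := by
      rw [abs_mul, abs_of_nonneg (sq_nonneg w0)]
      exact mul_le_mul hE hw2 (sq_nonneg _) hδ
    have e4 : 50 * δ * N ^ 2 ≤ 100 * δ * N ^ 2 * (1 - E) := by
      have : 0 ≤ δ * N ^ 2 := mul_nonneg hδ (sq_nonneg N)
      nlinarith
    nlinarith
  have h3 : φ * ((w0 ^ 2 + Q) / (1 - E)) - ψ * w0 ^ 2 =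
      φ * ((w0 ^ 2 + Q) / (1 - E) - w0 ^ 2) + (φ - ψ) * w0 ^ 2 := by ring
  rw [h3]
  have h4 : |φ * ((w0 ^ 2 + Q) / (1 - E) - w0 ^ 2)| ≤ 9 / 8 * (100 * δ * N ^ 2) := by
    rw [abs_mul]
    exact mul_le_mul hφ h2 (abs_nonneg _) (by norm_num)
  have h5 : |(φ - ψ) * w0 ^ 2| ≤ δ * N ^ 2 := by
    rw [abs_mul, abs_of_nonneg (sq_nonneg w0)]
    exact mul_le_mul hφψ hw2 (sq_nonneg _) hδ
  have h6 := abs_add_le (φ' ^ 2 - a ^ 2)
    (φ * ((w0 ^ 2 + Q) / (1 - E) - w0 ^ 2) + (φ - ψ) * w0 ^ 2)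
  have h7 := abs_add_le (φ * ((w0 ^ 2 + Q) / (1 - E) - w0 ^ 2)) ((φ - ψ) * w0 ^ 2)
  have h8 : 0 ≤ δ * N ^ 2 := mul_nonneg hδ (sq_nonneg N)
  linarith

/-- the second derivative of `mkH` differs from that of `H0` by `O(δ)` -/
theorem mkH_D2_close {δ r : ℝ} {H0 : V → ℝ} {κ : E4 → ℝ} (hH : ContDiff ℝ 2 H0)
    (hr : 0 < r) (hr8 : r ≤ 1 / 8) (h : KB δ r κ) (hδ : δ ≤ 1 / 2) (x p w : V) :
    |D2 (fun p' => mkH H0 κ (x, p')) p w - D2 H0 p w| ≤ 200 * δ * dot w w := by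
  have hδ0 : 0 ≤ δ := (abs_nonneg _).trans (h.b0 0)
  have hdot : 0 ≤ dot w w := by
    unfold dot
    nlinarith [sq_nonneg (w 0), sq_nonneg (w 1)]
  rw [mkH_D2 hH h hδ x p w rfl rfl rfl]
  set m : E4 := (x 0, x 1, p 0, ee κ x p) with hm
  set a : ℝ := (om + p 0) * w 0 + w 1 with ha
  set φ' : ℝ := (a + w 0 * dP κ m) / (1 - dE κ m) with hφ'
  have hspec := ee_spec h hδ x p
  rw [← hm] at hspec
  by_cases hreg : r ≤ |m.2.2.1| ∨ r ≤ |m.2.2.2 - 1|
  · -- outside the perturbation region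
    obtain ⟨h1, h2⟩ := kb_zero h hr m hreg
    have hk : κ m = 0 := h.supp m hreg
    have hP : dP κ m = 0 := by simp [dP, h1]
    have hE : dE κ m = 0 := by simp [dE, h1]
    have hD : ∀ u, D2 κ m u = 0 := by
      intro u
      simp [D2, h2]
    have he : ee κ x p = e0 p := by
      rw [hk] at hspec
      linarith
    have hφa : φ' = a := by
      rw [hφ', hP, hE]
      simp
    rw [hφa, hD, hE, he]
    have : D2 H0 p w + (a ^ 2 - a ^ 2) + (e0 p * ((w 0 ^ 2 + 0) / (1 - 0)) - e0 p * w 0 ^ 2)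
        - D2 H0 p w = 0 := by ring
    rw [this, abs_zero]
    positivity
  · push Not at hreg
    obtain ⟨hp, he⟩ := hreg
    have hp' : |p 0| < r := hp
    have he' : |ee κ x p - 1| < r := he
    set N : ℝ := max |w 0| |w 1| with hN
    have hw0 : |w 0| ≤ N := le_max_left _ _
    have hw1 : |w 1| ≤ N := le_max_right _ _
    have hN0 : 0 ≤ N := (abs_nonneg _).trans hw0
    have hNdot : N ^ 2 ≤ dot w w := by
      unfold dot
      rcases max_cases |w 0| |w 1| with ⟨h1, -⟩ | ⟨h1, -⟩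
      · rw [hN, h1, sq_abs]
        nlinarith [sq_nonneg (w 1)]
      · rw [hN, h1, sq_abs]
        nlinarith [sq_nonneg (w 0)]
    have haN : |a| ≤ 3 * N := by
      have e1 := abs_add_le ((om + p 0) * w 0) (w 1)
      rw [← ha] at e1
      have e2 : |(om + p 0) * w 0| ≤ 2 * N := by
        rw [abs_mul]
        have e3 : |om + p 0| ≤ 2 := by
          have := abs_add_le om (p 0)
          rw [abs_of_pos om_pos] at this
          have := om_lt
          linarith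
        exact mul_le_mul e3 hw0 (abs_nonneg _) (by norm_num)
      linarith
    have heb : |ee κ x p| ≤ 9 / 8 := by
      have := abs_lt.mp he'
      rw [abs_le]
      constructor <;> linarith
    have hdiff : |ee κ x p - e0 p| ≤ δ := by
      have e1 : ee κ x p - e0 p = κ m := by linarith
      rw [e1]
      exact h.b0 m
    have h7 : |φ'| ≤ 7 * N := (quad_est (Q := 0) hδ0 hδ hN0 hw0 (dP_le h m) (dE_le h m) haN
      heb hdiff hφ' (by rw [abs_zero]; positivity)).1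
    have hQ : |D2 κ m (0, 0, w 0, φ')| ≤ δ * (7 * N) ^ 2 := by
      refine (h.b2 m _).trans ?_
      apply mul_le_mul_of_nonneg_left _ hδ0
      apply pow_le_pow_left₀ (norm_nonneg _)
      rw [Prod.norm_def, Prod.norm_def, Prod.norm_def]
      simp only [norm_zero, Real.norm_eq_abs]
      apply max_le (by linarith)
      apply max_le (by linarith)
      apply max_le (by linarith) h7
    have h8 := (quad_est hδ0 hδ hN0 hw0 (dP_le h m) (dE_le h m) haN heb hdiff hφ' hQ).2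
    have e1 : D2 H0 p w + (φ' ^ 2 - a ^ 2) +
        (ee κ x p * ((w 0 ^ 2 + D2 κ m (0, 0, w 0, φ')) / (1 - dE κ m)) - e0 p * w 0 ^ 2)
        - D2 H0 p w = (φ' ^ 2 - a ^ 2) +
        (ee κ x p * ((w 0 ^ 2 + D2 κ m (0, 0, w 0, φ')) / (1 - dE κ m)) - e0 p * w 0 ^ 2) := by
      ring
    rw [e1]
    refine h8.trans ?_
    apply mul_le_mul_of_nonneg_left hNdot
    positivity

end MkHamAux

open MkHamAux in
theorem mkH_ham {m M r : ℝ} {H0 : V → ℝ} (h0 : IsH0 m M r H0) :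
    ∃ δ0 : ℝ, 0 < δ0 ∧ δ0 ≤ r ∧ δ0 ≤ 1 / 2 ∧
      ∀ κ : E4 → ℝ, KB δ0 r κ → Ham (m / 2) (2 * M) (mkH H0 κ) := by
  have hmM : m ≤ M := by
    have h1 := (h0.lo 0 (Pi.single 0 1)).trans (h0.hi 0 (Pi.single 0 1))
    simpa [dot] using h1
  have hm := h0.mpos
  refine ⟨min r (min (1 / 2) (m / 400)), ?_, min_le_left _ _,
    (min_le_right _ _).trans (min_le_left _ _), ?_⟩
  · exact lt_min h0.rpos (lt_min (by norm_num) (by linarith))
  intro κ hκ
  set δ : ℝ := min r (min (1 / 2) (m / 400)) with hδdef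
  have hδ : δ ≤ 1 / 2 := (min_le_right _ _).trans (min_le_left _ _)
  have hδm : δ ≤ m / 400 := (min_le_right _ _).trans (min_le_right _ _)
  have hH : ContDiff ℝ 2 H0 := h0.sm.of_le (by
    have : ((2 : ℕ∞) : WithTop ℕ∞) ≤ ((⊤ : ℕ∞) : WithTop ℕ∞) := WithTop.coe_le_coe.mpr le_top
    exact this)
  have hdot : ∀ w : V, 0 ≤ dot w w := by
    intro w
    unfold dot
    nlinarith [sq_nonneg (w 0), sq_nonneg (w 1)]
  refine ⟨?_, ?_, ?_, ?_⟩
  · have h1 := ee_contDiff hκ hδ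
    have h2 : ContDiff ℝ 2 (fun z : V × V => e0 z.2) := by
      unfold e0
      fun_prop
    have h3 : ContDiff ℝ 2 (fun z : V × V => H0 z.2) := hH.comp contDiff_snd
    exact (h3.add ((h1.pow 2).div_const (2:ℝ))).sub ((h2.pow 2).div_const (2:ℝ))
  · intro x p k
    have h1 : ee κ (x + fun i => (k i : ℝ)) p = ee κ x p := by
      apply ee_unique hκ hδ
      have h2 := hκ.per (x 0, x 1, p 0, ee κ x p) (k 0) (k 1)
      simp only at h2
      simp only [Pi.add_apply]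
      rw [h2]
      exact ee_spec hκ hδ x p
    unfold mkH
    simp only [h1]
  · intro x p w
    have h1 := abs_le.mp (mkH_D2_close hH h0.rpos h0.rle hκ hδ x p w)
    have h2 := h0.lo p w
    have h3 : 200 * δ * dot w w ≤ m / 2 * dot w w :=
      mul_le_mul_of_nonneg_right (by linarith) (hdot w)
    linarith [h1.1]
  · intro x p w
    have h1 := abs_le.mp (mkH_D2_close hH h0.rpos h0.rle hκ hδ x p w)
    have h2 := h0.hi p w
    have h3 : 200 * δ * dot w w ≤ M * dot w w :=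
      mul_le_mul_of_nonneg_right (by linarith) (hdot w)
    linarith [h1.2]

end Pool.Agent.MP_ff4374_an
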