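import Pool.Agent.MP_ff4374_an.Basic

/-!
MP_ff4374_an, module Profile: the smooth profile `w0`, its integral `W0`.
-/

set_option autoImplicit false
open MeasureTheory Filter Topology
open scoped ContDiff

namespace Pool.Agent.MP_ff4374_an

/-! ### the smooth transition -/

private theorem st_symm (x : ℝ) : Real.smoothTransition (1 - x) = 1 - Real.smoothTransition x := by
  have h := Real.smoothTransition.pos_denom x
  have h' := Real.smoothTransition.pos_denom (1 - x)
  unfold Real.smoothTransition
  rw [sub_sub_cancel] at h' ⊢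
  field_simp
  ring

private theorem st_contDiff : ContDiff ℝ ∞ Real.smoothTransition := Real.smoothTransition.contDiff

private theorem st_diff : Differentiable ℝ Real.smoothTransition :=
  st_contDiff.differentiable (by simp)

theorem prof_st_deriv_nonneg (x : ℝ) : 0 ≤ deriv Real.smoothTransition x :=
  Real.smoothTransition.monotone.deriv_nonneg

theorem prof_st_deriv_zero_left {x : ℝ} (hx : x ≤ 0) : deriv Real.smoothTransition x = 0 := by
  apply IsLocalMin.deriv_eq_zero
  apply Filter.Eventually.of_forall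
  intro y
  rw [Real.smoothTransition.zero_of_nonpos hx]
  exact Real.smoothTransition.nonneg y

theorem prof_st_deriv_zero_right {x : ℝ} (hx : 1 ≤ x) : deriv Real.smoothTransition x = 0 := by
  apply IsLocalMax.deriv_eq_zero
  apply Filter.Eventually.of_forall
  intro y
  rw [Real.smoothTransition.one_of_one_le hx]
  exact Real.smoothTransition.le_one y

private theorem st_deriv_symm (x : ℝ) :
    deriv Real.smoothTransition (1 - x) = deriv Real.smoothTransition x := by
  have h1 : HasDerivAt (fun y => Real.smoothTransition (1 - y))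
      (deriv Real.smoothTransition (1 - x) * (0 - 1)) x := by
    have ha : HasDerivAt (fun y : ℝ => 1 - y) (0 - 1) x := (hasDerivAt_const x (1:ℝ)).sub (hasDerivAt_id x)
    exact (st_diff (1 - x)).hasDerivAt.comp x ha
  have h2 : HasDerivAt (fun y => 1 - Real.smoothTransition y) (0 - deriv Real.smoothTransition x) x :=
    (hasDerivAt_const x (1:ℝ)).sub (st_diff x).hasDerivAt
  have h3 : (fun y => Real.smoothTransition (1 - y)) = (fun y => 1 - Real.smoothTransition y) := by
    funext y; exact st_symm y
  rw [h3] at h1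
  have := h1.unique h2
  linarith

private theorem eg_hasDerivAt {x : ℝ} (hx : 0 < x) :
    HasDerivAt expNegInvGlue (expNegInvGlue x / x ^ 2) x := by
  have h1 : HasDerivAt (fun y : ℝ => Real.exp (-y⁻¹)) (Real.exp (-x⁻¹) * (-(-(x ^ 2)⁻¹))) x :=
    ((hasDerivAt_inv hx.ne').neg).exp
  have h2 : expNegInvGlue =ᶠ[𝓝 x] (fun y : ℝ => Real.exp (-y⁻¹)) := by
    filter_upwards [lt_mem_nhds hx] with y hy
    rw [expNegInvGlue, if_neg (not_le.2 hy)]
  have h3 : expNegInvGlue x = Real.exp (-x⁻¹) := by
    rw [expNegInvGlue, if_neg (not_le.2 hx)]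
  refine (h1.congr_of_eventuallyEq h2).congr_deriv ?_
  rw [h3]
  field_simp

private theorem st_hasDerivAt {x : ℝ} (h0 : 0 < x) (h1 : x < 1) :
    HasDerivAt Real.smoothTransition
      (expNegInvGlue x * expNegInvGlue (1 - x) * (1 / x ^ 2 + 1 / (1 - x) ^ 2) /
        (expNegInvGlue x + expNegInvGlue (1 - x)) ^ 2) x := by
  have ha := eg_hasDerivAt h0
  have hb0 : HasDerivAt (fun y : ℝ => 1 - y) (0 - 1) x := (hasDerivAt_const x (1:ℝ)).sub (hasDerivAt_id x)
  have hb : HasDerivAt (fun y => expNegInvGlue (1 - y)) (expNegInvGlue (1 - x) / (1 - x) ^ 2 * (0 - 1)) x :=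
    (eg_hasDerivAt (by linarith : 0 < 1 - x)).comp x hb0
  have hd := Real.smoothTransition.pos_denom x
  have hc := ha.div (ha.add hb) hd.ne'
  refine hc.congr_deriv ?_
  have hx : x ≠ 0 := h0.ne'
  have hx' : (1 - x) ≠ 0 := by linarith
  simp only [Pi.add_apply]
  field_simp
  ring

private theorem exp_aux {y : ℝ} (hy : 2 ≤ y) : y ^ 2 * Real.exp (-y) ≤ 4 * Real.exp (-2) := by
  -- y^2 e^{-y} ≤ 4 e^{-2}, i.e. (y/2)^2 ≤ e^{y-2}, from y/2 ≤ e^{(y-2)/2}
  have h1 : y / 2 ≤ Real.exp ((y - 2) / 2) := by
    have := Real.add_one_le_exp ((y - 2) / 2)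
    linarith
  have h2 : (y / 2) ^ 2 ≤ Real.exp (y - 2) := by
    have h3 : Real.exp (y - 2) = Real.exp ((y - 2) / 2) ^ 2 := by
      rw [← Real.exp_nat_mul]
      congr 1
      push_cast
      ring
    rw [h3]
    apply pow_le_pow_left₀ (by linarith) h1
  have h4 : Real.exp (-2) = Real.exp (y - 2) * Real.exp (-y) := by
    rw [← Real.exp_add]
    congr 1
    ring
  rw [h4]
  have h5 := Real.exp_pos (-y)
  nlinarith

private theorem st_deriv_le_half {x : ℝ} (h0 : 0 < x) (h1 : x ≤ 1 / 2) :
    deriv Real.smoothTransition x ≤ 5 := by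
  have h1' : x < 1 := by linarith
  rw [(st_hasDerivAt h0 h1').deriv]
  set a := expNegInvGlue x with ha
  set b := expNegInvGlue (1 - x) with hb
  have ha0 : 0 < a := expNegInvGlue.pos_of_pos h0
  have hb0 : 0 < b := expNegInvGlue.pos_of_pos (by linarith)
  have hae : a = Real.exp (-x⁻¹) := by
    rw [ha, expNegInvGlue, if_neg (not_le.2 h0)]
  have hbe : Real.exp (-2) ≤ b := by
    rw [hb, expNegInvGlue, if_neg (not_le.2 (by linarith))]
    apply Real.exp_le_exp.2
    have : (1 - x)⁻¹ ≤ 2 := by
      rw [inv_le_comm₀ (by linarith) (by norm_num)]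
      linarith
    linarith
  have hax : a / x ^ 2 ≤ 4 * Real.exp (-2) := by
    have h2 : 2 ≤ x⁻¹ := by
      rw [le_inv_comm₀ (by norm_num) h0]
      linarith
    have := exp_aux h2
    rw [hae]
    calc Real.exp (-x⁻¹) / x ^ 2 = x⁻¹ ^ 2 * Real.exp (-x⁻¹) := by
          rw [inv_pow]; field_simp
      _ ≤ _ := this
  have hx2 : 1 / (1 - x) ^ 2 ≤ 4 := by
    rw [div_le_iff₀ (by positivity [sub_pos.2 h1'])]
    nlinarith
  rw [div_le_iff₀ (by positivity)]
  have e1 : a * b * (1 / x ^ 2 + 1 / (1 - x) ^ 2) = b * (a / x ^ 2) + a * b * (1 / (1 - x) ^ 2) := by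
    field_simp
  rw [e1]
  have e2 : b * (a / x ^ 2) ≤ 4 * b * (a + b) := by
    have : a / x ^ 2 ≤ 4 * b := by linarith
    nlinarith
  have e3 : a * b * (1 / (1 - x) ^ 2) ≤ 4 * (a * b) := by
    have : 0 < a * b := by positivity
    nlinarith
  nlinarith [sq_nonneg (a - b), mul_pos ha0 hb0, sq_nonneg (a + b)]

theorem prof_st_deriv_le (x : ℝ) : deriv Real.smoothTransition x ≤ 5 := by
  rcases le_or_gt x 0 with h | h
  · rw [prof_st_deriv_zero_left h]; norm_num
  rcases le_or_gt 1 x with h' | h'
  · rw [prof_st_deriv_zero_right h']; norm_num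
  rcases le_or_gt x (1 / 2) with h2 | h2
  · exact st_deriv_le_half h h2
  · rw [← st_deriv_symm]
    exact st_deriv_le_half (by linarith) (by linarith)

/-! ### the profile -/

private theorem f0_contDiff : ContDiff ℝ ∞ f0 := by
  unfold f0
  have h1 : ContDiff ℝ ∞ (fun s : ℝ => Real.smoothTransition (s - 1)) :=
    st_contDiff.comp (contDiff_id.sub contDiff_const)
  have h2 : ContDiff ℝ ∞ (fun s : ℝ => Real.smoothTransition ((s - 2) / 14)) :=
    st_contDiff.comp ((contDiff_id.sub contDiff_const).div_const 14)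
  exact h1.mul (contDiff_const.add ((contDiff_const.sub h2).div_const 5))

theorem w0_contDiff : ContDiff ℝ ∞ w0 := by
  unfold w0
  exact f0_contDiff.add (f0_contDiff.comp contDiff_neg)

theorem W0_hasDerivAt (s : ℝ) : HasDerivAt W0 (w0 s) s := by
  unfold W0
  exact intervalIntegral.integral_hasDerivAt_right (w0_contDiff.continuous.intervalIntegrable _ _)
    (w0_contDiff.continuous.stronglyMeasurableAtFilter _ _) w0_contDiff.continuous.continuousAt

theorem W0_contDiff : ContDiff ℝ ∞ W0 := by
  rw [contDiff_infty_iff_deriv]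
  refine ⟨fun s => (W0_hasDerivAt s).differentiableAt, ?_⟩
  have : deriv W0 = w0 := by
    funext s
    exact (W0_hasDerivAt s).deriv
  rw [this]
  exact w0_contDiff

private theorem f0_left {s : ℝ} (hs : s ≤ 1) : f0 s = 0 := by
  unfold f0
  rw [Real.smoothTransition.zero_of_nonpos (by linarith), zero_mul]

private theorem f0_mid {s : ℝ} (hs : s ≤ 2) : f0 s = 6 / 5 * Real.smoothTransition (s - 1) := by
  unfold f0
  rw [Real.smoothTransition.zero_of_nonpos (x := (s - 2) / 14) (by linarith)]
  ring

private theorem f0_right {s : ℝ} (hs : 2 ≤ s) :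
    f0 s = 1 + (1 - Real.smoothTransition ((s - 2) / 14)) / 5 := by
  unfold f0
  rw [Real.smoothTransition.one_of_one_le (by linarith), one_mul]

private theorem f0_far {s : ℝ} (hs : 16 ≤ s) : f0 s = 1 := by
  rw [f0_right (by linarith), Real.smoothTransition.one_of_one_le (by linarith)]
  norm_num

private theorem f0_nonneg (s : ℝ) : 0 ≤ f0 s := by
  unfold f0
  apply mul_nonneg (Real.smoothTransition.nonneg _)
  have := Real.smoothTransition.le_one ((s - 2) / 14)
  linarith

theorem w0_nonneg (s : ℝ) : 0 ≤ w0 s := add_nonneg (f0_nonneg _) (f0_nonneg _)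

theorem w0_zero {s : ℝ} (hs : |s| ≤ 1) : w0 s = 0 := by
  have := abs_le.1 hs
  unfold w0
  rw [f0_left this.2, f0_left (by linarith), add_zero]

theorem prof_w0_even (s : ℝ) : w0 (-s) = w0 s := by
  unfold w0
  rw [neg_neg, add_comm]

theorem w0_one {s : ℝ} (hs : 16 ≤ |s|) : w0 s = 1 := by
  rcases le_total 0 s with h | h
  · rw [abs_of_nonneg h] at hs
    unfold w0
    rw [f0_far hs, f0_left (by linarith), add_zero]
  · rw [abs_of_nonpos h] at hs
    unfold w0
    rw [f0_far hs, f0_left (by linarith), zero_add]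

theorem W0_zero {s : ℝ} (hs : |s| ≤ 1) : W0 s = 0 := by
  unfold W0
  have : ∫ u in (0:ℝ)..s, w0 u = ∫ u in (0:ℝ)..s, (0:ℝ) := by
    apply intervalIntegral.integral_congr
    intro u hu
    apply w0_zero
    have h := Set.abs_sub_left_of_mem_uIcc hu
    simp only [sub_zero] at h
    linarith
  rw [this]
  simp

private theorem int_st : ∫ x in (0:ℝ)..1, Real.smoothTransition x = 1 / 2 := by
  have h1 : ∫ x in (0:ℝ)..1, Real.smoothTransition (1 - x) = ∫ x in (0:ℝ)..1, Real.smoothTransition x := by
    simp
  have h2 : ∫ x in (0:ℝ)..1, Real.smoothTransition (1 - x) =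
      ∫ x in (0:ℝ)..1, (1 - Real.smoothTransition x) := by
    apply intervalIntegral.integral_congr
    intro x _
    exact st_symm x
  rw [intervalIntegral.integral_sub (by simp) (Real.smoothTransition.continuous.intervalIntegrable _ _)] at h2
  simp only [intervalIntegral.integral_const, sub_zero, smul_eq_mul, mul_one] at h2
  linarith

private theorem int_12 : ∫ u in (1:ℝ)..2, w0 u = 3 / 5 := by
  have h1 : ∫ u in (1:ℝ)..2, w0 u = ∫ u in (1:ℝ)..2, 6 / 5 * Real.smoothTransition (u - 1) := by
    apply intervalIntegral.integral_congr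
    intro u hu
    rw [Set.uIcc_of_le (by norm_num)] at hu
    simp only [w0]
    rw [f0_mid hu.2, f0_left (by linarith [hu.1]), add_zero]
  rw [h1, intervalIntegral.integral_const_mul,
    intervalIntegral.integral_comp_sub_right (fun x => Real.smoothTransition x) 1]
  norm_num
  rw [int_st]
  norm_num

private theorem int_216 : ∫ u in (2:ℝ)..16, w0 u = 77 / 5 := by
  have h1 : ∫ u in (2:ℝ)..16, w0 u =
      ∫ u in (2:ℝ)..16, (6 / 5 - 1 / 5 * Real.smoothTransition (u / 14 - 1 / 7)) := by
    apply intervalIntegral.integral_congr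
    intro u hu
    rw [Set.uIcc_of_le (by norm_num)] at hu
    simp only [w0]
    rw [f0_right hu.1, f0_left (by linarith [hu.1]), add_zero]
    have : (u - 2) / 14 = u / 14 - 1 / 7 := by ring
    rw [this]
    ring
  have hc : Continuous (fun u : ℝ => Real.smoothTransition (u / 14 - 1 / 7)) :=
    Real.smoothTransition.continuous.comp (by fun_prop)
  rw [h1, intervalIntegral.integral_sub (by simp) ((hc.intervalIntegrable _ _).const_mul _),
    intervalIntegral.integral_const_mul,
    intervalIntegral.integral_comp_div_sub (fun x => Real.smoothTransition x) (by norm_num) (1 / 7)]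
  norm_num
  rw [int_st]
  norm_num

private theorem W0_16 : W0 16 = 16 := by
  have hi : ∀ a b : ℝ, IntervalIntegrable w0 volume a b := fun a b =>
    w0_contDiff.continuous.intervalIntegrable _ _
  have h1 : W0 1 = 0 := W0_zero (by norm_num)
  unfold W0 at h1 ⊢
  rw [← intervalIntegral.integral_add_adjacent_intervals (hi 0 1) (hi 1 16),
    ← intervalIntegral.integral_add_adjacent_intervals (hi 1 2) (hi 2 16), h1, int_12, int_216]
  norm_num

private theorem W0_odd (s : ℝ) : W0 (-s) = - W0 s := by
  have h1 : ∫ u in (0:ℝ)..s, w0 (-u) = ∫ u in (0:ℝ)..s, w0 u := by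
    apply intervalIntegral.integral_congr
    intro u _
    exact prof_w0_even u
  rw [intervalIntegral.integral_comp_neg] at h1
  unfold W0
  rw [← h1, intervalIntegral.integral_symm]
  simp

theorem W0_far {s : ℝ} (hs : 16 ≤ |s|) : W0 s = s := by
  have key : ∀ s : ℝ, 16 ≤ s → W0 s = s := by
    intro s hs
    have hi : ∀ a b : ℝ, IntervalIntegrable w0 volume a b := fun a b =>
      w0_contDiff.continuous.intervalIntegrable _ _
    have h16 := W0_16
    unfold W0 at h16 ⊢
    rw [← intervalIntegral.integral_add_adjacent_intervals (hi 0 16) (hi 16 s), h16]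
    have : ∫ u in (16:ℝ)..s, w0 u = ∫ u in (16:ℝ)..s, (1:ℝ) := by
      apply intervalIntegral.integral_congr
      intro u hu
      rw [Set.uIcc_of_le hs] at hu
      apply w0_one
      rw [abs_of_nonneg (by linarith [hu.1])]
      exact hu.1
    rw [this]
    simp
  rcases le_total 0 s with h | h
  · rw [abs_of_nonneg h] at hs
    exact key s hs
  · rw [abs_of_nonpos h] at hs
    have := key (-s) hs
    rw [W0_odd] at this
    linarith

private theorem f0_hasDerivAt (s : ℝ) : HasDerivAt f0
    (deriv Real.smoothTransition (s - 1) * (1 + (1 - Real.smoothTransition ((s - 2) / 14)) / 5)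
      - Real.smoothTransition (s - 1) * (deriv Real.smoothTransition ((s - 2) / 14) / 70)) s := by
  have h1 : HasDerivAt (fun s : ℝ => Real.smoothTransition (s - 1))
      (deriv Real.smoothTransition (s - 1) * 1) s := by
    have ha : HasDerivAt (fun y : ℝ => y - 1) 1 s := (hasDerivAt_id s).sub_const 1
    exact (st_diff (s - 1)).hasDerivAt.comp s ha
  have h2 : HasDerivAt (fun s : ℝ => Real.smoothTransition ((s - 2) / 14))
      (deriv Real.smoothTransition ((s - 2) / 14) * (1 / 14)) s := by
    have ha : HasDerivAt (fun y : ℝ => (y - 2) / 14) (1 / 14) s := ((hasDerivAt_id s).sub_const 2).div_const 14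
    exact (st_diff ((s - 2) / 14)).hasDerivAt.comp s ha
  have h3 := h1.mul (((h2.const_sub 1).div_const 5).const_add 1)
  refine h3.congr_deriv ?_
  ring

private theorem f0_mono (s : ℝ) : 0 ≤ 2 * f0 s + s * deriv f0 s := by
  rw [(f0_hasDerivAt s).deriv]
  rcases le_or_gt s 1 with h | h
  · rw [f0_left h, prof_st_deriv_zero_left (by linarith : s - 1 ≤ 0),
      Real.smoothTransition.zero_of_nonpos (by linarith : s - 1 ≤ 0)]
    simp
  · unfold f0
    set S1 := Real.smoothTransition (s - 1) with hS1
    set S2 := Real.smoothTransition ((s - 2) / 14) with hS2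
    have a1 : 0 ≤ S1 := Real.smoothTransition.nonneg _
    have a2 : S2 ≤ 1 := Real.smoothTransition.le_one _
    have d1 : 0 ≤ deriv Real.smoothTransition (s - 1) := prof_st_deriv_nonneg _
    have d2 : s * (deriv Real.smoothTransition ((s - 2) / 14) / 70) ≤ 2 := by
      rcases le_or_gt s 16 with h' | h'
      · have := prof_st_deriv_le ((s - 2) / 14)
        have := prof_st_deriv_nonneg ((s - 2) / 14)
        nlinarith
      · rw [prof_st_deriv_zero_right (by linarith)]
        norm_num
    have e1 : 0 ≤ s * (deriv Real.smoothTransition (s - 1) * (1 + (1 - S2) / 5)) := by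
      apply mul_nonneg (by linarith)
      apply mul_nonneg d1
      linarith
    have e2 : 0 ≤ S1 * (2 - s * (deriv Real.smoothTransition ((s - 2) / 14) / 70)) := by
      apply mul_nonneg a1
      linarith
    have e3 : 0 ≤ S1 * (2 * ((1 - S2) / 5)) := by
      apply mul_nonneg a1
      linarith
    nlinarith

theorem w0_mono (s : ℝ) : 0 ≤ 2 * w0 s + s * deriv w0 s := by
  have h1 : HasDerivAt w0 (deriv f0 s + deriv f0 (-s) * (-1)) s := by
    have hd : ∀ x, HasDerivAt f0 (deriv f0 x) x := fun x =>
      ((f0_contDiff.differentiable (by simp)) x).hasDerivAt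
    have ha : HasDerivAt (fun y : ℝ => -y) (-1) s := hasDerivAt_neg s
    exact (hd s).add ((hd (-s)).comp s ha)
  rw [h1.deriv]
  unfold w0
  have a := f0_mono s
  have b := f0_mono (-s)
  nlinarith

end Pool.Agent.MP_ff4374_an
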