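import Pool.Agent.MP_ff4374_an.TowerAsm
import Pool.Agent.MP_ff4374_an.C2lim
import Pool.Agent.MP_ff4374_an.Graph
import Pool.Agent.MP_ff4374_an.H0
import Pool.Agent.MP_ff4374_an.MkHam
import Pool.Agent.MP_ff4374_an.MkConv
import Pool.Agent.MP_ff4374_an.Leaf
import Pool.Agent.MP_ff4374_an.Denjoy

set_option autoImplicit false
open MeasureTheory Filter Topology
open scoped ContDiff

namespace Pool.Agent.MP_ff4374_an

theorem dE_sumK {r : ℝ} {K : ℕ → E4 → ℝ} {b : ℕ → ℝ} (hK : ∀ k, KB (b k) r (K k))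
    (flat : ∀ k (m : E4), |m.2.2.2 - 1| < r / 2 → dE (K k) m = 0) (k : ℕ) (m : E4)
    (hm : |m.2.2.2 - 1| < r / 2) : dE (sumK K k) m = 0 := by
  unfold dE
  have h1 : fderiv ℝ (sumK K k) m = ∑ j ∈ Finset.range k, fderiv ℝ (K j) m := by
    have h2 : sumK K k = fun m => ∑ j ∈ Finset.range k, K j m := rfl
    rw [h2]
    rw [fderiv_fun_sum]
    intro j _
    exact ((hK j).c2.differentiable (by norm_num)) m
  rw [h1]
  simp only [FunLike.coe_sum, Finset.sum_apply]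
  apply Finset.sum_eq_zero
  intro j _
  exact flat j m hm

theorem ham_of_isH0 {m M r : ℝ} {H0 : V → ℝ} (h0 : IsH0 m M r H0) :
    Ham (m / 2) (2 * M) (fun z : V × V => H0 z.2) := by
  have hdot : ∀ w : V, 0 ≤ dot w w := by
    intro w
    unfold dot
    nlinarith [mul_self_nonneg (w 0), mul_self_nonneg (w 1)]
  have hM : 0 < M := by
    have h1 := h0.lo 0 ![1, 0]
    have h2 := h0.hi 0 ![1, 0]
    have h3 := h0.mpos
    have h4 : dot ![1, 0] ![1, 0] = 1 := by simp [dot]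
    rw [h4] at h1 h2
    linarith
  refine ⟨?_, ?_, ?_, ?_⟩
  · exact (contDiff_infty.mp h0.sm 2).comp contDiff_snd
  · intro x p k
    rfl
  · intro x p w
    have h1 := h0.lo p w
    have h2 := hdot w
    have h3 := h0.mpos
    have : m / 2 * dot w w ≤ m * dot w w := by nlinarith
    exact this.trans h1
  · intro x p w
    have h1 := h0.hi p w
    have h2 := hdot w
    have : M * dot w w ≤ 2 * M * dot w w := by nlinarith
    exact h1.trans this

theorem exists_sys : ∃ (m M : ℝ) (H : V × V → ℝ) (Hk : ℕ → V × V → ℝ) (H0 : V → ℝ) (ε : ℕ → ℝ)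
    (u : ℕ → V → V → ℝ) (β : ℕ → V → ℝ) (C : ℝ) (xs : V), Sys m M H Hk H0 ε u β C xs := by
  obtain ⟨m, M, r, H0, h0⟩ := exists_H0
  obtain ⟨δ0, hδ0, hδr, hδ2, hham⟩ := mkH_ham h0
  obtain ⟨ψ, P, S, K, a, Hh, b, hT⟩ := exists_tower (r := r) (δ0 := δ0) h0.rpos hδ0
  obtain ⟨κ, hκ, hsum, η, hη, hconv⟩ := c2_limit hT.kb hT.bnn hT.ble hT.blim hT.disj
  obtain ⟨ε, hε, happ0, happ1⟩ := mkH_conv h0 hδ2 hκ hsum hη (fun k m => (hconv k m).1)
    (fun k m v => (hconv k m).2 v)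
  have htrip : ∀ k, Trip r (PhiX ψ P k) (PhiP ψ P k) (PhiS ψ P S k) (sumK K k) :=
    fun k => trip_phi hT.trip hT.idn k
  have hgr : ∀ k m, 0 < dX (PhiX ψ P k) m := by
    intro k m
    apply (htrip k).graph
    intro m'
    have h1 := (hsum k).b2 m' (0, 0, 1, 0)
    have h2 : ‖((0, 0, 1, 0) : E4)‖ = 1 := by
      simp [Prod.norm_def]
    rw [h2] at h1
    have h3 := (abs_le.mp h1).1
    norm_num at h3
    linarith
  have hflat := dE_sumK hT.kb hT.flat
  have hleaf := fun k c => leaf h0 (htrip k) (hgr k) (hsum k) hδ2 hδr (hflat k) c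
  choose u hu1 hu2 hu3 hinv hz hsurj using hleaf
  obtain ⟨β, C, xs, hβc, hβ0, hβp, hβs, hxs, hw⟩ := denjoy hT hgr
  refine ⟨m / 2, 2 * M, mkH H0 κ, fun k => mkH H0 (sumK K k), H0, ε, u, β, C, xs, ?_⟩
  refine
    { mpos := by have := h0.mpos; linarith
      hH := hham κ hκ
      hHk := fun k => hham _ (hsum k)
      hH0 := ham_of_isH0 h0
      hε := hε
      app0 := happ0
      app1 := happ1
      u1 := hu1
      u2 := hu2
      u3 := hu3
      inv := hinv
      βc := hβc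
      β0 := hβ0
      βp := hβp
      βs := hβs
      xs0 := hxs
      wand := ?_ }
  intro n
  obtain ⟨φ, hφ1, hφ2, hφ3⟩ := hw n
  refine ⟨φ, hφ1, hφ2, ?_⟩
  filter_upwards [hφ3] with k hk x
  obtain ⟨X, hX⟩ := hsurj k 0 x
  have hx : x = ![PhiX ψ P k (X, x 1, 0, 1), x 1] := by
    ext i
    fin_cases i
    · simp [hX]
    · simp
  have h1 := hk X (x 1)
  have h2 := hz k 0 rfl X (x 1)
  rw [← hx] at h1 h2
  rw [h2]
  exact h1

end Pool.Agent.MP_ff4374_an
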