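import Pool.Agent.MP_ff4374_an.BlockAsm
import Pool.Agent.MP_ff4374_an.LevelBound
import Pool.Agent.MP_ff4374_an.LevGlobal
import Pool.Agent.MP_ff4374_an.ClockEx
import Pool.Agent.MP_ff4374_an.Count
import Pool.Agent.MP_ff4374_an.Geom

set_option autoImplicit false
open MeasureTheory Filter Topology
open scoped ContDiff

namespace Pool.Agent.MP_ff4374_an

namespace TowerAsm

open Classical in
theorem quality' {X : ℕ → ℝ} (hX : ∀ i, 1 ≤ X i) : ∃ q : ℕ → ℕ, q 0 = 0 ∧ Tendsto q atTop atTop ∧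
    ∀ k, X (q k) ≤ 2 ^ k * X 0 := by
  let p : ℕ → ℕ → Prop := fun k j => ∀ i ≤ j, X i ≤ 2 ^ k * X 0
  have hX0 : 0 < X 0 := lt_of_lt_of_le one_pos (hX 0)
  have hp0 : ∀ k, p k 0 := by
    intro k i hi
    have : i = 0 := Nat.le_zero.mp hi
    subst this
    have : (1 : ℝ) ≤ 2 ^ k := one_le_pow₀ (by norm_num)
    nlinarith
  refine ⟨fun k => Nat.findGreatest (p k) k, by simp, ?_, ?_⟩
  · rw [tendsto_atTop]
    intro N
    have h1 : Tendsto (fun k : ℕ => (2 : ℝ) ^ k * X 0) atTop atTop :=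
      (tendsto_pow_atTop_atTop_of_one_lt (by norm_num)).atTop_mul_const hX0
    have h2 : ∀ i ∈ Finset.range (N + 1), ∀ᶠ k : ℕ in atTop, X i ≤ 2 ^ k * X 0 := by
      intro i _
      exact h1.eventually_ge_atTop (X i)
    have h3 : ∀ᶠ k : ℕ in atTop, ∀ i ∈ Finset.range (N + 1), X i ≤ 2 ^ k * X 0 := by
      rw [Filter.eventually_all_finset]
      exact h2
    filter_upwards [h3, eventually_ge_atTop N] with k hk hkN
    apply Nat.le_findGreatest hkN
    intro i hi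
    exact hk i (Finset.mem_range.mpr (by omega))
  · intro k
    have h := Nat.findGreatest_spec (P := p k) (m := 0) (Nat.zero_le k) (hp0 k)
    exact h _ le_rfl

theorem clock_mono {C1 H ε ε' : ℝ} {good : ℤ → Prop} {σ : ℝ → ℝ} (h : Clock C1 H ε good σ)
    (hε : ε ≤ ε') : Clock C1 H ε' good σ where
  sm := h.sm
  hold := h.hold
  far := h.far
  near := fun t ht => (h.near t ht).imp id (fun h' => h'.trans hε)
  good := h.good
  b1 := h.b1
  b2 := h.b2
  b3 := h.b3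

theorem exists_tower' {r δ0 : ℝ} (hr : 0 < r) (hδ : 0 < δ0) :
    ∃ (ψ P S K : ℕ → E4 → ℝ) (a Hh b : ℕ → ℝ), Tower r δ0 ψ P S K a Hh b := by
  obtain ⟨C1, hC1, hclock⟩ := exists_clock
  -- blocks
  have hblocks : ∀ m : ℕ, ∃ (R ε M : ℝ) (Z G : E4 → ℝ), Block r (δ0 / (36 * C1 * (m + 1))) R Z G ∧
      0 < ε ∧ 1 ≤ M ∧ ∀ (H a : ℝ) (good : ℤ → Prop) (σ : ℝ → ℝ),
      1 ≤ H → 0 < a → a ≤ 1 → Clock C1 H ε good σ → ∀ m' : E4,
        |Klev G a H σ m'| ≤ M * a ∧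
        (∀ v, |fderiv ℝ (Klev G a H σ) m' v| ≤ M * a * ‖v‖) ∧
        (∀ v, |D2 (Klev G a H σ) m' v| ≤
          (2 * C1 * (δ0 / (36 * C1 * (m + 1))) + M * (1 / H + a)) * ‖v‖ ^ 2) := by
    intro m
    have hδm : 0 < δ0 / (36 * C1 * ((m : ℝ) + 1)) := by positivity
    obtain ⟨R, Z, G, hB⟩ := exists_block (r := r) hr hδm
    obtain ⟨ε, M, hε, hM, hb⟩ := level_bound hB hC1 hδm
    exact ⟨R, ε, M, Z, G, hB, hε, hM, hb⟩
  choose R ε M Z G hB hε hM hbd using hblocks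
  -- quality
  obtain ⟨q, hq0, hqlim, hq⟩ := quality' (X := fun m => R m + 1 / ε m + M m) (by
    intro i
    have h1 := (hB i).one_le
    have h2 := hM i
    have h3 : 0 < 1 / ε i := one_div_pos.mpr (hε i)
    show (1 : ℝ) ≤ R i + 1 / ε i + M i
    linarith)
  set X0 : ℝ := R 0 + 1 / ε 0 + M 0 with hX0
  have hX1 : 1 ≤ X0 := by
    have h1 := (hB 0).one_le
    have h2 := hM 0
    have h3 : 0 < 1 / ε 0 := one_div_pos.mpr (hε 0)
    rw [hX0]; linarith
  have hXpos : 0 < X0 := by linarith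
  have hqR : ∀ k, R (q k) ≤ 2 ^ k * X0 := by
    intro k
    have h2 := hM (q k)
    have h3 : 0 < 1 / ε (q k) := one_div_pos.mpr (hε (q k))
    have := hq k
    linarith
  have hqM : ∀ k, M (q k) ≤ 2 ^ k * X0 := by
    intro k
    have h2 := (hB (q k)).one_le
    have h3 : 0 < 1 / ε (q k) := one_div_pos.mpr (hε (q k))
    have := hq k
    linarith
  have hqε : ∀ k, 1 / ε (q k) ≤ 2 ^ k * X0 := by
    intro k
    have h2 := (hB (q k)).one_le
    have h3 := hM (q k)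
    have := hq k
    linarith
  obtain ⟨d, hd⟩ : ∃ d : ℕ, X0 ≤ 2 ^ d := by
    obtain ⟨n, hn⟩ := pow_unbounded_of_one_lt X0 (by norm_num : (1 : ℝ) < 2)
    exact ⟨n, hn.le⟩
  obtain ⟨N1, hN4, hN1⟩ : ∃ N1 : ℕ, 4 ≤ N1 ∧ 72 / δ0 ≤ N1 := by
    obtain ⟨n, hn⟩ := exists_nat_ge (72 / δ0)
    exact ⟨max 4 n, le_max_left _ _, hn.trans (by exact_mod_cast le_max_right _ _)⟩
  have hN4' : (4 : ℝ) ≤ N1 := by exact_mod_cast hN4
  have hN1pos : (0 : ℝ) < N1 := by linarith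
  have hAA : (0 : ℝ) < (2 : ℝ) ^ d * N1 * 4 ^ d * 10 ^ 8 := by positivity
  obtain ⟨w, hw, hwA, hwr, hw1, hwδ⟩ : ∃ w : ℝ, 0 < w ∧ w * ((2 : ℝ) ^ d * N1) * 4 ^ d ≤ 1 / 10 ^ 8 ∧
      w ≤ r ∧ w ≤ 1 ∧ w ≤ δ0 / 36 := by
    refine ⟨min (1 / ((2 : ℝ) ^ d * N1 * 4 ^ d * 10 ^ 8)) (min r (min 1 (δ0 / 36))), ?_, ?_, ?_, ?_, ?_⟩
    · apply lt_min
      · positivity
      · exact lt_min hr (lt_min one_pos (by positivity))
    · have h1 : min (1 / ((2 : ℝ) ^ d * N1 * 4 ^ d * 10 ^ 8)) (min r (min 1 (δ0 / 36))) ≤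
          1 / ((2 : ℝ) ^ d * N1 * 4 ^ d * 10 ^ 8) := min_le_left _ _
      have h2 : (0 : ℝ) < (2 : ℝ) ^ d * N1 * 4 ^ d := by positivity
      calc min (1 / ((2 : ℝ) ^ d * N1 * 4 ^ d * 10 ^ 8)) (min r (min 1 (δ0 / 36))) * ((2 : ℝ) ^ d * N1) * 4 ^ d
          = min (1 / ((2 : ℝ) ^ d * N1 * 4 ^ d * 10 ^ 8)) (min r (min 1 (δ0 / 36))) *
            ((2 : ℝ) ^ d * N1 * 4 ^ d) := by ring
        _ ≤ 1 / ((2 : ℝ) ^ d * N1 * 4 ^ d * 10 ^ 8) * ((2 : ℝ) ^ d * N1 * 4 ^ d) :=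
            mul_le_mul_of_nonneg_right h1 h2.le
        _ = 1 / 10 ^ 8 := by
            field_simp
    · exact (min_le_right _ _).trans (min_le_left _ _)
    · exact (min_le_right _ _).trans ((min_le_right _ _).trans (min_le_left _ _))
    · exact (min_le_right _ _).trans ((min_le_right _ _).trans (min_le_right _ _))
  -- scales
  let Wf : ℕ → ℝ := fun j => w / 2048 ^ j
  let Tf : ℕ → ℝ := fun j => 16 ^ (j + 1) * 2 ^ d * N1
  let Hn : ℕ → ℕ := fun k => 2 ^ (k + d) * (8 ^ k * N1)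
  let Hf : ℕ → ℝ := fun k => ((Hn k : ℕ) : ℝ)
  let af : ℕ → ℝ := fun k => w / (17 * X0 * 4096 ^ k)
  have hHf : ∀ k, Hf k = 16 ^ k * 2 ^ d * N1 := by
    intro k
    show ((2 ^ (k + d) * (8 ^ k * N1) : ℕ) : ℝ) = _
    push_cast
    rw [pow_add]
    have : (16 : ℝ) ^ k = 2 ^ k * 8 ^ k := by rw [← mul_pow]; norm_num
    rw [this]; ring
  have hTH : ∀ k, 16 * Hf k = Tf k := by
    intro k
    rw [hHf]
    show _ = 16 ^ (k + 1) * 2 ^ d * (N1 : ℝ)
    rw [pow_succ]; ring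
  have hH16 : ∀ k, (4 : ℝ) * 16 ^ k ≤ Hf k := by
    intro k
    rw [hHf]
    have h1 : (1 : ℝ) ≤ 2 ^ d := one_le_pow₀ (by norm_num)
    have h2 : (0 : ℝ) < 16 ^ k := by positivity
    calc (4 : ℝ) * 16 ^ k = 16 ^ k * 1 * 4 := by ring
      _ ≤ 16 ^ k * 2 ^ d * N1 := by gcongr
  have hH1 : ∀ k, 1 ≤ Hf k := by
    intro k
    have h1 : (1 : ℝ) ≤ 16 ^ k := one_le_pow₀ (by norm_num)
    have := hH16 k
    linarith
  have haf : ∀ k, 0 < af k := by
    intro k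
    show 0 < w / (17 * X0 * 4096 ^ k)
    positivity
  have haf1 : ∀ k, af k ≤ 1 := by
    intro k
    show w / (17 * X0 * 4096 ^ k) ≤ 1
    rw [div_le_one (by positivity)]
    have h1 : (1 : ℝ) ≤ 4096 ^ k := one_le_pow₀ (by norm_num)
    nlinarith
  have hWk : ∀ k, 17 * R (q k) * af k ≤ Wf k := by
    intro k
    show 17 * R (q k) * (w / (17 * X0 * 4096 ^ k)) ≤ w / 2048 ^ k
    have h1 := hqR k
    have h2 : (4096 : ℝ) ^ k = 2 ^ k * 2048 ^ k := by rw [← mul_pow]; norm_num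
    calc 17 * R (q k) * (w / (17 * X0 * 4096 ^ k))
        ≤ 17 * (2 ^ k * X0) * (w / (17 * X0 * 4096 ^ k)) := by gcongr
      _ = w / 2048 ^ k := by
          rw [h2]; field_simp
  have hra : ∀ k, R (q k) * af k / Hf k ≤ r := by
    intro k
    have h1 := hWk k
    have h2 : Wf k ≤ w := by
      show w / 2048 ^ k ≤ w
      apply div_le_self hw.le
      exact one_le_pow₀ (by norm_num)
    have h3 := (hB (q k)).one_le
    have h4 : 0 < R (q k) * af k := mul_pos (by linarith) (haf k)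
    calc R (q k) * af k / Hf k ≤ R (q k) * af k := div_le_self h4.le (hH1 k)
      _ ≤ r := by nlinarith
  have hwN : w * (2 ^ d * N1) ≤ 1 / 10 ^ 8 := by
    have h1 : (1 : ℝ) ≤ 4 ^ d := one_le_pow₀ (by norm_num)
    have h2 : (0 : ℝ) < w * (2 ^ d * N1) := by positivity
    calc w * (2 ^ d * N1) ≤ w * (2 ^ d * N1) * 4 ^ d := by nlinarith
      _ ≤ 1 / 10 ^ 8 := hwA
  have hWH : ∀ k, Wf k * Hf k ≤ 1 / 10 ^ 8 := by
    intro k
    rw [hHf]
    show w / 2048 ^ k * (16 ^ k * 2 ^ d * N1) ≤ _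
    have h1 : (16 : ℝ) ^ k / 2048 ^ k ≤ 1 := by
      rw [div_le_one (by positivity)]
      exact pow_le_pow_left₀ (by norm_num) (by norm_num) k
    calc w / 2048 ^ k * (16 ^ k * 2 ^ d * N1) = w * (2 ^ d * N1) * (16 ^ k / 2048 ^ k) := by ring
      _ ≤ w * (2 ^ d * N1) * 1 := by gcongr
      _ ≤ 1 / 10 ^ 8 := by linarith
  have hWpos : ∀ k, 0 < Wf k := by
    intro k
    show 0 < w / 2048 ^ k
    positivity
  have hWsmall : ∀ k, Wf k ≤ 1 / 10 ^ 8 := by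
    intro k
    have h1 := hWH k
    have h2 := hH1 k
    have h3 := hWpos k
    nlinarith
  have hthin1 : ∀ k, Thin (2 * Wf k) (16 * Hf k + 1) := by
    intro k
    have h1 := hWH k
    have h2 := hH1 k
    have h3 := hWpos k
    have h4 := hWsmall k
    apply thin_of
    · linarith
    · linarith
    · nlinarith
    · linarith
  have hthin2 : ∀ k, Thin (af k) (Hf k) := by
    intro k
    have h1 := hWH k
    have h2 := hH1 k
    have h3 := hWpos k
    have h4 := hWsmall k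
    have h5 := hWk k
    have h6 := (hB (q k)).one_le
    have h7 := haf k
    have h8 : af k ≤ Wf k := by nlinarith
    apply thin_of
    · linarith
    · linarith
    · nlinarith
    · linarith
  -- clocks
  have hclocks : ∀ k, ∃ σ : ℝ → ℝ, Clock C1 (Hf k) (ε (q k)) (fun n => ¬ Bad Wf Tf k n) σ := by
    intro k
    have h8 : 4 ≤ 8 ^ k * N1 := by
      have : 1 ≤ 8 ^ k := Nat.one_le_pow _ _ (by norm_num)
      nlinarith
    obtain ⟨σ, hσ⟩ := hclock (2 ^ (k + d)) (8 ^ k * N1) (fun n => ¬ Bad Wf Tf k n) (by positivity) h8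
      (fun i hi => (count_good hN4 hw hwA k i hi).1) (fun i hi => (count_good hN4 hw hwA k i hi).2)
    refine ⟨σ, clock_mono hσ ?_⟩
    have h1 := hqε k
    have h2 : 2 ^ k * X0 ≤ ((2 ^ (k + d) : ℕ) : ℝ) := by
      push_cast
      rw [pow_add]
      gcongr
    have h3 : 1 / ε (q k) ≤ ((2 ^ (k + d) : ℕ) : ℝ) := h1.trans h2
    have h4 : (0 : ℝ) < ((2 ^ (k + d) : ℕ) : ℝ) := by positivity
    rw [div_le_iff₀ (hε (q k))] at h3
    rw [div_le_iff₀ h4]
    linarith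
  choose σ hσ using hclocks
  let bf : ℕ → ℝ := fun k => 2 * C1 * (δ0 / (36 * C1 * ((q k : ℕ) + 1))) + M (q k) * (1 / Hf k + af k)
  have hb0 : ∀ k, 0 ≤ bf k := by
    intro k
    have h1 := hM (q k)
    have h2 := hH1 k
    have h3 := haf k
    show 0 ≤ 2 * C1 * (δ0 / (36 * C1 * ((q k : ℕ) + 1))) + M (q k) * (1 / Hf k + af k)
    positivity
  have hMab : ∀ k, M (q k) * af k ≤ bf k := by
    intro k
    have h1 := hM (q k)
    have h2 := hH1 k
    have h3 := haf k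
    show _ ≤ 2 * C1 * (δ0 / (36 * C1 * ((q k : ℕ) + 1))) + M (q k) * (1 / Hf k + af k)
    have h4 : 0 ≤ 2 * C1 * (δ0 / (36 * C1 * (((q k : ℕ) : ℝ) + 1))) := by positivity
    have h5 : 0 ≤ M (q k) * (1 / Hf k) := by positivity
    nlinarith
  have hlev : ∀ k, ∃ ψ P S K : E4 → ℝ, Lev r (Wf k) (16 * Hf k) (fun n => ¬ Bad Wf Tf k n) (af k) (Hf k)
      (9 * bf k) ψ P S K := by
    intro k
    have hbk := hbd (q k) (Hf k) (af k) _ (σ k) (hH1 k) (haf k) (haf1 k) (hσ k)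
    refine level_global (hB (q k)) (hσ k) (hH1 k) (haf k) (hra k) (hWk k) (hthin1 k) (hb0 k) ?_
    intro m
    obtain ⟨h1, h2, h3⟩ := hbk m
    refine ⟨h1.trans (hMab k), fun v => (h2 v).trans ?_, fun v => h3 v⟩
    exact mul_le_mul_of_nonneg_right (hMab k) (norm_nonneg v)
  choose ψ P S K hL using hlev
  have hL' : ∀ k, Lev r (Wf k) (Tf k) (fun n => ¬ Bad Wf Tf k n) (af k) (Hf k)
      (9 * bf k) (ψ k) (P k) (S k) (K k) := by
    intro k
    rw [← hTH k]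
    exact hL k
  obtain ⟨hidn, hdisj⟩ := tower_geom (W := Wf) (T := Tf) (a := af) (Hh := Hf) (b := fun k => 9 * bf k)
    (by
      intro j
      refine ⟨16 ^ (j + 1) * 2 ^ d * N1, ?_⟩
      show (16 : ℝ) ^ (j + 1) * 2 ^ d * N1 = _
      push_cast
      ring) hL'
  -- bound of bf
  have hbf : ∀ k, 9 * bf k ≤ δ0 / (2 * ((q k : ℕ) + 1)) + (9 / N1 + w) * (1 / 8) ^ k := by
    intro k
    have hq1 : (0 : ℝ) < ((q k : ℕ) : ℝ) + 1 := by positivity
    have e1 : 9 * (2 * C1 * (δ0 / (36 * C1 * (((q k : ℕ) : ℝ) + 1)))) = δ0 / (2 * (((q k : ℕ) : ℝ) + 1)) := by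
      field_simp
      norm_num
    have h1 : M (q k) * (1 / Hf k) ≤ 1 / N1 * (1 / 8) ^ k := by
      rw [hHf]
      have h2 := hqM k
      have h3 : (16 : ℝ) ^ k = 2 ^ k * 8 ^ k := by rw [← mul_pow]; norm_num
      calc M (q k) * (1 / (16 ^ k * 2 ^ d * N1)) ≤ (2 ^ k * 2 ^ d) * (1 / (16 ^ k * 2 ^ d * N1)) := by
            gcongr
            calc M (q k) ≤ 2 ^ k * X0 := h2
              _ ≤ 2 ^ k * 2 ^ d := by gcongr
        _ = 1 / N1 * (1 / 8) ^ k := by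
            rw [h3, one_div_pow]
            field_simp
    have h2 : M (q k) * af k ≤ w / 17 * (1 / 8) ^ k := by
      have h3 := hqM k
      show M (q k) * (w / (17 * X0 * 4096 ^ k)) ≤ _
      have h4 : (2 : ℝ) ^ k / 4096 ^ k ≤ (1 / 8) ^ k := by
        rw [← div_pow]
        apply pow_le_pow_left₀ (by norm_num) (by norm_num)
      calc M (q k) * (w / (17 * X0 * 4096 ^ k)) ≤ (2 ^ k * X0) * (w / (17 * X0 * 4096 ^ k)) := by gcongr
        _ = w / 17 * (2 ^ k / 4096 ^ k) := by field_simp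
        _ ≤ w / 17 * (1 / 8) ^ k := by gcongr
    have h8 : (0 : ℝ) ≤ (1 / 8 : ℝ) ^ k := by positivity
    calc 9 * bf k = 9 * (2 * C1 * (δ0 / (36 * C1 * (((q k : ℕ) : ℝ) + 1)))) + 9 * (M (q k) * (1 / Hf k))
          + 9 * (M (q k) * af k) := by
          show 9 * (2 * C1 * (δ0 / (36 * C1 * ((q k : ℕ) + 1))) + M (q k) * (1 / Hf k + af k)) = _
          ring
      _ ≤ δ0 / (2 * (((q k : ℕ) : ℝ) + 1)) + 9 * (1 / N1 * (1 / 8) ^ k) + 9 * (w / 17 * (1 / 8) ^ k) := by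
          rw [e1]; linarith
      _ ≤ δ0 / (2 * (((q k : ℕ) : ℝ) + 1)) + (9 / N1 + w) * (1 / 8) ^ k := by
          have e2 : 9 * (1 / (N1 : ℝ) * (1 / 8) ^ k) = 9 / N1 * (1 / 8) ^ k := by ring
          have e3 : 9 * (w / 17 * (1 / 8) ^ k) ≤ w * (1 / 8) ^ k := by
            have : 0 ≤ w * (1 / 8 : ℝ) ^ k := by positivity
            nlinarith
          rw [e2]
          nlinarith
  refine ⟨ψ, P, S, K, af, Hf, fun k => 9 * bf k, ?_⟩
  refine
    { trip := fun k => (hL k).trip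
      idn := hidn
      disj := hdisj
      kb := fun k => (hL k).kb
      bnn := fun k => by have := hb0 k; positivity
      ble := ?_
      blim := ?_
      flat := fun k => (hL k).flat
      apos := haf 0
      astep := ?_
      Hbig := ?_
      Hmono := ?_
      thin := hthin2
      hold := ?_ }
  · intro k
    have h1 := hbf k
    have h2 : δ0 / (2 * (((q k : ℕ) : ℝ) + 1)) ≤ δ0 / 2 := by
      apply div_le_div_of_nonneg_left hδ.le (by norm_num)
      have : (0 : ℝ) ≤ ((q k : ℕ) : ℝ) := Nat.cast_nonneg _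
      linarith
    have h3 : (1 / 8 : ℝ) ^ k ≤ 1 := pow_le_one₀ (by norm_num) (by norm_num)
    have h4 : (9 : ℝ) / N1 ≤ δ0 / 8 := by
      rw [div_le_iff₀ hδ] at hN1
      rw [div_le_div_iff₀ hN1pos (by norm_num)]
      nlinarith
    have h5 : 0 ≤ 9 / (N1 : ℝ) + w := by positivity
    have h6 : (9 / (N1 : ℝ) + w) * (1 / 8) ^ k ≤ 9 / N1 + w := by nlinarith
    linarith
  · have hz : Tendsto (fun k : ℕ => δ0 / (2 * (((q k : ℕ) : ℝ) + 1)) + (9 / N1 + w) * (1 / 8) ^ k)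
        atTop (𝓝 0) := by
      have t1 : Tendsto (fun k : ℕ => δ0 / (2 * (((q k : ℕ) : ℝ) + 1))) atTop (𝓝 0) := by
        apply Tendsto.div_atTop tendsto_const_nhds
        apply Tendsto.const_mul_atTop (by norm_num)
        apply tendsto_atTop_add_const_right
        exact tendsto_natCast_atTop_atTop.comp hqlim
      have t2 : Tendsto (fun k : ℕ => (9 / (N1 : ℝ) + w) * (1 / 8) ^ k) atTop (𝓝 0) := by
        have := (tendsto_pow_atTop_nhds_zero_of_lt_one (by norm_num : (0 : ℝ) ≤ 1 / 8) (by norm_num)).const_mul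
          (9 / (N1 : ℝ) + w)
        simpa using this
      simpa using t1.add t2
    exact squeeze_zero (fun k => by have := hb0 k; positivity) hbf hz
  · intro k
    show w / (17 * X0 * 4096 ^ (k + 1)) = w / (17 * X0 * 4096 ^ k) / 4096
    rw [pow_succ]
    field_simp
  · intro k
    have h1 := hH16 k
    have h2 : (k : ℝ) + 1 ≤ 16 ^ k := by
      have : k + 1 ≤ 16 ^ k := by
        have := Nat.lt_pow_self (n := k) (by norm_num : 1 < 16)
        omega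
      exact_mod_cast this
    have h3 : (0 : ℝ) ≤ k := Nat.cast_nonneg _
    linarith
  · intro k
    rw [hHf, hHf]
    have : (16 : ℝ) ^ k ≤ 16 ^ (k + 1) := pow_le_pow_right₀ (by norm_num) (Nat.le_succ k)
    gcongr
  · intro k m g h1 h2 h3 h4
    apply (hL k).hold m g h1 _ h3 h4
    have e : af (k + 1) = af k / 4096 := by
      show w / (17 * X0 * 4096 ^ (k + 1)) = w / (17 * X0 * 4096 ^ k) / 4096
      rw [pow_succ]
      field_simp
    rw [← e]
    exact h2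

end TowerAsm

theorem quality {X : ℕ → ℝ} (hX : ∀ i, 1 ≤ X i) : ∃ q : ℕ → ℕ, q 0 = 0 ∧ Tendsto q atTop atTop ∧
    ∀ k, X (q k) ≤ 2 ^ k * X 0 := TowerAsm.quality' hX

theorem exists_tower {r δ0 : ℝ} (hr : 0 < r) (hδ : 0 < δ0) :
    ∃ (ψ P S K : ℕ → E4 → ℝ) (a Hh b : ℕ → ℝ), Tower r δ0 ψ P S K a Hh b :=
  TowerAsm.exists_tower' hr hδ

end Pool.Agent.MP_ff4374_an
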